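import Pool.Agent.H337R2.LZ.Defs

/-! Task A3 (helper666): Leibniz bounds for determinants. -/

open Polynomial Pool.Agent.H337R2

namespace Pool.Agent.LZ

theorem A3_padic (p : ℕ) [Fact p.Prime] (N : ℕ) (M : Matrix (Fin N) (Fin N) ℚ) (r c : ℕ → ℚ)
    (hr : ∀ i, 0 ≤ r i) (hc : ∀ i, 0 ≤ c i) (h : ∀ i j : Fin N, padicNorm p (M i j) ≤ r i * c j) :
    padicNorm p M.det ≤ (∏ i ∈ Finset.range N, r i) * ∏ j ∈ Finset.range N, c j := by
  classical
  rw [Matrix.det_apply]
  refine padicNorm.sum_le' (fun σ _ => ?_) (mul_nonneg (Finset.prod_nonneg fun i _ => hr i)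
    (Finset.prod_nonneg fun i _ => hc i))
  have hs : padicNorm p (Equiv.Perm.sign σ • ∏ i, M (σ i) i) = ∏ i, padicNorm p (M (σ i) i) := by
    have h1 : padicNorm p (∏ i, M (σ i) i) = ∏ i, padicNorm p (M (σ i) i) := by
      refine Finset.induction_on (Finset.univ : Finset (Fin N)) ?_ ?_
      · simp
      · intro a s ha ih
        rw [Finset.prod_insert ha, Finset.prod_insert ha, padicNorm.mul, ih]
    rcases Int.units_eq_one_or (Equiv.Perm.sign σ) with hσ | hσ
    · rw [hσ, one_smul, h1]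
    · rw [hσ, Units.neg_smul, one_smul, padicNorm.neg, h1]
  rw [hs]
  calc ∏ i, padicNorm p (M (σ i) i) ≤ ∏ i : Fin N, (r (σ i) * c i) :=
        Finset.prod_le_prod (fun i _ => padicNorm.nonneg _) (fun i _ => h (σ i) i)
    _ = (∏ i : Fin N, r (σ i)) * ∏ i : Fin N, c i := Finset.prod_mul_distrib
    _ = (∏ i : Fin N, r i) * ∏ i : Fin N, c i := by
        congr 1
        exact Equiv.prod_comp σ (fun i : Fin N => r i)
    _ = _ := by rw [Finset.prod_range, Finset.prod_range]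

theorem A6_det_le (N : ℕ) (M : Matrix (Fin N) (Fin N) ℝ) (b : ℕ → ℝ) (hb : ∀ j, 0 ≤ b j)
    (h : ∀ i j : Fin N, |M i j| ≤ b j) : |M.det| ≤ (N.factorial : ℝ) * ∏ j ∈ Finset.range N, b j := by
  classical
  rw [Matrix.det_apply]
  refine (Finset.abs_sum_le_sum_abs _ _).trans ?_
  have hs : ∀ σ : Equiv.Perm (Fin N), |Equiv.Perm.sign σ • ∏ i, M (σ i) i| ≤
      ∏ j ∈ Finset.range N, b j := by
    intro σ
    have h1 : |Equiv.Perm.sign σ • ∏ i, M (σ i) i| = ∏ i, |M (σ i) i| := by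
      rcases Int.units_eq_one_or (Equiv.Perm.sign σ) with hσ | hσ
      · rw [hσ, one_smul, Finset.abs_prod]
      · rw [hσ, Units.neg_smul, one_smul, abs_neg, Finset.abs_prod]
    rw [h1, Finset.prod_range]
    exact Finset.prod_le_prod (fun i _ => abs_nonneg _) (fun i _ => h (σ i) i)
  refine (Finset.sum_le_sum fun σ _ => hs σ).trans ?_
  rw [Finset.sum_const, Finset.card_univ, Fintype.card_perm, Fintype.card_fin, nsmul_eq_mul]

end Pool.Agent.LZ
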