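import Pool.Agent.H337R2.LZ.Defs

set_option autoImplicit false

open Polynomial Pool.Agent.H337R2

namespace Pool.Agent.LZ

theorem G0_cc_pos : ∀ g < 14, 1 ≤ cc g := by decide

theorem G0_disj : ∀ g < 14, ∀ h < 14, g ≠ h →
    bb g + (cc g : ℤ) ≤ bb h ∨ bb h + (cc h : ℤ) ≤ bb g := by decide

theorem G0_brX : ∀ g < 7, 2 ≤ g → 20 ≤ bb g ∧ bb g + (cc g : ℤ) ≤ 972 := by decide

theorem G0_brY : ∀ g < 14, 7 ≤ g → -116 ≤ bb g ∧ bb g + (cc g : ℤ) ≤ -43 := by decide

theorem G0_brick {n i : ℕ} (hn : 1 ≤ n) (hi : i < 14 * n) :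
    bb (i / n) * n ≤ nd n i ∧ nd n i < (bb (i / n) + (cc (i / n) : ℤ)) * n := by
  have hg : i / n < 14 := by
    rw [Nat.div_lt_iff_lt_mul (by omega)]
    exact hi
  have hc := G0_cc_pos _ hg
  have hr : i % n < n := Nat.mod_lt _ (by omega)
  have hr' : ((i % n : ℕ) : ℤ) < n := by exact_mod_cast hr
  have hr0 : (0 : ℤ) ≤ ((i % n : ℕ) : ℤ) := Int.natCast_nonneg _
  have hc' : (1 : ℤ) ≤ (cc (i / n) : ℤ) := by exact_mod_cast hc
  unfold nd
  constructor
  · nlinarith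
  · nlinarith

theorem G0_nd_inj {n : ℕ} (hn : 1 ≤ n) : Set.InjOn (nd n) (Finset.range (14 * n)) := by
  intro i hi j hj hij
  rw [Finset.coe_range, Set.mem_Iio] at hi hj
  have hn' : (1 : ℤ) ≤ n := by exact_mod_cast hn
  have bi := G0_brick hn hi
  have bj := G0_brick hn hj
  have hgi : i / n < 14 := by
    rw [Nat.div_lt_iff_lt_mul (by omega)]; exact hi
  have hgj : j / n < 14 := by
    rw [Nat.div_lt_iff_lt_mul (by omega)]; exact hj
  by_cases hg : i / n = j / n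
  · have h1 : nd n i = nd n j := hij
    unfold nd at h1
    rw [hg] at h1
    have hc : (cc (j / n) : ℤ) ≠ 0 := by
      have := G0_cc_pos _ hgj
      have h2 : (1 : ℤ) ≤ (cc (j / n) : ℤ) := by exact_mod_cast this
      omega
    have h3 : (cc (j / n) : ℤ) * ((i % n : ℕ) : ℤ) = (cc (j / n) : ℤ) * ((j % n : ℕ) : ℤ) := by
      linarith
    have h4 := mul_left_cancel₀ hc h3
    have h5 : i % n = j % n := by exact_mod_cast h4
    rw [← Nat.div_add_mod i n, ← Nat.div_add_mod j n, hg, h5]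
  · exfalso
    rcases G0_disj _ hgi _ hgj hg with h | h
    · have h1 : (bb (i / n) + (cc (i / n) : ℤ)) * n ≤ bb (j / n) * n :=
        mul_le_mul_of_nonneg_right h (by omega)
      have h2 : nd n i = nd n j := hij
      linarith [bi.2, bj.1]
    · have h1 : (bb (j / n) + (cc (j / n) : ℤ)) * n ≤ bb (i / n) * n :=
        mul_le_mul_of_nonneg_right h (by omega)
      have h2 : nd n i = nd n j := hij
      linarith [bj.2, bi.1]

theorem G0_nd_sat {n i : ℕ} (hn : 1 ≤ n) (hi : i < 2 * n) : nd n i = 10 * i := by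
  unfold nd
  by_cases h : i < n
  · rw [Nat.div_eq_of_lt h, Nat.mod_eq_of_lt h]
    simp [bb, cc]
  · push Not at h
    have h1 : i / n = 1 := by
      rw [Nat.div_eq_iff (by omega)]
      omega
    have h2 : i % n = i - n := by
      rw [Nat.mod_eq_sub_mod h, Nat.mod_eq_of_lt (by omega)]
    rw [h1, h2, Nat.cast_sub h]
    simp only [bb, cc]
    push_cast
    ring

theorem G0_nd_X {n i : ℕ} (hn : 1 ≤ n) (h1 : 2 * n ≤ i) (h2 : i < 7 * n) :
    20 * n ≤ nd n i ∧ nd n i < 972 * n := by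
  have hb := G0_brick hn (show i < 14 * n by omega)
  have hg1 : i / n < 7 := by
    rw [Nat.div_lt_iff_lt_mul (by omega)]; exact h2
  have hg2 : 2 ≤ i / n := by
    rw [Nat.le_div_iff_mul_le (by omega)]; exact h1
  obtain ⟨e1, e2⟩ := G0_brX _ hg1 hg2
  have hn' : (0 : ℤ) ≤ n := Int.natCast_nonneg _
  have f1 := mul_le_mul_of_nonneg_right e1 hn'
  have f2 := mul_le_mul_of_nonneg_right e2 hn'
  exact ⟨f1.trans hb.1, hb.2.trans_le f2⟩

theorem G0_nd_Y {n i : ℕ} (hn : 1 ≤ n) (h1 : 7 * n ≤ i) (h2 : i < 14 * n) :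
    -(116 * n : ℤ) ≤ nd n i ∧ nd n i < -(43 * n : ℤ) := by
  have hb := G0_brick hn h2
  have hg1 : i / n < 14 := by
    rw [Nat.div_lt_iff_lt_mul (by omega)]; exact h2
  have hg2 : 7 ≤ i / n := by
    rw [Nat.le_div_iff_mul_le (by omega)]; exact h1
  obtain ⟨e1, e2⟩ := G0_brY _ hg1 hg2
  have hn' : (0 : ℤ) ≤ n := Int.natCast_nonneg _
  have f1 := mul_le_mul_of_nonneg_right e1 hn'
  have f2 := mul_le_mul_of_nonneg_right e2 hn'
  constructor
  · linarith [hb.1]
  · linarith [hb.2]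

end Pool.Agent.LZ
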