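import Pool.Agent.H337R2.LZ.Defs
import Pool.Agent.H102R2.Z5.Brick

/-! G3: potential of one brick and of several bricks (helper708). -/

open Polynomial Pool.Agent.H337R2

namespace Pool.Agent.LZ

theorem G3_Psi_div (x : ℝ) (n : ℝ) (hn : 0 < n) :
    n * Psi (x / n) = Pool.Agent.H102R2.Z5.Psi x - x * Real.log n := by
  unfold Psi Pool.Agent.H102R2.Z5.Psi
  rcases eq_or_ne x 0 with h | h
  · subst h; simp
  · rw [Real.log_div h hn.ne']
    field_simp
    ring

theorem G3_bb (g : ℕ) (hg : g < 14) : |((bb g : ℤ) : ℝ)| ≤ 312 ∧ 1 ≤ cc g ∧ (cc g : ℝ) ≤ 660 := by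
  have h : |bb g| ≤ 312 ∧ 1 ≤ cc g ∧ cc g ≤ 660 := by
    interval_cases g <;> decide
  refine ⟨?_, h.2.1, by exact_mod_cast h.2.2⟩
  have := h.1
  rw [← Int.cast_abs]
  exact_mod_cast this

/-- sums of logarithms divided by `10` -/
theorem G3_ten (v : ℤ) (c : ℕ) (hc : 1 ≤ c) (n : ℕ) :
    |∑ j ∈ Finset.range n, Real.log (((v : ℝ) - c * j) / 10) -
      (∑ j ∈ Finset.range n, Real.log ((v : ℝ) - c * j) - n * Real.log 10)| ≤ Real.log 10 := by
  classical
  have hl : 0 < Real.log 10 := Real.log_pos (by norm_num)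
  have h1 : ∀ j : ℕ, Real.log (((v : ℝ) - c * j) / 10) =
      (Real.log ((v : ℝ) - c * j) - Real.log 10) + (if v = c * (j : ℤ) then Real.log 10 else 0) := by
    intro j
    by_cases h : v = c * (j : ℤ)
    · rw [if_pos h]
      have : (v : ℝ) - c * j = 0 := by rw [h]; push_cast; ring
      rw [this]; simp
    · rw [if_neg h, add_zero]
      have : (v : ℝ) - c * j ≠ 0 := by
        intro h0
        apply h
        have : (v : ℝ) = ((c * (j : ℤ) : ℤ) : ℝ) := by push_cast; linarith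
        exact_mod_cast this
      rw [Real.log_div this (by norm_num)]
  rw [Finset.sum_congr rfl (fun j _ => h1 j), Finset.sum_add_distrib, Finset.sum_sub_distrib,
    Finset.sum_const, Finset.card_range, nsmul_eq_mul]
  have h2 : ∑ j ∈ Finset.range n, (if v = c * (j : ℤ) then Real.log 10 else 0) =
      ((Finset.range n).filter (fun j : ℕ => v = c * (j : ℤ))).card * Real.log 10 := by
    rw [← Finset.sum_filter, Finset.sum_const, nsmul_eq_mul]
  have h3 : ((Finset.range n).filter (fun j : ℕ => v = c * (j : ℤ))).card ≤ 1 := by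
    rw [Finset.card_le_one]
    intro a ha b hb
    rw [Finset.mem_filter] at ha hb
    have h4 : (c : ℤ) * a = c * b := by rw [← ha.2, ← hb.2]
    have h5 : (c : ℤ) ≠ 0 := by
      have : (0:ℤ) < c := by exact_mod_cast hc
      exact this.ne'
    exact_mod_cast mul_left_cancel₀ h5 h4
  have h4 : ((((Finset.range n).filter (fun j : ℕ => v = c * (j : ℤ))).card : ℕ) : ℝ) ≤ 1 := by
    exact_mod_cast h3
  rw [h2]
  have h5 : (0:ℝ) ≤ (((Finset.range n).filter (fun j : ℕ => v = c * (j : ℤ))).card : ℝ) :=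
    Nat.cast_nonneg _
  rw [abs_le]
  constructor <;> nlinarith

theorem G3_brick_aux (n : ℕ) (hn : 2 ≤ n) (g : ℕ) (hg : g < 14) (u : ℤ) :
    |∑ j ∈ Finset.range n, Real.log (((u - (bb g * n + cc g * (j : ℤ)) : ℤ) : ℝ) / 10) -
      (n * Ub g ((u : ℝ) / n) + n * Real.log n)| ≤ 100 * Real.log (n + |(u : ℝ)|) := by
  obtain ⟨hb, hc1, hc2⟩ := G3_bb g hg
  have hn2 : (2:ℝ) ≤ n := by exact_mod_cast hn
  have hn0 : (0:ℝ) < n := by linarith
  have hu0 := abs_nonneg (u : ℝ)
  have hcc : (0:ℝ) < (cc g : ℝ) := by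
    have : 0 < cc g := hc1
    exact_mod_cast this
  set v : ℤ := u - bb g * n with hv
  set W : ℝ := |(v : ℝ)| + cc g * n + cc g + 1 with hW
  have h1 := Pool.Agent.H102R2.Z5.brick v (cc g) hc1 n W le_rfl
  have h2 := G3_ten v (cc g) hc1 n
  have e1 : ∑ j ∈ Finset.range n, Real.log (((u - (bb g * n + cc g * (j : ℤ)) : ℤ) : ℝ) / 10) =
      ∑ j ∈ Finset.range n, Real.log (((v : ℝ) - cc g * j) / 10) := by
    refine Finset.sum_congr rfl fun j _ => ?_
    congr 2
    rw [hv]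
    push_cast
    ring
  have hvr : (v : ℝ) = u - bb g * n := by rw [hv]; push_cast; ring
  have e2 : n * Ub g ((u : ℝ) / n) + n * Real.log n =
      (Pool.Agent.H102R2.Z5.Psi v - Pool.Agent.H102R2.Z5.Psi ((v : ℝ) - cc g * n)) / cc g -
        n * Real.log 10 := by
    unfold Ub
    have a1 : (u : ℝ) / n - bb g = (v : ℝ) / n := by rw [hvr]; field_simp
    have a2 : (v : ℝ) / n - cc g = ((v : ℝ) - cc g * n) / n := by field_simp
    rw [a1, a2]
    have b1 := G3_Psi_div (v : ℝ) n hn0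
    have b2 := G3_Psi_div ((v : ℝ) - cc g * n) n hn0
    have b3 : (n : ℝ) * ((Psi ((v : ℝ) / n) - Psi (((v : ℝ) - cc g * n) / n)) / cc g - Real.log 10) =
        (n * Psi ((v : ℝ) / n) - n * Psi (((v : ℝ) - cc g * n) / n)) / cc g - n * Real.log 10 := by
      ring
    rw [b3, b1, b2]
    field_simp
    ring
  rw [e1, e2]
  -- the size of `W`
  have hWle : W ≤ 2048 * (n + |(u : ℝ)|) := by
    have : |(v : ℝ)| ≤ |(u : ℝ)| + 312 * n := by
      rw [hvr]
      refine (abs_sub _ _).trans ?_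
      rw [abs_mul, abs_of_pos hn0]
      have := mul_le_mul_of_nonneg_right hb hn0.le
      linarith
    have h3 : (cc g : ℝ) * n ≤ 660 * n := mul_le_mul_of_nonneg_right hc2 hn0.le
    rw [hW]
    nlinarith
  have hW1 : 1 ≤ W := by
    rw [hW]
    have := abs_nonneg (v : ℝ)
    have : (0:ℝ) ≤ cc g * n := by positivity
    linarith
  have hL2 : Real.log 2 ≤ Real.log (n + |(u : ℝ)|) := Real.log_le_log (by norm_num) (by linarith)
  have hlog2 := Real.log_two_gt_d9
  have hWlog : Real.log W ≤ 11 * Real.log 2 + Real.log (n + |(u : ℝ)|) := by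
    refine (Real.log_le_log (by linarith) hWle).trans ?_
    rw [Real.log_mul (by norm_num) (by positivity)]
    have : (2048:ℝ) = 2^11 := by norm_num
    rw [this, Real.log_pow]
    push_cast
    linarith
  have h10 : Real.log 10 ≤ 4 * Real.log 2 := by
    have : (4:ℝ) * Real.log 2 = Real.log (2^4) := by rw [Real.log_pow]; norm_num
    rw [this]
    exact Real.log_le_log (by norm_num) (by norm_num)
  have key : |∑ j ∈ Finset.range n, Real.log (((v : ℝ) - cc g * j) / 10) -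
      ((Pool.Agent.H102R2.Z5.Psi v - Pool.Agent.H102R2.Z5.Psi ((v : ℝ) - cc g * n)) / cc g -
        n * Real.log 10)| ≤ (4 * Real.log W + 3) + Real.log 10 := by
    have e3 : ∑ j ∈ Finset.range n, Real.log (((v : ℝ) - cc g * j) / 10) -
      ((Pool.Agent.H102R2.Z5.Psi v - Pool.Agent.H102R2.Z5.Psi ((v : ℝ) - cc g * n)) / cc g -
        n * Real.log 10) =
      (∑ j ∈ Finset.range n, Real.log ((v : ℝ) - cc g * j) -
        (Pool.Agent.H102R2.Z5.Psi v - Pool.Agent.H102R2.Z5.Psi ((v : ℝ) - cc g * n)) / cc g) +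
      (∑ j ∈ Finset.range n, Real.log (((v : ℝ) - cc g * j) / 10) -
        (∑ j ∈ Finset.range n, Real.log ((v : ℝ) - cc g * j) - n * Real.log 10)) := by ring
    rw [e3]
    exact (abs_add_le _ _).trans (add_le_add h1 h2)
  refine key.trans ?_
  nlinarith

/-- potential of one brick (from `H102R2.Z5.Brick`) -/
theorem G3_brick : ∃ C : ℝ, 0 < C ∧ ∀ n : ℕ, 2 ≤ n → ∀ g < 14, ∀ u : ℤ,
    |∑ j ∈ Finset.range n, Real.log (((u - (bb g * n + cc g * (j : ℤ)) : ℤ) : ℝ) / 10) -
      (n * Ub g ((u : ℝ) / n) + n * Real.log n)| ≤ C * Real.log (n + |(u : ℝ)|) :=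
  ⟨100, by norm_num, fun n hn g hg u => G3_brick_aux n hn g hg u⟩

theorem G3_blocks (n : ℕ) (f : ℕ → ℝ) (a b : ℕ) (hab : a ≤ b) :
    ∑ i ∈ Finset.Ico (a * n) (b * n), f i =
      ∑ g ∈ Finset.Ico a b, ∑ j ∈ Finset.range n, f (g * n + j) := by
  induction b, hab using Nat.le_induction with
  | base => simp
  | succ b hab ih =>
    rw [Finset.sum_Ico_succ_top hab, ← ih]
    rw [← Finset.sum_Ico_consecutive f (Nat.mul_le_mul_right n hab)
      (Nat.mul_le_mul_right n (Nat.le_succ b))]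
    congr 1
    rw [Finset.sum_Ico_eq_sum_range]
    have : (b + 1) * n - b * n = n := by
      rw [Nat.succ_mul]; omega
    rw [this]

theorem G3_Lp : ∃ C : ℝ, 0 < C ∧ ∀ n : ℕ, 2 ≤ n → ∀ a b : ℕ, a ≤ b → b ≤ 14 → ∀ u : ℤ,
    |Lp n (Finset.Ico (a * n) (b * n)) u -
      (n * ∑ g ∈ Finset.Ico a b, Ub g ((u : ℝ) / n) + (b - a) * n * Real.log n)| ≤ C * Real.log (n + |(u : ℝ)|) := by
  refine ⟨1400, by norm_num, fun n hn a b hab hb u => ?_⟩
  have hn0 : 0 < n := by omega
  have hL : 0 ≤ Real.log (n + |(u : ℝ)|) := by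
    apply Real.log_nonneg
    have : (2:ℝ) ≤ n := by exact_mod_cast hn
    have := abs_nonneg (u : ℝ)
    linarith
  unfold Lp
  rw [G3_blocks n _ a b hab]
  have e1 : ∀ g ∈ Finset.Ico a b, ∑ j ∈ Finset.range n,
      Real.log (((u - nd n (g * n + j) : ℤ) : ℝ) / 10) =
      ∑ j ∈ Finset.range n, Real.log (((u - (bb g * n + cc g * (j : ℤ)) : ℤ) : ℝ) / 10) := by
    intro g _
    refine Finset.sum_congr rfl fun j hj => ?_
    rw [Finset.mem_range] at hj
    unfold nd
    have h1 : (g * n + j) / n = g := by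
      rw [Nat.mul_comm, Nat.mul_add_div hn0, Nat.div_eq_of_lt hj, add_zero]
    have h2 : (g * n + j) % n = j := by
      rw [Nat.mul_comm, Nat.mul_add_mod, Nat.mod_eq_of_lt hj]
    rw [h1, h2]
  rw [Finset.sum_congr rfl e1]
  have e2 : (n : ℝ) * ∑ g ∈ Finset.Ico a b, Ub g ((u : ℝ) / n) + (b - a) * n * Real.log n =
      ∑ g ∈ Finset.Ico a b, (n * Ub g ((u : ℝ) / n) + n * Real.log n) := by
    rw [Finset.sum_add_distrib, ← Finset.mul_sum, Finset.sum_const, Nat.card_Ico, nsmul_eq_mul,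
      Nat.cast_sub hab]
    ring
  rw [e2, ← Finset.sum_sub_distrib]
  refine (Finset.abs_sum_le_sum_abs _ _).trans ?_
  calc _ ≤ ∑ g ∈ Finset.Ico a b, 100 * Real.log (n + |(u : ℝ)|) := by
        refine Finset.sum_le_sum fun g hg => ?_
        rw [Finset.mem_Ico] at hg
        exact G3_brick_aux n hn g (by omega) u
    _ = ((b - a : ℕ) : ℝ) * (100 * Real.log (n + |(u : ℝ)|)) := by
        rw [Finset.sum_const, Nat.card_Ico, nsmul_eq_mul]
    _ ≤ 14 * (100 * Real.log (n + |(u : ℝ)|)) := by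
        refine mul_le_mul_of_nonneg_right ?_ (by positivity)
        have : b - a ≤ 14 := by omega
        exact_mod_cast this
    _ = 1400 * Real.log (n + |(u : ℝ)|) := by ring

end Pool.Agent.LZ
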