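import Pool.Agent.H337R2.LZ.Defs
import Pool.Agent.H337R2.Stir

/-!
# G4: the weight
-/

open Polynomial Pool.Agent.H337R2

namespace Pool.Agent.LZ

noncomputable section

lemma G4_fac (m : ℕ) : |Real.log (m.factorial : ℝ) - Psi m| ≤ 3 * Real.log (m + 2) := by
  have h0 := fac_low 0 m
  have h1 := fac_up m
  rw [Nat.factorial_zero, Nat.cast_one, one_mul, Nat.cast_zero, zero_add, zero_add, xl_zero,
    Real.exp_zero, mul_one] at h0
  have hf : (0 : ℝ) < m.factorial := by exact_mod_cast m.factorial_pos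
  have hm : (0 : ℝ) ≤ m := Nat.cast_nonneg m
  have a0 : xl m ≤ Real.log m.factorial + m := by
    have := Real.log_le_log (Real.exp_pos _) h0
    rwa [Real.log_exp, Real.log_mul hf.ne' (Real.exp_ne_zero _), Real.log_exp] at this
  have a1 : Real.log m.factorial + m ≤ 1 + Real.log (m + 1) + xl m := by
    have := Real.log_le_log (mul_pos hf (Real.exp_pos _)) h1
    rwa [Real.log_mul hf.ne' (Real.exp_ne_zero _), Real.log_mul (by positivity) (Real.exp_ne_zero _),
      Real.log_mul (Real.exp_ne_zero _) (by positivity), Real.log_exp, Real.log_exp,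
      Real.log_exp] at this
  have b : Psi m = xl m - m := rfl
  have c1 : Real.log ((m : ℝ) + 1) ≤ Real.log (m + 2) :=
    Real.log_le_log (by positivity) (by linarith)
  have c2 : Real.log 2 ≤ Real.log ((m : ℝ) + 2) := Real.log_le_log (by norm_num) (by linarith)
  have c3 := Real.log_two_gt_d9
  rw [abs_le, b]
  constructor <;> linarith

lemma G4_scale {c : ℝ} (hc : 0 < c) {x : ℝ} (hx : 0 ≤ x) :
    Psi (c * x) = c * Psi x + c * x * Real.log c := by
  have := xl_scale hc hx
  unfold xl at this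
  unfold Psi
  rw [this]
  ring

lemma G4_log {m n t : ℕ} (hn : 2 ≤ n) (hm : m ≤ 12 * n + t) :
    |Real.log (m.factorial : ℝ) - Psi m| ≤ 15 * Real.log (n + t) := by
  refine (G4_fac m).trans ?_
  have h1 : m + 2 ≤ (n + t) ^ 5 := by
    calc m + 2 ≤ 16 * (n + t) := by omega
      _ = 2 ^ 4 * (n + t) := by norm_num
      _ ≤ (n + t) ^ 4 * (n + t) := Nat.mul_le_mul_right _ (Nat.pow_le_pow_left (by omega) 4)
      _ = (n + t) ^ 5 := by ring
  have h2 : (m : ℝ) + 2 ≤ ((n : ℝ) + t) ^ 5 := by exact_mod_cast h1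
  have h3 := Real.log_le_log (by positivity) h2
  rw [Real.log_pow] at h3
  push_cast at h3
  linarith

/-- the weight -/
theorem G4_weight : ∃ C : ℝ, 0 < C ∧ ∀ n : ℕ, 2 ≤ n → ∀ t : ℕ,
    |Real.log (Wt n t) - n * phi (10 * (t : ℝ) / n)| ≤ C * Real.log (n + t) := by
  refine ⟨180, by norm_num, fun n hn t => ?_⟩
  have hn0 : (0 : ℝ) < n := by
    have : 0 < n := by omega
    exact_mod_cast this
  have ht0 : (0 : ℝ) ≤ t := Nat.cast_nonneg t
  have hW : Real.log (Wt n t) =
      (Real.log ((10 * n).factorial : ℝ) + Real.log ((9 * n).factorial : ℝ) +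
        Real.log ((8 * n).factorial : ℝ) - Real.log ((2 * n).factorial : ℝ)) +
      (Real.log ((t + 2 * n).factorial : ℝ) - Real.log (t.factorial : ℝ)) +
      (Real.log ((t + 2 * n).factorial : ℝ) + Real.log ((t + 3 * n).factorial : ℝ) +
        Real.log ((t + 4 * n).factorial : ℝ) - 3 * Real.log ((t + 12 * n).factorial : ℝ)) := by
    unfold Wt
    rw [Real.log_mul (by positivity) (by positivity), Real.log_mul (by positivity) (by positivity),
      Real.log_div (by positivity) (by positivity), Real.log_div (by positivity) (by positivity),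
      Real.log_div (by positivity) (by positivity), Real.log_mul (by positivity) (by positivity),
      Real.log_mul (by positivity) (by positivity), Real.log_mul (by positivity) (by positivity),
      Real.log_mul (by positivity) (by positivity), Real.log_pow]
    norm_num
  have hc : (0 : ℝ) < n / 10 := by positivity
  have hlc : Real.log ((n : ℝ) / 10) = Real.log n - Real.log 10 :=
    Real.log_div hn0.ne' (by norm_num)
  have hP : ∀ a : ℝ, 0 ≤ a → (n : ℝ) / 10 * Psi (10 * (t : ℝ) / n + 10 * a) =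
      Psi (t + a * n) - (t + a * n) * (Real.log n - Real.log 10) := by
    intro a ha
    have h1 := G4_scale hc (x := 10 * (t : ℝ) / n + 10 * a) (by positivity)
    have h2 : (n : ℝ) / 10 * (10 * (t : ℝ) / n + 10 * a) = t + a * n := by
      field_simp
    rw [h2, hlc] at h1
    linarith
  have hQ : ∀ a : ℝ, 0 ≤ a → Psi (a * n) = n * Psi a + n * a * Real.log n := by
    intro a ha
    have h1 := G4_scale hn0 ha
    rwa [mul_comm (n : ℝ) a, mul_comm a (n : ℝ)] at h1 ⊢
  have l9 : Real.log 9 = 2 * Real.log 3 := by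
    rw [show (9 : ℝ) = 3 ^ 2 by norm_num, Real.log_pow]; norm_num
  have l8 : Real.log 8 = 3 * Real.log 2 := by
    rw [show (8 : ℝ) = 2 ^ 3 by norm_num, Real.log_pow]; norm_num
  have hφ : (n : ℝ) * phi (10 * (t : ℝ) / n) =
      (Psi ((10 * n : ℕ) : ℝ) + Psi ((9 * n : ℕ) : ℝ) + Psi ((8 * n : ℕ) : ℝ) -
        Psi ((2 * n : ℕ) : ℝ)) +
      (Psi ((t + 2 * n : ℕ) : ℝ) - Psi (t : ℝ)) +
      (Psi ((t + 2 * n : ℕ) : ℝ) + Psi ((t + 3 * n : ℕ) : ℝ) + Psi ((t + 4 * n : ℕ) : ℝ) -
        3 * Psi ((t + 12 * n : ℕ) : ℝ)) := by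
    push_cast
    have p0 := hP 0 le_rfl
    have p2 := hP 2 (by norm_num)
    have p3 := hP 3 (by norm_num)
    have p4 := hP 4 (by norm_num)
    have p12 := hP 12 (by norm_num)
    norm_num at p0 p2 p3 p4 p12
    rw [hQ 10 (by norm_num), hQ 9 (by norm_num), hQ 8 (by norm_num), hQ 2 (by norm_num)]
    have q10 : Psi 10 = 10 * Real.log 10 - 10 := rfl
    have q9 : Psi 9 = 9 * (2 * Real.log 3) - 9 := by rw [← l9]; rfl
    have q8 : Psi 8 = 8 * (3 * Real.log 2) - 8 := by rw [← l8]; rfl
    have q2 : Psi 2 = 2 * Real.log 2 - 2 := rfl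
    rw [q10, q9, q8, q2]
    unfold phi
    linear_combination 2 * p2 - p0 + p3 + p4 - 3 * p12
  rw [hW, hφ]
  have e1 := G4_log (t := t) hn (show 10 * n ≤ 12 * n + t by omega)
  have e2 := G4_log (t := t) hn (show 9 * n ≤ 12 * n + t by omega)
  have e3 := G4_log (t := t) hn (show 8 * n ≤ 12 * n + t by omega)
  have e4 := G4_log (t := t) hn (show 2 * n ≤ 12 * n + t by omega)
  have e5 := G4_log hn (show t + 2 * n ≤ 12 * n + t by omega)
  have e6 := G4_log hn (show t ≤ 12 * n + t by omega)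
  have e7 := G4_log hn (show t + 3 * n ≤ 12 * n + t by omega)
  have e8 := G4_log hn (show t + 4 * n ≤ 12 * n + t by omega)
  have e9 := G4_log hn (show t + 12 * n ≤ 12 * n + t by omega)
  rw [abs_le] at e1 e2 e3 e4 e5 e6 e7 e8 e9 ⊢
  constructor <;> linarith [e1.1, e1.2, e2.1, e2.2, e3.1, e3.2, e4.1, e4.2, e5.1, e5.2, e6.1, e6.2,
    e7.1, e7.2, e8.1, e8.2, e9.1, e9.2]

end

end Pool.Agent.LZ
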