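import Pool.Agent.H337R2.LZ.Defs
import Pool.Agent.H102R2.Z5.Brick

/-!
# G5: the saturated part of the energy
-/

open Polynomial Pool.Agent.H337R2

namespace Pool.Agent.LZ

noncomputable section

namespace G5

open Finset

/-- `log m!` -/
def lf (m : ℕ) : ℝ := Real.log (m.factorial : ℝ)

lemma lf_zero : lf 0 = 0 := by simp [lf]

lemma lf_succ (m : ℕ) : lf (m + 1) = Real.log ((m : ℝ) + 1) + lf m := by
  unfold lf
  rw [Nat.factorial_succ, Nat.cast_mul, Real.log_mul (by positivity) (by positivity)]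
  push_cast
  rfl

lemma lf_sum (m : ℕ) : ∑ j ∈ range m, Real.log ((m : ℝ) - (j : ℝ)) = lf m := by
  induction m with
  | zero => simp [lf]
  | succ m ih =>
    rw [Finset.sum_range_succ', lf_succ, ← ih, add_comm]
    congr 1
    · push_cast
      rw [sub_zero]
    · apply Finset.sum_congr rfl
      intro j _
      congr 1
      push_cast
      ring

lemma lf_row (t k : ℕ) : ∑ i ∈ range (t + 1 + k), Real.log ((t : ℝ) - (i : ℝ)) = lf t + lf k := by
  induction k with
  | zero =>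
    rw [Nat.add_zero, Finset.sum_range_succ, lf_sum, sub_self, Real.log_zero, lf_zero]
  | succ k ih =>
    rw [← Nat.add_assoc, Finset.sum_range_succ, ih, lf_succ]
    have : Real.log ((t : ℝ) - ((t + 1 + k : ℕ) : ℝ)) = Real.log ((k : ℝ) + 1) := by
      rw [← Real.log_neg_eq_log]
      congr 1
      push_cast
      ring
    rw [this]
    ring

/-- Stirling -/
lemma lf_stir (m : ℕ) : |lf m - Psi m| ≤ 4 * Real.log (2 * m + 2) + 3 := by
  have h := Pool.Agent.H102R2.Z5.brick (m : ℤ) 1 le_rfl m (2 * m + 2) (by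
    push_cast
    rw [abs_of_nonneg (by positivity)]
    linarith)
  have e1 : ∑ j ∈ range m, Real.log (((m : ℤ) : ℝ) - ((1 : ℕ) : ℝ) * (j : ℝ)) = lf m := by
    rw [← lf_sum]
    apply Finset.sum_congr rfl
    intro j _
    congr 1
    push_cast
    ring
  rw [e1] at h
  have e2 : (Pool.Agent.H102R2.Z5.Psi ((m : ℤ) : ℝ) - Pool.Agent.H102R2.Z5.Psi (((m : ℤ) : ℝ) -
      ((1 : ℕ) : ℝ) * (m : ℝ))) / ((1 : ℕ) : ℝ) = Psi m := by
    have : ((m : ℤ) : ℝ) - ((1 : ℕ) : ℝ) * (m : ℝ) = 0 := by push_cast; ring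
    rw [this, Pool.Agent.H102R2.Z5.Psi_zero]
    push_cast
    rw [sub_zero, div_one]
    rfl
  rw [e2] at h
  exact h

/-- logarithm of the superfactorial -/
def SF (m : ℕ) : ℝ := ∑ t ∈ range m, lf t

lemma SF_bound (m : ℕ) : |SF m - GG m| ≤ m * (5 * Real.log (2 * m + 2) + 5) := by
  have h1 := Pool.Agent.H102R2.Z5.outer 0 1 one_pos m (2 * m + 2) (by
    rw [abs_zero]
    have : (0 : ℝ) ≤ m := by positivity
    linarith) (by
    have : (0 : ℝ) ≤ m := by positivity
    linarith)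
  have e1 : Pool.Agent.H102R2.Z5.G2 (0 + 1 * (m : ℝ)) - Pool.Agent.H102R2.Z5.G2 0 = GG m := by
    rw [Pool.Agent.H102R2.Z5.G2_zero, zero_add, one_mul, sub_zero]
    rfl
  rw [e1, div_one] at h1
  have e2 : ∑ j ∈ range m, Pool.Agent.H102R2.Z5.Psi (0 + 1 * (j : ℝ)) = ∑ j ∈ range m, Psi j := by
    apply Finset.sum_congr rfl
    intro j _
    rw [zero_add, one_mul]
    rfl
  rw [e2] at h1
  have h2 : |SF m - ∑ j ∈ range m, Psi j| ≤ m * (4 * Real.log (2 * m + 2) + 3) := by
    unfold SF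
    rw [← Finset.sum_sub_distrib]
    refine (Finset.abs_sum_le_sum_abs _ _).trans ?_
    have h3 : ∀ j ∈ range m, |lf j - Psi j| ≤ 4 * Real.log (2 * m + 2) + 3 := by
      intro j hj
      refine (lf_stir j).trans ?_
      have hj' : (j : ℝ) ≤ m := by exact_mod_cast (Finset.mem_range.1 hj).le
      have : Real.log (2 * (j : ℝ) + 2) ≤ Real.log (2 * m + 2) :=
        Real.log_le_log (by positivity) (by linarith)
      linarith
    refine (Finset.sum_le_sum h3).trans ?_
    rw [Finset.sum_const, Finset.card_range, nsmul_eq_mul]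
  have h4 : SF m - GG m = (SF m - ∑ j ∈ range m, Psi j) + (∑ j ∈ range m, Psi j - GG m) := by ring
  rw [h4]
  refine (abs_add_le _ _).trans ?_
  have h5 : (m : ℝ) * (5 * Real.log (2 * m + 2) + 5) = m * (4 * Real.log (2 * m + 2) + 3) +
    m * (1 * Real.log (2 * m + 2) + 2) := by ring
  rw [h5]
  exact add_le_add h2 h1

lemma Psi_sc {n : ℝ} (hn : 0 < n) (x : ℝ) : Psi (x * n) = n * Psi x + x * n * Real.log n := by
  unfold Psi
  rcases eq_or_ne x 0 with rfl | hx
  · simp
  · rw [Real.log_mul hx hn.ne']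
    ring

lemma GG_sc {n : ℝ} (hn : 0 < n) (x : ℝ) :
    GG (x * n) = n ^ 2 * GG x + x ^ 2 / 2 * n ^ 2 * Real.log n := by
  unfold GG
  rcases eq_or_ne x 0 with rfl | hx
  · simp
  · rw [Real.log_mul hx hn.ne']
    ring

lemma log_bd {n : ℕ} (hn : 2 ≤ n) {a : ℕ} (ha : a ≤ 14) :
    Real.log (2 * ((a * n : ℕ) : ℝ) + 2) ≤ 7 * Real.log n := by
  have hn' : (2 : ℝ) ≤ n := by exact_mod_cast hn
  have ha' : (a : ℝ) ≤ 14 := by exact_mod_cast ha
  have h1 : 2 * ((a * n : ℕ) : ℝ) + 2 ≤ (n : ℝ) ^ 7 := by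
    push_cast
    have h2 : (a : ℝ) * n ≤ 14 * n := mul_le_mul_of_nonneg_right ha' (by positivity)
    have h3 : (2 : ℝ) ^ 6 ≤ (n : ℝ) ^ 6 := by gcongr
    have h4 : (n : ℝ) ^ 7 = n ^ 6 * n := by ring
    rw [h4]
    nlinarith
  rw [show (7 : ℝ) * Real.log n = Real.log ((n : ℝ) ^ 7) by rw [Real.log_pow]; norm_num]
  exact Real.log_le_log (by positivity) h1

lemma one_bd {n : ℕ} (hn : 2 ≤ n) : 1 ≤ 2 * Real.log n := by
  have hn' : (2 : ℝ) ≤ n := by exact_mod_cast hn
  have h2 : Real.log 2 ≤ Real.log n := Real.log_le_log (by norm_num) hn'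
  have := Real.log_two_gt_d9
  linarith

lemma lf_an {n : ℕ} (hn : 2 ≤ n) {a : ℕ} (ha : a ≤ 14) :
    |lf (a * n) - (n * Psi a + a * n * Real.log n)| ≤ 34 * Real.log n := by
  have h := lf_stir (a * n)
  have hn0 : (0 : ℝ) < n := by positivity
  have e : Psi ((a * n : ℕ) : ℝ) = n * Psi a + a * n * Real.log n := by
    rw [Nat.cast_mul, Psi_sc hn0]
  rw [e] at h
  have h1 := log_bd hn ha
  have h2 := one_bd hn
  linarith

lemma SF_an {n : ℕ} (hn : 2 ≤ n) {a : ℕ} (ha : a ≤ 14) :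
    |SF (a * n) - (n ^ 2 * GG a + (a : ℝ) ^ 2 / 2 * n ^ 2 * Real.log n)| ≤
      630 * (n * Real.log n) := by
  have h := SF_bound (a * n)
  have hn0 : (0 : ℝ) < n := by positivity
  have e : GG ((a * n : ℕ) : ℝ) = n ^ 2 * GG a + (a : ℝ) ^ 2 / 2 * n ^ 2 * Real.log n := by
    rw [Nat.cast_mul, GG_sc hn0]
  rw [e] at h
  refine h.trans ?_
  have h1 := log_bd hn ha
  have h2 := one_bd hn
  have ha' : (a : ℝ) ≤ 14 := by exact_mod_cast ha
  have h3 : ((a * n : ℕ) : ℝ) ≤ 14 * n := by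
    push_cast
    exact mul_le_mul_of_nonneg_right ha' hn0.le
  have h4 : 5 * Real.log (2 * ((a * n : ℕ) : ℝ) + 2) + 5 ≤ 45 * Real.log n := by linarith
  have h5 : 0 ≤ 45 * Real.log n := by linarith
  calc ((a * n : ℕ) : ℝ) * (5 * Real.log (2 * ((a * n : ℕ) : ℝ) + 2) + 5)
      ≤ ((a * n : ℕ) : ℝ) * (45 * Real.log n) := mul_le_mul_of_nonneg_left h4 (by positivity)
    _ ≤ 14 * n * (45 * Real.log n) := mul_le_mul_of_nonneg_right h3 h5
    _ = 630 * (n * Real.log n) := by ring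

lemma sum_shift (n a : ℕ) : ∑ t ∈ range (2 * n), lf (t + a * n) = SF ((a + 2) * n) - SF (a * n) := by
  have h := Finset.sum_range_add lf (a * n) (2 * n)
  unfold SF
  rw [show (a + 2) * n = a * n + 2 * n by ring, h, add_sub_cancel_left]
  exact Finset.sum_congr rfl fun t _ => by rw [add_comm]

lemma log_Wt (n t : ℕ) : Real.log (Wt n t) = (lf (10 * n) + lf (9 * n) + lf (8 * n) - lf (2 * n)) +
    (lf (t + 2 * n) - lf t) + (lf (t + 2 * n) + lf (t + 3 * n) + lf (t + 4 * n) -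
      3 * lf (t + 12 * n)) := by
  unfold Wt lf
  have p : ∀ m : ℕ, ((m.factorial : ℕ) : ℝ) ≠ 0 := fun m => by positivity
  rw [Real.log_mul (mul_ne_zero (div_ne_zero (mul_ne_zero (mul_ne_zero (p _) (p _)) (p _)) (p _))
      (div_ne_zero (p _) (p _))) (div_ne_zero (mul_ne_zero (mul_ne_zero (p _) (p _)) (p _))
      (pow_ne_zero _ (p _))),
    Real.log_mul (div_ne_zero (mul_ne_zero (mul_ne_zero (p _) (p _)) (p _)) (p _))
      (div_ne_zero (p _) (p _)),
    Real.log_div (mul_ne_zero (mul_ne_zero (p _) (p _)) (p _)) (p _),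
    Real.log_mul (mul_ne_zero (p _) (p _)) (p _), Real.log_mul (p _) (p _),
    Real.log_div (p _) (p _),
    Real.log_div (mul_ne_zero (mul_ne_zero (p _) (p _)) (p _)) (pow_ne_zero _ (p _)),
    Real.log_mul (mul_ne_zero (p _) (p _)) (p _), Real.log_mul (p _) (p _), Real.log_pow]
  norm_num

lemma nd_sat {n i : ℕ} (hn : 1 ≤ n) (hi : i < 2 * n) : nd n i = 10 * (i : ℤ) := by
  unfold nd
  have h1 : i / n = 0 ∨ i / n = 1 := by
    have h : i / n < 2 := (Nat.div_lt_iff_lt_mul (by omega)).2 hi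
    generalize i / n = q at h ⊢
    omega
  have h2 := Nat.div_add_mod i n
  rcases h1 with h | h
  · rw [h] at h2 ⊢
    simp only [bb, cc]
    have h3 : i % n = i := by omega
    rw [h3]
    push_cast
    ring
  · rw [h] at h2 ⊢
    simp only [bb, cc]
    have h3 : (i : ℤ) = n + (i % n : ℕ) := by
      have : i = n + i % n := by omega
      exact_mod_cast this
    rw [h3]
    push_cast
    ring

lemma Lp_sat {n t : ℕ} (hn : 1 ≤ n) (ht : t < 2 * n) :
    Lp n (range (2 * n)) (10 * t) = lf t + lf (2 * n - 1 - t) := by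
  unfold Lp
  have h := lf_row t (2 * n - 1 - t)
  rw [show t + 1 + (2 * n - 1 - t) = 2 * n by omega] at h
  rw [← h]
  apply Finset.sum_congr rfl
  intro i hi
  rw [nd_sat hn (Finset.mem_range.1 hi)]
  congr 1
  push_cast
  ring

end G5

open G5 in
/-- saturated part -/
theorem G5_sat : ∃ C : ℝ, 0 < C ∧ ∀ n : ℕ, 2 ≤ n →
    ∑ t ∈ Finset.range (2 * n), (Real.log (Wt n t) + Lp n (Finset.range (2 * n)) (10 * t)) ≤
      eS * (n : ℝ) ^ 2 + 4 * (n : ℝ) ^ 2 * Real.log n + C * n * Real.log n := by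
  refine ⟨20000, by norm_num, fun n hn => ?_⟩
  have hn0 : (0 : ℝ) < n := by positivity
  -- the sum in terms of superfactorials
  have hsum : ∑ t ∈ Finset.range (2 * n), (Real.log (Wt n t) + Lp n (Finset.range (2 * n)) (10 * t)) =
      2 * n * (lf (10 * n) + lf (9 * n) + lf (8 * n) - lf (2 * n)) +
      2 * (SF (4 * n) - SF (2 * n)) + SF (2 * n) + (SF (5 * n) - SF (3 * n)) +
      (SF (6 * n) - SF (4 * n)) - 3 * (SF (14 * n) - SF (12 * n)) := by
    have h1 : ∀ t ∈ Finset.range (2 * n), (Real.log (Wt n t) +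
        Lp n (Finset.range (2 * n)) (10 * t)) =
        (lf (10 * n) + lf (9 * n) + lf (8 * n) - lf (2 * n)) + 2 * lf (t + 2 * n) +
        lf (2 * n - 1 - t) + lf (t + 3 * n) + lf (t + 4 * n) - 3 * lf (t + 12 * n) := by
      intro t ht
      rw [log_Wt, Lp_sat (by omega) (Finset.mem_range.1 ht)]
      ring
    rw [Finset.sum_congr rfl h1, Finset.sum_sub_distrib, Finset.sum_add_distrib,
      Finset.sum_add_distrib, Finset.sum_add_distrib, Finset.sum_add_distrib, Finset.sum_const,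
      Finset.card_range, nsmul_eq_mul, ← Finset.mul_sum, ← Finset.mul_sum,
      sum_shift, sum_shift, sum_shift, sum_shift, Finset.sum_range_reflect]
    push_cast
    unfold SF
    norm_num
  rw [hsum]
  have l10 := abs_le.1 (lf_an hn (a := 10) (by norm_num))
  have l9 := abs_le.1 (lf_an hn (a := 9) (by norm_num))
  have l8 := abs_le.1 (lf_an hn (a := 8) (by norm_num))
  have l2 := abs_le.1 (lf_an hn (a := 2) (by norm_num))
  have s2 := abs_le.1 (SF_an hn (a := 2) (by norm_num))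
  have s3 := abs_le.1 (SF_an hn (a := 3) (by norm_num))
  have s4 := abs_le.1 (SF_an hn (a := 4) (by norm_num))
  have s5 := abs_le.1 (SF_an hn (a := 5) (by norm_num))
  have s6 := abs_le.1 (SF_an hn (a := 6) (by norm_num))
  have s12 := abs_le.1 (SF_an hn (a := 12) (by norm_num))
  have s14 := abs_le.1 (SF_an hn (a := 14) (by norm_num))
  push_cast at l10 l9 l8 l2 s2 s3 s4 s5 s6 s12 s14
  -- the constant
  have h9 : Real.log 9 = 2 * Real.log 3 := by
    rw [show (9 : ℝ) = 3 ^ 2 by norm_num, Real.log_pow]; norm_num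
  have h8 : Real.log 8 = 3 * Real.log 2 := by
    rw [show (8 : ℝ) = 2 ^ 3 by norm_num, Real.log_pow]; norm_num
  have g : ∀ x : ℝ, GG (x * 10) = 100 * GG x + 50 * x ^ 2 * Real.log 10 := by
    intro x
    rw [GG_sc (by norm_num)]
    ring
  have gneg : ∀ x : ℝ, GG (-x) = GG x := by
    intro x
    unfold GG
    rw [Real.log_neg_eq_log]
    ring
  have g0 : GG 0 = 0 := by unfold GG; simp
  have heS : eS = 2 * (GG 4 - GG 2) + GG 2 + (GG 5 - GG 3) + (GG 6 - GG 4) -
      3 * (GG 14 - GG 12) + 2 * (Psi 10 + Psi 9 + Psi 8 - Psi 2) := by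
    have hen : ∑ a ∈ Finset.range 2, ∑ b ∈ Finset.range 2, en a b = 2 * GG 2 := by
      have e1 : GG 20 = 100 * GG 2 + 50 * 2 ^ 2 * Real.log 10 := by
        rw [← g]; norm_num
      rw [Finset.sum_range_succ, Finset.sum_range_one, Finset.sum_range_succ,
        Finset.sum_range_one, Finset.sum_range_succ, Finset.sum_range_one]
      unfold en
      simp only [bb, cc]
      norm_num
      rw [gneg 10, gneg 20, e1, g0]
      ring
    have i1 : GG 40 = 100 * GG 4 + 50 * 4 ^ 2 * Real.log 10 := by rw [← g]; norm_num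
    have i2 : GG 20 = 100 * GG 2 + 50 * 2 ^ 2 * Real.log 10 := by rw [← g]; norm_num
    have i3 : GG 50 = 100 * GG 5 + 50 * 5 ^ 2 * Real.log 10 := by rw [← g]; norm_num
    have i4 : GG 30 = 100 * GG 3 + 50 * 3 ^ 2 * Real.log 10 := by rw [← g]; norm_num
    have i5 : GG 60 = 100 * GG 6 + 50 * 6 ^ 2 * Real.log 10 := by rw [← g]; norm_num
    have i6 : GG 140 = 100 * GG 14 + 50 * 14 ^ 2 * Real.log 10 := by rw [← g]; norm_num
    have i7 : GG 120 = 100 * GG 12 + 50 * 12 ^ 2 * Real.log 10 := by rw [← g]; norm_num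
    unfold eS iphi
    rw [hen, i1, i2, i3, i4, i5, i6, i7]
    unfold Psi
    rw [h9, h8]
    ring
  rw [heS]
  set P10 := Psi 10
  set P9 := Psi 9
  set P8 := Psi 8
  set P2 := Psi 2
  set L := Real.log n with hL
  have hL0 : 0 ≤ L := by
    have := one_bd hn
    linarith
  have hlin : lf (10 * n) + lf (9 * n) + lf (8 * n) - lf (2 * n) ≤
      n * (P10 + P9 + P8 - P2) + 25 * n * L + 136 * L := by
    linarith [l10.2, l9.2, l8.2, l2.1]
  have hlin2 := mul_le_mul_of_nonneg_left hlin (show (0 : ℝ) ≤ 2 * n by positivity)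
  have hnL : 0 ≤ (n : ℝ) * L := by positivity
  nlinarith [s2.1, s2.2, s3.1, s4.1, s4.2, s5.2, s6.2, s12.2, s14.1, hlin2, hnL]

end

end Pool.Agent.LZ
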