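import Pool.Agent.H337R2.LZ.Defs

/-! Task G6c: the cross energies cancel. -/

open Polynomial Pool.Agent.H337R2 Filter Topology

namespace Pool.Agent.LZ

noncomputable section

namespace G6c

theorem sep : ∀ g < 14, ∀ h < 14, g ≠ h → bb g + cc g ≤ bb h ∨ bb h + cc h ≤ bb g := by
  decide

theorem cc_pos (g : ℕ) : 0 < cc g := by
  unfold cc
  split <;> norm_num

theorem nd_lt {n i : ℕ} (hn : 1 ≤ n) : nd n i < (bb (i / n) + cc (i / n)) * n := by
  unfold nd
  have h1 : ((i % n : ℕ) : ℤ) < n := by exact_mod_cast Nat.mod_lt _ hn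
  have h2 : (0 : ℤ) < cc (i / n) := by exact_mod_cast cc_pos _
  nlinarith

theorem le_nd {n i : ℕ} : bb (i / n) * n ≤ nd n i := by
  unfold nd
  have h1 : (0 : ℤ) ≤ ((i % n : ℕ) : ℤ) := Nat.cast_nonneg _
  have h2 : (0 : ℤ) ≤ cc (i / n) := Nat.cast_nonneg _
  nlinarith

theorem nd_inj {n : ℕ} (hn : 1 ≤ n) {i j : ℕ} (hi : i < 14 * n) (hj : j < 14 * n)
    (hij : nd n i = nd n j) : i = j := by
  have hgi : i / n < 14 := (Nat.div_lt_iff_lt_mul (by omega)).2 hi
  have hgj : j / n < 14 := (Nat.div_lt_iff_lt_mul (by omega)).2 hj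
  have hnZ : (0 : ℤ) < n := by exact_mod_cast hn
  by_cases hg : i / n = j / n
  · have h0 := hij
    unfold nd at h0
    rw [hg] at h0
    have h1 : (cc (j / n) : ℤ) * ((i % n : ℕ) : ℤ) = cc (j / n) * ((j % n : ℕ) : ℤ) := by
      linarith
    have hc : (cc (j / n) : ℤ) ≠ 0 := by exact_mod_cast (cc_pos _).ne'
    have h2 : ((i % n : ℕ) : ℤ) = ((j % n : ℕ) : ℤ) := mul_left_cancel₀ hc h1
    have h3 : i % n = j % n := by exact_mod_cast h2
    rw [← Nat.div_add_mod i n, ← Nat.div_add_mod j n, hg, h3]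
  · exfalso
    have h1 := nd_lt (i := i) hn
    have h2 := nd_lt (i := j) hn
    have h3 := le_nd (n := n) (i := i)
    have h4 := le_nd (n := n) (i := j)
    rcases sep _ hgi _ hgj hg with h | h
    · have := mul_le_mul_of_nonneg_right h hnZ.le
      linarith
    · have := mul_le_mul_of_nonneg_right h hnZ.le
      linarith

/-- the pair energy -/
def a (n i j : ℕ) : ℝ := Real.log (((nd n i - nd n j : ℤ) : ℝ) / 10)

theorem a_self (n i : ℕ) : a n i i = 0 := by
  unfold a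
  rw [sub_self, Int.cast_zero, zero_div, Real.log_zero]

theorem a_symm (n i j : ℕ) : a n i j = a n j i := by
  unfold a
  rw [← Real.log_abs, ← Real.log_abs (((nd n j - nd n i : ℤ) : ℝ) / 10)]
  congr 1
  push_cast
  rw [← abs_neg]
  congr 1
  ring

theorem Lp_eq (n : ℕ) (s : Finset ℕ) (i : ℕ) : Lp n s (nd n i) = ∑ j ∈ s, a n i j := rfl

theorem zq_sub (n i j : ℕ) : |((zq n i - zq n j : ℚ) : ℝ)| = |((nd n i - nd n j : ℤ) : ℝ) / 10| := by
  unfold zq
  push_cast
  congr 1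
  ring

theorem log_VD {n : ℕ} (hn : 1 ≤ n) {s : Finset ℕ} (hs : ∀ i ∈ s, i < 14 * n) :
    Real.log (VD s (zq n)) = ∑ i ∈ s, ∑ j ∈ s, a n i j := by
  have hne : ∀ i ∈ s, ∀ j ∈ s.erase i, |((zq n i - zq n j : ℚ) : ℝ)| ≠ 0 := by
    intro i hi j hj
    rw [zq_sub]
    refine abs_ne_zero.2 (div_ne_zero ?_ (by norm_num))
    intro h
    have h1 : nd n i - nd n j = 0 := by exact_mod_cast h
    exact (Finset.mem_erase.1 hj).1
      (nd_inj hn (hs i hi) (hs j (Finset.mem_of_mem_erase hj)) (by omega)).symm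
  unfold VD
  rw [Real.log_prod fun i hi => Finset.prod_ne_zero_iff.2 (hne i hi)]
  refine Finset.sum_congr rfl fun i hi => ?_
  rw [Real.log_prod (hne i hi)]
  have h1 : ∑ j ∈ s, a n i j = ∑ j ∈ s.erase i, a n i j + a n i i :=
    (Finset.sum_erase_add s (fun j => a n i j) hi).symm
  rw [h1, a_self, add_zero]
  refine Finset.sum_congr rfl fun j _ => ?_
  rw [zq_sub, Real.log_abs]
  rfl

end G6c

open G6c in
/-- cross energies cancel: `½ log` of the three products -/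
theorem G6_cross {n : ℕ} (hn : 1 ≤ n) :
    (Real.log (VD (Finset.range (14 * n)) (zq n)) + Real.log (VD (Finset.range (7 * n)) (zq n)) +
      Real.log (VD (Finset.Ico (7 * n) (14 * n)) (zq n))) / 2 =
    ∑ i ∈ Finset.range (2 * n), (Lp n (Finset.range (14 * n)) (nd n i) + Lp n (Finset.range (7 * n)) (nd n i)
      - Lp n (Finset.range (2 * n)) (nd n i)) +
    ∑ i ∈ Finset.Ico (2 * n) (7 * n), Lp n (Finset.Ico (2 * n) (14 * n)) (nd n i) +
    ∑ i ∈ Finset.Ico (7 * n) (14 * n), Lp n (Finset.Ico (7 * n) (14 * n)) (nd n i) := by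
  rw [log_VD hn (fun i hi => Finset.mem_range.1 hi),
    log_VD hn (fun i hi => by have := Finset.mem_range.1 hi; omega),
    log_VD hn (fun i hi => (Finset.mem_Ico.1 hi).2)]
  simp only [Lp_eq]
  have hU14 : ∀ f : ℕ → ℝ, ∑ i ∈ Finset.range (14 * n), f i = ∑ i ∈ Finset.range (2 * n), f i +
      ∑ i ∈ Finset.Ico (2 * n) (7 * n), f i + ∑ i ∈ Finset.Ico (7 * n) (14 * n), f i := by
    intro f
    rw [Finset.sum_range_add_sum_Ico f (by omega : 2 * n ≤ 7 * n),
      Finset.sum_range_add_sum_Ico f (by omega : 7 * n ≤ 14 * n)]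
  have hU7 : ∀ f : ℕ → ℝ, ∑ i ∈ Finset.range (7 * n), f i = ∑ i ∈ Finset.range (2 * n), f i +
      ∑ i ∈ Finset.Ico (2 * n) (7 * n), f i := by
    intro f
    rw [Finset.sum_range_add_sum_Ico f (by omega : 2 * n ≤ 7 * n)]
  have hUI : ∀ f : ℕ → ℝ, ∑ i ∈ Finset.Ico (2 * n) (14 * n), f i =
      ∑ i ∈ Finset.Ico (2 * n) (7 * n), f i + ∑ i ∈ Finset.Ico (7 * n) (14 * n), f i := by
    intro f
    rw [Finset.sum_Ico_consecutive f (by omega) (by omega)]
  have hsw : ∀ s t : Finset ℕ, ∑ i ∈ s, ∑ j ∈ t, a n i j = ∑ i ∈ t, ∑ j ∈ s, a n i j := by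
    intro s t
    rw [Finset.sum_comm]
    exact Finset.sum_congr rfl fun i _ => Finset.sum_congr rfl fun j _ => a_symm n _ _
  simp only [hU14, hU7, hUI, Finset.sum_add_distrib, Finset.sum_sub_distrib]
  rw [hsw (Finset.Ico (2 * n) (7 * n)) (Finset.range (2 * n)),
    hsw (Finset.Ico (7 * n) (14 * n)) (Finset.range (2 * n)),
    hsw (Finset.Ico (7 * n) (14 * n)) (Finset.Ico (2 * n) (7 * n))]
  ring

end

end Pool.Agent.LZ
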