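import Pool.Agent.H337R2.LZ.Defs

/-! # The lower bound for `FN` on `[0, 20]` -/

open Polynomial Pool.Agent.H337R2

namespace Pool.Agent.LZ

namespace V2

/-- the list of `-FN` -/
def vl : List (ℤ × ℤ) := [(918918, -12000), (-255255, -11600), (-85085, -10400), (34034, -9500),
  (-34034, -8500), (34034, -7600), (70686, -5600), (235620, -4300), (-306306, -4000),
  (-306306, -3000), (-612612, -2000), (-306306, 0), (252252, 2000), (185328, 3700),
  (87516, 7200), (51480, 14200), (26754, 31200), (9282, 97200)]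

/-- the integer bound -/
def vA : ℤ := 9804992285088000000000

theorem FN_eq (w : ℝ) : FN w = - EF 3063060 100 vl w +
    (14 * Real.log 10 + 18 * Real.log 3 + 22 * Real.log 2 - 25) := by
  have u0 : Ub 0 w = (Psi w - Psi (w - 10)) / 10 - Real.log 10 := by
    unfold Ub bb cc; norm_num
  have u1 : Ub 1 w = (Psi (w - 10) - Psi (w - 20)) / 10 - Real.log 10 := by
    unfold Ub bb cc; norm_num [sub_sub]
  have u2 : Ub 2 w = (Psi (w - 20) - Psi (w - 37)) / 17 - Real.log 10 := by
    unfold Ub bb cc; norm_num [sub_sub]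
  have u3 : Ub 3 w = (Psi (w - 37) - Psi (w - 72)) / 35 - Real.log 10 := by
    unfold Ub bb cc; norm_num [sub_sub]
  have u4 : Ub 4 w = (Psi (w - 72) - Psi (w - 142)) / 70 - Real.log 10 := by
    unfold Ub bb cc; norm_num [sub_sub]
  have u5 : Ub 5 w = (Psi (w - 142) - Psi (w - 312)) / 170 - Real.log 10 := by
    unfold Ub bb cc; norm_num [sub_sub]
  have u6 : Ub 6 w = (Psi (w - 312) - Psi (w - 972)) / 660 - Real.log 10 := by
    unfold Ub bb cc; norm_num [sub_sub]
  have u7 : Ub 7 w = (Psi (w + 116) - Psi (w + 104)) / 12 - Real.log 10 := by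
    unfold Ub bb cc; norm_num [add_sub_assoc]
  have u8 : Ub 8 w = (Psi (w + 104) - Psi (w + 95)) / 9 - Real.log 10 := by
    unfold Ub bb cc; norm_num [add_sub_assoc]
  have u9 : Ub 9 w = (Psi (w + 95) - Psi (w + 85)) / 10 - Real.log 10 := by
    unfold Ub bb cc; norm_num [add_sub_assoc]
  have u10 : Ub 10 w = (Psi (w + 85) - Psi (w + 76)) / 9 - Real.log 10 := by
    unfold Ub bb cc; norm_num [add_sub_assoc]
  have u11 : Ub 11 w = (Psi (w + 76) - Psi (w + 66)) / 10 - Real.log 10 := by
    unfold Ub bb cc; norm_num [add_sub_assoc]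
  have u12 : Ub 12 w = (Psi (w + 66) - Psi (w + 56)) / 10 - Real.log 10 := by
    unfold Ub bb cc; norm_num [add_sub_assoc]
  have u13 : Ub 13 w = (Psi (w + 56) - Psi (w + 43)) / 13 - Real.log 10 := by
    unfold Ub bb cc; norm_num [add_sub_assoc]
  have hI : ∑ g ∈ Finset.Ico 7 14, Ub g w = Ub 7 w + Ub 8 w + Ub 9 w + Ub 10 w + Ub 11 w +
      Ub 12 w + Ub 13 w := by
    simp [Finset.sum_Ico_succ_top]
  have hR : ∑ g ∈ Finset.range 7, Ub g w = Ub 0 w + Ub 1 w + Ub 2 w + Ub 3 w + Ub 4 w +
      Ub 5 w + Ub 6 w := by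
    simp [Finset.sum_range_succ]
  have hE : EF 3063060 100 vl w = (918918 * Psi (w + 120) - 255255 * Psi (w + 116)
      - 85085 * Psi (w + 104) + 34034 * Psi (w + 95) - 34034 * Psi (w + 85)
      + 34034 * Psi (w + 76) + 70686 * Psi (w + 56) + 235620 * Psi (w + 43)
      - 306306 * Psi (w + 40) - 306306 * Psi (w + 30) - 612612 * Psi (w + 20)
      - 306306 * Psi w + 252252 * Psi (w - 20) + 185328 * Psi (w - 37) + 87516 * Psi (w - 72)
      + 51480 * Psi (w - 142) + 26754 * Psi (w - 312) + 9282 * Psi (w - 972)) / 3063060 := by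
    unfold EF vl
    simp only [List.map_cons, List.map_nil, List.sum_cons, List.sum_nil]
    push_cast
    norm_num
    ring
  unfold FN phi
  rw [hI, hR, hE, u0, u1, u2, u3, u4, u5, u6, u7, u8, u9, u10, u11, u12, u13]
  ring

theorem c1 : cellOK 100 vl vA 0 1170 = true := by decide +kernel
theorem c2 : cellOK 100 vl vA 1170 1653 = true := by decide +kernel
theorem c3 : cellOK 100 vl vA 1653 1834 = true := by decide +kernel
theorem c4 : cellOK 100 vl vA 1834 1920 = true := by decide +kernel
theorem c5 : cellOK 100 vl vA 1920 1973 = true := by decide +kernel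
theorem c6 : cellOK 100 vl vA 1973 2000 = true := by decide +kernel

theorem cell {x0 x1 : ℤ} (h : cellOK 100 vl vA x0 x1 = true) (w : ℝ) (h0 : (x0 : ℝ) ≤ 100 * w)
    (h1 : 100 * w ≤ x1) : EF 3063060 100 vl w ≤ 2000653 / 62500 := by
  have := cellOK_spec (Dc := 3063060) (by norm_num) (by norm_num) (by norm_num) h
    (2000653 / 62500) (by unfold vA; norm_num) (100 * w) h0 h1
  have e : 100 * w / ((100 : ℕ) : ℝ) = w := by push_cast; ring
  rwa [e] at this

theorem EF_bound (w : ℝ) (h0 : 0 ≤ w) (h1 : w ≤ 20) :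
    EF 3063060 100 vl w ≤ 2000653 / 62500 := by
  rcases le_or_gt (100 * w) 1170 with k1 | k1
  · exact cell c1 w (by push_cast; linarith) (by push_cast; linarith)
  rcases le_or_gt (100 * w) 1653 with k2 | k2
  · exact cell c2 w (by push_cast; linarith) (by push_cast; linarith)
  rcases le_or_gt (100 * w) 1834 with k3 | k3
  · exact cell c3 w (by push_cast; linarith) (by push_cast; linarith)
  rcases le_or_gt (100 * w) 1920 with k4 | k4
  · exact cell c4 w (by push_cast; linarith) (by push_cast; linarith)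
  rcases le_or_gt (100 * w) 1973 with k5 | k5
  · exact cell c5 w (by push_cast; linarith) (by push_cast; linarith)
  · exact cell c6 w (by push_cast; linarith) (by push_cast; linarith)

theorem log_low (j : ℕ) (hj : 1 ≤ j) (hj2 : j < 2 ^ 20) (v : ℤ) (h : lnA j = v) :
    (v : ℝ) - 20000 ≤ 10 ^ 12 * Real.log j := by
  have := lnA_spec j hj hj2
  rw [abs_le, h] at this
  simp only [lnE] at this
  push_cast at this
  linarith [this.1]

end V2

theorem V2_lower (w : ℝ) (h0 : 0 ≤ w) (h1 : w ≤ 20) : 205 / 20 ≤ FN w := by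
  have hE := V2.EF_bound w h0 h1
  have l2 := V2.log_low 2 (by norm_num) (by norm_num) 693147180560 (by decide +kernel)
  have l3 := V2.log_low 3 (by norm_num) (by norm_num) 1098612288761 (by decide +kernel)
  have l10 := V2.log_low 10 (by norm_num) (by norm_num) 2302585092988 (by decide +kernel)
  push_cast at l2 l3 l10
  rw [V2.FN_eq]
  linarith

end Pool.Agent.LZ
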