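import Pool.Agent.H337R2.LZ.Defs

/-! Task V3: certificate for the potential `FY` on `[-120, -20]`. -/

open Polynomial Pool.Agent.H337R2

namespace Pool.Agent.LZ

namespace TV3

/-- the list of the potential, step `1/1`, denominator `3063060` -/
def lY : List (ℤ × ℤ) :=
  [(-918918, -120), (510510, -116), (170170, -104), (-68068, -95), (68068, -85), (-68068, -76), (-141372, -56), (-471240, -43), (306306, -40), (306306, -30), (612612, -20), (-126126, 20), (-92664, 37), (-43758, 72), (-25740, 142), (-13377, 312), (-4641, 972)]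

lemma FY_eq (w : ℝ) : FY w = (14 * Real.log 10 + 18 * Real.log 3 + 22 * Real.log 2 - 25) +
    EF 3063060 1 lY w := by
  unfold FY phi Ub
  simp only [EF, lY, List.map_cons, List.map_nil, List.sum_cons, List.sum_nil,
    Finset.sum_range_succ, Finset.sum_range_zero, Finset.sum_Ico_eq_sum_range, bb, cc]
  norm_num
  ring_nf

lemma const_bound : 14 * Real.log 10 + 18 * Real.log 3 + 22 * Real.log 2 - 25 ≤ 42261 / 1000 := by
  have h2 := abs_le.mp (lnA_spec 2 (by norm_num) (by norm_num))
  have h3 := abs_le.mp (lnA_spec 3 (by norm_num) (by norm_num))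
  have h10 := abs_le.mp (lnA_spec 10 (by norm_num) (by norm_num))
  have e2 : lnA 2 = 693147180560 := by decide +kernel
  have e3 : lnA 3 = 1098612288761 := by decide +kernel
  have e10 : lnA 10 = 2302585092988 := by decide +kernel
  rw [e2] at h2
  rw [e3] at h3
  rw [e10] at h10
  push_cast at h2 h3 h10
  linarith [h2.1, h2.2, h3.1, h3.2, h10.1, h10.2]

lemma E_up (v : ℝ) (h1 : -120 ≤ v) (h2 : v ≤ -20) : EF 3063060 1 lY v ≤ ((3889 : ℝ) / 1000) := by
  have s0 : v ≤ (-116 : ℝ) / 1 → (-120 : ℝ) / 1 ≤ v → EF 3063060 1 lY v ≤ ((3889 : ℝ) / 1000) := fun ha hb =>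
    EF_le (Dc := 3063060) (M := 1) (l := lY) (A := 11912240340000000000) (by norm_num) (by norm_num) (by norm_num) _ (by norm_num) (st := 2) (c := 2)
      (by norm_num) (x0 := -120) (by decide +kernel) v (by norm_num; linarith) (by norm_num; linarith)
  have s1 : v ≤ (-112 : ℝ) / 1 → (-116 : ℝ) / 1 ≤ v → EF 3063060 1 lY v ≤ ((3889 : ℝ) / 1000) := fun ha hb =>
    EF_le (Dc := 3063060) (M := 1) (l := lY) (A := 11912240340000000000) (by norm_num) (by norm_num) (by norm_num) _ (by norm_num) (st := 4) (c := 1)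
      (by norm_num) (x0 := -116) (by decide +kernel) v (by norm_num; linarith) (by norm_num; linarith)
  have s2 : v ≤ (-104 : ℝ) / 1 → (-112 : ℝ) / 1 ≤ v → EF 3063060 1 lY v ≤ ((3889 : ℝ) / 1000) := fun ha hb =>
    EF_le (Dc := 3063060) (M := 1) (l := lY) (A := 11912240340000000000) (by norm_num) (by norm_num) (by norm_num) _ (by norm_num) (st := 2) (c := 4)
      (by norm_num) (x0 := -112) (by decide +kernel) v (by norm_num; linarith) (by norm_num; linarith)
  have s3 : v ≤ (-96 : ℝ) / 1 → (-104 : ℝ) / 1 ≤ v → EF 3063060 1 lY v ≤ ((3889 : ℝ) / 1000) := fun ha hb =>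
    EF_le (Dc := 3063060) (M := 1) (l := lY) (A := 11912240340000000000) (by norm_num) (by norm_num) (by norm_num) _ (by norm_num) (st := 4) (c := 2)
      (by norm_num) (x0 := -104) (by decide +kernel) v (by norm_num; linarith) (by norm_num; linarith)
  have s4 : v ≤ (-95 : ℝ) / 1 → (-96 : ℝ) / 1 ≤ v → EF 3063060 1 lY v ≤ ((3889 : ℝ) / 1000) := fun ha hb =>
    EF_le (Dc := 3063060) (M := 1) (l := lY) (A := 11912240340000000000) (by norm_num) (by norm_num) (by norm_num) _ (by norm_num) (st := 1) (c := 1)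
      (by norm_num) (x0 := -96) (by decide +kernel) v (by norm_num; linarith) (by norm_num; linarith)
  have s5 : v ≤ (-85 : ℝ) / 1 → (-95 : ℝ) / 1 ≤ v → EF 3063060 1 lY v ≤ ((3889 : ℝ) / 1000) := fun ha hb =>
    EF_le (Dc := 3063060) (M := 1) (l := lY) (A := 11912240340000000000) (by norm_num) (by norm_num) (by norm_num) _ (by norm_num) (st := 2) (c := 5)
      (by norm_num) (x0 := -95) (by decide +kernel) v (by norm_num; linarith) (by norm_num; linarith)
  have s6 : v ≤ (-77 : ℝ) / 1 → (-85 : ℝ) / 1 ≤ v → EF 3063060 1 lY v ≤ ((3889 : ℝ) / 1000) := fun ha hb =>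
    EF_le (Dc := 3063060) (M := 1) (l := lY) (A := 11912240340000000000) (by norm_num) (by norm_num) (by norm_num) _ (by norm_num) (st := 4) (c := 2)
      (by norm_num) (x0 := -85) (by decide +kernel) v (by norm_num; linarith) (by norm_num; linarith)
  have s7 : v ≤ (-76 : ℝ) / 1 → (-77 : ℝ) / 1 ≤ v → EF 3063060 1 lY v ≤ ((3889 : ℝ) / 1000) := fun ha hb =>
    EF_le (Dc := 3063060) (M := 1) (l := lY) (A := 11912240340000000000) (by norm_num) (by norm_num) (by norm_num) _ (by norm_num) (st := 1) (c := 1)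
      (by norm_num) (x0 := -77) (by decide +kernel) v (by norm_num; linarith) (by norm_num; linarith)
  have s8 : v ≤ (-68 : ℝ) / 1 → (-76 : ℝ) / 1 ≤ v → EF 3063060 1 lY v ≤ ((3889 : ℝ) / 1000) := fun ha hb =>
    EF_le (Dc := 3063060) (M := 1) (l := lY) (A := 11912240340000000000) (by norm_num) (by norm_num) (by norm_num) _ (by norm_num) (st := 2) (c := 4)
      (by norm_num) (x0 := -76) (by decide +kernel) v (by norm_num; linarith) (by norm_num; linarith)
  have s9 : v ≤ (-56 : ℝ) / 1 → (-68 : ℝ) / 1 ≤ v → EF 3063060 1 lY v ≤ ((3889 : ℝ) / 1000) := fun ha hb =>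
    EF_le (Dc := 3063060) (M := 1) (l := lY) (A := 11912240340000000000) (by norm_num) (by norm_num) (by norm_num) _ (by norm_num) (st := 4) (c := 3)
      (by norm_num) (x0 := -68) (by decide +kernel) v (by norm_num; linarith) (by norm_num; linarith)
  have s10 : v ≤ (-52 : ℝ) / 1 → (-56 : ℝ) / 1 ≤ v → EF 3063060 1 lY v ≤ ((3889 : ℝ) / 1000) := fun ha hb =>
    EF_le (Dc := 3063060) (M := 1) (l := lY) (A := 11912240340000000000) (by norm_num) (by norm_num) (by norm_num) _ (by norm_num) (st := 1) (c := 4)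
      (by norm_num) (x0 := -56) (by decide +kernel) v (by norm_num; linarith) (by norm_num; linarith)
  have s11 : v ≤ (-50 : ℝ) / 1 → (-52 : ℝ) / 1 ≤ v → EF 3063060 1 lY v ≤ ((3889 : ℝ) / 1000) := fun ha hb =>
    EF_le (Dc := 3063060) (M := 1) (l := lY) (A := 11912240340000000000) (by norm_num) (by norm_num) (by norm_num) _ (by norm_num) (st := 2) (c := 1)
      (by norm_num) (x0 := -52) (by decide +kernel) v (by norm_num; linarith) (by norm_num; linarith)
  have s12 : v ≤ (-46 : ℝ) / 1 → (-50 : ℝ) / 1 ≤ v → EF 3063060 1 lY v ≤ ((3889 : ℝ) / 1000) := fun ha hb =>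
    EF_le (Dc := 3063060) (M := 1) (l := lY) (A := 11912240340000000000) (by norm_num) (by norm_num) (by norm_num) _ (by norm_num) (st := 4) (c := 1)
      (by norm_num) (x0 := -50) (by decide +kernel) v (by norm_num; linarith) (by norm_num; linarith)
  have s13 : v ≤ (-44 : ℝ) / 1 → (-46 : ℝ) / 1 ≤ v → EF 3063060 1 lY v ≤ ((3889 : ℝ) / 1000) := fun ha hb =>
    EF_le (Dc := 3063060) (M := 1) (l := lY) (A := 11912240340000000000) (by norm_num) (by norm_num) (by norm_num) _ (by norm_num) (st := 2) (c := 1)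
      (by norm_num) (x0 := -46) (by decide +kernel) v (by norm_num; linarith) (by norm_num; linarith)
  have s14 : v ≤ (-43 : ℝ) / 1 → (-44 : ℝ) / 1 ≤ v → EF 3063060 1 lY v ≤ ((3889 : ℝ) / 1000) := fun ha hb =>
    EF_le (Dc := 3063060) (M := 1) (l := lY) (A := 11912240340000000000) (by norm_num) (by norm_num) (by norm_num) _ (by norm_num) (st := 1) (c := 1)
      (by norm_num) (x0 := -44) (by decide +kernel) v (by norm_num; linarith) (by norm_num; linarith)
  have s15 : v ≤ (-41 : ℝ) / 1 → (-43 : ℝ) / 1 ≤ v → EF 3063060 1 lY v ≤ ((3889 : ℝ) / 1000) := fun ha hb =>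
    EF_le (Dc := 3063060) (M := 1) (l := lY) (A := 11912240340000000000) (by norm_num) (by norm_num) (by norm_num) _ (by norm_num) (st := 2) (c := 1)
      (by norm_num) (x0 := -43) (by decide +kernel) v (by norm_num; linarith) (by norm_num; linarith)
  have s16 : v ≤ (-40 : ℝ) / 1 → (-41 : ℝ) / 1 ≤ v → EF 3063060 1 lY v ≤ ((3889 : ℝ) / 1000) := fun ha hb =>
    EF_le (Dc := 3063060) (M := 1) (l := lY) (A := 11912240340000000000) (by norm_num) (by norm_num) (by norm_num) _ (by norm_num) (st := 1) (c := 1)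
      (by norm_num) (x0 := -41) (by decide +kernel) v (by norm_num; linarith) (by norm_num; linarith)
  have s17 : v ≤ (-32 : ℝ) / 1 → (-40 : ℝ) / 1 ≤ v → EF 3063060 1 lY v ≤ ((3889 : ℝ) / 1000) := fun ha hb =>
    EF_le (Dc := 3063060) (M := 1) (l := lY) (A := 11912240340000000000) (by norm_num) (by norm_num) (by norm_num) _ (by norm_num) (st := 4) (c := 2)
      (by norm_num) (x0 := -40) (by decide +kernel) v (by norm_num; linarith) (by norm_num; linarith)
  have s18 : v ≤ (-30 : ℝ) / 1 → (-32 : ℝ) / 1 ≤ v → EF 3063060 1 lY v ≤ ((3889 : ℝ) / 1000) := fun ha hb =>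
    EF_le (Dc := 3063060) (M := 1) (l := lY) (A := 11912240340000000000) (by norm_num) (by norm_num) (by norm_num) _ (by norm_num) (st := 2) (c := 1)
      (by norm_num) (x0 := -32) (by decide +kernel) v (by norm_num; linarith) (by norm_num; linarith)
  have s19 : v ≤ (-22 : ℝ) / 1 → (-30 : ℝ) / 1 ≤ v → EF 3063060 1 lY v ≤ ((3889 : ℝ) / 1000) := fun ha hb =>
    EF_le (Dc := 3063060) (M := 1) (l := lY) (A := 11912240340000000000) (by norm_num) (by norm_num) (by norm_num) _ (by norm_num) (st := 8) (c := 1)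
      (by norm_num) (x0 := -30) (by decide +kernel) v (by norm_num; linarith) (by norm_num; linarith)
  have s20 : v ≤ (-20 : ℝ) / 1 → (-22 : ℝ) / 1 ≤ v → EF 3063060 1 lY v ≤ ((3889 : ℝ) / 1000) := fun ha hb =>
    EF_le (Dc := 3063060) (M := 1) (l := lY) (A := 11912240340000000000) (by norm_num) (by norm_num) (by norm_num) _ (by norm_num) (st := 2) (c := 1)
      (by norm_num) (x0 := -22) (by decide +kernel) v (by norm_num; linarith) (by norm_num; linarith)
  rcases le_total v ((-116 : ℝ) / 1) with k0 | k0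
  · exact s0 k0 (by linarith)
  rcases le_total v ((-112 : ℝ) / 1) with k1 | k1
  · exact s1 k1 (by linarith)
  rcases le_total v ((-104 : ℝ) / 1) with k2 | k2
  · exact s2 k2 (by linarith)
  rcases le_total v ((-96 : ℝ) / 1) with k3 | k3
  · exact s3 k3 (by linarith)
  rcases le_total v ((-95 : ℝ) / 1) with k4 | k4
  · exact s4 k4 (by linarith)
  rcases le_total v ((-85 : ℝ) / 1) with k5 | k5
  · exact s5 k5 (by linarith)
  rcases le_total v ((-77 : ℝ) / 1) with k6 | k6
  · exact s6 k6 (by linarith)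
  rcases le_total v ((-76 : ℝ) / 1) with k7 | k7
  · exact s7 k7 (by linarith)
  rcases le_total v ((-68 : ℝ) / 1) with k8 | k8
  · exact s8 k8 (by linarith)
  rcases le_total v ((-56 : ℝ) / 1) with k9 | k9
  · exact s9 k9 (by linarith)
  rcases le_total v ((-52 : ℝ) / 1) with k10 | k10
  · exact s10 k10 (by linarith)
  rcases le_total v ((-50 : ℝ) / 1) with k11 | k11
  · exact s11 k11 (by linarith)
  rcases le_total v ((-46 : ℝ) / 1) with k12 | k12
  · exact s12 k12 (by linarith)
  rcases le_total v ((-44 : ℝ) / 1) with k13 | k13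
  · exact s13 k13 (by linarith)
  rcases le_total v ((-43 : ℝ) / 1) with k14 | k14
  · exact s14 k14 (by linarith)
  rcases le_total v ((-41 : ℝ) / 1) with k15 | k15
  · exact s15 k15 (by linarith)
  rcases le_total v ((-40 : ℝ) / 1) with k16 | k16
  · exact s16 k16 (by linarith)
  rcases le_total v ((-32 : ℝ) / 1) with k17 | k17
  · exact s17 k17 (by linarith)
  rcases le_total v ((-30 : ℝ) / 1) with k18 | k18
  · exact s18 k18 (by linarith)
  rcases le_total v ((-22 : ℝ) / 1) with k19 | k19
  · exact s19 k19 (by linarith)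
  exact s20 (by linarith) (by linarith)

end TV3

theorem V3_upperY (w : ℝ) (h0 : -120 ≤ w) (h1 : w ≤ -20) : FY w ≤ 923 / 20 := by
  rw [TV3.FY_eq]
  linarith [TV3.E_up w h0 h1, TV3.const_bound]

end Pool.Agent.LZ
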