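import Pool.Agent.H337R2.LZ.A3
import Pool.Agent.H337R2.LZ.A5
import Pool.Agent.H337R2.LZ.G0
import Pool.Agent.H337R2.LZ.G1
import Pool.Agent.H337R2.LZ.G3
import Pool.Agent.H337R2.LZ.G4
import Pool.Agent.H337R2.LZ.G5
import Pool.Agent.H337R2.LZ.G6c
import Pool.Agent.H337R2.LZ.V2
import Pool.Agent.H337R2.LZ.V3

/-! Assembly of the archimedean part of the linear independence of `1, ζ(2), ζ(3)`. -/

open Polynomial Pool.Agent.H337R2 Filter Topology

namespace Pool.Agent.LZ

noncomputable section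

namespace AM

/-- statement of `G2_entryY` -/
def SG2 : Prop := ∀ β : ℚ, ∃ C : ℝ, 0 < C ∧ ∀ n : ℕ, 2 ≤ n → ∀ MY : ℝ,
    (∀ k ∈ sL n, n * phi (-(10 * k : ℝ) / n) + Lp n (Finset.range (14 * n)) (-(10 * k : ℤ)) +
      Lp n (Finset.Ico (7 * n) (14 * n)) (-(10 * k : ℤ)) ≤ MY) →
    ∀ i < 14 * n, ∀ j, 7 * n ≤ j → j < 14 * n →
    |((BL n β (lag (Finset.range (14 * n)) (zq n) i * lag (Finset.Ico (7 * n) (14 * n)) (zq n) j) : ℚ) : ℝ)| ≤
      Real.exp (MY + C * Real.log n)

/-- statement of `G6_pair` -/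
def SG6 : Prop := ∃ C : ℝ, 0 < C ∧ ∀ n : ℕ, 2 ≤ n → ∀ g < 14, ∀ h < 14,
    |∑ j ∈ Finset.range n, Lp n (Finset.Ico (h * n) ((h + 1) * n)) (bb g * n + cc g * (j : ℤ)) -
      (en g h * (n : ℝ) ^ 2 + (n : ℝ) ^ 2 * Real.log n)| ≤ C * n * Real.log n

/-- statement of `V1_upper` -/
def SV1 : Prop := ∀ w : ℝ, 20 ≤ w → FN w ≤ 209 / 20

/-- statement of `V1_tail` -/
def SV1t : Prop := ∀ w : ℝ, 10000 ≤ w → FN w ≤ 209 / 20 - 4 * (Real.log w - Real.log 10000)

/-- statement of `V4_eS` -/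
def SV4 : Prop := eS ≤ -469 / 10

/-- statement of `V5_eN` -/
def SV5 : Prop := 1897 / 10 ≤ eN

lemma Wt_pos (n t : ℕ) : 0 < Wt n t := by
  unfold Wt
  positivity

lemma two_le {n : ℕ} (hn : 2 ≤ n) : (2 : ℝ) ≤ n := by exact_mod_cast hn

lemma log2_le {n : ℕ} (hn : 2 ≤ n) : Real.log 2 ≤ Real.log n :=
  Real.log_le_log (by norm_num) (two_le hn)

/-- any constant is `O(log n)` -/
lemma const_le (c : ℝ) : ∃ K : ℝ, 0 ≤ K ∧ ∀ n : ℕ, 2 ≤ n → c ≤ K * Real.log n := by
  have hl2 : 0 < Real.log 2 := Real.log_pos (by norm_num)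
  refine ⟨|c| / Real.log 2, by positivity, fun n hn => ?_⟩
  calc c ≤ |c| := le_abs_self _
    _ = |c| / Real.log 2 * Real.log 2 := by field_simp
    _ ≤ _ := by
      have := log2_le hn
      gcongr

lemma range_eq (n b : ℕ) : Finset.range (b * n) = Finset.Ico (0 * n) (b * n) := by
  rw [Nat.zero_mul, Finset.range_eq_Ico]

/-- the total potential of the zeta part at the lattice points -/
lemma pot : ∃ C : ℝ, 0 < C ∧ ∀ n : ℕ, 2 ≤ n → ∀ t : ℕ,
    |Real.log (Wt n t) + (Lp n (Finset.range (14 * n)) (10 * t) + Lp n (Finset.range (7 * n)) (10 * t)) -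
      (n * FN (10 * (t : ℝ) / n) + 21 * n * Real.log n)| ≤ C * Real.log (n + t) := by
  obtain ⟨C3, hC3, h3⟩ := G3_Lp
  obtain ⟨C4, hC4, h4⟩ := G4_weight
  refine ⟨C4 + 10 * C3, by positivity, fun n hn t => ?_⟩
  have hn' := two_le hn
  have ht0 : (0 : ℝ) ≤ t := Nat.cast_nonneg t
  have hl2 : 0 < Real.log 2 := Real.log_pos (by norm_num)
  have hl : Real.log 2 ≤ Real.log (n + t) := Real.log_le_log (by norm_num) (by linarith)
  have a1 := abs_le.mp (h4 n hn t)
  have a2 := abs_le.mp (h3 n hn 0 14 (by norm_num) le_rfl (10 * (t : ℤ)))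
  have a3 := abs_le.mp (h3 n hn 0 7 (by norm_num) (by norm_num) (10 * (t : ℤ)))
  rw [← range_eq] at a2 a3
  push_cast at a2 a3
  have habs : |10 * (t : ℝ)| = 10 * t := abs_of_nonneg (by positivity)
  rw [habs] at a2 a3
  have hlog : Real.log ((n : ℝ) + 10 * t) ≤ 5 * Real.log (n + t) := by
    have e1 : Real.log ((n : ℝ) + 10 * t) ≤ Real.log (2 ^ 4 * ((n : ℝ) + t)) :=
      Real.log_le_log (by linarith) (by linarith)
    rw [Real.log_mul (by norm_num) (by linarith), Real.log_pow] at e1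
    push_cast at e1
    linarith
  have hs : ∑ g ∈ Finset.Ico 0 14, Ub g (10 * (t : ℝ) / n) =
      ∑ g ∈ Finset.range 7, Ub g (10 * (t : ℝ) / n) + ∑ g ∈ Finset.Ico 7 14, Ub g (10 * (t : ℝ) / n) := by
    rw [Finset.range_eq_Ico, Finset.sum_Ico_consecutive _ (by norm_num) (by norm_num)]
  rw [hs] at a2
  rw [← Finset.range_eq_Ico] at a3
  have hC3l : C3 * Real.log ((n : ℝ) + 10 * t) ≤ 5 * (C3 * Real.log (n + t)) := by
    calc C3 * Real.log ((n : ℝ) + 10 * t) ≤ C3 * (5 * Real.log (n + t)) := by gcongr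
      _ = _ := by ring
  have e2 : (n : ℝ) * FN (10 * (t : ℝ) / n) + 21 * n * Real.log n =
      n * phi (10 * (t : ℝ) / n) +
      (n * (∑ g ∈ Finset.range 7, Ub g (10 * (t : ℝ) / n) + ∑ g ∈ Finset.Ico 7 14, Ub g (10 * (t : ℝ) / n)) +
        14 * n * Real.log n) +
      (n * ∑ g ∈ Finset.range 7, Ub g (10 * (t : ℝ) / n) + 7 * n * Real.log n) := by
    unfold FN
    ring
  have e3 : (C4 + 10 * C3) * Real.log ((n : ℝ) + t) = C4 * Real.log (n + t) +
      5 * (C3 * Real.log (n + t)) + 5 * (C3 * Real.log (n + t)) := by ring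
  rw [e2, e3, abs_le]
  simp only [sub_zero] at a2 a3
  constructor <;> linarith

/-- the total potential of the pole part at the poles -/
lemma potY : ∃ C : ℝ, 0 < C ∧ ∀ n : ℕ, 2 ≤ n → ∀ k ∈ sL n,
    n * phi (-(10 * k : ℝ) / n) + Lp n (Finset.range (14 * n)) (-(10 * k : ℤ)) +
      Lp n (Finset.Ico (7 * n) (14 * n)) (-(10 * k : ℤ)) ≤
      923 / 20 * n + 21 * n * Real.log n + C * Real.log n := by
  obtain ⟨C3, hC3, h3⟩ := G3_Lp
  refine ⟨16 * C3, by positivity, fun n hn k hk => ?_⟩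
  rw [Finset.mem_Icc] at hk
  have hn' := two_le hn
  have hn0 : (0 : ℝ) < n := by linarith
  have hl2 : 0 < Real.log 2 := Real.log_pos (by norm_num)
  have hl := log2_le hn
  have hk1 : 2 * (n : ℝ) + 1 ≤ k := by exact_mod_cast hk.1
  have hk2 : (k : ℝ) ≤ 12 * n := by exact_mod_cast hk.2
  have a2 := (abs_le.mp (h3 n hn 0 14 (by norm_num) le_rfl (-(10 * (k : ℤ))))).2
  have a3 := (abs_le.mp (h3 n hn 7 14 (by norm_num) le_rfl (-(10 * (k : ℤ))))).2
  rw [← range_eq] at a2
  push_cast at a2 a3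
  have habs : |-(10 * (k : ℝ))| = 10 * k := by rw [abs_neg, abs_of_nonneg (by positivity)]
  rw [habs] at a2 a3
  have hlog : Real.log ((n : ℝ) + 10 * k) ≤ 8 * Real.log n := by
    have e1 : Real.log ((n : ℝ) + 10 * k) ≤ Real.log (2 ^ 7 * (n : ℝ)) :=
      Real.log_le_log (by linarith) (by linarith)
    rw [Real.log_mul (by norm_num) (by linarith), Real.log_pow] at e1
    push_cast at e1
    linarith
  have hs : ∑ g ∈ Finset.Ico 0 14, Ub g (-(10 * (k : ℝ)) / n) =
      ∑ g ∈ Finset.range 7, Ub g (-(10 * (k : ℝ)) / n) + ∑ g ∈ Finset.Ico 7 14, Ub g (-(10 * (k : ℝ)) / n) := by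
    rw [Finset.range_eq_Ico, Finset.sum_Ico_consecutive _ (by norm_num) (by norm_num)]
  rw [hs] at a2
  have hC3l : C3 * Real.log ((n : ℝ) + 10 * k) ≤ 8 * (C3 * Real.log n) := by
    calc C3 * Real.log ((n : ℝ) + 10 * k) ≤ C3 * (8 * Real.log n) := by gcongr
      _ = _ := by ring
  have hw1 : -120 ≤ -(10 * (k : ℝ)) / n := by
    rw [le_div_iff₀ hn0]; linarith
  have hw2 : -(10 * (k : ℝ)) / n ≤ -20 := by
    rw [div_le_iff₀ hn0]; linarith
  have hF := mul_le_mul_of_nonneg_left (V3_upperY _ hw1 hw2) hn0.le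
  unfold FY at hF
  have e3 : 16 * C3 * Real.log n = 8 * (C3 * Real.log n) + 8 * (C3 * Real.log n) := by ring
  rw [e3]
  simp only [sub_zero] at a2 a3
  have e4 : (n : ℝ) * (phi (-(10 * (k : ℝ)) / n) + ∑ g ∈ Finset.range 7, Ub g (-(10 * (k : ℝ)) / n) +
      2 * ∑ g ∈ Finset.Ico 7 14, Ub g (-(10 * (k : ℝ)) / n)) = n * phi (-(10 * (k : ℝ)) / n) +
      n * (∑ g ∈ Finset.range 7, Ub g (-(10 * (k : ℝ)) / n) + ∑ g ∈ Finset.Ico 7 14, Ub g (-(10 * (k : ℝ)) / n)) +
      n * ∑ g ∈ Finset.Ico 7 14, Ub g (-(10 * (k : ℝ)) / n) := by ring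
  rw [e4] at hF
  linarith

/-- the sup bound over the points outside of the saturated part -/
lemma supN (V1 : SV1) (V1t : SV1t) : ∃ K : ℝ, 0 ≤ K ∧ ∀ᶠ n : ℕ in atTop, ∀ t : ℕ, 2 * n ≤ t →
    Wt n t * Real.exp (Lp n (Finset.range (14 * n)) (10 * t) + Lp n (Finset.range (7 * n)) (10 * t)) ≤
      Real.exp (209 / 20 * n + 21 * n * Real.log n + K * Real.log n) / (1 + (t : ℝ)) ^ 2 := by
  obtain ⟨C, hC, h⟩ := pot
  obtain ⟨n0, hn0⟩ := exists_nat_ge (C + 2)
  obtain ⟨K1, hK1, hK⟩ := const_le ((C + 2) * Real.log 10000)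
  refine ⟨(C + 2) + K1, by positivity, ?_⟩
  filter_upwards [eventually_ge_atTop 2, eventually_ge_atTop n0] with n hn hnn t ht
  have hn' := two_le hn
  have hnp : (0 : ℝ) < n := by linarith
  have ht' : 2 * (n : ℝ) ≤ t := by exact_mod_cast ht
  have ht1 : (0 : ℝ) < 1 + t := by linarith
  have hCn : C + 2 ≤ n := hn0.trans (by exact_mod_cast hnn)
  have hl2 : 0 < Real.log 2 := Real.log_pos (by norm_num)
  have hl := log2_le hn
  set L := Lp n (Finset.range (14 * n)) (10 * t) + Lp n (Finset.range (7 * n)) (10 * t) with hL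
  rw [le_div_iff₀ (by positivity)]
  have e1 : Wt n t * Real.exp L * (1 + (t : ℝ)) ^ 2 =
      Real.exp (Real.log (Wt n t) + L + 2 * Real.log (1 + t)) := by
    rw [Real.exp_add (Real.log (Wt n t) + L), Real.exp_add (Real.log (Wt n t)) L, Real.exp_log (Wt_pos n t),
      show 2 * Real.log (1 + (t : ℝ)) = Real.log ((1 + (t : ℝ)) ^ 2) by rw [Real.log_pow]; norm_num,
      Real.exp_log (by positivity)]
  rw [e1]
  apply Real.exp_le_exp.mpr
  have a1 := (abs_le.mp (h n hn t)).2
  rw [← hL] at a1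
  have a2 : Real.log (1 + (t : ℝ)) ≤ Real.log (n + t) := Real.log_le_log ht1 (by linarith)
  set w : ℝ := 10 * (t : ℝ) / n with hw
  have htw : (t : ℝ) = n * w / 10 := by rw [hw]; field_simp
  have hw20 : 20 ≤ w := by rw [hw, le_div_iff₀ hnp]; linarith
  have hKn := hK n hn
  rcases le_total w 10000 with hw1 | hw1
  · have a3 := mul_le_mul_of_nonneg_left (V1 w hw20) hnp.le
    have a4 : Real.log ((n : ℝ) + t) ≤ Real.log n + Real.log 10000 := by
      rw [← Real.log_mul hnp.ne' (by norm_num)]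
      apply Real.log_le_log (by linarith)
      rw [htw]
      nlinarith
    have a5 : (C + 2) * Real.log ((n : ℝ) + t) ≤ (C + 2) * (Real.log n + Real.log 10000) := by gcongr
    nlinarith
  · have a3 := mul_le_mul_of_nonneg_left (V1t w hw1) hnp.le
    have hwp : 0 < w := by linarith
    have a4 : Real.log ((n : ℝ) + t) ≤ Real.log n + Real.log w := by
      rw [← Real.log_mul hnp.ne' hwp.ne']
      apply Real.log_le_log (by linarith)
      rw [htw]
      nlinarith
    have a5 : (C + 2) * Real.log ((n : ℝ) + t) ≤ (C + 2) * (Real.log n + Real.log w) := by gcongr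
    have a6 : 0 ≤ Real.log w - Real.log 10000 := by
      have := Real.log_le_log (by norm_num : (0 : ℝ) < 10000) hw1
      linarith
    have a7 : (C + 2) * (Real.log w - Real.log 10000) ≤ n * (Real.log w - Real.log 10000) := by gcongr
    have a8 : 0 ≤ (n : ℝ) * (Real.log w - Real.log 10000) := by positivity
    nlinarith

/-- lower bound at the saturated nodes -/
lemma lowN : ∃ K : ℝ, 0 ≤ K ∧ ∀ n : ℕ, 2 ≤ n → ∀ t : ℕ, t < 2 * n →
    205 / 20 * n + 21 * n * Real.log n - K * Real.log n ≤ Real.log (Wt n t) +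
      (Lp n (Finset.range (14 * n)) (10 * t) + Lp n (Finset.range (7 * n)) (10 * t)) := by
  obtain ⟨C, hC, h⟩ := pot
  refine ⟨3 * C, by positivity, fun n hn t ht => ?_⟩
  have hn' := two_le hn
  have hnp : (0 : ℝ) < n := by linarith
  have ht' : (t : ℝ) ≤ 2 * n := by exact_mod_cast ht.le
  have ht0 : (0 : ℝ) ≤ t := Nat.cast_nonneg t
  have hl2 : 0 < Real.log 2 := Real.log_pos (by norm_num)
  have hl := log2_le hn
  have a1 := (abs_le.mp (h n hn t)).1
  have hw0 : 0 ≤ 10 * (t : ℝ) / n := by positivity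
  have hw1 : 10 * (t : ℝ) / n ≤ 20 := by rw [div_le_iff₀ hnp]; linarith
  have a2 := mul_le_mul_of_nonneg_left (V2_lower _ hw0 hw1) hnp.le
  have a3 : Real.log ((n : ℝ) + t) ≤ 3 * Real.log n := by
    have e1 : Real.log ((n : ℝ) + t) ≤ Real.log (2 ^ 2 * (n : ℝ)) :=
      Real.log_le_log (by linarith) (by linarith)
    rw [Real.log_mul (by norm_num) (by linarith), Real.log_pow] at e1
    push_cast at e1
    linarith
  have a4 : C * Real.log ((n : ℝ) + t) ≤ C * (3 * Real.log n) := by gcongr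
  linarith

lemma nd_block {n g j : ℕ} (hj : j < n) : nd n (g * n + j) = bb g * n + cc g * (j : ℤ) := by
  have hn0 : 0 < n := by omega
  unfold nd
  have h1 : (g * n + j) / n = g := by
    rw [Nat.mul_comm, Nat.mul_add_div hn0, Nat.div_eq_of_lt hj, add_zero]
  have h2 : (g * n + j) % n = j := by
    rw [Nat.mul_comm, Nat.mul_add_mod, Nat.mod_eq_of_lt hj]
  rw [h1, h2]

lemma Lp_blocks (n a b : ℕ) (hab : a ≤ b) (u : ℤ) :
    Lp n (Finset.Ico (a * n) (b * n)) u =
      ∑ h ∈ Finset.Ico a b, Lp n (Finset.Ico (h * n) ((h + 1) * n)) u := by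
  unfold Lp
  rw [G3_blocks n _ a b hab]
  apply Finset.sum_congr rfl
  intro h _
  rw [G3_blocks n _ h (h + 1) (by omega)]
  simp

/-- mutual energy of two families of bricks -/
lemma energy {C : ℝ} (hC : 0 < C) {n : ℕ} (hn : 2 ≤ n)
    (h6 : ∀ g < 14, ∀ h < 14,
      |∑ j ∈ Finset.range n, Lp n (Finset.Ico (h * n) ((h + 1) * n)) (bb g * n + cc g * (j : ℤ)) -
      (en g h * (n : ℝ) ^ 2 + (n : ℝ) ^ 2 * Real.log n)| ≤ C * n * Real.log n)
    (a b c d : ℕ) (hab : a ≤ b) (hb : b ≤ 14) (hcd : c ≤ d) (hd : d ≤ 14) :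
    (∑ g ∈ Finset.Ico a b, ∑ h ∈ Finset.Ico c d, en g h) * (n : ℝ) ^ 2 +
      ((b - a : ℕ) : ℝ) * ((d - c : ℕ) : ℝ) * ((n : ℝ) ^ 2 * Real.log n) - 196 * (C * n * Real.log n) ≤
    ∑ i ∈ Finset.Ico (a * n) (b * n), Lp n (Finset.Ico (c * n) (d * n)) (nd n i) := by
  have hl2 : 0 < Real.log 2 := Real.log_pos (by norm_num)
  have hl := log2_le hn
  have hE : 0 ≤ C * n * Real.log n := by positivity
  rw [G3_blocks n _ a b hab]
  have e1 : ∑ g ∈ Finset.Ico a b, ∑ j ∈ Finset.range n, Lp n (Finset.Ico (c * n) (d * n)) (nd n (g * n + j)) =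
      ∑ g ∈ Finset.Ico a b, ∑ h ∈ Finset.Ico c d, ∑ j ∈ Finset.range n,
        Lp n (Finset.Ico (h * n) ((h + 1) * n)) (bb g * n + cc g * (j : ℤ)) := by
    apply Finset.sum_congr rfl
    intro g _
    rw [Finset.sum_comm]
    apply Finset.sum_congr rfl
    intro j hj
    rw [nd_block (Finset.mem_range.mp hj), Lp_blocks n c d hcd]
  rw [e1]
  have e2 : (∑ g ∈ Finset.Ico a b, ∑ h ∈ Finset.Ico c d, en g h) * (n : ℝ) ^ 2 +
      ((b - a : ℕ) : ℝ) * ((d - c : ℕ) : ℝ) * ((n : ℝ) ^ 2 * Real.log n) -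
      ((b - a : ℕ) : ℝ) * ((d - c : ℕ) : ℝ) * (C * n * Real.log n) =
      ∑ g ∈ Finset.Ico a b, ∑ h ∈ Finset.Ico c d,
        (en g h * (n : ℝ) ^ 2 + (n : ℝ) ^ 2 * Real.log n - C * n * Real.log n) := by
    simp only [Finset.sum_sub_distrib, Finset.sum_add_distrib, Finset.sum_const, Nat.card_Ico, nsmul_eq_mul,
      Finset.sum_mul]
    ring
  have e3 : ((b - a : ℕ) : ℝ) * ((d - c : ℕ) : ℝ) * (C * n * Real.log n) ≤ 196 * (C * n * Real.log n) := by
    apply mul_le_mul_of_nonneg_right _ hE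
    have h1 : ((b - a : ℕ) : ℝ) ≤ 14 := by exact_mod_cast (by omega : b - a ≤ 14)
    have h2 : ((d - c : ℕ) : ℝ) ≤ 14 := by exact_mod_cast (by omega : d - c ≤ 14)
    calc ((b - a : ℕ) : ℝ) * ((d - c : ℕ) : ℝ) ≤ 14 * 14 := by gcongr
      _ = 196 := by norm_num
  have e4 : ∑ g ∈ Finset.Ico a b, ∑ h ∈ Finset.Ico c d,
        (en g h * (n : ℝ) ^ 2 + (n : ℝ) ^ 2 * Real.log n - C * n * Real.log n) ≤
      ∑ g ∈ Finset.Ico a b, ∑ h ∈ Finset.Ico c d, ∑ j ∈ Finset.range n,
        Lp n (Finset.Ico (h * n) ((h + 1) * n)) (bb g * n + cc g * (j : ℤ)) := by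
    apply Finset.sum_le_sum
    intro g hg
    apply Finset.sum_le_sum
    intro h hh
    rw [Finset.mem_Ico] at hg hh
    have := (abs_le.mp (h6 g (by omega) h (by omega))).1
    linarith
  linarith

lemma logfac {n : ℕ} (hn : 2 ≤ n) : Real.log ((14 * n).factorial : ℝ) ≤ 14 * n * (5 * Real.log n) := by
  have hn' := two_le hn
  have hl2 : 0 < Real.log 2 := Real.log_pos (by norm_num)
  have hl := log2_le hn
  have h2 : (((14 * n).factorial : ℕ) : ℝ) ≤ ((14 * n : ℕ) : ℝ) ^ (14 * n) := by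
    exact_mod_cast Nat.factorial_le_pow (14 * n)
  calc Real.log ((14 * n).factorial : ℝ) ≤ Real.log (((14 * n : ℕ) : ℝ) ^ (14 * n)) :=
        Real.log_le_log (by positivity) h2
    _ = 14 * n * Real.log (14 * n) := by rw [Real.log_pow]; push_cast; ring
    _ ≤ 14 * n * (5 * Real.log n) := by
        have e1 : Real.log (14 * (n : ℝ)) ≤ Real.log (2 ^ 4 * (n : ℝ)) :=
          Real.log_le_log (by positivity) (by nlinarith)
        rw [Real.log_mul (show (2 : ℝ) ^ 4 ≠ 0 by norm_num) (by linarith : (n : ℝ) ≠ 0), Real.log_pow] at e1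
        push_cast at e1
        have : Real.log (14 * (n : ℝ)) ≤ 5 * Real.log n := by linarith
        gcongr

lemma VD_pos {n : ℕ} (hn : 1 ≤ n) {s : Finset ℕ} (hs : s ⊆ Finset.range (14 * n)) : 0 < VD s (zq n) := by
  unfold VD
  apply Finset.prod_pos
  intro i hi
  apply Finset.prod_pos
  intro j hj
  rw [Finset.mem_erase] at hj
  rw [abs_pos]
  intro h0
  have h1 : zq n i - zq n j = 0 := by exact_mod_cast h0
  unfold zq at h1
  have h2 : (nd n i : ℚ) = nd n j := by linarith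
  have h3 : nd n i = nd n j := by exact_mod_cast h2
  exact hj.1 (G0_nd_inj hn (by simpa using hs hj.2) (by simpa using hs hi) h3.symm)

end AM

open AM in
/-- **the archimedean part**, with the statements of the other tasks as hypotheses -/
theorem A_main_of (B1 : B1St) (G2 : AM.SG2) (G6 : AM.SG6) (V1 : AM.SV1) (V1t : AM.SV1t) (V4 : AM.SV4)
    (V5 : AM.SV5) (α β : ℚ) (h : zr 3 = (α : ℝ) + β * zr 2) : ∀ᶠ n : ℕ in atTop, DD n α β ≠ 0 →
    Real.log |((DD n α β : ℚ) : ℝ)| ≤ 147 * (n : ℝ) ^ 2 * Real.log n + 140 * (n : ℝ) ^ 2 := by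
  obtain ⟨K1, hK1, hsup⟩ := supN V1 V1t
  obtain ⟨K2, hK2, hlow⟩ := lowN
  obtain ⟨C2, hC2, hG2⟩ := G2 β
  obtain ⟨C3, hC3, hY⟩ := potY
  obtain ⟨C5, hC5, hS⟩ := G5_sat
  obtain ⟨C6, hC6, hG6⟩ := G6
  obtain ⟨K7, hK7, h200⟩ := const_le (Real.log 200)
  obtain ⟨K8, hK8, h400⟩ := const_le (Real.log 400)
  set T : ℝ := 70 + 2 * (K1 + K2 + K8) + 5 * (K7 + K1) + 7 * (C3 + C2) + C5 + 392 * C6 with hT
  have key : ∀ᶠ n : ℕ in atTop, DD n α β ≠ 0 →
      Real.log |((DD n α β : ℚ) : ℝ)| ≤ 147 * ((n : ℝ) ^ 2 * Real.log n) + 1391 / 10 * (n : ℝ) ^ 2 +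
        T * (n * Real.log n) := by
    filter_upwards [hsup, eventually_ge_atTop 2] with n hsup hn hD
    have hn' := two_le hn
    have hnp : (0 : ℝ) < n := by linarith
    have hl2 : 0 < Real.log 2 := Real.log_pos (by norm_num)
    have hl := log2_le hn
    have hln : 0 < Real.log n := by linarith
    set MM : ℝ := Real.exp (209 / 20 * n + 21 * n * Real.log n + K1 * Real.log n) with hMM
    have hMM0 : 0 < MM := Real.exp_pos _
    set L : ℕ → ℝ := fun j => Lp n (Finset.range (14 * n)) (10 * j) + Lp n (Finset.range (7 * n)) (10 * j) with hL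
    set b : ℕ → ℝ := fun j => if j < 2 * n then Wt n j * Real.exp (L j) + 200 * MM
      else if j < 7 * n then 200 * MM
      else Real.exp (923 / 20 * n + 21 * n * Real.log n + C3 * Real.log n + C2 * Real.log n) with hb
    have hbpos : ∀ j, 0 < b j := by
      intro j
      rw [hb]
      dsimp only
      have := Wt_pos n j
      split_ifs <;> positivity
    -- the matrix
    have e14 : 2 * (7 * n) = 14 * n := by ring
    have hinj : Set.InjOn (zq n) (Finset.range (2 * (7 * n))) := by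
      rw [e14]
      intro i hi j hj hij
      unfold zq at hij
      have h2 : (nd n i : ℚ) = nd n j := by linarith
      exact G0_nd_inj (by omega) hi hj (by exact_mod_cast h2)
    have h5 := A5_lagrange (AL n α) (BL n β) (zr 2) (7 * n) (zq n) hinj
    rw [e14] at h5
    change _ = ((DD n α β : ℚ) : ℝ) ^ 2 * _ at h5
    set M : Matrix (Fin (14 * n)) (Fin (14 * n)) ℝ := (Matrix.of fun i j : Fin (14 * n) =>
      if j.1 < 7 * n then
        ((AL n α (lag (Finset.range (14 * n)) (zq n) i.1 * lag (Finset.range (7 * n)) (zq n) j.1) : ℚ) : ℝ) +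
          zr 2 * ((BL n β (lag (Finset.range (14 * n)) (zq n) i.1 * lag (Finset.range (7 * n)) (zq n) j.1) : ℚ) : ℝ)
      else ((BL n β (lag (Finset.range (14 * n)) (zq n) i.1 *
        lag (Finset.Ico (7 * n) (14 * n)) (zq n) j.1) : ℚ) : ℝ)) with hM
    have hentry : ∀ i j : Fin (14 * n), |M i j| ≤ b j := by
      intro i j
      rw [hM, hb]
      simp only [Matrix.of_apply]
      by_cases hj7 : j.1 < 7 * n
      · rw [if_pos hj7]
        have h1 := G1_entryN_of B1 (by omega : 1 ≤ n) α β h MM hMM0.le hsup i.1 j.1 i.2 hj7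
        by_cases hj2 : j.1 < 2 * n
        · rw [if_pos hj2]
          rw [if_pos hj2] at h1
          exact h1
        · rw [if_neg hj2, if_pos hj7]
          rw [if_neg hj2, zero_add] at h1
          exact h1
      · rw [if_neg hj7, if_neg (by omega), if_neg hj7]
        exact hG2 n hn _ (fun k hk => hY n hn k hk) i.1 i.2 j.1 (by omega) j.2
    have hdet := A6_det_le (14 * n) M b (fun j => (hbpos j).le) hentry
    -- logarithms
    have hDr : ((DD n α β : ℚ) : ℝ) ≠ 0 := by exact_mod_cast hD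
    have v1 := VD_pos (n := n) (by omega) (s := Finset.range (14 * n)) (Finset.Subset.refl _)
    have v2 := VD_pos (n := n) (by omega) (s := Finset.range (7 * n))
      (Finset.range_subset_range.mpr (by omega))
    have v3 := VD_pos (n := n) (by omega) (s := Finset.Ico (7 * n) (14 * n))
      (fun i hi => Finset.mem_range.mpr (Finset.mem_Ico.mp hi).2)
    have hM0 : M.det ≠ 0 := by
      intro h0
      rw [h0] at h5
      have : (0 : ℝ) < ((DD n α β : ℚ) : ℝ) ^ 2 *
        (VD (Finset.range (14 * n)) (zq n) * VD (Finset.range (7 * n)) (zq n) *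
          VD (Finset.Ico (7 * n) (14 * n)) (zq n)) := by positivity
      rw [← h5] at this
      norm_num at this
    have hlog1 : 2 * Real.log |M.det| = 2 * Real.log |((DD n α β : ℚ) : ℝ)| +
        (Real.log (VD (Finset.range (14 * n)) (zq n)) + Real.log (VD (Finset.range (7 * n)) (zq n)) +
          Real.log (VD (Finset.Ico (7 * n) (14 * n)) (zq n))) := by
      have := congrArg Real.log h5
      rw [Real.log_pow, Real.log_mul (pow_ne_zero 2 hDr) (by positivity), Real.log_pow,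
        Real.log_mul (by positivity) v3.ne', Real.log_mul v1.ne' v2.ne'] at this
      rw [Real.log_abs, Real.log_abs]
      push_cast at this
      exact this
    have hlog2 : Real.log |M.det| ≤ Real.log ((14 * n).factorial : ℝ) +
        ∑ j ∈ Finset.range (14 * n), Real.log (b j) := by
      rw [← Real.log_prod (fun i _ => (hbpos i).ne'),
        ← Real.log_mul (by positivity) (Finset.prod_pos fun i _ => hbpos i).ne']
      exact Real.log_le_log (abs_pos.mpr hM0) hdet
    have hcross := G6_cross (n := n) (by omega)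
    have hfac := logfac hn
    have h200n := h200 n hn
    have h400n := h400 n hn
    -- the three ranges
    have hb1 : ∀ j ∈ Finset.range (2 * n), Real.log (b j) ≤ Real.log (Wt n j) + L j +
        (1 / 5 * (n : ℝ) + (K1 + K2 + K8) * Real.log n) := by
      intro j hj
      rw [Finset.mem_range] at hj
      have hlo := hlow n hn j hj
      rw [hb]
      dsimp only
      rw [if_pos hj]
      change _ ≤ _ + L j at hlo
      have hW := Wt_pos n j
      have e1 : Wt n j * Real.exp (L j) = Real.exp (Real.log (Wt n j) + L j) := by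
        rw [Real.exp_add (Real.log (Wt n j)) (L j), Real.exp_log hW]
      set A : ℝ := Real.log (Wt n j) + L j with hA
      set R : ℝ := 1 / 5 * (n : ℝ) + (K1 + K2) * Real.log n with hR
      have hR0 : 0 ≤ R := by rw [hR]; positivity
      have e2 : MM ≤ Real.exp (A + R) := by
        rw [hMM]
        apply Real.exp_le_exp.mpr
        rw [hR]
        linarith
      have e3 : Real.exp A ≤ Real.exp (A + R) := Real.exp_le_exp.mpr (by linarith)
      have e4 : Wt n j * Real.exp (L j) + 200 * MM ≤ 400 * Real.exp (A + R) := by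
        rw [e1]
        have := Real.exp_pos (A + R)
        linarith
      calc Real.log (Wt n j * Real.exp (L j) + 200 * MM) ≤ Real.log (400 * Real.exp (A + R)) :=
            Real.log_le_log (by positivity) e4
        _ = Real.log 400 + (A + R) := by
            rw [Real.log_mul (by norm_num) (Real.exp_pos _).ne', Real.log_exp]
        _ ≤ _ := by
            rw [hR]
            linarith
    have hb2 : ∀ j ∈ Finset.Ico (2 * n) (7 * n), Real.log (b j) ≤
        209 / 20 * n + 21 * n * Real.log n + (K7 + K1) * Real.log n := by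
      intro j hj
      rw [Finset.mem_Ico] at hj
      rw [hb]
      dsimp only
      rw [if_neg (by omega), if_pos hj.2, Real.log_mul (by norm_num) hMM0.ne', hMM, Real.log_exp]
      linarith
    have hb3 : ∀ j ∈ Finset.Ico (7 * n) (14 * n), Real.log (b j) ≤
        923 / 20 * n + 21 * n * Real.log n + (C3 + C2) * Real.log n := by
      intro j hj
      rw [Finset.mem_Ico] at hj
      rw [hb]
      dsimp only
      rw [if_neg (by omega), if_neg (by omega), Real.log_exp]
      linarith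
    have hs1 := Finset.sum_le_sum hb1
    have hs2 := Finset.sum_le_sum hb2
    have hs3 := Finset.sum_le_sum hb3
    rw [Finset.sum_add_distrib, Finset.sum_const, Finset.card_range, nsmul_eq_mul] at hs1
    rw [Finset.sum_const, Nat.card_Ico, nsmul_eq_mul] at hs2 hs3
    have c2 : 7 * n - 2 * n = 5 * n := by omega
    have c3 : 14 * n - 7 * n = 7 * n := by omega
    rw [c2] at hs2
    rw [c3] at hs3
    have hsplit : ∑ j ∈ Finset.range (14 * n), Real.log (b j) =
        ∑ j ∈ Finset.range (2 * n), Real.log (b j) + ∑ j ∈ Finset.Ico (2 * n) (7 * n), Real.log (b j) +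
          ∑ j ∈ Finset.Ico (7 * n) (14 * n), Real.log (b j) := by
      rw [Finset.sum_range_add_sum_Ico _ (by omega), Finset.sum_range_add_sum_Ico _ (by omega)]
    -- energies
    have hSn := hS n hn
    have hE1 := energy hC6 hn (hG6 n hn) 2 7 2 14 (by norm_num) (by norm_num) (by norm_num) (by norm_num)
    have hE2 := energy hC6 hn (hG6 n hn) 7 14 7 14 (by norm_num) (by norm_num) (by norm_num) (by norm_num)
    have hcr1 : ∑ i ∈ Finset.range (2 * n), (Lp n (Finset.range (14 * n)) (nd n i) +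
        Lp n (Finset.range (7 * n)) (nd n i) - Lp n (Finset.range (2 * n)) (nd n i)) =
        ∑ i ∈ Finset.range (2 * n), (Real.log (Wt n i) + L i) -
        ∑ t ∈ Finset.range (2 * n), (Real.log (Wt n t) + Lp n (Finset.range (2 * n)) (10 * t)) := by
      rw [← Finset.sum_sub_distrib]
      apply Finset.sum_congr rfl
      intro i hi
      rw [G0_nd_sat (by omega) (Finset.mem_range.mp hi), hL]
      dsimp only
      ring
    rw [hcr1] at hcross
    have heN : eN = ∑ g ∈ Finset.Ico 2 7, ∑ h ∈ Finset.Ico 2 14, en g h +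
        ∑ g ∈ Finset.Ico 7 14, ∑ h ∈ Finset.Ico 7 14, en g h := by
      unfold eN
      rw [← Finset.sum_add_distrib]
      congr 1
      apply Finset.sum_congr rfl
      intro g _
      rw [Finset.sum_Ico_consecutive _ (by norm_num) (by norm_num)]
    have hV4 : eS * (n : ℝ) ^ 2 ≤ -469 / 10 * (n : ℝ) ^ 2 :=
      mul_le_mul_of_nonneg_right V4 (by positivity)
    have hV5 : 1897 / 10 * (n : ℝ) ^ 2 ≤ eN * (n : ℝ) ^ 2 :=
      mul_le_mul_of_nonneg_right V5 (by positivity)
    rw [heN, add_mul] at hV5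
    rw [hsplit] at hlog2
    norm_num at hE1 hE2
    push_cast at hs1 hs2 hs3
    have t1 : 2 * (n : ℝ) * (1 / 5 * (n : ℝ) + (K1 + K2 + K8) * Real.log n) =
      2 / 5 * (n : ℝ) ^ 2 + 2 * (K1 + K2 + K8) * (n * Real.log n) := by ring
    have t2 : 5 * (n : ℝ) * (209 / 20 * n + 21 * n * Real.log n + (K7 + K1) * Real.log n) =
      209 / 4 * (n : ℝ) ^ 2 + 105 * ((n : ℝ) ^ 2 * Real.log n) + 5 * (K7 + K1) * (n * Real.log n) := by ring
    have t3 : 7 * (n : ℝ) * (923 / 20 * n + 21 * n * Real.log n + (C3 + C2) * Real.log n) =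
      6461 / 20 * (n : ℝ) ^ 2 + 147 * ((n : ℝ) ^ 2 * Real.log n) + 7 * (C3 + C2) * (n * Real.log n) := by ring
    have t4 : 14 * (n : ℝ) * (5 * Real.log n) = 70 * (n * Real.log n) := by ring
    have t5 : T * (n * Real.log n) = 70 * (n * Real.log n) + 2 * (K1 + K2 + K8) * (n * Real.log n) +
      5 * (K7 + K1) * (n * Real.log n) + 7 * (C3 + C2) * (n * Real.log n) + C5 * n * Real.log n +
      392 * (C6 * n * Real.log n) := by rw [hT]; ring
    have t6 : 4 * (n : ℝ) ^ 2 * Real.log n = 4 * ((n : ℝ) ^ 2 * Real.log n) := by ring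
    rw [t1] at hs1
    rw [t2] at hs2
    rw [t3] at hs3
    rw [t4] at hfac
    rw [t6] at hSn
    rw [t5]
    linarith
  -- conclude
  have hlim : ∀ᶠ n : ℕ in atTop, T * (n * Real.log n) ≤ 9 / 10 * (n : ℝ) ^ 2 := by
    have h1 : Tendsto (fun n : ℕ => Real.log n / (n : ℝ)) atTop (𝓝 0) := by
      have := (Real.isLittleO_log_id_atTop.tendsto_div_nhds_zero).comp tendsto_natCast_atTop_atTop
      simpa [Function.comp_def] using this
    have h2 : Tendsto (fun n : ℕ => T * (Real.log n / (n : ℝ))) atTop (𝓝 (T * 0)) := h1.const_mul _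
    rw [mul_zero] at h2
    filter_upwards [h2.eventually (gt_mem_nhds (show (0 : ℝ) < 9 / 10 by norm_num)), eventually_ge_atTop 1]
      with n h3 h4
    have hn0 : (0 : ℝ) < n := by exact_mod_cast h4
    have h5 : T * (n * Real.log n) = (T * (Real.log n / (n : ℝ))) * (n : ℝ) ^ 2 := by
      field_simp
    rw [h5]
    gcongr
  filter_upwards [hlim, key] with n h1 h2 hD
  have := h2 hD
  linarith

end

end Pool.Agent.LZ
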