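import Pool.Agent.H337R2.LZ.Defs
import Pool.Agent.H574R2.D3.B1

/-! Task B1 (helper355): the linear form as a series (order 0). -/

open Polynomial Pool.Agent.H337R2

namespace Pool.Agent.LZ

noncomputable section

/-- the linear form of order zero for general poles and numerator, summed from `t = 0` -/
theorem B1_form0 (s : Finset ℕ) (μ : ℕ → ℕ) (P : ℚ[X])
    (hdeg : P.natDegree + 2 ≤ (QQ s μ).natDegree) (s0 r : ℕ)
    (hs0 : ∀ k ∈ s, s0 < k) (hr : ∀ k ∈ s, μ k ≤ r)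
    (hz : ∀ m ∈ Finset.Icc 1 s0, P.eval (-(m : ℚ)) = 0) :
    HasSum (fun t : ℕ => ((P.eval (t : ℚ) / (QQ s μ).eval (t : ℚ) : ℚ) : ℝ))
      (∑ i ∈ Finset.Icc 1 r,
        (((∑ k ∈ s, pa s μ P k i : ℚ) : ℝ) * (if i = 1 then 0 else zr i) -
          ((∑ k ∈ s, pa s μ P k i * hs i (k - s0 - 1) : ℚ) : ℝ))) := by
  have hdeg' : P.degree < (QQ s μ).degree := by
    rw [Polynomial.degree_eq_natDegree (QQ_monic _ _).ne_zero]
    exact lt_of_le_of_lt Polynomial.degree_le_natDegree (by exact_mod_cast (by omega))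
  have hres := residue_sum s μ P hdeg
  -- the shifted function
  let φ : ℕ → ℝ := fun t => ∑ k ∈ s, ∑ i ∈ Finset.Icc 1 r,
    ((pa s μ P k i : ℚ) : ℝ) * (1 / ((t : ℝ) + (((k - s0 - 1 : ℕ) : ℝ) + 1)) ^ i)
  have hφ : HasSum φ (∑ i ∈ Finset.Icc 1 r,
        (((∑ k ∈ s, pa s μ P k i : ℚ) : ℝ) * (if i = 1 then 0 else zr i) -
          ((∑ k ∈ s, pa s μ P k i * hs i (k - s0 - 1) : ℚ) : ℝ))) := by
    have hφ2 : φ = fun t : ℕ => ∑ i ∈ Finset.Icc 1 r, ∑ k ∈ s,
        ((pa s μ P k i : ℚ) : ℝ) * (1 / ((t : ℝ) + (((k - s0 - 1 : ℕ) : ℝ) + 1)) ^ i) := by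
      funext t
      exact Finset.sum_comm
    rw [hφ2]
    apply hasSum_sum
    intro i hi
    rw [Finset.mem_Icc] at hi
    by_cases hi1 : i = 1
    · subst hi1
      have h1 : HasSum (fun t : ℕ => ∑ k ∈ s, ((pa s μ P k 1 : ℚ) : ℝ) *
          (1 / ((t : ℝ) + (((k - s0 - 1 : ℕ) : ℝ) + 1)) - 1 / ((t : ℝ) + 1)))
          (∑ k ∈ s, ((pa s μ P k 1 : ℚ) : ℝ) * (-((hs 1 (k - s0 - 1) : ℚ) : ℝ))) := by
        apply hasSum_sum
        intro k _
        exact (Pool.Agent.H574R2.D3.B1_tel (k - s0 - 1)).mul_left _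
      convert h1 using 1
      · funext t
        have h2 : ∑ k ∈ s, ((pa s μ P k 1 : ℚ) : ℝ) * (1 / ((t : ℝ) + 1)) = 0 := by
          rw [← Finset.sum_mul]
          have : (∑ k ∈ s, ((pa s μ P k 1 : ℚ) : ℝ)) = ((∑ k ∈ s, pa s μ P k 1 : ℚ) : ℝ) := by
            push_cast; rfl
          rw [this, hres]
          simp
        simp only [mul_sub, Finset.sum_sub_distrib, pow_one]
        rw [h2, sub_zero]
      · rw [if_pos rfl, mul_zero, zero_sub]
        push_cast
        rw [← Finset.sum_neg_distrib]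
        exact Finset.sum_congr rfl fun k _ => by ring
    · have h1 : HasSum (fun t : ℕ => ∑ k ∈ s, ((pa s μ P k i : ℚ) : ℝ) *
          (1 / ((t : ℝ) + (((k - s0 - 1 : ℕ) : ℝ) + 1)) ^ i))
          (∑ k ∈ s, ((pa s μ P k i : ℚ) : ℝ) * (zr i - ((hs i (k - s0 - 1) : ℚ) : ℝ))) := by
        apply hasSum_sum
        intro k _
        exact (hasSum_tail (by omega) (k - s0 - 1)).mul_left _
      convert h1 using 1
      rw [if_neg hi1]
      push_cast
      rw [Finset.sum_mul, ← Finset.sum_sub_distrib]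
      exact Finset.sum_congr rfl fun k _ => by ring
  -- φ t is the value at t - s0
  have hval : ∀ t : ℕ, φ t = ((P.eval ((t : ℚ) - s0) / (QQ s μ).eval ((t : ℚ) - s0) : ℚ) : ℝ) := by
    intro t
    have hne : ∀ k ∈ s, ((t : ℚ) - s0) + (k : ℚ) ≠ 0 := by
      intro k hk
      have h2 : (s0 : ℚ) < k := by exact_mod_cast hs0 k hk
      have h3 : (0 : ℚ) ≤ t := by positivity
      intro h4
      linarith
    have h5 : P.eval ((t : ℚ) - s0) / (QQ s μ).eval ((t : ℚ) - s0) =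
        PowerSeries.coeff 0 (RS s μ P ((t : ℚ) - s0)) := by
      unfold RS
      have hQ := TS_QQ_mul_VV s μ ((t : ℚ) - s0) (fun m hm _ => hne m hm)
      have hQ2 := congrArg (PowerSeries.constantCoeff (R := ℚ)) hQ
      rw [map_mul, constCoeff_TS, map_one] at hQ2
      rw [PowerSeries.coeff_zero_eq_constantCoeff_apply, map_mul, constCoeff_TS]
      have hQ3 : (QQ s μ).eval ((t : ℚ) - s0) ≠ 0 := left_ne_zero_of_mul_eq_one hQ2
      rw [div_eq_iff hQ3, mul_assoc, mul_comm (PowerSeries.constantCoeff _), hQ2, mul_one]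
    rw [h5, coeff_RS s μ P hdeg' _ hne 0]
    push_cast
    show ∑ k ∈ s, _ = _
    apply Finset.sum_congr rfl
    intro k hk
    have h6 := sum_pfc_eq s μ P r k (hr k hk) (fun a i => ((a : ℚ) : ℝ) *
          (1 / ((t : ℝ) + (((k - s0 - 1 : ℕ) : ℝ) + 1)) ^ i)) (by intro i; simp)
    rw [← h6]
    apply Finset.sum_congr rfl
    intro j _
    have h7 : (((k - s0 - 1 : ℕ) : ℝ) + 1) = (k : ℝ) - s0 := by
      have h8 := hs0 k hk
      have h9 : k - s0 - 1 = k - (s0 + 1) := by omega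
      rw [h9, Nat.cast_sub (by omega)]
      push_cast
      ring
    rw [h7]
    simp only [pow_zero, add_zero, Nat.choose_self, Nat.cast_one, mul_one]
    rw [show (t : ℝ) + ((k : ℝ) - s0) = (t : ℝ) - s0 + k by ring]
  have hzero : ∀ t : ℕ, t < s0 → φ t = 0 := by
    intro t ht
    rw [hval]
    have h1 : ((t : ℚ) - s0) = -((s0 - t : ℕ) : ℚ) := by
      rw [Nat.cast_sub ht.le]
      ring
    rw [h1, hz _ (Finset.mem_Icc.2 ⟨by omega, by omega⟩), zero_div]
    simp
  have hshift : ∀ t : ℕ, φ (t + s0) = ((P.eval (t : ℚ) / (QQ s μ).eval (t : ℚ) : ℚ) : ℝ) := by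
    intro t
    rw [hval (t + s0)]
    push_cast
    rw [show (t : ℚ) + s0 - s0 = (t : ℚ) by ring]
  have h1 := (hasSum_nat_add_iff' (f := φ) s0).2 hφ
  have h2 : ∑ i ∈ Finset.range s0, φ i = 0 :=
    Finset.sum_eq_zero fun i hi => hzero i (Finset.mem_range.1 hi)
  rw [h2, sub_zero] at h1
  simpa only [hshift] using h1

/-! ### the concrete function -/

lemma B1_prod_Icc (t a b : ℕ) (hab : a ≤ b) :
    ∏ k ∈ Finset.Icc (a + 1) b, ((t : ℚ) + k) = ((t + b).factorial : ℚ) / ((t + a).factorial : ℚ) := by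
  rw [eq_div_iff (by exact_mod_cast Nat.factorial_ne_zero _)]
  induction b, hab using Nat.le_induction with
  | base => simp
  | succ b hb ih =>
    rw [Finset.prod_Icc_succ_top (by omega), mul_right_comm, ih,
      show t + (b + 1) = (t + b) + 1 by ring, Nat.factorial_succ]
    push_cast
    ring

lemma B1_mL_prod (n : ℕ) (f : ℕ → ℚ) : ∏ k ∈ sL n, f k ^ mL n k =
    (∏ k ∈ Finset.Icc (2 * n + 1) (12 * n), f k) * (∏ k ∈ Finset.Icc (3 * n + 1) (12 * n), f k) *
      (∏ k ∈ Finset.Icc (4 * n + 1) (12 * n), f k) := by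
  have h3 : ∏ k ∈ Finset.Icc (3 * n + 1) (12 * n), f k =
      ∏ k ∈ sL n, if 3 * n < k then f k else 1 := by
    rw [← Finset.prod_filter]
    congr 1
    ext k
    simp only [sL, Finset.mem_filter, Finset.mem_Icc]
    omega
  have h4 : ∏ k ∈ Finset.Icc (4 * n + 1) (12 * n), f k =
      ∏ k ∈ sL n, if 4 * n < k then f k else 1 := by
    rw [← Finset.prod_filter]
    congr 1
    ext k
    simp only [sL, Finset.mem_filter, Finset.mem_Icc]
    omega
  rw [h3, h4, ← Finset.prod_mul_distrib, ← Finset.prod_mul_distrib]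
  apply Finset.prod_congr rfl
  intro k _
  unfold mL
  by_cases h1 : k ≤ 3 * n
  · rw [if_pos h1, if_neg (by omega), if_neg (by omega)]
    ring
  · by_cases h2 : k ≤ 4 * n
    · rw [if_neg h1, if_pos h2, if_pos (by omega), if_neg (by omega)]
      ring
    · rw [if_neg h1, if_neg h2, if_pos (by omega), if_pos (by omega)]
      ring

lemma B1_mL_sum (n : ℕ) : ∑ k ∈ sL n, mL n k = 27 * n := by
  have h : ∀ k ∈ sL n, mL n k = 1 + (if 3 * n < k then 1 else 0) + (if 4 * n < k then 1 else 0) := by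
    intro k _
    unfold mL
    split_ifs <;> omega
  rw [Finset.sum_congr rfl h, Finset.sum_add_distrib, Finset.sum_add_distrib,
    ← Finset.sum_filter, ← Finset.sum_filter]
  have h3 : (sL n).filter (fun k => 3 * n < k) = Finset.Icc (3 * n + 1) (12 * n) := by
    ext k
    simp only [sL, Finset.mem_filter, Finset.mem_Icc]
    omega
  have h4 : (sL n).filter (fun k => 4 * n < k) = Finset.Icc (4 * n + 1) (12 * n) := by
    ext k
    simp only [sL, Finset.mem_filter, Finset.mem_Icc]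
    omega
  rw [h3, h4]
  simp only [Finset.sum_const, Nat.card_Icc, smul_eq_mul, mul_one, sL]
  omega

lemma B1_natDegree {n : ℕ} (hn : 1 ≤ n) (Q : ℚ[X]) (hQ : Q.natDegree ≤ 25 * n - 2) :
    (PL n * Q).natDegree + 2 ≤ (QQ (sL n) (mL n)).natDegree := by
  rw [QQ_natDegree, B1_mL_sum]
  have h1 : (PL n).natDegree ≤ 2 * n := by
    unfold PL
    refine (Polynomial.natDegree_C_mul_le _ _).trans ?_
    refine (Polynomial.natDegree_prod_le _ _).trans ?_
    refine (Finset.sum_le_card_nsmul _ _ 1 fun m _ => by rw [Polynomial.natDegree_X_add_C]).trans ?_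
    rw [Nat.card_Icc, smul_eq_mul]
    omega
  have h2 : (PL n * Q).natDegree ≤ (PL n).natDegree + Q.natDegree := Polynomial.natDegree_mul_le
  omega

lemma B1_evalPL (n t : ℕ) : (PL n).eval (t : ℚ) =
    cL n * (((t + 2 * n).factorial : ℚ) / (t.factorial : ℚ)) := by
  unfold PL
  rw [Polynomial.eval_mul, Polynomial.eval_prod, Polynomial.eval_C]
  have h := B1_prod_Icc t 0 (2 * n) (by omega)
  simp only [Nat.zero_add, Nat.add_zero] at h
  rw [← h]
  congr 1
  apply Finset.prod_congr rfl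
  intro k _
  rw [Polynomial.eval_add, Polynomial.eval_X, Polynomial.eval_C]

lemma B1_evalQQ (n t : ℕ) : (QQ (sL n) (mL n)).eval (t : ℚ) =
    (((t + 12 * n).factorial : ℚ) / ((t + 2 * n).factorial : ℚ)) *
      (((t + 12 * n).factorial : ℚ) / ((t + 3 * n).factorial : ℚ)) *
      (((t + 12 * n).factorial : ℚ) / ((t + 4 * n).factorial : ℚ)) := by
  unfold QQ
  rw [Polynomial.eval_prod, ← B1_prod_Icc t (2 * n) (12 * n) (by omega),
    ← B1_prod_Icc t (3 * n) (12 * n) (by omega), ← B1_prod_Icc t (4 * n) (12 * n) (by omega),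
    ← B1_mL_prod n (fun k => (t : ℚ) + k)]
  apply Finset.prod_congr rfl
  intro k _
  simp [Polynomial.eval_pow]

lemma B1_val (n t : ℕ) (Q : ℚ[X]) :
    (((PL n * Q).eval (t : ℚ) / (QQ (sL n) (mL n)).eval (t : ℚ) : ℚ) : ℝ) =
      Wt n t * ((Q.eval (t : ℚ) : ℚ) : ℝ) := by
  rw [Polynomial.eval_mul, B1_evalPL, B1_evalQQ]
  unfold Wt cL
  have f1 : ((t + 2 * n).factorial : ℝ) ≠ 0 := by exact_mod_cast Nat.factorial_ne_zero _
  have f2 : (t.factorial : ℝ) ≠ 0 := by exact_mod_cast Nat.factorial_ne_zero _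
  have f3 : ((t + 3 * n).factorial : ℝ) ≠ 0 := by exact_mod_cast Nat.factorial_ne_zero _
  have f4 : ((t + 4 * n).factorial : ℝ) ≠ 0 := by exact_mod_cast Nat.factorial_ne_zero _
  have f5 : ((t + 12 * n).factorial : ℝ) ≠ 0 := by exact_mod_cast Nat.factorial_ne_zero _
  have f6 : ((2 * n).factorial : ℝ) ≠ 0 := by exact_mod_cast Nat.factorial_ne_zero _
  simp only [Rat.cast_div, Rat.cast_mul, Rat.cast_natCast, Nat.cast_mul]
  field_simp

theorem B1_hasSum {n : ℕ} (hn : 1 ≤ n) (α β : ℚ) (h : zr 3 = (α : ℝ) + β * zr 2) (Q : ℚ[X])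
    (hQ : Q.natDegree ≤ 25 * n - 2) :
    HasSum (fun t : ℕ => Wt n t * ((Q.eval (t : ℚ) : ℚ) : ℝ))
      (((AL n α Q : ℚ) : ℝ) + zr 2 * ((BL n β Q : ℚ) : ℝ)) := by
  have hd := B1_natDegree hn Q hQ
  have h1 := B1_form0 (sL n) (mL n) (PL n * Q) hd (2 * n) 3
    (fun k hk => (Finset.mem_Icc.1 hk).1) (fun k _ => by unfold mL; split_ifs <;> omega) (by
      intro m hm
      unfold PL
      rw [Polynomial.eval_mul, Polynomial.eval_mul, Polynomial.eval_prod,
        Finset.prod_eq_zero hm (by simp), mul_zero, zero_mul])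
  have h2 : (fun t : ℕ => Wt n t * ((Q.eval (t : ℚ) : ℚ) : ℝ)) =
      fun t : ℕ => (((PL n * Q).eval (t : ℚ) / (QQ (sL n) (mL n)).eval (t : ℚ) : ℚ) : ℝ) := by
    funext t
    rw [B1_val]
  rw [h2]
  convert h1 using 1
  rw [AL_apply, BL_apply]
  have h6 := residue_sum (sL n) (mL n) (PL n * Q) hd
  unfold xa xb rho
  have e3 : Finset.Icc 1 3 = ({1, 2, 3} : Finset ℕ) := by decide
  rw [e3]
  simp only [Finset.sum_insert, Finset.mem_insert, Finset.mem_singleton, Finset.sum_singleton,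
    OfNat.one_ne_ofNat, or_self, not_false_eq_true, OfNat.ofNat_ne_one, if_true, if_false,
    show ¬ ((2 : ℕ) = 3) by decide]
  rw [h]
  push_cast
  ring

end

end Pool.Agent.LZ
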