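import Pool.Agent.H337R2.LZ.Defs
import Pool.Agent.H337R2.Stir
import Pool.Agent.H337R2.LZ.G0

/-!
# G2: entries of the pole part
-/

open Polynomial Pool.Agent.H337R2

namespace Pool.Agent.LZ

noncomputable section

/-! ### the truncated norm -/

/-- truncated norm `|f_0| + |f_1|` -/
def G2n (f : PowerSeries ℚ) : ℝ :=
  |((PowerSeries.coeff 0 f : ℚ) : ℝ)| + |((PowerSeries.coeff 1 f : ℚ) : ℝ)|

lemma G2n_nonneg (f : PowerSeries ℚ) : 0 ≤ G2n f := add_nonneg (abs_nonneg _) (abs_nonneg _)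

lemma G2n_mul (f g : PowerSeries ℚ) : G2n (f * g) ≤ G2n f * G2n g := by
  unfold G2n
  have h0 : PowerSeries.coeff 0 (f * g) = PowerSeries.coeff 0 f * PowerSeries.coeff 0 g := by
    rw [PowerSeries.coeff_mul]; simp
  have h1 : PowerSeries.coeff 1 (f * g) = PowerSeries.coeff 0 f * PowerSeries.coeff 1 g +
      PowerSeries.coeff 1 f * PowerSeries.coeff 0 g := by
    rw [PowerSeries.coeff_mul, Finset.Nat.antidiagonal_succ]; simp
  rw [h0, h1]
  push_cast
  rw [abs_mul]
  have h2 := abs_add_le (((PowerSeries.coeff 0 f : ℚ) : ℝ) * ((PowerSeries.coeff 1 g : ℚ) : ℝ))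
    (((PowerSeries.coeff 1 f : ℚ) : ℝ) * ((PowerSeries.coeff 0 g : ℚ) : ℝ))
  rw [abs_mul, abs_mul] at h2
  nlinarith [abs_nonneg ((PowerSeries.coeff 1 f : ℚ) : ℝ), abs_nonneg ((PowerSeries.coeff 1 g : ℚ) : ℝ),
    mul_nonneg (abs_nonneg ((PowerSeries.coeff 1 f : ℚ) : ℝ)) (abs_nonneg ((PowerSeries.coeff 1 g : ℚ) : ℝ))]

lemma G2n_one : G2n 1 = 1 := by
  unfold G2n
  have h1 : PowerSeries.coeff 1 (1 : PowerSeries ℚ) = 0 := by
    rw [PowerSeries.coeff_one]; simp
  rw [h1]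
  simp

lemma G2n_C (a : ℚ) : G2n (PowerSeries.C a) = |(a : ℝ)| := by
  unfold G2n
  rw [PowerSeries.coeff_C, PowerSeries.coeff_C]
  simp

lemma G2n_lin (a : ℚ) : G2n (PowerSeries.X + PowerSeries.C a) = |(a : ℝ)| + 1 := by
  unfold G2n
  rw [map_add, map_add, PowerSeries.coeff_C, PowerSeries.coeff_C, PowerSeries.coeff_X, PowerSeries.coeff_X]
  simp

lemma G2n_iv (a : ℚ) : G2n (iv a) = 1 / |(a : ℝ)| * (1 + 1 / |(a : ℝ)|) := by
  unfold G2n iv
  rw [PowerSeries.coeff_mk, PowerSeries.coeff_mk]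
  push_cast
  simp only [abs_div, abs_pow, abs_neg, abs_one]
  ring

lemma G2n_mul_exp {f g : PowerSeries ℚ} {a b : ℝ} (hf : G2n f ≤ Real.exp a) (hg : G2n g ≤ Real.exp b) :
    G2n (f * g) ≤ Real.exp (a + b) := by
  rw [Real.exp_add]
  exact (G2n_mul f g).trans (mul_le_mul hf hg (G2n_nonneg _) (Real.exp_pos _).le)

lemma G2n_pow_exp {f : PowerSeries ℚ} {a : ℝ} (hf : G2n f ≤ Real.exp a) (m : ℕ) :
    G2n (f ^ m) ≤ Real.exp (m * a) := by
  induction m with
  | zero => rw [pow_zero, G2n_one]; simp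
  | succ m ih =>
    rw [pow_succ]
    have := G2n_mul_exp ih hf
    refine this.trans (le_of_eq ?_)
    push_cast
    ring_nf

lemma G2n_prod_exp {ι : Type*} (s : Finset ι) (f : ι → PowerSeries ℚ) (g : ι → ℝ)
    (h : ∀ i ∈ s, G2n (f i) ≤ Real.exp (g i)) : G2n (∏ i ∈ s, f i) ≤ Real.exp (∑ i ∈ s, g i) := by
  classical
  induction s using Finset.induction_on with
  | empty => rw [Finset.prod_empty, Finset.sum_empty, G2n_one]; simp
  | insert a s ha ih =>
    rw [Finset.prod_insert ha, Finset.sum_insert ha]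
    exact G2n_mul_exp (h a (Finset.mem_insert_self a s))
      (ih fun i hi => h i (Finset.mem_insert_of_mem hi))

lemma G2n_coeff (f : PowerSeries ℚ) {j : ℕ} (hj : j ≤ 1) : |((PowerSeries.coeff j f : ℚ) : ℝ)| ≤ G2n f := by
  unfold G2n
  interval_cases j
  · linarith [abs_nonneg ((PowerSeries.coeff 1 f : ℚ) : ℝ)]
  · linarith [abs_nonneg ((PowerSeries.coeff 0 f : ℚ) : ℝ)]

/-! ### sums of `log (1 + 10/|u|)` -/

lemma G2_harm (M : ℕ) (hM : 1 ≤ M) : ∑ d ∈ Finset.range (M + 1), 10 / (d : ℝ) ≤ 10 * (1 + Real.log M) := by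
  have h := harmonic_le_one_add_log M
  have h2 : ((harmonic M : ℚ) : ℝ) = ∑ d ∈ Finset.range (M + 1), 1 / (d : ℝ) := by
    rw [Finset.sum_range_succ', harmonic]
    push_cast
    simp
  have h3 : ∑ d ∈ Finset.range (M + 1), 10 / (d : ℝ) = 10 * ∑ d ∈ Finset.range (M + 1), 1 / (d : ℝ) := by
    rw [Finset.mul_sum]
    exact Finset.sum_congr rfl fun d _ => by ring
  rw [h3, ← h2]
  linarith

lemma G2_half {ι : Type*} (s : Finset ι) (v : ι → ℕ) (hinj : Set.InjOn v s) (M : ℕ) (hM : 1 ≤ M)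
    (hv : ∀ l ∈ s, v l ≤ M) : ∑ l ∈ s, 10 / (v l : ℝ) ≤ 10 * (1 + Real.log M) := by
  classical
  refine le_trans ?_ (G2_harm M hM)
  rw [← Finset.sum_image (f := fun d : ℕ => 10 / (d : ℝ)) (g := v) hinj]
  apply Finset.sum_le_sum_of_subset_of_nonneg
  · intro d hd
    obtain ⟨l, hl, rfl⟩ := Finset.mem_image.1 hd
    exact Finset.mem_range.2 (Nat.lt_succ_of_le (hv l hl))
  · intro d _ _
    positivity

lemma G2_sum {ι : Type*} (s : Finset ι) (u : ι → ℤ) (hinj : Set.InjOn u s) (M : ℕ) (hM : 1 ≤ M)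
    (hu : ∀ l ∈ s, |u l| ≤ M) :
    ∑ l ∈ s, Real.log (1 + 10 / |(u l : ℝ)|) ≤ 20 * (1 + Real.log M) := by
  classical
  have h1 : ∀ l ∈ s, Real.log (1 + 10 / |(u l : ℝ)|) ≤ 10 / (((u l).natAbs : ℕ) : ℝ) := by
    intro l _
    have e : (((u l).natAbs : ℕ) : ℝ) = |(u l : ℝ)| := by
      rw [Nat.cast_natAbs]; push_cast; rfl
    rw [e]
    have := Real.log_le_sub_one_of_pos (show 0 < 1 + 10 / |(u l : ℝ)| by positivity)
    linarith
  refine (Finset.sum_le_sum h1).trans ?_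
  rw [← Finset.sum_filter_add_sum_filter_not s (fun l => 0 ≤ u l)]
  have hb : ∀ l ∈ s, (u l).natAbs ≤ M := fun l hl => by
    have := hu l hl
    rw [Int.abs_eq_natAbs] at this
    exact_mod_cast this
  have h2 := G2_half (s.filter fun l => 0 ≤ u l) (fun l => (u l).natAbs) (by
    intro a ha b hb' hab
    rw [Finset.coe_filter, Set.mem_setOf_eq] at ha hb'
    apply hinj ha.1 hb'.1
    simp only at hab
    have := ha.2
    have := hb'.2
    omega) M hM (fun l hl => hb l (Finset.mem_filter.1 hl).1)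
  have h3 := G2_half (s.filter fun l => ¬ 0 ≤ u l) (fun l => (u l).natAbs) (by
    intro a ha b hb' hab
    rw [Finset.coe_filter, Set.mem_setOf_eq] at ha hb'
    apply hinj ha.1 hb'.1
    simp only at hab
    have := ha.2
    have := hb'.2
    omega) M hM (fun l hl => hb l (Finset.mem_filter.1 hl).1)
  linarith

/-! ### Stirling -/

lemma G2_lf_low (m : ℕ) : Psi m ≤ Real.log (m.factorial : ℝ) := by
  have h := fac_low 0 m
  rw [Nat.factorial_zero, zero_add, Nat.cast_zero, xl_zero, Real.exp_zero, mul_one, zero_add, Nat.cast_one,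
    one_mul] at h
  have h2 : (0 : ℝ) < m.factorial := by positivity
  have h3 := (Real.log_le_log (Real.exp_pos _) h)
  rw [Real.log_exp, Real.log_mul h2.ne' (Real.exp_pos _).ne', Real.log_exp] at h3
  unfold Psi
  unfold xl at h3
  linarith

lemma G2_lf_up (m : ℕ) : Real.log (m.factorial : ℝ) ≤ Psi m + 1 + Real.log (m + 1) := by
  have h := fac_up m
  have h2 : (0 : ℝ) < m.factorial := by positivity
  have h3 := (Real.log_le_log (by positivity) h)
  rw [Real.log_mul h2.ne' (Real.exp_pos _).ne', Real.log_exp,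
    Real.log_mul (by positivity) (Real.exp_pos _).ne', Real.log_mul (Real.exp_pos _).ne' (by positivity),
    Real.log_exp, Real.log_exp] at h3
  unfold Psi
  unfold xl at h3
  linarith

lemma G2_Psi_neg (x : ℝ) : Psi (-x) = - Psi x := by
  unfold Psi
  rw [Real.log_neg_eq_log]; ring

lemma G2_Psi_scale {c : ℝ} (hc : c ≠ 0) (x : ℝ) : Psi (c * x) = c * Psi x + c * x * Real.log c := by
  unfold Psi
  rcases eq_or_ne x 0 with rfl | hx
  · simp
  · rw [Real.log_mul hc hx]; ring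

/-- `∑_{a < m ≤ b, m ≠ k} log |m - k|` -/
lemma G2_S {a b k : ℕ} (hab : a ≤ b) (hk : k ≤ b) :
    Psi ((b : ℝ) - k) + Psi ((k : ℝ) - a) - 1 - Real.log (b + 1) ≤
      ∑ m ∈ (Finset.Icc (a + 1) b).erase k, Real.log |(m : ℝ) - k| := by
  have hup : ∀ N : ℕ, ∑ d ∈ Finset.range N, Real.log ((d : ℝ) + 1) = Real.log (N.factorial : ℝ) := by
    intro N
    induction N with
    | zero => simp
    | succ N ih =>
      rw [Finset.sum_range_succ, ih, Nat.factorial_succ, Nat.cast_mul, Real.log_mul (by positivity) (by positivity)]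
      push_cast
      ring
  have hright : ∑ m ∈ Finset.Ico (k + 1) (b + 1), Real.log |(m : ℝ) - k| = Real.log ((b - k).factorial : ℝ) := by
    rw [Finset.sum_Ico_eq_sum_range, ← hup]
    have : b + 1 - (k + 1) = b - k := by omega
    rw [this]
    refine Finset.sum_congr rfl fun d _ => ?_
    push_cast
    rw [abs_of_nonneg (by linarith [Nat.cast_nonneg (α := ℝ) d])]
    congr 1
    ring
  have hlow := G2_lf_low (b - k)
  rw [Nat.cast_sub hk] at hlow
  rcases Nat.lt_or_ge a k with h | h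
  · have hset : (Finset.Icc (a + 1) b).erase k = Finset.Ico (a + 1) k ∪ Finset.Ico (k + 1) (b + 1) := by
      ext x
      simp only [Finset.mem_erase, Finset.mem_Icc, Finset.mem_union, Finset.mem_Ico]
      omega
    have hdisj : Disjoint (Finset.Ico (a + 1) k) (Finset.Ico (k + 1) (b + 1)) := by
      rw [Finset.disjoint_left]
      intro x
      simp only [Finset.mem_Ico]
      omega
    rw [hset, Finset.sum_union hdisj, hright]
    have hleft : ∑ m ∈ Finset.Ico (a + 1) k, Real.log |(m : ℝ) - k| = Real.log ((k - a - 1).factorial : ℝ) := by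
      rw [Finset.sum_Ico_eq_sum_range, ← Finset.sum_range_reflect, ← hup]
      have : k - (a + 1) = k - a - 1 := by omega
      rw [this]
      refine Finset.sum_congr rfl fun d hd => ?_
      rw [Finset.mem_range] at hd
      have h5 : a + 1 + (k - a - 1 - 1 - d) = k - 1 - d := by omega
      rw [h5]
      have h4 : ((k - 1 - d : ℕ) : ℝ) = k - 1 - d := by
        rw [Nat.cast_sub (by omega), Nat.cast_sub (by omega)]
        push_cast
        ring
      rw [h4, abs_of_nonpos (by linarith [Nat.cast_nonneg (α := ℝ) d])]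
      congr 1
      ring
    rw [hleft]
    have h6 := G2_lf_low (k - a)
    rw [Nat.cast_sub h.le] at h6
    have h7 : Real.log ((k - a).factorial : ℝ) = Real.log ((k : ℝ) - a) + Real.log ((k - a - 1).factorial : ℝ) := by
      obtain ⟨e, he⟩ : ∃ e, k - a = e + 1 := ⟨k - a - 1, by omega⟩
      have he2 : (k : ℝ) - a = ((e + 1 : ℕ) : ℝ) := by rw [← he, Nat.cast_sub h.le]
      rw [he2, he, Nat.factorial_succ, Nat.cast_mul, Real.log_mul (by positivity) (by positivity)]
      simp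
    have h8 : Real.log ((k : ℝ) - a) ≤ Real.log (b + 1) := by
      apply Real.log_le_log
      · have : (a : ℝ) < k := by exact_mod_cast h
        linarith
      · have : (k : ℝ) ≤ b := by exact_mod_cast hk
        linarith [Nat.cast_nonneg (α := ℝ) a]
    linarith
  · have hset : (Finset.Icc (a + 1) b).erase k = Finset.Ico (a + 1) (b + 1) := by
      ext x
      simp only [Finset.mem_erase, Finset.mem_Icc, Finset.mem_Ico]
      omega
    rw [hset]
    have hsplit : ∑ m ∈ Finset.Ico (k + 1) (b + 1), Real.log |(m : ℝ) - k| =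
        ∑ m ∈ Finset.Ico (k + 1) (a + 1), Real.log |(m : ℝ) - k| +
          ∑ m ∈ Finset.Ico (a + 1) (b + 1), Real.log |(m : ℝ) - k| :=
      (Finset.sum_Ico_consecutive _ (by omega) (by omega)).symm
    have hmid : ∑ m ∈ Finset.Ico (k + 1) (a + 1), Real.log |(m : ℝ) - k| = Real.log ((a - k).factorial : ℝ) := by
      rw [Finset.sum_Ico_eq_sum_range, ← hup]
      have : a + 1 - (k + 1) = a - k := by omega
      rw [this]
      refine Finset.sum_congr rfl fun d _ => ?_
      push_cast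
      rw [abs_of_nonneg (by linarith [Nat.cast_nonneg (α := ℝ) d])]
      congr 1
      ring
    rw [hright, hmid] at hsplit
    have h6 := G2_lf_up (a - k)
    rw [Nat.cast_sub h] at h6
    have h7 : Psi ((k : ℝ) - a) = - Psi ((a : ℝ) - k) := by
      rw [← G2_Psi_neg]; congr 1; ring
    have h8 : Real.log ((a : ℝ) - k + 1) ≤ Real.log (b + 1) := by
      apply Real.log_le_log
      · have : (k : ℝ) ≤ a := by exact_mod_cast h
        linarith
      · have : (a : ℝ) ≤ b := by exact_mod_cast hab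
        linarith [Nat.cast_nonneg (α := ℝ) k]
    linarith

/-! ### the factors -/

lemma G2_node (k : ℕ) (z : ℚ) : G2n (TS (-(k : ℚ)) (X - C z)) ≤
    Real.exp (Real.log (|((-(k : ℚ) - z : ℚ) : ℝ)| + 1)) := by
  have e : (X - C z : ℚ[X]) = X + C (-z) := by rw [map_neg]; ring
  rw [e, TS_lin, G2n_lin, Real.exp_log (by positivity), ← sub_eq_add_neg]

/-- the nodes -/
lemma G2_nodes (hinj : ∀ n : ℕ, 1 ≤ n → Set.InjOn (nd n) (Finset.range (14 * n))) {n : ℕ} (hn : 1 ≤ n)
    (hbd : ∀ i < 14 * n, |nd n i| ≤ 972 * n) {k : ℕ} (hk : k ≤ 12 * n) (s : Finset ℕ)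
    (hs : s ⊆ Finset.range (14 * n)) (i : ℕ) :
    G2n (TS (-(k : ℚ)) (lag s (zq n) i)) ≤
      Real.exp (Lp n s (-(10 * k : ℤ)) + 20 * (1 + Real.log ((1100 * n : ℕ) : ℝ))) := by
  classical
  unfold lag
  rw [map_prod]
  refine (G2n_prod_exp _ _ _ fun l _ => G2_node k (zq n l)).trans (Real.exp_le_exp.2 ?_)
  have h1 : ∑ l ∈ s.erase i, Real.log (|((-(k : ℚ) - zq n l : ℚ) : ℝ)| + 1) ≤
      ∑ l ∈ s, Real.log (|((-(k : ℚ) - zq n l : ℚ) : ℝ)| + 1) := by
    apply Finset.sum_le_sum_of_subset_of_nonneg (Finset.erase_subset _ _)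
    intro l _ _
    exact Real.log_nonneg (by linarith [abs_nonneg (((-(k : ℚ) - zq n l : ℚ) : ℝ))])
  refine h1.trans ?_
  have h2 : ∀ l ∈ s, Real.log (|((-(k : ℚ) - zq n l : ℚ) : ℝ)| + 1) =
      Real.log (((-(10 * k : ℤ) - nd n l : ℤ) : ℝ) / 10) +
        Real.log (1 + 10 / |((-(10 * k : ℤ) - nd n l : ℤ) : ℝ)|) := by
    intro l _
    have e : ((-(k : ℚ) - zq n l : ℚ) : ℝ) = ((-(10 * k : ℤ) - nd n l : ℤ) : ℝ) / 10 := by
      unfold zq
      push_cast
      ring
    rw [e]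
    generalize ((-(10 * k : ℤ) - nd n l : ℤ) : ℝ) = u
    rcases eq_or_ne u 0 with rfl | hu
    · simp
    · have hu' : 0 < |u| := abs_pos.2 hu
      rw [← Real.log_abs (u / 10), ← Real.log_mul (by positivity) (by positivity)]
      congr 1
      rw [abs_div, abs_of_pos (by norm_num : (0 : ℝ) < 10)]
      field_simp
  rw [Finset.sum_congr rfl h2, Finset.sum_add_distrib]
  unfold Lp
  have h3 := G2_sum s (fun l => -(10 * k : ℤ) - nd n l) (by
    intro a ha b hb hab
    apply hinj n hn (hs ha) (hs hb)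
    simp only at hab
    omega) (1100 * n) (by omega) (by
    intro l hl
    have h4 := hbd l (Finset.mem_range.1 (hs hl))
    rw [abs_le] at h4 ⊢
    push_cast
    have h5 : (k : ℤ) ≤ 12 * n := by exact_mod_cast hk
    constructor <;> omega)
  linarith

/-- the zeros -/
lemma G2_zeros {n k : ℕ} (hk1 : 2 * n < k) (hk2 : k ≤ 12 * n) :
    G2n (TS (-(k : ℚ)) (∏ j ∈ Finset.Icc 1 (2 * n), (X + C (j : ℚ)))) ≤
      Real.exp (Psi k - Psi ((k : ℝ) - 2 * n) + 1 + Real.log (12 * n + 1)) := by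
  rw [map_prod]
  have h1 : ∀ j ∈ Finset.Icc 1 (2 * n), G2n (TS (-(k : ℚ)) (X + C (j : ℚ))) ≤
      Real.exp (Real.log ((k : ℝ) - j + 1)) := by
    intro j hj
    rw [Finset.mem_Icc] at hj
    have h2 : (j : ℝ) + 1 ≤ k := by exact_mod_cast (by omega : j + 1 ≤ k)
    rw [TS_lin, G2n_lin, Real.exp_log (by linarith)]
    push_cast
    rw [abs_of_nonpos (by linarith)]
    linarith
  refine (G2n_prod_exp _ _ _ h1).trans (Real.exp_le_exp.2 ?_)
  have h2 : ∀ m : ℕ, m ≤ k → ∑ j ∈ Finset.Icc 1 m, Real.log ((k : ℝ) - j + 1) =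
      Real.log (k.factorial : ℝ) - Real.log ((k - m).factorial : ℝ) := by
    intro m
    induction m with
    | zero => intro _; simp
    | succ m ih =>
      intro hm
      rw [Finset.sum_Icc_succ_top (by omega), ih (by omega)]
      obtain ⟨e, he⟩ : ∃ e, k - m = e + 1 := ⟨k - m - 1, by omega⟩
      have he' : k - (m + 1) = e := by omega
      rw [he, he', Nat.factorial_succ, Nat.cast_mul, Real.log_mul (by positivity) (by positivity)]
      have h3 : (k : ℝ) - ((m + 1 : ℕ) : ℝ) + 1 = ((e + 1 : ℕ) : ℝ) := by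
        have : (k : ℝ) = m + (e + 1 : ℕ) := by exact_mod_cast (by omega : k = m + (e + 1))
        rw [this]; push_cast; ring
      rw [h3]
      ring
  rw [h2 (2 * n) hk1.le]
  have h3 := G2_lf_up k
  have h4 := G2_lf_low (k - 2 * n)
  rw [Nat.cast_sub hk1.le] at h4
  push_cast at h4
  have h5 : Real.log ((k : ℝ) + 1) ≤ Real.log (12 * n + 1) := by
    apply Real.log_le_log (by positivity)
    have : (k : ℝ) ≤ 12 * n := by exact_mod_cast hk2
    linarith
  linarith

/-- the constant -/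
lemma G2_const (n k : ℕ) : G2n (TS (-(k : ℚ)) (C (cL n))) ≤
    Real.exp (Psi (10 * n) + Psi (9 * n) + Psi (8 * n) - Psi (2 * n) + 3 + 3 * Real.log (12 * n + 1)) := by
  rw [TS_C, G2n_C]
  have h0 : |((cL n : ℚ) : ℝ)| = ((cL n : ℚ) : ℝ) := by
    apply abs_of_nonneg
    unfold cL
    positivity
  rw [h0]
  have h1 : (0 : ℝ) < ((cL n : ℚ) : ℝ) := by
    unfold cL
    positivity
  rw [← Real.log_le_iff_le_exp h1]
  have h2 : Real.log ((cL n : ℚ) : ℝ) = Real.log ((10 * n).factorial : ℝ) + Real.log ((9 * n).factorial : ℝ) +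
      Real.log ((8 * n).factorial : ℝ) - Real.log ((2 * n).factorial : ℝ) := by
    unfold cL
    push_cast
    rw [Real.log_div (by positivity) (by positivity), Real.log_mul (by positivity) (by positivity),
      Real.log_mul (by positivity) (by positivity)]
  rw [h2]
  have h3 := G2_lf_up (10 * n)
  have h4 := G2_lf_up (9 * n)
  have h5 := G2_lf_up (8 * n)
  have h6 := G2_lf_low (2 * n)
  push_cast at h3 h4 h5 h6
  have hn : (0 : ℝ) ≤ n := Nat.cast_nonneg n
  have h7 : Real.log (10 * (n : ℝ) + 1) ≤ Real.log (12 * n + 1) := Real.log_le_log (by positivity) (by linarith)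
  have h8 : Real.log (9 * (n : ℝ) + 1) ≤ Real.log (12 * n + 1) := Real.log_le_log (by positivity) (by linarith)
  have h9 : Real.log (8 * (n : ℝ) + 1) ≤ Real.log (12 * n + 1) := Real.log_le_log (by positivity) (by linarith)
  linarith

/-- the poles -/
lemma G2_poles {n k : ℕ} (hn : 1 ≤ n) (hk1 : 2 * n < k) (hk2 : k ≤ 12 * n) :
    G2n (VV ((sL n).erase k) (mL n) (-(k : ℚ))) ≤
      Real.exp (-(3 * Psi (12 * n - (k : ℝ)) + Psi ((k : ℝ) - 2 * n) + Psi ((k : ℝ) - 3 * n) +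
        Psi ((k : ℝ) - 4 * n)) + 3 + 3 * Real.log (12 * n + 1) +
        60 * (1 + Real.log ((1100 * n : ℕ) : ℝ))) := by
  classical
  unfold VV
  have h1 : ∀ m ∈ (sL n).erase k, G2n (iv (-(k : ℚ) + m) ^ mL n m) ≤
      Real.exp ((mL n m : ℝ) * (- Real.log |(m : ℝ) - k| + Real.log (1 + 10 / |(m : ℝ) - k|))) := by
    intro m hm
    apply G2n_pow_exp
    have hne : m ≠ k := Finset.ne_of_mem_erase hm
    have h2 : 0 < |(m : ℝ) - k| := by
      rw [abs_pos, sub_ne_zero]
      exact_mod_cast hne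
    rw [G2n_iv, Real.exp_add, Real.exp_neg, Real.exp_log h2, Real.exp_log (by positivity)]
    have e : ((-(k : ℚ) + m : ℚ) : ℝ) = (m : ℝ) - k := by push_cast; ring
    rw [e, one_div]
    apply mul_le_mul_of_nonneg_left _ (by positivity)
    have : |(m : ℝ) - k|⁻¹ ≤ 10 / |(m : ℝ) - k| := by
      rw [div_eq_mul_inv]
      have := inv_nonneg.2 h2.le
      linarith
    linarith
  refine (G2n_prod_exp _ _ _ h1).trans (Real.exp_le_exp.2 ?_)
  have h3 : ∀ m ∈ (sL n).erase k,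
      (mL n m : ℝ) * (- Real.log |(m : ℝ) - k| + Real.log (1 + 10 / |(m : ℝ) - k|)) ≤
      (mL n m : ℝ) * (- Real.log |(m : ℝ) - k|) + 3 * Real.log (1 + 10 / |(m : ℝ) - k|) := by
    intro m _
    rw [mul_add]
    have h4 : (mL n m : ℝ) ≤ 3 := by
      have : mL n m ≤ 3 := by unfold mL; split_ifs <;> omega
      exact_mod_cast this
    have h5 : 0 ≤ Real.log (1 + 10 / |(m : ℝ) - k|) := Real.log_nonneg (by
      have : 0 ≤ 10 / |(m : ℝ) - k| := by positivity
      linarith)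
    have := mul_le_mul_of_nonneg_right h4 h5
    linarith
  refine (Finset.sum_le_sum h3).trans ?_
  rw [Finset.sum_add_distrib, ← Finset.mul_sum]
  have h6 := G2_sum ((sL n).erase k) (fun m => (m : ℤ) - k) (by
    intro a _ b _ hab
    simp only at hab
    omega) (1100 * n) (by omega) (by
    intro m hm
    have hm' := Finset.mem_of_mem_erase hm
    rw [Finset.mem_Icc] at hm'
    rw [abs_le]
    push_cast
    constructor <;> omega)
  have h7 : ∀ m : ℕ, (((m : ℤ) - k : ℤ) : ℝ) = (m : ℝ) - k := by intro m; push_cast; rfl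
  simp only [h7] at h6
  have h8 : ∑ m ∈ (sL n).erase k, (mL n m : ℝ) * (- Real.log |(m : ℝ) - k|) =
      -(∑ m ∈ (Finset.Icc (2 * n + 1) (12 * n)).erase k, Real.log |(m : ℝ) - k| +
        ∑ m ∈ (Finset.Icc (3 * n + 1) (12 * n)).erase k, Real.log |(m : ℝ) - k| +
        ∑ m ∈ (Finset.Icc (4 * n + 1) (12 * n)).erase k, Real.log |(m : ℝ) - k|) := by
    have e3 : ∑ m ∈ (Finset.Icc (3 * n + 1) (12 * n)).erase k, Real.log |(m : ℝ) - k| =
        ∑ m ∈ (sL n).erase k, if 3 * n < m then Real.log |(m : ℝ) - k| else 0 := by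
      rw [← Finset.sum_filter]
      apply Finset.sum_congr _ fun _ _ => rfl
      ext x
      simp only [Finset.mem_erase, Finset.mem_Icc, Finset.mem_filter]
      omega
    have e4 : ∑ m ∈ (Finset.Icc (4 * n + 1) (12 * n)).erase k, Real.log |(m : ℝ) - k| =
        ∑ m ∈ (sL n).erase k, if 4 * n < m then Real.log |(m : ℝ) - k| else 0 := by
      rw [← Finset.sum_filter]
      apply Finset.sum_congr _ fun _ _ => rfl
      ext x
      simp only [Finset.mem_erase, Finset.mem_Icc, Finset.mem_filter]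
      omega
    rw [e3, e4, ← Finset.sum_add_distrib, ← Finset.sum_add_distrib, ← Finset.sum_neg_distrib]
    refine Finset.sum_congr rfl fun m _ => ?_
    unfold mL
    split_ifs <;> first | (exfalso; omega) | (push_cast; ring)
  have h9 := G2_S (a := 2 * n) (b := 12 * n) (k := k) (by omega) hk2
  have h10 := G2_S (a := 3 * n) (b := 12 * n) (k := k) (by omega) hk2
  have h11 := G2_S (a := 4 * n) (b := 12 * n) (k := k) (by omega) hk2
  rw [h8]
  push_cast at h9 h10 h11 h6 ⊢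
  linarith

lemma G2_phi {n : ℕ} (hn : 1 ≤ n) (k : ℕ) :
    Psi (10 * n) + Psi (9 * n) + Psi (8 * n) - Psi (2 * n) + (Psi k - Psi ((k : ℝ) - 2 * n)) -
      (3 * Psi (12 * n - (k : ℝ)) + Psi ((k : ℝ) - 2 * n) + Psi ((k : ℝ) - 3 * n) + Psi ((k : ℝ) - 4 * n)) =
    n * phi (-(10 * k : ℝ) / n) := by
  have hn0 : (0 : ℝ) < n := by exact_mod_cast hn
  have hc : (10 / n : ℝ) ≠ 0 := by positivity
  unfold phi
  have e1 : -(10 * k : ℝ) / n + 20 = -((10 / n) * ((k : ℝ) - 2 * n)) := by field_simp; ring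
  have e2 : -(10 * k : ℝ) / n = -((10 / n) * (k : ℝ)) := by field_simp
  have e3 : -(10 * k : ℝ) / n + 30 = -((10 / n) * ((k : ℝ) - 3 * n)) := by field_simp; ring
  have e4 : -(10 * k : ℝ) / n + 40 = -((10 / n) * ((k : ℝ) - 4 * n)) := by field_simp; ring
  have e5 : -(10 * k : ℝ) / n + 120 = (10 / n) * (12 * n - (k : ℝ)) := by field_simp; ring
  rw [e1, e3, e4, e5, e2, G2_Psi_neg, G2_Psi_neg, G2_Psi_neg, G2_Psi_neg, G2_Psi_scale hc, G2_Psi_scale hc,
    G2_Psi_scale hc, G2_Psi_scale hc, G2_Psi_scale hc]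
  have f10 : Psi (10 * n) = 10 * Psi n + 10 * n * Real.log 10 := G2_Psi_scale (by norm_num) _
  have f9 : Psi (9 * n) = 9 * Psi n + 9 * n * Real.log 9 := G2_Psi_scale (by norm_num) _
  have f8 : Psi (8 * n) = 8 * Psi n + 8 * n * Real.log 8 := G2_Psi_scale (by norm_num) _
  have f2 : Psi (2 * n) = 2 * Psi n + 2 * n * Real.log 2 := G2_Psi_scale (by norm_num) _
  have l9 : Real.log 9 = 2 * Real.log 3 := by
    rw [show (9 : ℝ) = 3 ^ 2 by norm_num, Real.log_pow]; norm_num
  have l8 : Real.log 8 = 3 * Real.log 2 := by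
    rw [show (8 : ℝ) = 2 ^ 3 by norm_num, Real.log_pow]; norm_num
  have lc : Real.log (10 / n) = Real.log 10 - Real.log n := Real.log_div (by norm_num) hn0.ne'
  have fn : Psi n = n * Real.log n - n := rfl
  rw [f10, f9, f8, f2, l9, l8, lc, fn]
  generalize Psi (k : ℝ) = P0
  generalize Psi ((k : ℝ) - 2 * n) = P2
  generalize Psi ((k : ℝ) - 3 * n) = P3
  generalize Psi ((k : ℝ) - 4 * n) = P4
  generalize Psi (12 * n - (k : ℝ)) = P12
  generalize Real.log 10 = L10
  generalize Real.log 3 = L3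
  generalize Real.log 2 = L2
  generalize Real.log (n : ℝ) = Ln
  field_simp
  ring

lemma G2_log1 {n : ℕ} (hn : 2 ≤ n) : Real.log (12 * n + 1) ≤ 5 * Real.log n := by
  have hn0 : (2 : ℝ) ≤ n := by exact_mod_cast hn
  have : 5 * Real.log n = Real.log ((n : ℝ) ^ 5) := by rw [Real.log_pow]; norm_num
  rw [this]
  apply Real.log_le_log (by positivity)
  have h2 : (16 : ℝ) ≤ (n : ℝ) ^ 4 := by
    calc (16 : ℝ) = 2 ^ 4 := by norm_num
      _ ≤ _ := pow_le_pow_left₀ (by norm_num) hn0 4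
  have h3 : (n : ℝ) ^ 5 = n ^ 4 * n := by ring
  rw [h3]
  nlinarith

lemma G2_log2 {n : ℕ} (hn : 2 ≤ n) : Real.log ((1100 * n : ℕ) : ℝ) ≤ 12 * Real.log n := by
  have hn0 : (2 : ℝ) ≤ n := by exact_mod_cast hn
  have : 12 * Real.log n = Real.log ((n : ℝ) ^ 12) := by rw [Real.log_pow]; norm_num
  rw [this]
  push_cast
  apply Real.log_le_log (by positivity)
  have h2 : (2048 : ℝ) ≤ (n : ℝ) ^ 11 := by
    calc (2048 : ℝ) = 2 ^ 11 := by norm_num
      _ ≤ _ := pow_le_pow_left₀ (by norm_num) hn0 11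
  have h3 : (n : ℝ) ^ 12 = n ^ 11 * n := by ring
  rw [h3]
  nlinarith

lemma G2_log3 {n : ℕ} (hn : 2 ≤ n) : 1 ≤ 2 * Real.log n := by
  have hn0 : (2 : ℝ) ≤ n := by exact_mod_cast hn
  have h1 : Real.log 2 ≤ Real.log n := Real.log_le_log (by norm_num) hn0
  have := Real.log_two_gt_d9
  linarith

/-- one pole -/
lemma G2_one (hinj : ∀ n : ℕ, 1 ≤ n → Set.InjOn (nd n) (Finset.range (14 * n)))
    (hbd : ∀ n : ℕ, ∀ i < 14 * n, |nd n i| ≤ 972 * n) {n : ℕ} (hn : 2 ≤ n) {k : ℕ} (hk : k ∈ sL n)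
    (i j : ℕ) (r : ℕ) (hr : 2 ≤ r) :
    |((pa (sL n) (mL n) (PL n * (lag (Finset.range (14 * n)) (zq n) i *
      lag (Finset.Ico (7 * n) (14 * n)) (zq n) j)) k r : ℚ) : ℝ)| ≤
    Real.exp (n * phi (-(10 * k : ℝ) / n) + Lp n (Finset.range (14 * n)) (-(10 * k : ℤ)) +
      Lp n (Finset.Ico (7 * n) (14 * n)) (-(10 * k : ℤ)) + 1500 * Real.log n) := by
  have hk' := Finset.mem_Icc.1 hk
  have hk1 : 2 * n < k := by omega
  have hk2 : k ≤ 12 * n := hk'.2
  unfold pa
  split_ifs with h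
  · unfold pfc
    have hm : mL n k ≤ 3 := by unfold mL; split_ifs <;> omega
    refine (G2n_coeff _ (by omega)).trans ?_
    unfold PL
    rw [map_mul, map_mul, map_mul]
    have h1 := G2_const n k
    have h2 := G2_zeros hk1 hk2
    have h3 := G2_nodes hinj (by omega : 1 ≤ n) (hbd n) hk2 (Finset.range (14 * n)) (Finset.Subset.refl _) i
    have h4 := G2_nodes hinj (by omega : 1 ≤ n) (hbd n) hk2 (Finset.Ico (7 * n) (14 * n)) (by
      intro x hx
      rw [Finset.mem_Ico] at hx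
      exact Finset.mem_range.2 hx.2) j
    have h5 := G2_poles (by omega : 1 ≤ n) hk1 hk2
    have h6 := G2n_mul_exp (G2n_mul_exp (G2n_mul_exp h1 h2) (G2n_mul_exp h3 h4)) h5
    refine h6.trans (Real.exp_le_exp.2 ?_)
    have h7 := G2_phi (by omega : 1 ≤ n) k
    have h8 := G2_log1 hn
    have h9 := G2_log2 hn
    have h10 := G2_log3 hn
    linarith
  · rw [Rat.cast_zero, abs_zero]
    exact (Real.exp_pos _).le

/-- entries of the pole part -/
theorem G2_entryY' (hinj : ∀ n : ℕ, 1 ≤ n → Set.InjOn (nd n) (Finset.range (14 * n)))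
    (hbd : ∀ n : ℕ, ∀ i < 14 * n, |nd n i| ≤ 972 * n) (β : ℚ) :
    ∃ C : ℝ, 0 < C ∧ ∀ n : ℕ, 2 ≤ n → ∀ MY : ℝ,
    (∀ k ∈ sL n, n * phi (-(10 * k : ℝ) / n) + Lp n (Finset.range (14 * n)) (-(10 * k : ℤ)) +
      Lp n (Finset.Ico (7 * n) (14 * n)) (-(10 * k : ℤ)) ≤ MY) →
    ∀ i < 14 * n, ∀ j, 7 * n ≤ j → j < 14 * n →
    |((BL n β (lag (Finset.range (14 * n)) (zq n) i * lag (Finset.Ico (7 * n) (14 * n)) (zq n) j) : ℚ) : ℝ)| ≤
      Real.exp (MY + C * Real.log n) := by
  have hb0 : 0 ≤ |(β : ℝ)| := abs_nonneg _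
  have hlb : 0 ≤ Real.log (1 + |(β : ℝ)|) := Real.log_nonneg (by linarith)
  refine ⟨1510 + 2 * Real.log (1 + |(β : ℝ)|), by linarith, ?_⟩
  intro n hn MY hM i _ j _ _
  rw [BL_apply]
  set Q : ℚ[X] := lag (Finset.range (14 * n)) (zq n) i * lag (Finset.Ico (7 * n) (14 * n)) (zq n) j with hQ
  have h1 : ∀ r : ℕ, 2 ≤ r → |((rho n (PL n * Q) r : ℚ) : ℝ)| ≤
      Real.exp (MY + 1505 * Real.log n) := by
    intro r hr
    unfold rho
    rw [Rat.cast_sum]
    refine (Finset.abs_sum_le_sum_abs _ _).trans ?_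
    have h2 : ∀ k ∈ sL n, |((pa (sL n) (mL n) (PL n * Q) k r : ℚ) : ℝ)| ≤
        Real.exp (MY + 1500 * Real.log n) := by
      intro k hk
      refine (G2_one hinj hbd hn hk i j r hr).trans (Real.exp_le_exp.2 ?_)
      linarith [hM k hk]
    refine (Finset.sum_le_sum h2).trans ?_
    rw [Finset.sum_const, nsmul_eq_mul]
    have h3 : ((sL n).card : ℝ) ≤ Real.exp (5 * Real.log n) := by
      have h4 := G2_log1 hn
      have h5 : (0 : ℝ) < 12 * n + 1 := by positivity
      have h6 : (12 * n + 1 : ℝ) ≤ Real.exp (5 * Real.log n) := by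
        rw [← Real.exp_log h5]
        exact Real.exp_le_exp.2 h4
      refine le_trans ?_ h6
      have h7 : (sL n).card ≤ 12 * n + 1 := by
        rw [Nat.card_Icc]; omega
      exact_mod_cast h7
    calc ((sL n).card : ℝ) * Real.exp (MY + 1500 * Real.log n) ≤
          Real.exp (5 * Real.log n) * Real.exp (MY + 1500 * Real.log n) :=
          mul_le_mul_of_nonneg_right h3 (Real.exp_pos _).le
      _ = _ := by rw [← Real.exp_add]; congr 1; ring
  unfold xb
  push_cast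
  have h2 := h1 2 le_rfl
  have h3 := h1 3 (by norm_num)
  calc |((rho n (PL n * Q) 2 : ℚ) : ℝ) + ((rho n (PL n * Q) 3 : ℚ) : ℝ) * (β : ℝ)|
      ≤ |((rho n (PL n * Q) 2 : ℚ) : ℝ)| + |((rho n (PL n * Q) 3 : ℚ) : ℝ)| * |(β : ℝ)| := by
        rw [← abs_mul]; exact abs_add_le _ _
    _ ≤ Real.exp (MY + 1505 * Real.log n) + Real.exp (MY + 1505 * Real.log n) * |(β : ℝ)| :=
        add_le_add h2 (mul_le_mul_of_nonneg_right h3 hb0)
    _ = Real.exp (MY + 1505 * Real.log n) * (1 + |(β : ℝ)|) := by ring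
    _ = Real.exp (MY + 1505 * Real.log n) * Real.exp (Real.log (1 + |(β : ℝ)|)) := by
        rw [Real.exp_log (by linarith)]
    _ ≤ _ := by
        rw [← Real.exp_add]
        apply Real.exp_le_exp.2
        have h4 := G2_log3 hn
        have h5 := mul_le_mul_of_nonneg_left h4 hlb
        nlinarith

lemma G2_bd (n : ℕ) : ∀ i < 14 * n, |nd n i| ≤ 972 * n := by
  intro i hi
  have hn : 1 ≤ n := by omega
  rw [abs_le]
  rcases Nat.lt_or_ge i (2 * n) with h | h
  · rw [G0_nd_sat hn h]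
    constructor <;> omega
  · rcases Nat.lt_or_ge i (7 * n) with h2 | h2
    · have := G0_nd_X hn h h2
      constructor <;> omega
    · have := G0_nd_Y hn h2 hi
      constructor <;> omega

/-- entries of the pole part -/
theorem G2_entryY (β : ℚ) : ∃ C : ℝ, 0 < C ∧ ∀ n : ℕ, 2 ≤ n → ∀ MY : ℝ,
    (∀ k ∈ sL n, n * phi (-(10 * k : ℝ) / n) + Lp n (Finset.range (14 * n)) (-(10 * k : ℤ)) +
      Lp n (Finset.Ico (7 * n) (14 * n)) (-(10 * k : ℤ)) ≤ MY) →
    ∀ i < 14 * n, ∀ j, 7 * n ≤ j → j < 14 * n →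
    |((BL n β (lag (Finset.range (14 * n)) (zq n) i * lag (Finset.Ico (7 * n) (14 * n)) (zq n) j) : ℚ) : ℝ)| ≤
      Real.exp (MY + C * Real.log n) :=
  G2_entryY' (fun _ hn => G0_nd_inj hn) G2_bd β

end

end Pool.Agent.LZ
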