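import Pool.Agent.H337R2.LZ.Defs
import Pool.Agent.H102R2.Z5.Brick

/-! Task G6: mutual energy of two bricks (`G6_pair`), from the statement of `G3_brick`. -/

open Polynomial Pool.Agent.H337R2 Filter Topology

namespace Pool.Agent.LZ

noncomputable section

/-- statement of `G3_brick` -/
def G3_brickSt : Prop := ∃ C : ℝ, 0 < C ∧ ∀ n : ℕ, 2 ≤ n → ∀ g < 14, ∀ u : ℤ,
    |∑ j ∈ Finset.range n, Real.log (((u - (bb g * n + cc g * (j : ℤ)) : ℤ) : ℝ) / 10) -
      (n * Ub g ((u : ℝ) / n) + n * Real.log n)| ≤ C * Real.log (n + |(u : ℝ)|)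

lemma G6_bd : ∀ g < 14, -116 ≤ bb g ∧ bb g ≤ 312 ∧ 1 ≤ cc g ∧ cc g ≤ 660 := by decide

lemma G6_Lp {n h : ℕ} (hn : 1 ≤ n) (u : ℤ) :
    Lp n (Finset.Ico (h * n) ((h + 1) * n)) u =
      ∑ j ∈ Finset.range n, Real.log (((u - (bb h * n + cc h * (j : ℤ)) : ℤ) : ℝ) / 10) := by
  unfold Lp
  rw [Finset.sum_Ico_eq_sum_range, show (h + 1) * n - h * n = n by
    rw [Nat.succ_mul]; omega]
  refine Finset.sum_congr rfl fun j hj => ?_
  rw [Finset.mem_range] at hj
  have h1 : (h * n + j) / n = h := by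
    rw [Nat.mul_comm, Nat.mul_add_div (by omega), Nat.div_eq_of_lt hj, Nat.add_zero]
  have h2 : (h * n + j) % n = j := by
    rw [Nat.mul_comm, Nat.mul_add_mod, Nat.mod_eq_of_lt hj]
  unfold nd
  rw [h1, h2]

lemma G6_Psi_scale {r : ℝ} (hr : 0 < r) (x : ℝ) :
    r * Psi x = Pool.Agent.H102R2.Z5.Psi (r * x) - r * x * Real.log r := by
  unfold Psi Pool.Agent.H102R2.Z5.Psi
  rcases eq_or_ne x 0 with h | h
  · subst h; simp
  · rw [Real.log_mul hr.ne' h]; ring

lemma G6_G_scale {r : ℝ} (hr : 0 < r) (z : ℝ) :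
    Pool.Agent.H102R2.Z5.G2 (r * z) = r ^ 2 * GG z + r ^ 2 * z ^ 2 / 2 * Real.log r := by
  unfold GG Pool.Agent.H102R2.Z5.G2
  rcases eq_or_ne z 0 with h | h
  · subst h; simp
  · rw [Real.log_mul hr.ne' h]; ring

/-- energy of two bricks -/
theorem G6_pair_of (hG3 : G3_brickSt) : ∃ C : ℝ, 0 < C ∧ ∀ n : ℕ, 2 ≤ n → ∀ g < 14, ∀ h < 14,
    |∑ j ∈ Finset.range n, Lp n (Finset.Ico (h * n) ((h + 1) * n)) (bb g * n + cc g * (j : ℤ)) -
      (en g h * (n : ℝ) ^ 2 + (n : ℝ) ^ 2 * Real.log n)| ≤ C * n * Real.log n := by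
  obtain ⟨C3, hC3, h3⟩ := hG3
  refine ⟨11 * C3 + 20000, by positivity, ?_⟩
  intro n hn g hg h hh
  have hn2 : (2 : ℝ) ≤ n := by exact_mod_cast hn
  have hn0 : (0 : ℝ) < n := by linarith
  have hl2 : (0.69 : ℝ) < Real.log 2 := by
    have := Real.log_two_gt_d9
    linarith
  have hL2 : Real.log 2 ≤ Real.log n := Real.log_le_log (by norm_num) hn2
  set L := Real.log n with hL
  have hL0 : 0 < L := by linarith
  obtain ⟨g1, g2, g3, g4⟩ := G6_bd g hg
  obtain ⟨k1, k2, k3, k4⟩ := G6_bd h hh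
  have G1 : (-116 : ℝ) ≤ (bb g : ℝ) := by exact_mod_cast g1
  have G2' : (bb g : ℝ) ≤ 312 := by exact_mod_cast g2
  have G3 : (1 : ℝ) ≤ (cc g : ℝ) := by exact_mod_cast g3
  have G4 : (cc g : ℝ) ≤ 660 := by exact_mod_cast g4
  have K1 : (-116 : ℝ) ≤ (bb h : ℝ) := by exact_mod_cast k1
  have K2 : (bb h : ℝ) ≤ 312 := by exact_mod_cast k2
  have K3 : (1 : ℝ) ≤ (cc h : ℝ) := by exact_mod_cast k3
  have K4 : (cc h : ℝ) ≤ 660 := by exact_mod_cast k4
  set b : ℝ := (bb g : ℝ) with hb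
  set c : ℝ := (cc g : ℝ) with hc
  set b' : ℝ := (bb h : ℝ) with hb'
  set c' : ℝ := (cc h : ℝ) with hc'
  have hc0 : 0 < c := by linarith
  have hc'0 : 0 < c' := by linarith
  -- inner sums
  have step1 : ∀ j ∈ Finset.range n,
      |Lp n (Finset.Ico (h * n) ((h + 1) * n)) (bb g * n + cc g * (j : ℤ)) -
        ((Pool.Agent.H102R2.Z5.Psi (n * (b - b') + c * j) -
          Pool.Agent.H102R2.Z5.Psi (n * (b - b' - c') + c * j)) / c' - n * Real.log 10)| ≤
      C3 * (11 * L) := by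
    intro j hj
    rw [Finset.mem_range] at hj
    have hjn : (j : ℝ) ≤ n := by exact_mod_cast hj.le
    have hj0 : (0 : ℝ) ≤ j := Nat.cast_nonneg j
    have h4 := h3 n hn h hh (bb g * n + cc g * (j : ℤ))
    rw [← G6_Lp (by omega)] at h4
    have hu : ((bb g * n + cc g * (j : ℤ) : ℤ) : ℝ) = b * n + c * j := by
      push_cast
      rw [hb, hc]
    rw [hu] at h4
    have e1 : (n : ℝ) * Ub h ((b * n + c * j) / n) + n * L =
        (Pool.Agent.H102R2.Z5.Psi (n * (b - b') + c * j) -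
          Pool.Agent.H102R2.Z5.Psi (n * (b - b' - c') + c * j)) / c' - n * Real.log 10 := by
      unfold Ub
      rw [← hb', ← hc']
      have e2 := G6_Psi_scale hn0 ((b * n + c * j) / n - b')
      have e3 := G6_Psi_scale hn0 ((b * n + c * j) / n - b' - c')
      have e4 : (n : ℝ) * ((b * n + c * j) / n - b') = n * (b - b') + c * j := by
        field_simp
        ring
      have e5 : (n : ℝ) * ((b * n + c * j) / n - b' - c') = n * (b - b' - c') + c * j := by
        field_simp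
        ring
      rw [e4] at e2
      rw [e5] at e3
      have e6 : (n : ℝ) * ((Psi ((b * n + c * j) / n - b') - Psi ((b * n + c * j) / n - b' - c')) / c' -
          Real.log 10) = (n * Psi ((b * n + c * j) / n - b') - n * Psi ((b * n + c * j) / n - b' - c')) / c' -
          n * Real.log 10 := by
        field_simp
      rw [e6, e2, e3, ← hL]
      field_simp
      ring
    rw [e1] at h4
    refine h4.trans ?_
    refine mul_le_mul_of_nonneg_left ?_ hC3.le
    have h5 : |b * n + c * j| ≤ 972 * n := by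
      rw [abs_le]
      constructor <;> nlinarith
    have h6 : Real.log (n + |b * n + c * j|) ≤ Real.log (2 ^ 10 * n) :=
      Real.log_le_log (by positivity) (by linarith)
    rw [Real.log_mul (by norm_num) hn0.ne', Real.log_pow, ← hL] at h6
    push_cast at h6
    linarith
  -- outer sums
  have hlogW : Real.log (2048 * n) ≤ 12 * L := by
    rw [show (2048 : ℝ) = 2 ^ 11 by norm_num, Real.log_mul (by norm_num) hn0.ne', Real.log_pow, ← hL]
    push_cast
    linarith
  have outer : ∀ a : ℝ, |a| ≤ 1088 →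
      |∑ j ∈ Finset.range n, Pool.Agent.H102R2.Z5.Psi (n * a + c * j) -
        (n : ℝ) ^ 2 * (GG (a + c) - GG a) / c - (n : ℝ) ^ 2 * ((a + c) ^ 2 - a ^ 2) / (2 * c) * L| ≤
      n * (660 * (12 * L) + 3 * L) := by
    intro a ha
    have h4 := Pool.Agent.H102R2.Z5.outer (n * a) c hc0 n (2048 * n) (by
      rw [abs_mul, abs_of_pos hn0]
      nlinarith) (by linarith)
    rw [show (n : ℝ) * a + c * n = n * (a + c) by ring, G6_G_scale hn0, G6_G_scale hn0, ← hL] at h4
    have e1 : ∑ j ∈ Finset.range n, Pool.Agent.H102R2.Z5.Psi (n * a + c * j) -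
        (n : ℝ) ^ 2 * (GG (a + c) - GG a) / c - (n : ℝ) ^ 2 * ((a + c) ^ 2 - a ^ 2) / (2 * c) * L =
        ∑ j ∈ Finset.range n, Pool.Agent.H102R2.Z5.Psi (n * a + c * j) -
        ((n : ℝ) ^ 2 * GG (a + c) + n ^ 2 * (a + c) ^ 2 / 2 * L - (n ^ 2 * GG a + n ^ 2 * a ^ 2 / 2 * L)) / c := by
      field_simp
      ring
    rw [e1]
    refine h4.trans ?_
    refine mul_le_mul_of_nonneg_left ?_ hn0.le
    have h5 : c * Real.log (2048 * n) ≤ 660 * (12 * L) := by
      have h7 : 0 ≤ Real.log (2048 * n) := Real.log_nonneg (by linarith)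
      exact mul_le_mul G4 hlogW h7 (by norm_num)
    linarith
  have o1 := outer (b - b') (by rw [abs_le]; constructor <;> linarith)
  have o2 := outer (b - b' - c') (by rw [abs_le]; constructor <;> linarith)
  -- combination
  have e7 : ∑ j ∈ Finset.range n, Lp n (Finset.Ico (h * n) ((h + 1) * n)) (bb g * n + cc g * (j : ℤ)) -
      (en g h * (n : ℝ) ^ 2 + (n : ℝ) ^ 2 * L) =
      ∑ j ∈ Finset.range n, (Lp n (Finset.Ico (h * n) ((h + 1) * n)) (bb g * n + cc g * (j : ℤ)) -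
        ((Pool.Agent.H102R2.Z5.Psi (n * (b - b') + c * j) -
          Pool.Agent.H102R2.Z5.Psi (n * (b - b' - c') + c * j)) / c' - n * Real.log 10)) +
      ((∑ j ∈ Finset.range n, Pool.Agent.H102R2.Z5.Psi (n * (b - b') + c * j) -
        (n : ℝ) ^ 2 * (GG (b - b' + c) - GG (b - b')) / c -
          (n : ℝ) ^ 2 * ((b - b' + c) ^ 2 - (b - b') ^ 2) / (2 * c) * L) -
      (∑ j ∈ Finset.range n, Pool.Agent.H102R2.Z5.Psi (n * (b - b' - c') + c * j) -
        (n : ℝ) ^ 2 * (GG (b - b' - c' + c) - GG (b - b' - c')) / c -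
          (n : ℝ) ^ 2 * ((b - b' - c' + c) ^ 2 - (b - b' - c') ^ 2) / (2 * c) * L)) / c' := by
    rw [Finset.sum_sub_distrib (f := fun j : ℕ =>
      Lp n (Finset.Ico (h * n) ((h + 1) * n)) (bb g * n + cc g * (j : ℤ)))]
    rw [Finset.sum_sub_distrib (f := fun j : ℕ => (Pool.Agent.H102R2.Z5.Psi (n * (b - b') + c * j) -
          Pool.Agent.H102R2.Z5.Psi (n * (b - b' - c') + c * j)) / c')]
    rw [← Finset.sum_div, Finset.sum_sub_distrib, Finset.sum_const, Finset.card_range, nsmul_eq_mul]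
    have e8 : en g h = (GG (b - b' + c) - GG (b - b' - c' + c) - GG (b - b') + GG (b - b' - c')) / (c * c')
        - Real.log 10 := by
      unfold en
      rw [← hb, ← hb', ← hc, ← hc', show b + c - b' = b - b' + c by ring,
        show b - b' + c - c' = b - b' - c' + c by ring]
    rw [e8]
    field_simp
    ring
  rw [e7]
  have s1 : |∑ j ∈ Finset.range n, (Lp n (Finset.Ico (h * n) ((h + 1) * n)) (bb g * n + cc g * (j : ℤ)) -
        ((Pool.Agent.H102R2.Z5.Psi (n * (b - b') + c * j) -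
          Pool.Agent.H102R2.Z5.Psi (n * (b - b' - c') + c * j)) / c' - n * Real.log 10))| ≤
      n * (C3 * (11 * L)) := by
    refine (Finset.abs_sum_le_sum_abs _ _).trans ?_
    refine (Finset.sum_le_card_nsmul _ _ _ step1).trans (le_of_eq ?_)
    rw [Finset.card_range, nsmul_eq_mul]
  have s2 : |((∑ j ∈ Finset.range n, Pool.Agent.H102R2.Z5.Psi (n * (b - b') + c * j) -
        (n : ℝ) ^ 2 * (GG (b - b' + c) - GG (b - b')) / c -
          (n : ℝ) ^ 2 * ((b - b' + c) ^ 2 - (b - b') ^ 2) / (2 * c) * L) -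
      (∑ j ∈ Finset.range n, Pool.Agent.H102R2.Z5.Psi (n * (b - b' - c') + c * j) -
        (n : ℝ) ^ 2 * (GG (b - b' - c' + c) - GG (b - b' - c')) / c -
          (n : ℝ) ^ 2 * ((b - b' - c' + c) ^ 2 - (b - b' - c') ^ 2) / (2 * c) * L)) / c'| ≤
      2 * (n * (660 * (12 * L) + 3 * L)) := by
    rw [abs_div, abs_of_pos hc'0]
    refine (div_le_self (abs_nonneg _) K3).trans ?_
    refine (abs_sub _ _).trans ?_
    linarith
  refine (abs_add_le _ _).trans ((add_le_add s1 s2).trans ?_)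
  have : 0 ≤ (n : ℝ) * L := by positivity
  nlinarith

end

end Pool.Agent.LZ
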