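import Pool.Agent.H337R2.LZ.Defs

/-! Certificates for the potential `FN`, `w ≥ 20`. -/

namespace Pool.Agent.LZ

open Pool.Agent.H337R2

namespace V1

/-- the list of the potential, step `1/4`, denominator `3063060` -/
def lF : List (ℤ × ℤ) :=
  [(-918918, -480), (255255, -464), (85085, -416), (-34034, -380), (34034, -340), (-34034, -304), (-70686, -224), (-235620, -172), (306306, -160), (306306, -120), (612612, -80), (306306, 0), (-252252, 80), (-185328, 148), (-87516, 288), (-51480, 568), (-26754, 1248), (-9282, 3888)]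

lemma FN_eq (w : ℝ) : FN w = (36 * Real.log 2 + 14 * Real.log 5 + 18 * Real.log 3 - 25) +
    EF 3063060 4 lF w := by
  have h10 : Real.log 10 = Real.log 2 + Real.log 5 := by
    rw [show (10 : ℝ) = 2 * 5 by norm_num, Real.log_mul (by norm_num) (by norm_num)]
  unfold FN phi
  rw [Finset.sum_Ico_eq_sum_range]
  simp only [Finset.sum_range_succ, Finset.sum_range_zero, Ub, bb, cc, h10, EF, lF, List.map_cons, List.map_nil, List.sum_cons, List.sum_nil]
  norm_num
  ring_nf

lemma const_bounds : 42260 / 1000 ≤ 36 * Real.log 2 + 14 * Real.log 5 + 18 * Real.log 3 - 25 ∧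
    36 * Real.log 2 + 14 * Real.log 5 + 18 * Real.log 3 - 25 ≤ 42261 / 1000 := by
  have h2 := abs_le.mp (lnA_spec 2 (by norm_num) (by norm_num))
  have h3 := abs_le.mp (lnA_spec 3 (by norm_num) (by norm_num))
  have h5 := abs_le.mp (lnA_spec 5 (by norm_num) (by norm_num))
  have e2 : lnA 2 = 693147180560 := by decide +kernel
  have e3 : lnA 3 = 1098612288761 := by decide +kernel
  have e5 : lnA 5 = 1609437912428 := by decide +kernel
  rw [e2] at h2
  rw [e3] at h3
  rw [e5] at h5
  push_cast at h2 h3 h5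
  constructor <;> linarith [h2.1, h2.2, h3.1, h3.2, h5.1, h5.2]

lemma E_up (v : ℝ) (h1 : 20 ≤ v) (h2 : v ≤ 10000) : EF 3063060 4 lF v ≤ ((-31811 : ℝ) / 1000) := by
  have s0 : v ≤ (84 : ℝ) / 4 → (80 : ℝ) / 4 ≤ v → EF 3063060 4 lF v ≤ ((-31811 : ℝ) / 1000) := fun ha hb =>
    EF_le (Dc := 3063060) (M := 4) (l := lF) (A := -389756006640000000000) (by norm_num) (by norm_num) (by norm_num) _ (by norm_num) (st := 2) (c := 2)
      (by norm_num) (x0 := 80) (by decide +kernel) v (by norm_num; linarith) (by norm_num; linarith)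
  have s1 : v ≤ (92 : ℝ) / 4 → (84 : ℝ) / 4 ≤ v → EF 3063060 4 lF v ≤ ((-31811 : ℝ) / 1000) := fun ha hb =>
    EF_le (Dc := 3063060) (M := 4) (l := lF) (A := -389756006640000000000) (by norm_num) (by norm_num) (by norm_num) _ (by norm_num) (st := 4) (c := 2)
      (by norm_num) (x0 := 84) (by decide +kernel) v (by norm_num; linarith) (by norm_num; linarith)
  have s2 : v ≤ (100 : ℝ) / 4 → (92 : ℝ) / 4 ≤ v → EF 3063060 4 lF v ≤ ((-31811 : ℝ) / 1000) := fun ha hb =>
    EF_le (Dc := 3063060) (M := 4) (l := lF) (A := -389756006640000000000) (by norm_num) (by norm_num) (by norm_num) _ (by norm_num) (st := 8) (c := 1)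
      (by norm_num) (x0 := 92) (by decide +kernel) v (by norm_num; linarith) (by norm_num; linarith)
  have s3 : v ≤ (116 : ℝ) / 4 → (100 : ℝ) / 4 ≤ v → EF 3063060 4 lF v ≤ ((-31811 : ℝ) / 1000) := fun ha hb =>
    EF_le (Dc := 3063060) (M := 4) (l := lF) (A := -389756006640000000000) (by norm_num) (by norm_num) (by norm_num) _ (by norm_num) (st := 16) (c := 1)
      (by norm_num) (x0 := 100) (by decide +kernel) v (by norm_num; linarith) (by norm_num; linarith)
  have s4 : v ≤ (148 : ℝ) / 4 → (116 : ℝ) / 4 ≤ v → EF 3063060 4 lF v ≤ ((-31811 : ℝ) / 1000) := fun ha hb =>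
    EF_le (Dc := 3063060) (M := 4) (l := lF) (A := -389756006640000000000) (by norm_num) (by norm_num) (by norm_num) _ (by norm_num) (st := 32) (c := 1)
      (by norm_num) (x0 := 116) (by decide +kernel) v (by norm_num; linarith) (by norm_num; linarith)
  have s5 : v ≤ (172 : ℝ) / 4 → (148 : ℝ) / 4 ≤ v → EF 3063060 4 lF v ≤ ((-31811 : ℝ) / 1000) := fun ha hb =>
    EF_le (Dc := 3063060) (M := 4) (l := lF) (A := -389756006640000000000) (by norm_num) (by norm_num) (by norm_num) _ (by norm_num) (st := 8) (c := 3)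
      (by norm_num) (x0 := 148) (by decide +kernel) v (by norm_num; linarith) (by norm_num; linarith)
  have s6 : v ≤ (204 : ℝ) / 4 → (172 : ℝ) / 4 ≤ v → EF 3063060 4 lF v ≤ ((-31811 : ℝ) / 1000) := fun ha hb =>
    EF_le (Dc := 3063060) (M := 4) (l := lF) (A := -389756006640000000000) (by norm_num) (by norm_num) (by norm_num) _ (by norm_num) (st := 16) (c := 2)
      (by norm_num) (x0 := 172) (by decide +kernel) v (by norm_num; linarith) (by norm_num; linarith)
  have s7 : v ≤ (268 : ℝ) / 4 → (204 : ℝ) / 4 ≤ v → EF 3063060 4 lF v ≤ ((-31811 : ℝ) / 1000) := fun ha hb =>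
    EF_le (Dc := 3063060) (M := 4) (l := lF) (A := -389756006640000000000) (by norm_num) (by norm_num) (by norm_num) _ (by norm_num) (st := 32) (c := 2)
      (by norm_num) (x0 := 204) (by decide +kernel) v (by norm_num; linarith) (by norm_num; linarith)
  have s8 : v ≤ (284 : ℝ) / 4 → (268 : ℝ) / 4 ≤ v → EF 3063060 4 lF v ≤ ((-31811 : ℝ) / 1000) := fun ha hb =>
    EF_le (Dc := 3063060) (M := 4) (l := lF) (A := -389756006640000000000) (by norm_num) (by norm_num) (by norm_num) _ (by norm_num) (st := 16) (c := 1)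
      (by norm_num) (x0 := 268) (by decide +kernel) v (by norm_num; linarith) (by norm_num; linarith)
  have s9 : v ≤ (288 : ℝ) / 4 → (284 : ℝ) / 4 ≤ v → EF 3063060 4 lF v ≤ ((-31811 : ℝ) / 1000) := fun ha hb =>
    EF_le (Dc := 3063060) (M := 4) (l := lF) (A := -389756006640000000000) (by norm_num) (by norm_num) (by norm_num) _ (by norm_num) (st := 4) (c := 1)
      (by norm_num) (x0 := 284) (by decide +kernel) v (by norm_num; linarith) (by norm_num; linarith)
  have s10 : v ≤ (352 : ℝ) / 4 → (288 : ℝ) / 4 ≤ v → EF 3063060 4 lF v ≤ ((-31811 : ℝ) / 1000) := fun ha hb =>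
    EF_le (Dc := 3063060) (M := 4) (l := lF) (A := -389756006640000000000) (by norm_num) (by norm_num) (by norm_num) _ (by norm_num) (st := 16) (c := 4)
      (by norm_num) (x0 := 288) (by decide +kernel) v (by norm_num; linarith) (by norm_num; linarith)
  have s11 : v ≤ (416 : ℝ) / 4 → (352 : ℝ) / 4 ≤ v → EF 3063060 4 lF v ≤ ((-31811 : ℝ) / 1000) := fun ha hb =>
    EF_le (Dc := 3063060) (M := 4) (l := lF) (A := -389756006640000000000) (by norm_num) (by norm_num) (by norm_num) _ (by norm_num) (st := 32) (c := 2)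
      (by norm_num) (x0 := 352) (by decide +kernel) v (by norm_num; linarith) (by norm_num; linarith)
  have s12 : v ≤ (544 : ℝ) / 4 → (416 : ℝ) / 4 ≤ v → EF 3063060 4 lF v ≤ ((-31811 : ℝ) / 1000) := fun ha hb =>
    EF_le (Dc := 3063060) (M := 4) (l := lF) (A := -389756006640000000000) (by norm_num) (by norm_num) (by norm_num) _ (by norm_num) (st := 64) (c := 2)
      (by norm_num) (x0 := 416) (by decide +kernel) v (by norm_num; linarith) (by norm_num; linarith)
  have s13 : v ≤ (560 : ℝ) / 4 → (544 : ℝ) / 4 ≤ v → EF 3063060 4 lF v ≤ ((-31811 : ℝ) / 1000) := fun ha hb =>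
    EF_le (Dc := 3063060) (M := 4) (l := lF) (A := -389756006640000000000) (by norm_num) (by norm_num) (by norm_num) _ (by norm_num) (st := 16) (c := 1)
      (by norm_num) (x0 := 544) (by decide +kernel) v (by norm_num; linarith) (by norm_num; linarith)
  have s14 : v ≤ (568 : ℝ) / 4 → (560 : ℝ) / 4 ≤ v → EF 3063060 4 lF v ≤ ((-31811 : ℝ) / 1000) := fun ha hb =>
    EF_le (Dc := 3063060) (M := 4) (l := lF) (A := -389756006640000000000) (by norm_num) (by norm_num) (by norm_num) _ (by norm_num) (st := 8) (c := 1)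
      (by norm_num) (x0 := 560) (by decide +kernel) v (by norm_num; linarith) (by norm_num; linarith)
  have s15 : v ≤ (728 : ℝ) / 4 → (568 : ℝ) / 4 ≤ v → EF 3063060 4 lF v ≤ ((-31811 : ℝ) / 1000) := fun ha hb =>
    EF_le (Dc := 3063060) (M := 4) (l := lF) (A := -389756006640000000000) (by norm_num) (by norm_num) (by norm_num) _ (by norm_num) (st := 32) (c := 5)
      (by norm_num) (x0 := 568) (by decide +kernel) v (by norm_num; linarith) (by norm_num; linarith)
  have s16 : v ≤ (920 : ℝ) / 4 → (728 : ℝ) / 4 ≤ v → EF 3063060 4 lF v ≤ ((-31811 : ℝ) / 1000) := fun ha hb =>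
    EF_le (Dc := 3063060) (M := 4) (l := lF) (A := -389756006640000000000) (by norm_num) (by norm_num) (by norm_num) _ (by norm_num) (st := 64) (c := 3)
      (by norm_num) (x0 := 728) (by decide +kernel) v (by norm_num; linarith) (by norm_num; linarith)
  have s17 : v ≤ (1176 : ℝ) / 4 → (920 : ℝ) / 4 ≤ v → EF 3063060 4 lF v ≤ ((-31811 : ℝ) / 1000) := fun ha hb =>
    EF_le (Dc := 3063060) (M := 4) (l := lF) (A := -389756006640000000000) (by norm_num) (by norm_num) (by norm_num) _ (by norm_num) (st := 128) (c := 2)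
      (by norm_num) (x0 := 920) (by decide +kernel) v (by norm_num; linarith) (by norm_num; linarith)
  have s18 : v ≤ (1240 : ℝ) / 4 → (1176 : ℝ) / 4 ≤ v → EF 3063060 4 lF v ≤ ((-31811 : ℝ) / 1000) := fun ha hb =>
    EF_le (Dc := 3063060) (M := 4) (l := lF) (A := -389756006640000000000) (by norm_num) (by norm_num) (by norm_num) _ (by norm_num) (st := 64) (c := 1)
      (by norm_num) (x0 := 1176) (by decide +kernel) v (by norm_num; linarith) (by norm_num; linarith)
  have s19 : v ≤ (1248 : ℝ) / 4 → (1240 : ℝ) / 4 ≤ v → EF 3063060 4 lF v ≤ ((-31811 : ℝ) / 1000) := fun ha hb =>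
    EF_le (Dc := 3063060) (M := 4) (l := lF) (A := -389756006640000000000) (by norm_num) (by norm_num) (by norm_num) _ (by norm_num) (st := 8) (c := 1)
      (by norm_num) (x0 := 1240) (by decide +kernel) v (by norm_num; linarith) (by norm_num; linarith)
  have s20 : v ≤ (1312 : ℝ) / 4 → (1248 : ℝ) / 4 ≤ v → EF 3063060 4 lF v ≤ ((-31811 : ℝ) / 1000) := fun ha hb =>
    EF_le (Dc := 3063060) (M := 4) (l := lF) (A := -389756006640000000000) (by norm_num) (by norm_num) (by norm_num) _ (by norm_num) (st := 64) (c := 1)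
      (by norm_num) (x0 := 1248) (by decide +kernel) v (by norm_num; linarith) (by norm_num; linarith)
  have s21 : v ≤ (1568 : ℝ) / 4 → (1312 : ℝ) / 4 ≤ v → EF 3063060 4 lF v ≤ ((-31811 : ℝ) / 1000) := fun ha hb =>
    EF_le (Dc := 3063060) (M := 4) (l := lF) (A := -389756006640000000000) (by norm_num) (by norm_num) (by norm_num) _ (by norm_num) (st := 32) (c := 8)
      (by norm_num) (x0 := 1312) (by decide +kernel) v (by norm_num; linarith) (by norm_num; linarith)
  have s22 : v ≤ (1888 : ℝ) / 4 → (1568 : ℝ) / 4 ≤ v → EF 3063060 4 lF v ≤ ((-31811 : ℝ) / 1000) := fun ha hb =>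
    EF_le (Dc := 3063060) (M := 4) (l := lF) (A := -389756006640000000000) (by norm_num) (by norm_num) (by norm_num) _ (by norm_num) (st := 64) (c := 5)
      (by norm_num) (x0 := 1568) (by decide +kernel) v (by norm_num; linarith) (by norm_num; linarith)
  have s23 : v ≤ (2528 : ℝ) / 4 → (1888 : ℝ) / 4 ≤ v → EF 3063060 4 lF v ≤ ((-31811 : ℝ) / 1000) := fun ha hb =>
    EF_le (Dc := 3063060) (M := 4) (l := lF) (A := -389756006640000000000) (by norm_num) (by norm_num) (by norm_num) _ (by norm_num) (st := 128) (c := 5)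
      (by norm_num) (x0 := 1888) (by decide +kernel) v (by norm_num; linarith) (by norm_num; linarith)
  have s24 : v ≤ (3808 : ℝ) / 4 → (2528 : ℝ) / 4 ≤ v → EF 3063060 4 lF v ≤ ((-31811 : ℝ) / 1000) := fun ha hb =>
    EF_le (Dc := 3063060) (M := 4) (l := lF) (A := -389756006640000000000) (by norm_num) (by norm_num) (by norm_num) _ (by norm_num) (st := 256) (c := 5)
      (by norm_num) (x0 := 2528) (by decide +kernel) v (by norm_num; linarith) (by norm_num; linarith)
  have s25 : v ≤ (3872 : ℝ) / 4 → (3808 : ℝ) / 4 ≤ v → EF 3063060 4 lF v ≤ ((-31811 : ℝ) / 1000) := fun ha hb =>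
    EF_le (Dc := 3063060) (M := 4) (l := lF) (A := -389756006640000000000) (by norm_num) (by norm_num) (by norm_num) _ (by norm_num) (st := 64) (c := 1)
      (by norm_num) (x0 := 3808) (by decide +kernel) v (by norm_num; linarith) (by norm_num; linarith)
  have s26 : v ≤ (3888 : ℝ) / 4 → (3872 : ℝ) / 4 ≤ v → EF 3063060 4 lF v ≤ ((-31811 : ℝ) / 1000) := fun ha hb =>
    EF_le (Dc := 3063060) (M := 4) (l := lF) (A := -389756006640000000000) (by norm_num) (by norm_num) (by norm_num) _ (by norm_num) (st := 16) (c := 1)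
      (by norm_num) (x0 := 3872) (by decide +kernel) v (by norm_num; linarith) (by norm_num; linarith)
  have s27 : v ≤ (4912 : ℝ) / 4 → (3888 : ℝ) / 4 ≤ v → EF 3063060 4 lF v ≤ ((-31811 : ℝ) / 1000) := fun ha hb =>
    EF_le (Dc := 3063060) (M := 4) (l := lF) (A := -389756006640000000000) (by norm_num) (by norm_num) (by norm_num) _ (by norm_num) (st := 128) (c := 8)
      (by norm_num) (x0 := 3888) (by decide +kernel) v (by norm_num; linarith) (by norm_num; linarith)
  have s28 : v ≤ (5552 : ℝ) / 4 → (4912 : ℝ) / 4 ≤ v → EF 3063060 4 lF v ≤ ((-31811 : ℝ) / 1000) := fun ha hb =>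
    EF_le (Dc := 3063060) (M := 4) (l := lF) (A := -389756006640000000000) (by norm_num) (by norm_num) (by norm_num) _ (by norm_num) (st := 64) (c := 10)
      (by norm_num) (x0 := 4912) (by decide +kernel) v (by norm_num; linarith) (by norm_num; linarith)
  have s29 : v ≤ (7216 : ℝ) / 4 → (5552 : ℝ) / 4 ≤ v → EF 3063060 4 lF v ≤ ((-31811 : ℝ) / 1000) := fun ha hb =>
    EF_le (Dc := 3063060) (M := 4) (l := lF) (A := -389756006640000000000) (by norm_num) (by norm_num) (by norm_num) _ (by norm_num) (st := 128) (c := 13)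
      (by norm_num) (x0 := 5552) (by decide +kernel) v (by norm_num; linarith) (by norm_num; linarith)
  have s30 : v ≤ (10032 : ℝ) / 4 → (7216 : ℝ) / 4 ≤ v → EF 3063060 4 lF v ≤ ((-31811 : ℝ) / 1000) := fun ha hb =>
    EF_le (Dc := 3063060) (M := 4) (l := lF) (A := -389756006640000000000) (by norm_num) (by norm_num) (by norm_num) _ (by norm_num) (st := 256) (c := 11)
      (by norm_num) (x0 := 7216) (by decide +kernel) v (by norm_num; linarith) (by norm_num; linarith)
  have s31 : v ≤ (16688 : ℝ) / 4 → (10032 : ℝ) / 4 ≤ v → EF 3063060 4 lF v ≤ ((-31811 : ℝ) / 1000) := fun ha hb =>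
    EF_le (Dc := 3063060) (M := 4) (l := lF) (A := -389756006640000000000) (by norm_num) (by norm_num) (by norm_num) _ (by norm_num) (st := 512) (c := 13)
      (by norm_num) (x0 := 10032) (by decide +kernel) v (by norm_num; linarith) (by norm_num; linarith)
  have s32 : v ≤ (34096 : ℝ) / 4 → (16688 : ℝ) / 4 ≤ v → EF 3063060 4 lF v ≤ ((-31811 : ℝ) / 1000) := fun ha hb =>
    EF_le (Dc := 3063060) (M := 4) (l := lF) (A := -389756006640000000000) (by norm_num) (by norm_num) (by norm_num) _ (by norm_num) (st := 1024) (c := 17)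
      (by norm_num) (x0 := 16688) (by decide +kernel) v (by norm_num; linarith) (by norm_num; linarith)
  have s33 : v ≤ (38192 : ℝ) / 4 → (34096 : ℝ) / 4 ≤ v → EF 3063060 4 lF v ≤ ((-31811 : ℝ) / 1000) := fun ha hb =>
    EF_le (Dc := 3063060) (M := 4) (l := lF) (A := -389756006640000000000) (by norm_num) (by norm_num) (by norm_num) _ (by norm_num) (st := 2048) (c := 2)
      (by norm_num) (x0 := 34096) (by decide +kernel) v (by norm_num; linarith) (by norm_num; linarith)
  have s34 : v ≤ (39216 : ℝ) / 4 → (38192 : ℝ) / 4 ≤ v → EF 3063060 4 lF v ≤ ((-31811 : ℝ) / 1000) := fun ha hb =>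
    EF_le (Dc := 3063060) (M := 4) (l := lF) (A := -389756006640000000000) (by norm_num) (by norm_num) (by norm_num) _ (by norm_num) (st := 1024) (c := 1)
      (by norm_num) (x0 := 38192) (by decide +kernel) v (by norm_num; linarith) (by norm_num; linarith)
  have s35 : v ≤ (39728 : ℝ) / 4 → (39216 : ℝ) / 4 ≤ v → EF 3063060 4 lF v ≤ ((-31811 : ℝ) / 1000) := fun ha hb =>
    EF_le (Dc := 3063060) (M := 4) (l := lF) (A := -389756006640000000000) (by norm_num) (by norm_num) (by norm_num) _ (by norm_num) (st := 512) (c := 1)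
      (by norm_num) (x0 := 39216) (by decide +kernel) v (by norm_num; linarith) (by norm_num; linarith)
  have s36 : v ≤ (39984 : ℝ) / 4 → (39728 : ℝ) / 4 ≤ v → EF 3063060 4 lF v ≤ ((-31811 : ℝ) / 1000) := fun ha hb =>
    EF_le (Dc := 3063060) (M := 4) (l := lF) (A := -389756006640000000000) (by norm_num) (by norm_num) (by norm_num) _ (by norm_num) (st := 256) (c := 1)
      (by norm_num) (x0 := 39728) (by decide +kernel) v (by norm_num; linarith) (by norm_num; linarith)
  have s37 : v ≤ (40000 : ℝ) / 4 → (39984 : ℝ) / 4 ≤ v → EF 3063060 4 lF v ≤ ((-31811 : ℝ) / 1000) := fun ha hb =>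
    EF_le (Dc := 3063060) (M := 4) (l := lF) (A := -389756006640000000000) (by norm_num) (by norm_num) (by norm_num) _ (by norm_num) (st := 16) (c := 1)
      (by norm_num) (x0 := 39984) (by decide +kernel) v (by norm_num; linarith) (by norm_num; linarith)
  rcases le_total v ((84 : ℝ) / 4) with k0 | k0
  · exact s0 k0 (by linarith)
  rcases le_total v ((92 : ℝ) / 4) with k1 | k1
  · exact s1 k1 (by linarith)
  rcases le_total v ((100 : ℝ) / 4) with k2 | k2
  · exact s2 k2 (by linarith)
  rcases le_total v ((116 : ℝ) / 4) with k3 | k3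
  · exact s3 k3 (by linarith)
  rcases le_total v ((148 : ℝ) / 4) with k4 | k4
  · exact s4 k4 (by linarith)
  rcases le_total v ((172 : ℝ) / 4) with k5 | k5
  · exact s5 k5 (by linarith)
  rcases le_total v ((204 : ℝ) / 4) with k6 | k6
  · exact s6 k6 (by linarith)
  rcases le_total v ((268 : ℝ) / 4) with k7 | k7
  · exact s7 k7 (by linarith)
  rcases le_total v ((284 : ℝ) / 4) with k8 | k8
  · exact s8 k8 (by linarith)
  rcases le_total v ((288 : ℝ) / 4) with k9 | k9
  · exact s9 k9 (by linarith)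
  rcases le_total v ((352 : ℝ) / 4) with k10 | k10
  · exact s10 k10 (by linarith)
  rcases le_total v ((416 : ℝ) / 4) with k11 | k11
  · exact s11 k11 (by linarith)
  rcases le_total v ((544 : ℝ) / 4) with k12 | k12
  · exact s12 k12 (by linarith)
  rcases le_total v ((560 : ℝ) / 4) with k13 | k13
  · exact s13 k13 (by linarith)
  rcases le_total v ((568 : ℝ) / 4) with k14 | k14
  · exact s14 k14 (by linarith)
  rcases le_total v ((728 : ℝ) / 4) with k15 | k15
  · exact s15 k15 (by linarith)
  rcases le_total v ((920 : ℝ) / 4) with k16 | k16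
  · exact s16 k16 (by linarith)
  rcases le_total v ((1176 : ℝ) / 4) with k17 | k17
  · exact s17 k17 (by linarith)
  rcases le_total v ((1240 : ℝ) / 4) with k18 | k18
  · exact s18 k18 (by linarith)
  rcases le_total v ((1248 : ℝ) / 4) with k19 | k19
  · exact s19 k19 (by linarith)
  rcases le_total v ((1312 : ℝ) / 4) with k20 | k20
  · exact s20 k20 (by linarith)
  rcases le_total v ((1568 : ℝ) / 4) with k21 | k21
  · exact s21 k21 (by linarith)
  rcases le_total v ((1888 : ℝ) / 4) with k22 | k22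
  · exact s22 k22 (by linarith)
  rcases le_total v ((2528 : ℝ) / 4) with k23 | k23
  · exact s23 k23 (by linarith)
  rcases le_total v ((3808 : ℝ) / 4) with k24 | k24
  · exact s24 k24 (by linarith)
  rcases le_total v ((3872 : ℝ) / 4) with k25 | k25
  · exact s25 k25 (by linarith)
  rcases le_total v ((3888 : ℝ) / 4) with k26 | k26
  · exact s26 k26 (by linarith)
  rcases le_total v ((4912 : ℝ) / 4) with k27 | k27
  · exact s27 k27 (by linarith)
  rcases le_total v ((5552 : ℝ) / 4) with k28 | k28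
  · exact s28 k28 (by linarith)
  rcases le_total v ((7216 : ℝ) / 4) with k29 | k29
  · exact s29 k29 (by linarith)
  rcases le_total v ((10032 : ℝ) / 4) with k30 | k30
  · exact s30 k30 (by linarith)
  rcases le_total v ((16688 : ℝ) / 4) with k31 | k31
  · exact s31 k31 (by linarith)
  rcases le_total v ((34096 : ℝ) / 4) with k32 | k32
  · exact s32 k32 (by linarith)
  rcases le_total v ((38192 : ℝ) / 4) with k33 | k33
  · exact s33 k33 (by linarith)
  rcases le_total v ((39216 : ℝ) / 4) with k34 | k34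
  · exact s34 k34 (by linarith)
  rcases le_total v ((39728 : ℝ) / 4) with k35 | k35
  · exact s35 k35 (by linarith)
  rcases le_total v ((39984 : ℝ) / 4) with k36 | k36
  · exact s36 k36 (by linarith)
  exact s37 (by linarith) (by linarith)

lemma Psi_up (w k : ℝ) (hw : 0 < w) (hk : 0 < w - k) :
    Psi (w - k) ≤ Psi w - k * Real.log w + k ^ 2 * (1 / w) := by
  have h1 : Real.log ((w - k) / w) ≤ (w - k) / w - 1 :=
    Real.log_le_sub_one_of_pos (div_pos hk hw)
  rw [Real.log_div hk.ne' hw.ne'] at h1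
  have h2 := mul_le_mul_of_nonneg_left h1 hk.le
  have h3 : (w - k) * ((w - k) / w - 1) = -k + k ^ 2 * (1 / w) := by
    field_simp
    ring
  rw [h3] at h2
  unfold Psi
  linarith [h2, mul_sub (w - k) (Real.log (w - k)) (Real.log w)]

lemma Psi_lo (w k : ℝ) (hw : 0 < w) (hk : 0 < w - k) :
    Psi w - k * Real.log w ≤ Psi (w - k) := by
  have h1 : Real.log (w / (w - k)) ≤ w / (w - k) - 1 :=
    Real.log_le_sub_one_of_pos (div_pos hw hk)
  rw [Real.log_div hw.ne' hk.ne'] at h1
  have h2 := mul_le_mul_of_nonneg_left h1 hk.le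
  have h3 : (w - k) * (w / (w - k) - 1) = k := by
    field_simp
    ring
  rw [h3] at h2
  unfold Psi
  linarith [h2, mul_sub (w - k) (Real.log w) (Real.log (w - k))]

lemma E_tail (w : ℝ) (h1 : 10000 ≤ w) : EF 3063060 4 lF w + 4 * Real.log w ≤ 3 := by
  have hw : 0 < w := by linarith
  have hiw : 1 / w ≤ 1 / 10000 := one_div_le_one_div_of_le (by norm_num) h1
  have t0 := Psi_lo w (-120) hw (by linarith)
  have t1 := Psi_up w (-116) hw (by linarith)
  have t2 := Psi_up w (-104) hw (by linarith)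
  have t3 := Psi_lo w (-95) hw (by linarith)
  have t4 := Psi_up w (-85) hw (by linarith)
  have t5 := Psi_lo w (-76) hw (by linarith)
  have t6 := Psi_lo w (-56) hw (by linarith)
  have t7 := Psi_lo w (-43) hw (by linarith)
  have t8 := Psi_up w (-40) hw (by linarith)
  have t9 := Psi_up w (-30) hw (by linarith)
  have t10 := Psi_up w (-20) hw (by linarith)
  have t11 := Psi_up w (0) hw (by linarith)
  have t12 := Psi_lo w (20) hw (by linarith)
  have t13 := Psi_lo w (37) hw (by linarith)
  have t14 := Psi_lo w (72) hw (by linarith)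
  have t15 := Psi_lo w (142) hw (by linarith)
  have t16 := Psi_lo w (312) hw (by linarith)
  have t17 := Psi_lo w (972) hw (by linarith)
  have e : EF 3063060 4 lF w = ((-918918 : ℝ) / 3063060) * Psi (w - (-120)) +
    ((255255 : ℝ) / 3063060) * Psi (w - (-116)) +
    ((85085 : ℝ) / 3063060) * Psi (w - (-104)) +
    ((-34034 : ℝ) / 3063060) * Psi (w - (-95)) +
    ((34034 : ℝ) / 3063060) * Psi (w - (-85)) +
    ((-34034 : ℝ) / 3063060) * Psi (w - (-76)) +
    ((-70686 : ℝ) / 3063060) * Psi (w - (-56)) +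
    ((-235620 : ℝ) / 3063060) * Psi (w - (-43)) +
    ((306306 : ℝ) / 3063060) * Psi (w - (-40)) +
    ((306306 : ℝ) / 3063060) * Psi (w - (-30)) +
    ((612612 : ℝ) / 3063060) * Psi (w - (-20)) +
    ((306306 : ℝ) / 3063060) * Psi (w - (0)) +
    ((-252252 : ℝ) / 3063060) * Psi (w - (20)) +
    ((-185328 : ℝ) / 3063060) * Psi (w - (37)) +
    ((-87516 : ℝ) / 3063060) * Psi (w - (72)) +
    ((-51480 : ℝ) / 3063060) * Psi (w - (142)) +
    ((-26754 : ℝ) / 3063060) * Psi (w - (312)) +
    ((-9282 : ℝ) / 3063060) * Psi (w - (972)) := by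
    simp only [EF, lF, List.map_cons, List.map_nil, List.sum_cons, List.sum_nil]
    norm_num
    ring
  rw [e]
  have m0 := mul_le_mul_of_nonneg_left t0 (by norm_num : (0 : ℝ) ≤ 918918 / 3063060)
  have m1 := mul_le_mul_of_nonneg_left t1 (by norm_num : (0 : ℝ) ≤ 255255 / 3063060)
  have m2 := mul_le_mul_of_nonneg_left t2 (by norm_num : (0 : ℝ) ≤ 85085 / 3063060)
  have m3 := mul_le_mul_of_nonneg_left t3 (by norm_num : (0 : ℝ) ≤ 34034 / 3063060)
  have m4 := mul_le_mul_of_nonneg_left t4 (by norm_num : (0 : ℝ) ≤ 34034 / 3063060)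
  have m5 := mul_le_mul_of_nonneg_left t5 (by norm_num : (0 : ℝ) ≤ 34034 / 3063060)
  have m6 := mul_le_mul_of_nonneg_left t6 (by norm_num : (0 : ℝ) ≤ 70686 / 3063060)
  have m7 := mul_le_mul_of_nonneg_left t7 (by norm_num : (0 : ℝ) ≤ 235620 / 3063060)
  have m8 := mul_le_mul_of_nonneg_left t8 (by norm_num : (0 : ℝ) ≤ 306306 / 3063060)
  have m9 := mul_le_mul_of_nonneg_left t9 (by norm_num : (0 : ℝ) ≤ 306306 / 3063060)
  have m10 := mul_le_mul_of_nonneg_left t10 (by norm_num : (0 : ℝ) ≤ 612612 / 3063060)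
  have m11 := mul_le_mul_of_nonneg_left t11 (by norm_num : (0 : ℝ) ≤ 306306 / 3063060)
  have m12 := mul_le_mul_of_nonneg_left t12 (by norm_num : (0 : ℝ) ≤ 252252 / 3063060)
  have m13 := mul_le_mul_of_nonneg_left t13 (by norm_num : (0 : ℝ) ≤ 185328 / 3063060)
  have m14 := mul_le_mul_of_nonneg_left t14 (by norm_num : (0 : ℝ) ≤ 87516 / 3063060)
  have m15 := mul_le_mul_of_nonneg_left t15 (by norm_num : (0 : ℝ) ≤ 51480 / 3063060)
  have m16 := mul_le_mul_of_nonneg_left t16 (by norm_num : (0 : ℝ) ≤ 26754 / 3063060)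
  have m17 := mul_le_mul_of_nonneg_left t17 (by norm_num : (0 : ℝ) ≤ 9282 / 3063060)
  linarith [m0, m1, m2, m3, m4, m5, m6, m7, m8, m9, m10, m11, m12, m13, m14, m15, m16, m17]

end V1

open V1

/-- decay -/
theorem V1_tail (w : ℝ) (h1 : 10000 ≤ w) : FN w ≤ 209 / 20 - 4 * (Real.log w - Real.log 10000) := by
  rw [FN_eq]
  have h := E_tail w h1
  have hc := const_bounds
  have h2 := abs_le.mp (lnA_spec 2 (by norm_num) (by norm_num))
  have h5 := abs_le.mp (lnA_spec 5 (by norm_num) (by norm_num))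
  have e2 : lnA 2 = 693147180560 := by decide +kernel
  have e5 : lnA 5 = 1609437912428 := by decide +kernel
  rw [e2] at h2
  rw [e5] at h5
  push_cast at h2 h5
  have h10 : Real.log 10000 = 4 * Real.log 2 + 4 * Real.log 5 := by
    rw [show (10000 : ℝ) = 2 ^ 4 * 5 ^ 4 by norm_num, Real.log_mul (by norm_num) (by norm_num), Real.log_pow, Real.log_pow]
    norm_num
  rw [h10]
  linarith [h2.1, h2.2, h5.1, h5.2, hc.1, hc.2]

theorem V1_upper (w : ℝ) (h1 : 20 ≤ w) : FN w ≤ 209 / 20 := by
  rcases le_total w 10000 with h | h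
  · rw [FN_eq]
    linarith [E_up w h1 h, const_bounds.2]
  · have h2 := V1_tail w h
    have h3 : Real.log 10000 ≤ Real.log w := Real.log_le_log (by norm_num) h
    linarith

end Pool.Agent.LZ
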