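import Pool.Agent.H337R2.LZ.Defs

/-! Task V4 (helper25): numerical values of the energies `eS`, `eN`. -/

open Polynomial Pool.Agent.H337R2

namespace Pool.Agent.LZ

noncomputable section

namespace V4

/-- rational approximation of `log j` -/
def L (j : ℕ) : ℚ := (lnA j : ℚ) / 10 ^ 12

/-- rational approximation of `GG z` -/
def G (z : ℤ) : ℚ := (z : ℚ) ^ 2 / 2 * L z.natAbs - 3 / 4 * (z : ℚ) ^ 2

/-- error bound for `G z` -/
def E (z : ℤ) : ℚ := (z : ℚ) ^ 2 / 10 ^ 8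

theorem L_spec (j : ℕ) (h1 : 1 ≤ j) (h2 : j < 2 ^ 20) :
    |Real.log j - ((L j : ℚ) : ℝ)| ≤ 2 / 10 ^ 8 := by
  have h := lnA_spec j h1 h2
  have e : (10 : ℝ) ^ 12 * Real.log j - (lnA j : ℝ) =
      10 ^ 12 * (Real.log j - ((L j : ℚ) : ℝ)) := by
    unfold L
    push_cast
    ring
  rw [e, abs_mul, abs_of_pos (by positivity : (0 : ℝ) < 10 ^ 12)] at h
  have h3 : ((lnE : ℤ) : ℝ) = 20000 := by norm_num [lnE]
  rw [h3] at h
  linarith

theorem G_spec (z : ℤ) (hz : z.natAbs < 2 ^ 20) :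
    |GG (z : ℝ) - ((G z : ℚ) : ℝ)| ≤ ((E z : ℚ) : ℝ) := by
  rcases eq_or_ne z 0 with rfl | h0
  · simp [GG, G, E]
  have h1 : 1 ≤ z.natAbs := by omega
  have h := L_spec z.natAbs h1 hz
  have hl : Real.log ((z.natAbs : ℕ) : ℝ) = Real.log (z : ℝ) := by
    rw [Nat.cast_natAbs, Int.cast_abs, Real.log_abs]
  rw [hl] at h
  have e : GG (z : ℝ) - ((G z : ℚ) : ℝ) =
      (z : ℝ) ^ 2 / 2 * (Real.log (z : ℝ) - ((L z.natAbs : ℚ) : ℝ)) := by
    unfold GG G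
    push_cast
    ring
  rw [e, abs_mul, abs_of_nonneg (by positivity : (0 : ℝ) ≤ (z : ℝ) ^ 2 / 2)]
  calc (z : ℝ) ^ 2 / 2 * |Real.log (z : ℝ) - ((L z.natAbs : ℚ) : ℝ)|
      ≤ (z : ℝ) ^ 2 / 2 * (2 / 10 ^ 8) := mul_le_mul_of_nonneg_left h (by positivity)
    _ = ((E z : ℚ) : ℝ) := by
      unfold E
      push_cast
      ring

/-- approximation of `en g h` -/
def enq (g h : ℕ) : ℚ :=
  (G (bb g + cc g - bb h) - G (bb g + cc g - bb h - cc h) - G (bb g - bb h) +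
    G (bb g - bb h - cc h)) / (cc g * cc h) - L 10

/-- error bound -/
def enE (g h : ℕ) : ℚ :=
  (E (bb g + cc g - bb h) + E (bb g + cc g - bb h - cc h) + E (bb g - bb h) +
    E (bb g - bb h - cc h)) / (cc g * cc h) + 2 / 10 ^ 8

theorem side : ∀ g ∈ Finset.range 14, ∀ h ∈ Finset.range 14, 0 < cc g ∧ 0 < cc h ∧
    (bb g + cc g - bb h).natAbs < 2 ^ 20 ∧ (bb g + cc g - bb h - cc h).natAbs < 2 ^ 20 ∧
    (bb g - bb h).natAbs < 2 ^ 20 ∧ (bb g - bb h - cc h).natAbs < 2 ^ 20 := by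
  decide +kernel

theorem en_spec (g h : ℕ) (hg : g < 14) (hh : h < 14) :
    |en g h - ((enq g h : ℚ) : ℝ)| ≤ ((enE g h : ℚ) : ℝ) := by
  obtain ⟨c1, c2, s1, s2, s3, s4⟩ := side g (Finset.mem_range.2 hg) h (Finset.mem_range.2 hh)
  have g1 := G_spec _ s1
  have g2 := G_spec _ s2
  have g3 := G_spec _ s3
  have g4 := G_spec _ s4
  have g5 := L_spec 10 (by norm_num) (by norm_num)
  push_cast at g1 g2 g3 g4 g5
  have c1' : (0 : ℝ) < cc g := by exact_mod_cast c1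
  have c2' : (0 : ℝ) < cc h := by exact_mod_cast c2
  have hc : (0 : ℝ) < (cc g : ℝ) * cc h := mul_pos c1' c2'
  unfold en enq enE
  push_cast
  rw [abs_le] at g1 g2 g3 g4 g5 ⊢
  constructor
  · have := div_le_div_of_nonneg_right (show
      -(((E (bb g + cc g - bb h) : ℚ) : ℝ) + ((E (bb g + cc g - bb h - cc h) : ℚ) : ℝ) +
        ((E (bb g - bb h) : ℚ) : ℝ) + ((E (bb g - bb h - cc h) : ℚ) : ℝ)) ≤
      (GG ((bb g : ℝ) + cc g - bb h) - GG ((bb g : ℝ) + cc g - bb h - cc h) -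
        GG ((bb g : ℝ) - bb h) + GG ((bb g : ℝ) - bb h - cc h)) -
      (((G (bb g + cc g - bb h) : ℚ) : ℝ) - ((G (bb g + cc g - bb h - cc h) : ℚ) : ℝ) -
        ((G (bb g - bb h) : ℚ) : ℝ) + ((G (bb g - bb h - cc h) : ℚ) : ℝ)) by linarith) hc.le
    rw [sub_div, neg_div] at this
    linarith
  · have := div_le_div_of_nonneg_right (show
      (GG ((bb g : ℝ) + cc g - bb h) - GG ((bb g : ℝ) + cc g - bb h - cc h) -
        GG ((bb g : ℝ) - bb h) + GG ((bb g : ℝ) - bb h - cc h)) -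
      (((G (bb g + cc g - bb h) : ℚ) : ℝ) - ((G (bb g + cc g - bb h - cc h) : ℚ) : ℝ) -
        ((G (bb g - bb h) : ℚ) : ℝ) + ((G (bb g - bb h - cc h) : ℚ) : ℝ)) ≤
      (((E (bb g + cc g - bb h) : ℚ) : ℝ) + ((E (bb g + cc g - bb h - cc h) : ℚ) : ℝ) +
        ((E (bb g - bb h) : ℚ) : ℝ) + ((E (bb g - bb h - cc h) : ℚ) : ℝ)) by linarith) hc.le
    rw [sub_div] at this
    linarith

/-- lower bound of the energies, rational -/
theorem numN : (1897 / 10 : ℚ) ≤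
    ∑ g ∈ Finset.Ico 2 7, ∑ h ∈ Finset.Ico 2 7, (enq g h - enE g h) +
    ∑ g ∈ Finset.Ico 2 7, ∑ h ∈ Finset.Ico 7 14, (enq g h - enE g h) +
    ∑ g ∈ Finset.Ico 7 14, ∑ h ∈ Finset.Ico 7 14, (enq g h - enE g h) := by
  decide +kernel

/-- rational approximation of `iphi` -/
def iq : ℚ :=
  ((2 * (G 40 - G 20) - G 20 + (G 50 - G 30) + (G 60 - G 40) - 3 * (G 140 - G 120)) / 10 +
    20 * (35 * L 10 + 18 * L 3 + 22 * L 2 - 25)) / 10

/-- error bound -/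
def iE : ℚ :=
  ((2 * (E 40 + E 20) + E 20 + (E 50 + E 30) + (E 60 + E 40) + 3 * (E 140 + E 120)) / 10 +
    20 * (75 * (2 / 10 ^ 8))) / 10

theorem numS :
    iq + iE + ∑ g ∈ Finset.range 2, ∑ h ∈ Finset.range 2, (enq g h + enE g h) ≤
      (-469 / 10 : ℚ) := by
  decide +kernel

theorem iphi_le : iphi ≤ ((iq + iE : ℚ) : ℝ) := by
  have a1 := abs_le.1 (G_spec 20 (by norm_num))
  have a2 := abs_le.1 (G_spec 30 (by norm_num))
  have a3 := abs_le.1 (G_spec 40 (by norm_num))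
  have a4 := abs_le.1 (G_spec 50 (by norm_num))
  have a5 := abs_le.1 (G_spec 60 (by norm_num))
  have a6 := abs_le.1 (G_spec 120 (by norm_num))
  have a7 := abs_le.1 (G_spec 140 (by norm_num))
  have l1 := abs_le.1 (L_spec 10 (by norm_num) (by norm_num))
  have l2 := abs_le.1 (L_spec 3 (by norm_num) (by norm_num))
  have l3 := abs_le.1 (L_spec 2 (by norm_num) (by norm_num))
  push_cast at a1 a2 a3 a4 a5 a6 a7 l1 l2 l3
  unfold iphi iq iE
  push_cast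
  linarith [a1.1, a1.2, a2.1, a2.2, a3.1, a3.2, a4.1, a4.2, a5.1, a5.2, a6.1, a6.2, a7.1, a7.2,
    l1.1, l1.2, l2.1, l2.2, l3.1, l3.2]

theorem sum_ge (s t : Finset ℕ) (hs : ∀ g ∈ s, g < 14) (ht : ∀ h ∈ t, h < 14) :
    ((∑ g ∈ s, ∑ h ∈ t, (enq g h - enE g h) : ℚ) : ℝ) ≤ ∑ g ∈ s, ∑ h ∈ t, en g h := by
  push_cast
  refine Finset.sum_le_sum fun g hg => Finset.sum_le_sum fun h hh => ?_
  have := (abs_le.1 (en_spec g h (hs g hg) (ht h hh))).1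
  linarith

theorem sum_le (s t : Finset ℕ) (hs : ∀ g ∈ s, g < 14) (ht : ∀ h ∈ t, h < 14) :
    ∑ g ∈ s, ∑ h ∈ t, en g h ≤ ((∑ g ∈ s, ∑ h ∈ t, (enq g h + enE g h) : ℚ) : ℝ) := by
  push_cast
  refine Finset.sum_le_sum fun g hg => Finset.sum_le_sum fun h hh => ?_
  have := (abs_le.1 (en_spec g h (hs g hg) (ht h hh))).2
  linarith

end V4

theorem V4_eS : eS ≤ -469 / 10 := by
  have h1 := V4.iphi_le
  have h2 := V4.sum_le (Finset.range 2) (Finset.range 2)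
    (fun g hg => by have := Finset.mem_range.1 hg; omega)
    (fun g hg => by have := Finset.mem_range.1 hg; omega)
  have h3 : ((V4.iq + V4.iE + ∑ g ∈ Finset.range 2, ∑ h ∈ Finset.range 2,
      (V4.enq g h + V4.enE g h) : ℚ) : ℝ) ≤ ((-469 / 10 : ℚ) : ℝ) := by
    exact_mod_cast V4.numS
  unfold eS
  rw [Rat.cast_add] at h3
  have h4 : ((-469 / 10 : ℚ) : ℝ) = -469 / 10 := by norm_num
  linarith

theorem V5_eN : 1897 / 10 ≤ eN := by
  have m1 : ∀ g ∈ Finset.Ico 2 7, g < 14 := fun g hg => by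
    have := Finset.mem_Ico.1 hg
    omega
  have m2 : ∀ g ∈ Finset.Ico 7 14, g < 14 := fun g hg => by
    have := Finset.mem_Ico.1 hg
    omega
  have h1 := V4.sum_ge _ _ m1 m1
  have h2 := V4.sum_ge _ _ m1 m2
  have h3 := V4.sum_ge _ _ m2 m2
  have h4 : ((1897 / 10 : ℚ) : ℝ) ≤
    ((∑ g ∈ Finset.Ico 2 7, ∑ h ∈ Finset.Ico 2 7, (V4.enq g h - V4.enE g h) +
    ∑ g ∈ Finset.Ico 2 7, ∑ h ∈ Finset.Ico 7 14, (V4.enq g h - V4.enE g h) +
    ∑ g ∈ Finset.Ico 7 14, ∑ h ∈ Finset.Ico 7 14, (V4.enq g h - V4.enE g h) : ℚ) : ℝ) := by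
    exact_mod_cast V4.numN
  rw [Rat.cast_add, Rat.cast_add] at h4
  have h5 : ((1897 / 10 : ℚ) : ℝ) = 1897 / 10 := by norm_num
  unfold eN
  linarith

end

end Pool.Agent.LZ
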