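import Pool.Agent.H337R2.LZ.AM
import Pool.Agent.H337R2.LZ.B1
import Pool.Agent.H337R2.LZ.G2
import Pool.Agent.H337R2.LZ.G6
import Pool.Agent.H337R2.LZ.V1
import Pool.Agent.H337R2.LZ.V4

/-! The archimedean part of the linear independence of `1, ζ(2), ζ(3)` (final form, no hypotheses). -/

open Polynomial Pool.Agent.H337R2 Filter Topology

namespace Pool.Agent.LZ

noncomputable section

/-- energy of two bricks -/
theorem G6_pair : ∃ C : ℝ, 0 < C ∧ ∀ n : ℕ, 2 ≤ n → ∀ g < 14, ∀ h < 14,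
    |∑ j ∈ Finset.range n, Lp n (Finset.Ico (h * n) ((h + 1) * n)) (bb g * n + cc g * (j : ℤ)) -
      (en g h * (n : ℝ) ^ 2 + (n : ℝ) ^ 2 * Real.log n)| ≤ C * n * Real.log n :=
  G6_pair_of G3_brick

/-- **the archimedean part** -/
theorem A_main (α β : ℚ) (h : zr 3 = (α : ℝ) + β * zr 2) : ∀ᶠ n : ℕ in atTop, DD n α β ≠ 0 →
    Real.log |((DD n α β : ℚ) : ℝ)| ≤ 147 * (n : ℝ) ^ 2 * Real.log n + 140 * (n : ℝ) ^ 2 :=
  A_main_of (fun {_} hn α β h Q hQ => B1_hasSum hn α β h Q hQ) G2_entryY G6_pair V1_upper V1_tail V4_eS V5_eN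
    α β h

end

end Pool.Agent.LZ
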