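import Pool.Agent.H337R2.LZ.Defs

/-!
Task C1: p-adic size of the partial fraction coefficients with an extra factor `E` in the numerator.
-/

open Polynomial Pool.Agent.H337R2

namespace Pool.Agent.LZ

noncomputable section

section C1

variable {p : ℕ} [hp : Fact p.Prime]

lemma C1_PB_PL (n : ℕ) (k : ℕ) :
    PB p (p : ℚ) (padicNorm p (cL n) * ((p : ℚ)⁻¹) ^ (cnt p 1 (2 * n) k)) (TS (-(k : ℚ)) (PL n)) := by
  have hp0 : (0 : ℚ) ≤ p := p_pos'.le
  have hinv : (0 : ℚ) ≤ (p : ℚ)⁻¹ := inv_nonneg.2 hp0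
  have hcst : 0 ≤ padicNorm p (cL n) := padicNorm.nonneg _
  unfold PL
  rw [(TS (-(k : ℚ))).map_mul, map_prod, TS_C]
  simp only [TS_lin]
  have h1 := PB_block (p := p) 1 (2 * n) 1 k
  simp only [pow_one, one_mul] at h1
  exact PB.mul hp0 hcst (by positivity) (PB.C hp0 hcst le_rfl) h1

lemma C1_PB_PL_int (n : ℕ) (k : ℕ) :
    PB p 1 (padicNorm p (cL n)) (TS (-(k : ℚ)) (PL n)) := by
  have hcst : 0 ≤ padicNorm p (cL n) := padicNorm.nonneg _
  have hl : ∀ m : ℕ, PB p 1 1 (PowerSeries.X + PowerSeries.C (-(k : ℚ) + m)) := by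
    intro m
    apply PB.linX zero_le_one zero_le_one
    · have := padicNorm.of_int (p := p) (-(k : ℤ) + m)
      push_cast at this
      exact this
    · rw [one_mul]
  have hs : ∀ s : Finset ℕ, PB p 1 1 (∏ m ∈ s, (PowerSeries.X + PowerSeries.C (-(k : ℚ) + m))) := by
    intro s
    have := PB.prod (p := p) (ρ := 1) s (fun _ => (1 : ℚ)) _ zero_le_one (fun _ _ => zero_le_one)
      (fun m _ => hl m)
    simpa using this
  unfold PL
  rw [(TS (-(k : ℚ))).map_mul, map_prod, TS_C]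
  simp only [TS_lin]
  have h4 := PB.mul zero_le_one hcst zero_le_one
    (PB.C (p := p) zero_le_one hcst le_rfl) (hs (Finset.Icc 1 (2 * n)))
  simpa using h4

lemma C1_norm_cL {n : ℕ} (hp2 : 12 * n < p ^ 2) :
    padicNorm p (cL n) = (p : ℚ) ^ (-(((10 * n / p : ℕ) : ℤ) + ((9 * n / p : ℕ) : ℤ)
      + ((8 * n / p : ℕ) : ℤ) - ((2 * n / p : ℕ) : ℤ))) := by
  have hpne : (p : ℚ) ≠ 0 := p_pos'.ne'
  unfold cL
  rw [padicNorm.div]
  push_cast
  rw [padicNorm.mul, padicNorm.mul, norm_factorial (by omega), norm_factorial (by omega),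
    norm_factorial (by omega), norm_factorial (by omega), ← zpow_add₀ hpne, ← zpow_add₀ hpne,
    ← zpow_sub₀ hpne]
  congr 1
  push_cast
  ring

lemma C1_mem_ne {n k m : ℕ} (hm : m ∈ sL n) (hk : k ∈ sL n) (hmk : m ≠ k) (hp2 : 12 * n < p ^ 2) :
    padicNorm p ((m : ℚ) - k) = if (p : ℤ) ∣ (m : ℤ) - k then (p : ℚ)⁻¹ else 1 := by
  have h1 : ((m : ℤ) - k) ≠ 0 := by
    intro h; apply hmk; omega
  have h2 : |(m : ℤ) - k| < (p : ℤ) ^ 2 := by
    rw [Finset.mem_Icc] at hm hk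
    have h3 : ((12 * n : ℕ) : ℤ) < ((p ^ 2 : ℕ) : ℤ) := by exact_mod_cast hp2
    have h4 : (((p ^ 2 : ℕ) : ℤ)) = (p : ℤ) ^ 2 := by push_cast; ring
    rw [← h4, abs_lt]
    omega
  have h3 := norm_small (p := p) h1 h2
  push_cast at h3
  exact h3

omit hp in
lemma C1_cnt_eq (a b n k : ℕ) (ha : 2 * n + 1 ≤ a) (hb : b ≤ 12 * n) :
    cnt p a b k = ∑ m ∈ sL n, (if a ≤ m ∧ m ≤ b then 1 else 0) * (if (p : ℤ) ∣ (m : ℤ) - k then 1 else 0) := by
  unfold cnt
  rw [Finset.card_filter]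
  have h1 : Finset.Icc a b = (sL n).filter (fun m => a ≤ m ∧ m ≤ b) := by
    ext m
    simp only [Finset.mem_Icc, Finset.mem_filter]
    omega
  rw [h1, Finset.sum_filter]
  apply Finset.sum_congr rfl
  intro m _
  split_ifs <;> simp

omit hp in
lemma C1_Np {n k : ℕ} (hk : k ∈ sL n) :
    cnt p (2 * n + 1) (12 * n) k + cnt p (3 * n + 1) (12 * n) k + cnt p (4 * n + 1) (12 * n) k = mL n k +
    ∑ m ∈ (sL n).erase k, mL n m * (if (p : ℤ) ∣ (m : ℤ) - k then 1 else 0) := by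
  have h0 : ∀ m ∈ sL n, mL n m = (if 2 * n + 1 ≤ m ∧ m ≤ 12 * n then 1 else 0) +
      (if 3 * n + 1 ≤ m ∧ m ≤ 12 * n then 1 else 0) + (if 4 * n + 1 ≤ m ∧ m ≤ 12 * n then 1 else 0) := by
    intro m hm
    rw [Finset.mem_Icc] at hm
    unfold mL
    split_ifs <;> omega
  rw [C1_cnt_eq (2 * n + 1) (12 * n) n k (by omega) le_rfl,
    C1_cnt_eq (3 * n + 1) (12 * n) n k (by omega) le_rfl,
    C1_cnt_eq (4 * n + 1) (12 * n) n k (by omega) le_rfl,
    ← Finset.sum_add_distrib, ← Finset.sum_add_distrib]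
  have h2 : mL n k + ∑ m ∈ (sL n).erase k, mL n m * (if (p : ℤ) ∣ (m : ℤ) - k then 1 else 0) =
      ∑ m ∈ sL n, mL n m * (if (p : ℤ) ∣ (m : ℤ) - k then 1 else 0) := by
    rw [← Finset.add_sum_erase _ _ hk]
    simp
  rw [h2]
  apply Finset.sum_congr rfl
  intro m hm
  rw [h0 m hm]
  ring

end C1

theorem C1_pa {n p : ℕ} [Fact p.Prime] (hn : 1 ≤ n) (hp2 : 12 * n < p ^ 2) (E : ℚ[X]) {k : ℕ}
    (hk : k ∈ sL n) (A : ℚ) (hA : 0 ≤ A) (hE : PB p (p : ℚ) A (TS (-(k : ℚ)) E)) (i : ℕ) :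
    padicNorm p (pa (sL n) (mL n) (PL n * E) k i) ≤ (p : ℚ) ^ (-eL n p k - i : ℤ) * A := by
  have hp0 : (0 : ℚ) ≤ p := p_pos'.le
  have hpne : (p : ℚ) ≠ 0 := p_pos'.ne'
  have hinv : (0 : ℚ) ≤ (p : ℚ)⁻¹ := inv_nonneg.2 hp0
  have hcst : 0 ≤ padicNorm p (cL n) := padicNorm.nonneg _
  have key : padicNorm p (pa (sL n) (mL n) (PL n * E) k i) ≤
      (padicNorm p (cL n) * ((p : ℚ)⁻¹) ^ (cnt p 1 (2 * n) k + i) *
        (p : ℚ) ^ (cnt p (2 * n + 1) (12 * n) k + cnt p (3 * n + 1) (12 * n) k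
          + cnt p (4 * n + 1) (12 * n) k)) * A := by
    unfold pa
    split_ifs with hi
    · have hPE := PB.mul hp0 (by positivity) hA (C1_PB_PL (p := p) n k) hE
      rw [← map_mul] at hPE
      have h1 := pfc_bound (p := p) (sL n) (mL n) (PL n * E) k (p : ℚ) _
        (fun m => if (p : ℤ) ∣ (m : ℤ) - k then (p : ℚ) else 1) hp0 (by positivity)
        hPE
        (by
          intro m hm _
          rw [C1_mem_ne (Finset.mem_of_mem_erase hm) hk (Finset.ne_of_mem_erase hm) hp2]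
          split_ifs
          · simp
          · simp [(Fact.out : p.Prime).one_lt.le])
        (by
          intro m _
          split_ifs
          · exact hp0
          · exact zero_le_one) (mL n k - i)
      refine h1.trans (le_of_eq ?_)
      rw [prod_ite_pow, C1_Np hk]
      have h3 : ((p : ℚ)⁻¹) ^ i * (p : ℚ) ^ i = 1 := by
        rw [← mul_pow, inv_mul_cancel₀ hpne, one_pow]
      have h4 : (p : ℚ) ^ (mL n k) = (p : ℚ) ^ (mL n k - i) * (p : ℚ) ^ i := by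
        rw [← pow_add, Nat.sub_add_cancel hi]
      rw [pow_add, pow_add, h4]
      linear_combination (padicNorm p (cL n) * ((p : ℚ)⁻¹) ^ (cnt p 1 (2 * n) k) *
        (p : ℚ) ^ (∑ m ∈ (sL n).erase k, mL n m * (if (p : ℤ) ∣ (m : ℤ) - k then 1 else 0)) *
        (p : ℚ) ^ (mL n k - i)) * A * (-1) * h3
    · rw [padicNorm.zero]
      positivity
  refine key.trans (le_of_eq ?_)
  rw [C1_norm_cL hp2]
  congr 1
  rw [inv_pow, ← zpow_natCast, ← zpow_natCast, ← zpow_neg, ← zpow_add₀ hpne, ← zpow_add₀ hpne]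
  congr 1
  unfold eL
  push_cast; ring

theorem C1_pa_int {n p : ℕ} [Fact p.Prime] (hn : 1 ≤ n) (E : ℚ[X]) {k : ℕ}
    (hk : k ∈ sL n) (A : ℚ) (hA : 0 ≤ A) (hE : PB p 1 A (TS (-(k : ℚ)) E)) (i : ℕ)
    (hno : ∀ k' ∈ sL n, k' ≠ k → ¬ (p : ℤ) ∣ (k' : ℤ) - k) :
    padicNorm p (pa (sL n) (mL n) (PL n * E) k i) ≤ padicNorm p (cL n) * A := by
  have hcst : 0 ≤ padicNorm p (cL n) := padicNorm.nonneg _
  unfold pa
  split_ifs with hi
  · have hPE := PB.mul zero_le_one hcst hA (C1_PB_PL_int (p := p) n k) hE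
    rw [← map_mul] at hPE
    have h1 := pfc_bound (p := p) (sL n) (mL n) (PL n * E) k 1 _
      (fun _ => 1) zero_le_one (by positivity) hPE
      (by
        intro m hm _
        have h2 := hno m (Finset.mem_of_mem_erase hm) (Finset.ne_of_mem_erase hm)
        have h3 := (padicNorm.int_eq_one_iff (p := p) _).2 h2
        push_cast at h3
        rw [h3]; simp)
      (by intro m _; exact zero_le_one) (mL n k - i)
    simpa using h1
  · rw [padicNorm.zero]
    positivity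

end

end Pool.Agent.LZ
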