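import Pool.Agent.H337R2.LZ.Defs

/-!
Task C2: p-adic size of the linear forms for medium and large primes.
-/

open Polynomial Pool.Agent.H337R2

namespace Pool.Agent.LZ

noncomputable section

/-- statement of `C1_pa` -/
def C1_paSt : Prop := ∀ {n p : ℕ} [Fact p.Prime] (_ : 1 ≤ n) (_ : 12 * n < p ^ 2) (E : ℚ[X]) {k : ℕ}
    (_ : k ∈ sL n) (A : ℚ) (_ : 0 ≤ A) (_ : PB p (p : ℚ) A (TS (-(k : ℚ)) E)) (i : ℕ),
    padicNorm p (pa (sL n) (mL n) (PL n * E) k i) ≤ (p : ℚ) ^ (-eL n p k - i : ℤ) * A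

/-- statement of `C1_pa_int` -/
def C1_pa_intSt : Prop := ∀ {n p : ℕ} [Fact p.Prime] (_ : 1 ≤ n) (E : ℚ[X]) {k : ℕ}
    (_ : k ∈ sL n) (A : ℚ) (_ : 0 ≤ A) (_ : PB p 1 A (TS (-(k : ℚ)) E)) (i : ℕ)
    (_ : ∀ k' ∈ sL n, k' ≠ k → ¬ (p : ℤ) ∣ (k' : ℤ) - k),
    padicNorm p (pa (sL n) (mL n) (PL n * E) k i) ≤ padicNorm p (cL n) * A

lemma C2_int {p : ℕ} [Fact p.Prime] {q : ℕ} {u : ℚ} (hu : QI q u) : padicNorm p ((q : ℚ) * u) ≤ 1 := by
  obtain ⟨z, hz⟩ := hu.2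
  rw [hz]
  exact padicNorm.of_int z

lemma C2_rho {p : ℕ} [Fact p.Prime] (n : ℕ) (P : ℚ[X]) (i : ℕ) (v W : ℚ) (hW : 0 ≤ W)
    (hv : padicNorm p v ≤ 1) (h : ∀ k ∈ sL n, padicNorm p (pa (sL n) (mL n) P k i) ≤ W) :
    padicNorm p (v * rho n P i) ≤ W := by
  unfold rho
  rw [Finset.mul_sum]
  apply padicNorm.sum_le' _ hW
  intro k hk
  rw [padicNorm.mul]
  calc _ ≤ 1 * W := mul_le_mul hv (h k hk) (padicNorm.nonneg _) zero_le_one
    _ = W := one_mul W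

theorem C2_xa' (hC1 : C1_paSt) (hC1i : C1_pa_intSt)
    {n p : ℕ} [Fact p.Prime] (hn : 1 ≤ n) (hp2 : 12 * n < p ^ 2) (q : ℕ) (α : ℚ) (hα : QI q α)
    (E : ℚ[X]) (W : ℚ) (hW : 0 ≤ W) (A : ℕ → ℚ) (hA : ∀ k, 0 ≤ A k)
    (hE : ∀ k ∈ sL n, PB p (p : ℚ) (A k) (TS (-(k : ℚ)) E))
    (hE1 : ∀ k ∈ sL n, PB p 1 1 (TS (-(k : ℚ)) E))
    (h : ∀ k ∈ sL n, (p : ℚ) ^ (-eL n p k) * A k ≤ W ∨
      (padicNorm p (cL n) ≤ W ∧ ∀ k' ∈ sL n, k' ≠ k → ¬ (p : ℤ) ∣ (k' : ℤ) - k)) :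
    padicNorm p ((q : ℚ) * xa n α (PL n * E)) ≤ W := by
  have hpp : 0 < p := (Fact.out : p.Prime).pos
  have hp0 : (p : ℚ) ≠ 0 := by exact_mod_cast hpp.ne'
  have hp1 : (1 : ℚ) ≤ p := by exact_mod_cast hpp
  have hpz : ∀ z : ℤ, (0 : ℚ) ≤ (p : ℚ) ^ z := fun z => zpow_nonneg (by positivity) z
  have key : ∀ i, ∀ k ∈ sL n,
      padicNorm p (pa (sL n) (mL n) (PL n * E) k i) ≤ W ∧
      padicNorm p (pa (sL n) (mL n) (PL n * E) k i) * padicNorm p (hs i (k - 2 * n - 1)) ≤ W := by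
    intro i k hk
    have hkI := Finset.mem_Icc.1 hk
    rcases h k hk with h3 | ⟨hc, h4⟩
    · have hpa := hC1 hn hp2 E hk (A k) (hA k) (hE k hk) i
      constructor
      · refine hpa.trans (le_trans ?_ h3)
        apply mul_le_mul_of_nonneg_right _ (hA k)
        apply zpow_le_zpow_right₀ hp1
        have : (0 : ℤ) ≤ i := by positivity
        linarith
      · have h4 := hs_norm_med (p := p) i (k - 2 * n - 1) (by omega)
        refine (mul_le_mul hpa h4 (padicNorm.nonneg _)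
          (mul_nonneg (hpz _) (hA k))).trans (le_trans (le_of_eq ?_) h3)
        rw [← zpow_natCast (p : ℚ) i, mul_right_comm, ← zpow_add₀ hp0]
        congr 2
        ring
    · have hpa : padicNorm p (pa (sL n) (mL n) (PL n * E) k i) ≤ W := by
        refine (hC1i hn E hk 1 zero_le_one (hE1 k hk) i h4).trans ?_
        rw [mul_one]
        exact hc
      refine ⟨hpa, ?_⟩
      have hsm : k - 2 * n - 1 < p := by
        by_contra hcon
        have h6 : k - p ∈ sL n := Finset.mem_Icc.2 ⟨by omega, by omega⟩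
        refine h4 (k - p) h6 (by omega) ?_
        have h7 : ((k - p : ℕ) : ℤ) - k = -(p : ℤ) := by omega
        rw [h7]
        exact dvd_neg.mpr dvd_rfl
      have h5 := hs_norm_small (p := p) i (k - 2 * n - 1) hsm
      calc _ ≤ W * 1 := mul_le_mul hpa h5 (padicNorm.nonneg _) hW
        _ = W := mul_one W
  have hq1 : padicNorm p (q : ℚ) ≤ 1 := padicNorm.of_nat q
  have e : (q : ℚ) * xa n α (PL n * E) = ((q : ℚ) * α) * rho n (PL n * E) 3 -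
      ∑ i ∈ Finset.Icc 1 3, ∑ k ∈ sL n,
        (q : ℚ) * (pa (sL n) (mL n) (PL n * E) k i * hs i (k - 2 * n - 1)) := by
    unfold xa
    simp only [← Finset.mul_sum]
    ring
  rw [e]
  refine padicNorm.sub.trans (max_le ?_ ?_)
  · exact C2_rho n _ 3 _ W hW (C2_int hα) fun k hk => (key 3 k hk).1
  · apply padicNorm.sum_le' _ hW
    intro i _
    apply padicNorm.sum_le' _ hW
    intro k hk
    rw [padicNorm.mul, padicNorm.mul]
    calc _ ≤ 1 * W := mul_le_mul hq1 (key i k hk).2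
          (mul_nonneg (padicNorm.nonneg _) (padicNorm.nonneg _)) zero_le_one
      _ = W := one_mul W

theorem C2_xb' (hC1 : C1_paSt) (hC1i : C1_pa_intSt)
    {n p : ℕ} [Fact p.Prime] (hn : 1 ≤ n) (hp2 : 12 * n < p ^ 2) (q : ℕ) (β : ℚ) (hβ : QI q β)
    (E : ℚ[X]) (W : ℚ) (hW : 0 ≤ W) (A : ℕ → ℚ) (hA : ∀ k, 0 ≤ A k)
    (hE : ∀ k ∈ sL n, PB p (p : ℚ) (A k) (TS (-(k : ℚ)) E))
    (hE1 : ∀ k ∈ sL n, PB p 1 1 (TS (-(k : ℚ)) E))
    (h : ∀ k ∈ sL n, (p : ℚ) ^ (-eL n p k - 2) * A k ≤ W ∨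
      (padicNorm p (cL n) ≤ W ∧ ∀ k' ∈ sL n, k' ≠ k → ¬ (p : ℤ) ∣ (k' : ℤ) - k)) :
    padicNorm p ((q : ℚ) * xb n β (PL n * E)) ≤ W := by
  have hpp : 0 < p := (Fact.out : p.Prime).pos
  have hp1 : (1 : ℚ) ≤ p := by exact_mod_cast hpp
  have key : ∀ i, 2 ≤ i → ∀ k ∈ sL n,
      padicNorm p (pa (sL n) (mL n) (PL n * E) k i) ≤ W := by
    intro i hi k hk
    rcases h k hk with h3 | ⟨hc, h4⟩
    · refine (hC1 hn hp2 E hk (A k) (hA k) (hE k hk) i).trans (le_trans ?_ h3)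
      apply mul_le_mul_of_nonneg_right _ (hA k)
      apply zpow_le_zpow_right₀ hp1
      have : (2 : ℤ) ≤ i := by exact_mod_cast hi
      linarith
    · refine (hC1i hn E hk 1 zero_le_one (hE1 k hk) i h4).trans ?_
      rw [mul_one]
      exact hc
  have e : (q : ℚ) * xb n β (PL n * E) = (q : ℚ) * rho n (PL n * E) 2 -
      (-((q : ℚ) * β)) * rho n (PL n * E) 3 := by
    unfold xb
    ring
  rw [e]
  refine padicNorm.sub.trans (max_le ?_ ?_)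
  · exact C2_rho n _ 2 _ W hW (padicNorm.of_nat q) fun k hk => key 2 le_rfl k hk
  · refine C2_rho n _ 3 _ W hW ?_ fun k hk => key 3 (by norm_num) k hk
    rw [padicNorm.neg]
    exact C2_int hβ

end

end Pool.Agent.LZ
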