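import Pool.Agent.H337R2.LZ.Defs
import Pool.Agent.H337R2.Crude2

open Polynomial Pool.Agent.H337R2

namespace Pool.Agent.LZ

noncomputable section

set_option linter.unusedSectionVars false

variable {p : ℕ} [hp : Fact p.Prime]

lemma C3_fac_pos (N : ℕ) : 0 < padicNorm p ((N.factorial : ℕ) : ℚ) :=
  lt_of_le_of_ne (padicNorm.nonneg _)
    (Ne.symm (padicNorm.nonzero (by exact_mod_cast Nat.factorial_ne_zero _)))

/-- the factor of the site `m` -/
def C3f (p k m : ℕ) : ℚ := if m = k then 1 else (padicNorm p ((m : ℚ) - k))⁻¹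

lemma C3f_nonneg (k m : ℕ) : 0 ≤ C3f p k m := by
  unfold C3f
  split_ifs
  · exact zero_le_one
  · exact inv_nonneg.2 (padicNorm.nonneg _)

lemma C3_brick {n a b k : ℕ} (hb : 1 ≤ b) (hab : a + b = 12 * n) (hk : k ≤ 12 * n) :
    padicNorm p (((b.factorial : ℕ)) : ℚ) * ∏ m ∈ Finset.Icc (a + 1) (12 * n), C3f p k m ≤
      ((14 * n + 1 : ℕ) : ℚ) ^ 2 := by
  obtain ⟨N, rfl⟩ : ∃ N, b = N + 1 := ⟨b - 1, by omega⟩
  have h1 := brick_bound (p := p) (a + 1) N k ((14 * n + 1 : ℕ) : ℚ)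
    (by exact_mod_cast (by omega : 1 ≤ 14 * n + 1)) (by exact_mod_cast (by omega : N + 1 ≤ 14 * n + 1))
    (by exact_mod_cast (by omega : a + 1 + N ≤ 14 * n + 1)) (by exact_mod_cast (by omega : k ≤ 14 * n + 1))
  rw [show a + 1 + N = 12 * n by omega] at h1
  have h2 : padicNorm p (((N + 1).factorial : ℕ) : ℚ) ≤ padicNorm p ((N.factorial : ℕ) : ℚ) := by
    rw [Nat.factorial_succ, Nat.cast_mul, padicNorm.mul]
    exact mul_le_of_le_one_left (padicNorm.nonneg _) (padicNorm.of_nat _)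
  refine le_trans (mul_le_mul_of_nonneg_right h2 (Finset.prod_nonneg fun m _ => C3f_nonneg k m)) h1

lemma C3_prod {n k : ℕ} (hk : k ∈ sL n) :
    ∏ m ∈ (sL n).erase k, (padicNorm p ((m : ℚ) - k))⁻¹ ^ mL n m =
      (∏ m ∈ Finset.Icc (2 * n + 1) (12 * n), C3f p k m) *
      (∏ m ∈ Finset.Icc (3 * n + 1) (12 * n), C3f p k m) *
      (∏ m ∈ Finset.Icc (4 * n + 1) (12 * n), C3f p k m) := by
  have h1 : ∏ m ∈ (sL n).erase k, (padicNorm p ((m : ℚ) - k))⁻¹ ^ mL n m =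
      ∏ m ∈ sL n, C3f p k m ^ mL n m := by
    rw [← Finset.mul_prod_erase _ _ hk]
    rw [show C3f p k k = 1 by simp [C3f], one_pow, one_mul]
    apply Finset.prod_congr rfl
    intro m hm
    rw [C3f, if_neg (Finset.ne_of_mem_erase hm)]
  have h2 : ∀ m ∈ sL n, C3f p k m ^ mL n m = C3f p k m * (if 3 * n + 1 ≤ m then C3f p k m else 1) *
      (if 4 * n + 1 ≤ m then C3f p k m else 1) := by
    intro m _
    unfold mL
    split_ifs <;> first | omega | (simp; done) | ring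
  have h3 : ∀ a : ℕ, 2 ≤ a → ∏ m ∈ sL n, (if a * n + 1 ≤ m then C3f p k m else 1) =
      ∏ m ∈ Finset.Icc (a * n + 1) (12 * n), C3f p k m := by
    intro a ha
    rw [← Finset.prod_filter]
    apply Finset.prod_congr _ (fun _ _ => rfl)
    ext m
    simp only [sL, Finset.mem_filter, Finset.mem_Icc]
    constructor
    · rintro ⟨⟨_, h⟩, h'⟩; exact ⟨h', h⟩
    · rintro ⟨h', h⟩
      have : 2 * n ≤ a * n := Nat.mul_le_mul_right n ha
      exact ⟨⟨by omega, h⟩, h'⟩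
  rw [h1, Finset.prod_congr rfl h2, Finset.prod_mul_distrib, Finset.prod_mul_distrib,
    h3 3 (by norm_num), h3 4 (by norm_num)]

lemma C3_zero_PB {n k m : ℕ} (hk : k ≤ 12 * n) (hm : m ≤ 12 * n) (hmk : m ≠ k) (M : ℚ)
    (hM : ((12 * n : ℕ) : ℚ) ≤ M) :
    PB p M (padicNorm p ((k : ℚ) - m)) (TS (-(k : ℚ)) (X + C (m : ℚ))) := by
  have hM0 : 0 ≤ M := le_trans (by positivity) hM
  rw [TS_lin]
  apply PB.linX hM0 (padicNorm.nonneg _)
  · apply le_of_eq
    rw [← padicNorm.neg]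
    congr 1; ring
  · have h3 := norm_inv_le (p := p) (a := (k : ℤ) - m) (by omega) (M := M) (by
      push_cast
      have h5 : (m : ℚ) ≤ ((12 * n : ℕ) : ℚ) := by exact_mod_cast hm
      have h6 : (k : ℚ) ≤ ((12 * n : ℕ) : ℚ) := by exact_mod_cast hk
      have h7 : (0 : ℚ) ≤ m := by positivity
      have h8 : (0 : ℚ) ≤ k := by positivity
      rw [abs_le]
      constructor <;> linarith)
    push_cast at h3
    have h4 : 0 < padicNorm p ((k : ℚ) - m) := by
      refine lt_of_le_of_ne (padicNorm.nonneg _) (Ne.symm (padicNorm.nonzero ?_))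
      intro h
      apply hmk
      have : (m : ℚ) = k := by linarith
      exact_mod_cast this
    rw [inv_le_iff_one_le_mul₀ h4] at h3
    linarith

lemma C3_PL_PB {n k : ℕ} (hk : k ∈ sL n) (M : ℚ) (hM : ((12 * n : ℕ) : ℚ) ≤ M) :
    PB p M (padicNorm p (((10 * n).factorial : ℕ) : ℚ) * padicNorm p (((9 * n).factorial : ℕ) : ℚ) *
      padicNorm p (((8 * n).factorial : ℕ) : ℚ)) (TS (-(k : ℚ)) (PL n)) := by
  have hM0 : 0 ≤ M := le_trans (by positivity) hM
  have hk' := hk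
  rw [sL, Finset.mem_Icc] at hk'
  unfold PL
  rw [map_mul, map_prod, TS_C]
  have h1 : PB p M (padicNorm p (cL n)) (PowerSeries.C (cL n)) := PB.C hM0 (padicNorm.nonneg _) le_rfl
  have h3 : PB p M (∏ m ∈ Finset.Icc 1 (2 * n), padicNorm p ((k : ℚ) - m))
      (∏ m ∈ Finset.Icc 1 (2 * n), TS (-(k : ℚ)) (X + C (m : ℚ))) := by
    apply PB.prod _ _ _ hM0 (fun m _ => padicNorm.nonneg _)
    intro m hm
    rw [Finset.mem_Icc] at hm
    exact C3_zero_PB (n := n) (by omega) (by omega) (by omega) M hM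
  have h5 := num_bound (p := p) k (2 * n) (by omega)
  have hn3 : 0 ≤ ∏ m ∈ Finset.Icc 1 (2 * n), padicNorm p ((k : ℚ) - m) :=
    Finset.prod_nonneg fun _ _ => padicNorm.nonneg _
  refine PB.mono hM0 (PB.mul hM0 (padicNorm.nonneg _) hn3 h1 h3) ?_
  calc padicNorm p (cL n) * ∏ m ∈ Finset.Icc 1 (2 * n), padicNorm p ((k : ℚ) - m)
      ≤ padicNorm p (cL n) * padicNorm p (((2 * n).factorial : ℕ) : ℚ) :=
        mul_le_mul_of_nonneg_left h5 (padicNorm.nonneg _)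
    _ = _ := by
        rw [cL, padicNorm.div, Nat.cast_mul, Nat.cast_mul, padicNorm.mul, padicNorm.mul]
        have := (C3_fac_pos (p := p) (2 * n)).ne'
        field_simp

lemma C3_pa {n : ℕ} (hn : 1 ≤ n) (E : ℚ[X]) (A : ℚ) (hA : 0 ≤ A) {k : ℕ} (hk : k ∈ sL n)
    (hE : PB p ((14 * n + 1 : ℕ) : ℚ) A (TS (-(k : ℚ)) E)) (i : ℕ) :
    padicNorm p (pa (sL n) (mL n) (PL n * E) k i) ≤ ((14 * n + 1 : ℕ) : ℚ) ^ 9 * A := by
  set M : ℚ := ((14 * n + 1 : ℕ) : ℚ) with hM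
  have hM1 : 1 ≤ M := by rw [hM]; exact_mod_cast (by omega : 1 ≤ 14 * n + 1)
  have hM0 : (0 : ℚ) ≤ M := by linarith
  have hM12 : ((12 * n : ℕ) : ℚ) ≤ M := by rw [hM]; exact_mod_cast (by omega : 12 * n ≤ 14 * n + 1)
  have hk' := hk
  rw [sL, Finset.mem_Icc] at hk'
  unfold pa
  split_ifs with hi
  · set F10 := padicNorm p (((10 * n).factorial : ℕ) : ℚ) with hF10
    set F9 := padicNorm p (((9 * n).factorial : ℕ) : ℚ) with hF9
    set F8 := padicNorm p (((8 * n).factorial : ℕ) : ℚ) with hF8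
    have h10 : 0 ≤ F10 := padicNorm.nonneg _
    have h9 : 0 ≤ F9 := padicNorm.nonneg _
    have h8 : 0 ≤ F8 := padicNorm.nonneg _
    have hB0 : 0 ≤ F10 * F9 * F8 := mul_nonneg (mul_nonneg h10 h9) h8
    have hPB : PB p M (F10 * F9 * F8 * A) (TS (-(k : ℚ)) (PL n * E)) := by
      rw [map_mul]
      exact PB.mul hM0 hB0 hA (C3_PL_PB hk M hM12) hE
    have h1 := pfc_bound (p := p) (sL n) (mL n) (PL n * E) k M _
      (fun m => (padicNorm p ((m : ℚ) - k))⁻¹) hM0 (mul_nonneg hB0 hA) hPB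
      (by
        intro m hm _
        have hmk := Finset.ne_of_mem_erase hm
        have hm2 := Finset.mem_of_mem_erase hm
        rw [sL, Finset.mem_Icc] at hm2
        refine ⟨le_rfl, ?_⟩
        have h3 := norm_inv_le (p := p) (a := (m : ℤ) - k) (by omega) (M := M) (by
          push_cast
          have h5 : (m : ℚ) ≤ ((12 * n : ℕ) : ℚ) := by exact_mod_cast (by omega : m ≤ 12 * n)
          have h6 : (k : ℚ) ≤ ((12 * n : ℕ) : ℚ) := by exact_mod_cast (by omega : k ≤ 12 * n)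
          have h7 : (0 : ℚ) ≤ m := by positivity
          have h8 : (0 : ℚ) ≤ k := by positivity
          rw [abs_le]
          constructor <;> linarith)
        push_cast at h3
        exact h3)
      (fun m _ => inv_nonneg.2 (padicNorm.nonneg _)) (mL n k - i)
    refine h1.trans ?_
    rw [C3_prod hk]
    have b2 := C3_brick (p := p) (n := n) (a := 2 * n) (b := 10 * n) (k := k) (by omega) (by omega) (by omega)
    have b3 := C3_brick (p := p) (n := n) (a := 3 * n) (b := 9 * n) (k := k) (by omega) (by omega) (by omega)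
    have b4 := C3_brick (p := p) (n := n) (a := 4 * n) (b := 8 * n) (k := k) (by omega) (by omega) (by omega)
    rw [← hM] at b2 b3 b4
    set G2 := ∏ m ∈ Finset.Icc (2 * n + 1) (12 * n), C3f p k m with hG2
    set G3 := ∏ m ∈ Finset.Icc (3 * n + 1) (12 * n), C3f p k m with hG3
    set G4 := ∏ m ∈ Finset.Icc (4 * n + 1) (12 * n), C3f p k m with hG4
    have g2 : 0 ≤ G2 := Finset.prod_nonneg fun m _ => C3f_nonneg k m
    have g3 : 0 ≤ G3 := Finset.prod_nonneg fun m _ => C3f_nonneg k m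
    have g4 : 0 ≤ G4 := Finset.prod_nonneg fun m _ => C3f_nonneg k m
    have hml : mL n k - i ≤ 3 := by
      have : mL n k ≤ 3 := by unfold mL; split_ifs <;> omega
      omega
    have h7 : M ^ (mL n k - i) ≤ M ^ 3 := pow_le_pow_right₀ hM1 hml
    calc F10 * F9 * F8 * A * (G2 * G3 * G4) * M ^ (mL n k - i)
        = (F10 * G2) * (F9 * G3) * (F8 * G4) * A * M ^ (mL n k - i) := by ring
      _ ≤ M ^ 2 * M ^ 2 * M ^ 2 * A * M ^ 3 := by
          have q2 : 0 ≤ F10 * G2 := mul_nonneg h10 g2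
          have q3 : 0 ≤ F9 * G3 := mul_nonneg h9 g3
          have q4 : 0 ≤ F8 * G4 := mul_nonneg h8 g4
          gcongr
      _ = M ^ 9 * A := by ring
  · rw [padicNorm.zero]; positivity

lemma C3_rho {n : ℕ} (hn : 1 ≤ n) (E : ℚ[X]) (A : ℚ) (hA : 0 ≤ A)
    (hE : ∀ k ∈ sL n, PB p ((14 * n + 1 : ℕ) : ℚ) A (TS (-(k : ℚ)) E)) (i : ℕ) :
    padicNorm p (rho n (PL n * E) i) ≤ ((14 * n + 1 : ℕ) : ℚ) ^ 9 * A := by
  unfold rho
  apply padicNorm.sum_le' _ (by positivity)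
  intro k hk
  exact C3_pa hn E A hA hk (hE k hk) i

lemma C3_aux (x y z M A : ℚ) (hM : 0 ≤ M) (hA : 0 ≤ A) (hx : x ≤ 1) (hy0 : 0 ≤ y)
    (hy : y ≤ M ^ 9 * A) (hz0 : 0 ≤ z) (hz : z ≤ M ^ 31) : x * (y * z) ≤ M ^ 40 * A := by
  have h1 : y * z ≤ (M ^ 9 * A) * M ^ 31 := mul_le_mul hy hz hz0 (by positivity)
  have h2 : 0 ≤ y * z := mul_nonneg hy0 hz0
  calc x * (y * z) ≤ 1 * (y * z) := mul_le_mul_of_nonneg_right hx h2
    _ = y * z := one_mul _
    _ ≤ (M ^ 9 * A) * M ^ 31 := h1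
    _ = M ^ 40 * A := by ring

theorem C3_crude {n p : ℕ} [Fact p.Prime] (hn : 1 ≤ n) (q : ℕ) (u : ℚ) (hu : QI q u)
    (E : ℚ[X]) (A : ℚ) (hA : 0 ≤ A)
    (hE : ∀ k ∈ sL n, PB p ((14 * n + 1 : ℕ) : ℚ) A (TS (-(k : ℚ)) E)) :
    padicNorm p ((q : ℚ) * xa n u (PL n * E)) ≤ ((14 * n + 1 : ℕ) : ℚ) ^ 40 * A ∧
    padicNorm p ((q : ℚ) * xb n u (PL n * E)) ≤ ((14 * n + 1 : ℕ) : ℚ) ^ 40 * A := by
  obtain ⟨hq, z, hz⟩ := hu
  have hpa := fun k hk i => C3_pa (p := p) hn E A hA (k := k) hk (hE k hk) i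
  have hrho := fun i => C3_rho (p := p) hn E A hA hE i
  have hM1 : 1 ≤ ((14 * n + 1 : ℕ) : ℚ) := by exact_mod_cast (by omega : 1 ≤ 14 * n + 1)
  have hhs : ∀ m : ℕ, m ≤ 14 * n + 1 → (m : ℚ) ≤ ((14 * n + 1 : ℕ) : ℚ) := fun m hm => by
    exact_mod_cast hm
  clear hE
  generalize ((14 * n + 1 : ℕ) : ℚ) = M at *
  have hM0 : (0 : ℚ) ≤ M := by linarith
  have hW : 0 ≤ M ^ 40 * A := mul_nonneg (pow_nonneg hM0 _) hA
  have h20 : M ^ 9 * A ≤ M ^ 40 * A :=
    mul_le_mul_of_nonneg_right (pow_le_pow_right₀ hM1 (by norm_num)) hA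
  have hui : padicNorm p ((q : ℚ) * u) ≤ 1 := by
    rw [hz]; exact padicNorm.of_int z
  have hru : ∀ i, padicNorm p (rho n (PL n * E) i * ((q : ℚ) * u)) ≤ M ^ 40 * A := by
    intro i
    rw [padicNorm.mul]
    calc _ ≤ padicNorm p (rho n (PL n * E) i) * 1 :=
          mul_le_mul_of_nonneg_left hui (padicNorm.nonneg _)
      _ ≤ _ := by rw [mul_one]; exact (hrho i).trans h20
  have hrq : ∀ i, padicNorm p ((q : ℚ) * rho n (PL n * E) i) ≤ M ^ 40 * A := by
    intro i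
    rw [padicNorm.mul]
    calc _ ≤ 1 * padicNorm p (rho n (PL n * E) i) :=
          mul_le_mul_of_nonneg_right (padicNorm.of_nat q) (padicNorm.nonneg _)
      _ ≤ _ := by rw [one_mul]; exact (hrho i).trans h20
  constructor
  · unfold xa
    have e : (q : ℚ) * (rho n (PL n * E) 3 * u -
        ∑ i ∈ Finset.Icc 1 3, ∑ k ∈ sL n, pa (sL n) (mL n) (PL n * E) k i * hs i (k - 2 * n - 1))
        = rho n (PL n * E) 3 * ((q : ℚ) * u) -
          ∑ i ∈ Finset.Icc 1 3, ∑ k ∈ sL n,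
            (q : ℚ) * (pa (sL n) (mL n) (PL n * E) k i * hs i (k - 2 * n - 1)) := by
      have e1 : ∑ i ∈ Finset.Icc 1 3, ∑ k ∈ sL n,
            (q : ℚ) * (pa (sL n) (mL n) (PL n * E) k i * hs i (k - 2 * n - 1)) =
          (q : ℚ) * ∑ i ∈ Finset.Icc 1 3, ∑ k ∈ sL n,
            pa (sL n) (mL n) (PL n * E) k i * hs i (k - 2 * n - 1) := by
        rw [Finset.mul_sum]
        exact Finset.sum_congr rfl fun i _ => by rw [Finset.mul_sum]
      rw [e1]; ring
    rw [e]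
    refine padicNorm.sub.trans (max_le (hru 3) ?_)
    apply padicNorm.sum_le' _ hW
    intro i hi
    rw [Finset.mem_Icc] at hi
    apply padicNorm.sum_le' _ hW
    intro k hk
    have hk' := hk
    rw [sL, Finset.mem_Icc] at hk'
    rw [padicNorm.mul, padicNorm.mul]
    have g1 := hpa k hk i
    have g2 : padicNorm p (hs i (k - 2 * n - 1)) ≤ M ^ 31 := by
      have := hs_norm_crude (p := p) i (k - 2 * n - 1) M (hhs _ (by omega)) hM1
      exact this.trans (pow_le_pow_right₀ hM1 (by omega))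
    exact C3_aux _ _ _ M A hM0 hA (padicNorm.of_nat q) (padicNorm.nonneg _) g1
      (padicNorm.nonneg _) g2
  · unfold xb
    have e : (q : ℚ) * (rho n (PL n * E) 2 + rho n (PL n * E) 3 * u) =
        (q : ℚ) * rho n (PL n * E) 2 + rho n (PL n * E) 3 * ((q : ℚ) * u) := by ring
    rw [e]
    exact padicNorm.nonarchimedean.trans (max_le (hrq 2) (hru 3))

end

end Pool.Agent.LZ
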