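import Pool.Agent.H337R2.LZ.Defs
import Pool.Agent.H574R2.D3.C4

/-!
# Consecutive zeros
-/

open Polynomial Pool.Agent.H337R2

namespace Pool.Agent.LZ

/-- consecutive zeros -/
theorem C4_PB {n p : ℕ} [Fact p.Prime] (ρ : ℚ) (hρ1 : 1 ≤ ρ)
    (hρ : ∀ l : ℕ, 1 ≤ l → l ≤ 14 * n → (padicNorm p (l : ℚ))⁻¹ ≤ ρ) (i : ℕ) (hi : i ≤ 14 * n) (k : ℕ) :
    PB p ρ (padicNorm p ((i.factorial : ℕ) : ℚ)) (TS (-(k : ℚ)) (∏ l ∈ Finset.range i, (X + C (l : ℚ)))) := by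
  have h := Pool.Agent.H574R2.D3.C4_PB_fN (p := p) (14 * n) ρ hρ1 hρ i hi (-(k : ℤ))
  have e : TS (-(k : ℚ)) (∏ l ∈ Finset.range i, (X + C (l : ℚ))) =
      Pool.Agent.H336R2.HD.fN (-(k : ℤ)) i := by
    unfold Pool.Agent.H336R2.HD.fN
    rw [map_prod]
    refine Finset.prod_congr rfl fun l _ => ?_
    rw [TS_lin]
    push_cast
    congr 2
  rw [e]
  exact h

end Pool.Agent.LZ
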