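import Pool.Agent.H337R2.LZ.Defs

/-!
# The cells: `(1/40, 14]` is cut at all fractions `d/k` with `d ∈ {1,2,3,4,7,8,9,10,12,14}`
-/

namespace Pool.Agent.LZ

def cellsP0 : List Cell := [
⟨1, 40, 14, 559, true, 838, 840, [12, 4, 3, 2]⟩,
⟨14, 559, 12, 479, true, 838, 840, [12, 4, 3, 2]⟩,
⟨12, 479, 10, 399, true, 838, 840, [4, 3, 2, 12]⟩,
⟨10, 399, 9, 359, true, 837, 839, [4, 3, 12, 2]⟩,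
⟨9, 359, 8, 319, true, 836, 838, [4, 12, 3, 2]⟩,
⟨8, 319, 7, 279, true, 835, 837, [12, 4, 3, 2]⟩,
⟨7, 279, 6, 239, true, 835, 837, [12, 4, 3, 2]⟩,
⟨6, 239, 5, 199, true, 835, 837, [4, 3, 2, 12]⟩,
⟨5, 199, 14, 557, true, 834, 836, [4, 3, 12, 2]⟩,
⟨14, 557, 9, 358, true, 834, 836, [4, 3, 12, 2]⟩,
⟨9, 358, 4, 159, true, 833, 835, [4, 12, 3, 2]⟩,
⟨4, 159, 7, 278, true, 832, 834, [3, 2, 12, 4]⟩,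
⟨7, 278, 10, 397, true, 832, 834, [3, 2, 12, 4]⟩,
⟨10, 397, 3, 119, true, 831, 833, [3, 12, 2, 4]⟩,
⟨3, 119, 14, 555, true, 831, 833, [2, 4, 12, 3]⟩,
⟨14, 555, 8, 317, true, 831, 833, [2, 4, 12, 3]⟩,
⟨8, 317, 5, 198, true, 830, 832, [2, 12, 4, 3]⟩,
⟨5, 198, 12, 475, true, 829, 831, [12, 2, 4, 3]⟩,
⟨12, 475, 7, 277, true, 829, 831, [2, 4, 3, 12]⟩,
⟨7, 277, 9, 356, true, 829, 831, [2, 4, 3, 12]⟩,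
⟨9, 356, 2, 79, true, 828, 830, [2, 4, 12, 3]⟩,
⟨2, 79, 9, 355, true, 827, 829, [3, 12, 4, 2]⟩,
⟨9, 355, 7, 276, true, 826, 828, [12, 3, 4, 2]⟩,
⟨7, 276, 12, 473, true, 826, 828, [12, 3, 4, 2]⟩,
⟨12, 473, 5, 197, true, 826, 828, [3, 4, 2, 12]⟩,
⟨5, 197, 8, 315, true, 825, 827, [3, 4, 12, 2]⟩,
⟨8, 315, 14, 551, true, 824, 826, [3, 12, 4, 2]⟩,
⟨14, 551, 3, 118, true, 824, 826, [3, 12, 4, 2]⟩,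
⟨3, 118, 10, 393, true, 824, 826, [4, 2, 12, 3]⟩,
⟨10, 393, 7, 275, true, 823, 825, [4, 12, 2, 3]⟩,
⟨7, 275, 4, 157, true, 823, 825, [4, 12, 2, 3]⟩,
⟨4, 157, 9, 353, true, 822, 824, [2, 3, 12, 4]⟩,
⟨9, 353, 14, 549, true, 821, 823, [2, 12, 3, 4]⟩,
⟨14, 549, 5, 196, true, 821, 823, [2, 12, 3, 4]⟩,
⟨5, 196, 6, 235, true, 820, 822, [12, 2, 3, 4]⟩,
⟨6, 235, 7, 274, true, 820, 822, [2, 3, 4, 12]⟩,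
⟨7, 274, 8, 313, true, 820, 822, [2, 3, 4, 12]⟩,
⟨8, 313, 9, 352, true, 819, 821, [2, 3, 12, 4]⟩,
⟨9, 352, 10, 391, true, 818, 820, [2, 12, 3, 4]⟩,
⟨10, 391, 12, 469, true, 817, 819, [12, 2, 3, 4]⟩,
⟨12, 469, 14, 547, true, 817, 819, [2, 3, 4, 12]⟩,
⟨14, 547, 1, 39, true, 817, 819, [2, 3, 4, 12]⟩,
⟨1, 39, 14, 545, true, 817, 819, [12, 4, 3, 2]⟩,
⟨14, 545, 12, 467, true, 817, 819, [12, 4, 3, 2]⟩,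
⟨12, 467, 10, 389, true, 817, 819, [4, 3, 2, 12]⟩,
⟨10, 389, 9, 350, true, 816, 818, [4, 3, 12, 2]⟩,
⟨9, 350, 8, 311, true, 815, 817, [4, 12, 3, 2]⟩,
⟨8, 311, 7, 272, true, 814, 816, [12, 4, 3, 2]⟩,
⟨7, 272, 6, 233, true, 814, 816, [12, 4, 3, 2]⟩,
⟨6, 233, 5, 194, true, 814, 816, [4, 3, 2, 12]⟩,
⟨5, 194, 14, 543, true, 813, 815, [4, 3, 12, 2]⟩,
⟨14, 543, 9, 349, true, 813, 815, [4, 3, 12, 2]⟩,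
⟨9, 349, 4, 155, true, 812, 814, [4, 12, 3, 2]⟩,
⟨4, 155, 7, 271, true, 811, 813, [3, 2, 12, 4]⟩,
⟨7, 271, 10, 387, true, 811, 813, [3, 2, 12, 4]⟩,
⟨10, 387, 3, 116, true, 810, 812, [3, 12, 2, 4]⟩,
⟨3, 116, 14, 541, true, 810, 812, [2, 4, 12, 3]⟩,
⟨14, 541, 8, 309, true, 810, 812, [2, 4, 12, 3]⟩,
⟨8, 309, 5, 193, true, 809, 811, [2, 12, 4, 3]⟩,
⟨5, 193, 12, 463, true, 808, 810, [12, 2, 4, 3]⟩,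
⟨12, 463, 7, 270, true, 808, 810, [2, 4, 3, 12]⟩,
⟨7, 270, 9, 347, true, 808, 810, [2, 4, 3, 12]⟩,
⟨9, 347, 2, 77, true, 807, 809, [2, 4, 12, 3]⟩,
⟨2, 77, 9, 346, true, 806, 808, [3, 12, 4, 2]⟩,
⟨9, 346, 7, 269, true, 805, 807, [12, 3, 4, 2]⟩,
⟨7, 269, 12, 461, true, 805, 807, [12, 3, 4, 2]⟩,
⟨12, 461, 5, 192, true, 805, 807, [3, 4, 2, 12]⟩,
⟨5, 192, 8, 307, true, 804, 806, [3, 4, 12, 2]⟩,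
⟨8, 307, 14, 537, true, 803, 805, [3, 12, 4, 2]⟩,
⟨14, 537, 3, 115, true, 803, 805, [3, 12, 4, 2]⟩,
⟨3, 115, 10, 383, true, 803, 805, [4, 2, 12, 3]⟩,
⟨10, 383, 7, 268, true, 802, 804, [4, 12, 2, 3]⟩,
⟨7, 268, 4, 153, true, 802, 804, [4, 12, 2, 3]⟩,
⟨4, 153, 9, 344, true, 801, 803, [2, 3, 12, 4]⟩,
⟨9, 344, 14, 535, true, 800, 802, [2, 12, 3, 4]⟩,
⟨14, 535, 5, 191, true, 800, 802, [2, 12, 3, 4]⟩,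
⟨5, 191, 6, 229, true, 799, 801, [12, 2, 3, 4]⟩,
⟨6, 229, 7, 267, true, 799, 801, [2, 3, 4, 12]⟩,
⟨7, 267, 8, 305, true, 799, 801, [2, 3, 4, 12]⟩,
⟨8, 305, 9, 343, true, 798, 800, [2, 3, 12, 4]⟩,
⟨9, 343, 10, 381, true, 797, 799, [2, 12, 3, 4]⟩,
⟨10, 381, 12, 457, true, 796, 798, [12, 2, 3, 4]⟩,
⟨12, 457, 14, 533, true, 796, 798, [2, 3, 4, 12]⟩,
⟨14, 533, 1, 38, true, 796, 798, [2, 3, 4, 12]⟩,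
⟨1, 38, 14, 531, true, 796, 798, [12, 4, 3, 2]⟩,
⟨14, 531, 12, 455, true, 796, 798, [12, 4, 3, 2]⟩,
⟨12, 455, 10, 379, true, 796, 798, [4, 3, 2, 12]⟩,
⟨10, 379, 9, 341, true, 795, 797, [4, 3, 12, 2]⟩,
⟨9, 341, 8, 303, true, 794, 796, [4, 12, 3, 2]⟩,
⟨8, 303, 7, 265, true, 793, 795, [12, 4, 3, 2]⟩,
⟨7, 265, 6, 227, true, 793, 795, [12, 4, 3, 2]⟩,
⟨6, 227, 5, 189, true, 793, 795, [4, 3, 2, 12]⟩,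
⟨5, 189, 14, 529, true, 792, 794, [4, 3, 12, 2]⟩,
⟨14, 529, 9, 340, true, 792, 794, [4, 3, 12, 2]⟩,
⟨9, 340, 4, 151, true, 791, 793, [4, 12, 3, 2]⟩,
⟨4, 151, 7, 264, true, 790, 792, [3, 2, 12, 4]⟩,
⟨7, 264, 10, 377, true, 790, 792, [3, 2, 12, 4]⟩,
⟨10, 377, 3, 113, true, 789, 791, [3, 12, 2, 4]⟩,
⟨3, 113, 14, 527, true, 789, 791, [2, 4, 12, 3]⟩,
⟨14, 527, 8, 301, true, 789, 791, [2, 4, 12, 3]⟩,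
⟨8, 301, 5, 188, true, 788, 790, [2, 12, 4, 3]⟩,
⟨5, 188, 12, 451, true, 787, 789, [12, 2, 4, 3]⟩,
⟨12, 451, 7, 263, true, 787, 789, [2, 4, 3, 12]⟩,
⟨7, 263, 9, 338, true, 787, 789, [2, 4, 3, 12]⟩,
⟨9, 338, 2, 75, true, 786, 788, [2, 4, 12, 3]⟩,
⟨2, 75, 9, 337, true, 785, 787, [3, 12, 4, 2]⟩,
⟨9, 337, 7, 262, true, 784, 786, [12, 3, 4, 2]⟩,
⟨7, 262, 12, 449, true, 784, 786, [12, 3, 4, 2]⟩,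
⟨12, 449, 5, 187, true, 784, 786, [3, 4, 2, 12]⟩,
⟨5, 187, 8, 299, true, 783, 785, [3, 4, 12, 2]⟩,
⟨8, 299, 14, 523, true, 782, 784, [3, 12, 4, 2]⟩,
⟨14, 523, 3, 112, true, 782, 784, [3, 12, 4, 2]⟩,
⟨3, 112, 10, 373, true, 782, 784, [4, 2, 12, 3]⟩,
⟨10, 373, 7, 261, true, 781, 783, [4, 12, 2, 3]⟩,
⟨7, 261, 4, 149, true, 781, 783, [4, 12, 2, 3]⟩,
⟨4, 149, 9, 335, true, 780, 782, [2, 3, 12, 4]⟩,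
⟨9, 335, 14, 521, true, 779, 781, [2, 12, 3, 4]⟩,
⟨14, 521, 5, 186, true, 779, 781, [2, 12, 3, 4]⟩,
⟨5, 186, 6, 223, true, 778, 780, [12, 2, 3, 4]⟩,
⟨6, 223, 7, 260, true, 778, 780, [2, 3, 4, 12]⟩,
⟨7, 260, 8, 297, true, 778, 780, [2, 3, 4, 12]⟩,
⟨8, 297, 9, 334, true, 777, 779, [2, 3, 12, 4]⟩,
⟨9, 334, 10, 371, true, 776, 778, [2, 12, 3, 4]⟩,
⟨10, 371, 12, 445, true, 775, 777, [12, 2, 3, 4]⟩,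
⟨12, 445, 14, 519, true, 775, 777, [2, 3, 4, 12]⟩,
⟨14, 519, 1, 37, true, 775, 777, [2, 3, 4, 12]⟩,
⟨1, 37, 14, 517, true, 775, 777, [12, 4, 3, 2]⟩,
⟨14, 517, 12, 443, true, 775, 777, [12, 4, 3, 2]⟩,
⟨12, 443, 10, 369, true, 775, 777, [4, 3, 2, 12]⟩,
⟨10, 369, 9, 332, true, 774, 776, [4, 3, 12, 2]⟩,
⟨9, 332, 8, 295, true, 773, 775, [4, 12, 3, 2]⟩,
⟨8, 295, 7, 258, true, 772, 774, [12, 4, 3, 2]⟩,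
⟨7, 258, 6, 221, true, 772, 774, [12, 4, 3, 2]⟩,
⟨6, 221, 5, 184, true, 772, 774, [4, 3, 2, 12]⟩,
⟨5, 184, 14, 515, true, 771, 773, [4, 3, 12, 2]⟩,
⟨14, 515, 9, 331, true, 771, 773, [4, 3, 12, 2]⟩,
⟨9, 331, 4, 147, true, 770, 772, [4, 12, 3, 2]⟩,
⟨4, 147, 7, 257, true, 769, 771, [3, 2, 12, 4]⟩,
⟨7, 257, 10, 367, true, 769, 771, [3, 2, 12, 4]⟩,
⟨10, 367, 3, 110, true, 768, 770, [3, 12, 2, 4]⟩,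
⟨3, 110, 14, 513, true, 768, 770, [2, 4, 12, 3]⟩,
⟨14, 513, 8, 293, true, 768, 770, [2, 4, 12, 3]⟩,
⟨8, 293, 5, 183, true, 767, 769, [2, 12, 4, 3]⟩,
⟨5, 183, 12, 439, true, 766, 768, [12, 2, 4, 3]⟩,
⟨12, 439, 7, 256, true, 766, 768, [2, 4, 3, 12]⟩,
⟨7, 256, 9, 329, true, 766, 768, [2, 4, 3, 12]⟩,
⟨9, 329, 2, 73, true, 765, 767, [2, 4, 12, 3]⟩,
⟨2, 73, 9, 328, true, 764, 766, [3, 12, 4, 2]⟩,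
⟨9, 328, 7, 255, true, 763, 765, [12, 3, 4, 2]⟩,
⟨7, 255, 12, 437, true, 763, 765, [12, 3, 4, 2]⟩,
⟨12, 437, 5, 182, true, 763, 765, [3, 4, 2, 12]⟩,
⟨5, 182, 8, 291, true, 762, 764, [3, 4, 12, 2]⟩,
⟨8, 291, 14, 509, true, 761, 763, [3, 12, 4, 2]⟩,
⟨14, 509, 3, 109, true, 761, 763, [3, 12, 4, 2]⟩,
⟨3, 109, 10, 363, true, 761, 763, [4, 2, 12, 3]⟩,
⟨10, 363, 7, 254, true, 760, 762, [4, 12, 2, 3]⟩,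
⟨7, 254, 4, 145, true, 760, 762, [4, 12, 2, 3]⟩,
⟨4, 145, 9, 326, true, 759, 761, [2, 3, 12, 4]⟩,
⟨9, 326, 14, 507, true, 758, 760, [2, 12, 3, 4]⟩,
⟨14, 507, 5, 181, true, 758, 760, [2, 12, 3, 4]⟩,
⟨5, 181, 6, 217, true, 757, 759, [12, 2, 3, 4]⟩,
⟨6, 217, 7, 253, true, 757, 759, [2, 3, 4, 12]⟩,
⟨7, 253, 8, 289, true, 757, 759, [2, 3, 4, 12]⟩,
⟨8, 289, 9, 325, true, 756, 758, [2, 3, 12, 4]⟩,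
⟨9, 325, 10, 361, true, 755, 757, [2, 12, 3, 4]⟩,
⟨10, 361, 12, 433, true, 754, 756, [12, 2, 3, 4]⟩,
⟨12, 433, 14, 505, true, 754, 756, [2, 3, 4, 12]⟩,
⟨14, 505, 1, 36, true, 754, 756, [2, 3, 4, 12]⟩,
⟨1, 36, 14, 503, true, 754, 756, [12, 4, 3, 2]⟩,
⟨14, 503, 12, 431, true, 754, 756, [12, 4, 3, 2]⟩,
⟨12, 431, 10, 359, true, 754, 756, [4, 3, 2, 12]⟩,
⟨10, 359, 9, 323, true, 753, 755, [4, 3, 12, 2]⟩,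
⟨9, 323, 8, 287, true, 752, 754, [4, 12, 3, 2]⟩,
⟨8, 287, 7, 251, true, 751, 753, [12, 4, 3, 2]⟩,
⟨7, 251, 6, 215, true, 751, 753, [12, 4, 3, 2]⟩,
⟨6, 215, 5, 179, true, 751, 753, [4, 3, 2, 12]⟩,
⟨5, 179, 14, 501, true, 750, 752, [4, 3, 12, 2]⟩,
⟨14, 501, 9, 322, true, 750, 752, [4, 3, 12, 2]⟩,
⟨9, 322, 4, 143, true, 749, 751, [4, 12, 3, 2]⟩,
⟨4, 143, 7, 250, true, 748, 750, [3, 2, 12, 4]⟩,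
⟨7, 250, 10, 357, true, 748, 750, [3, 2, 12, 4]⟩,
⟨10, 357, 3, 107, true, 747, 749, [3, 12, 2, 4]⟩,
⟨3, 107, 14, 499, true, 747, 749, [2, 4, 12, 3]⟩,
⟨14, 499, 8, 285, true, 747, 749, [2, 4, 12, 3]⟩,
⟨8, 285, 5, 178, true, 746, 748, [2, 12, 4, 3]⟩,
⟨5, 178, 12, 427, true, 745, 747, [12, 2, 4, 3]⟩,
⟨12, 427, 7, 249, true, 745, 747, [2, 4, 3, 12]⟩,
⟨7, 249, 9, 320, true, 745, 747, [2, 4, 3, 12]⟩,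
⟨9, 320, 2, 71, true, 744, 746, [2, 4, 12, 3]⟩,
⟨2, 71, 9, 319, true, 743, 745, [3, 12, 4, 2]⟩,
⟨9, 319, 7, 248, true, 742, 744, [12, 3, 4, 2]⟩,
⟨7, 248, 12, 425, true, 742, 744, [12, 3, 4, 2]⟩,
⟨12, 425, 5, 177, true, 742, 744, [3, 4, 2, 12]⟩,
⟨5, 177, 8, 283, true, 741, 743, [3, 4, 12, 2]⟩,
⟨8, 283, 14, 495, true, 740, 742, [3, 12, 4, 2]⟩,
⟨14, 495, 3, 106, true, 740, 742, [3, 12, 4, 2]⟩,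
⟨3, 106, 10, 353, true, 740, 742, [4, 2, 12, 3]⟩,
⟨10, 353, 7, 247, true, 739, 741, [4, 12, 2, 3]⟩,
⟨7, 247, 4, 141, true, 739, 741, [4, 12, 2, 3]⟩,
⟨4, 141, 9, 317, true, 738, 740, [2, 3, 12, 4]⟩,
⟨9, 317, 14, 493, true, 737, 739, [2, 12, 3, 4]⟩,
⟨14, 493, 5, 176, true, 737, 739, [2, 12, 3, 4]⟩,
⟨5, 176, 6, 211, true, 736, 738, [12, 2, 3, 4]⟩,
⟨6, 211, 7, 246, true, 736, 738, [2, 3, 4, 12]⟩,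
⟨7, 246, 8, 281, true, 736, 738, [2, 3, 4, 12]⟩,
⟨8, 281, 9, 316, true, 735, 737, [2, 3, 12, 4]⟩,
⟨9, 316, 10, 351, true, 734, 736, [2, 12, 3, 4]⟩,
⟨10, 351, 12, 421, true, 733, 735, [12, 2, 3, 4]⟩,
⟨12, 421, 14, 491, true, 733, 735, [2, 3, 4, 12]⟩,
⟨14, 491, 1, 35, true, 733, 735, [2, 3, 4, 12]⟩,
⟨1, 35, 14, 489, true, 733, 735, [12, 4, 3, 2]⟩,
⟨14, 489, 12, 419, true, 733, 735, [12, 4, 3, 2]⟩,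
⟨12, 419, 10, 349, true, 733, 735, [4, 3, 2, 12]⟩,
⟨10, 349, 9, 314, true, 732, 734, [4, 3, 12, 2]⟩,
⟨9, 314, 8, 279, true, 731, 733, [4, 12, 3, 2]⟩,
⟨8, 279, 7, 244, true, 730, 732, [12, 4, 3, 2]⟩,
⟨7, 244, 6, 209, true, 730, 732, [12, 4, 3, 2]⟩,
⟨6, 209, 5, 174, true, 730, 732, [4, 3, 2, 12]⟩,
⟨5, 174, 14, 487, true, 729, 731, [4, 3, 12, 2]⟩,
⟨14, 487, 9, 313, true, 729, 731, [4, 3, 12, 2]⟩,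
⟨9, 313, 4, 139, true, 728, 730, [4, 12, 3, 2]⟩,
⟨4, 139, 7, 243, true, 727, 729, [3, 2, 12, 4]⟩,
⟨7, 243, 10, 347, true, 727, 729, [3, 2, 12, 4]⟩,
⟨10, 347, 3, 104, true, 726, 728, [3, 12, 2, 4]⟩,
⟨3, 104, 14, 485, true, 726, 728, [2, 4, 12, 3]⟩,
⟨14, 485, 8, 277, true, 726, 728, [2, 4, 12, 3]⟩,
⟨8, 277, 5, 173, true, 725, 727, [2, 12, 4, 3]⟩,
⟨5, 173, 12, 415, true, 724, 726, [12, 2, 4, 3]⟩,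
⟨12, 415, 7, 242, true, 724, 726, [2, 4, 3, 12]⟩,
⟨7, 242, 9, 311, true, 724, 726, [2, 4, 3, 12]⟩,
⟨9, 311, 2, 69, true, 723, 725, [2, 4, 12, 3]⟩,
⟨2, 69, 9, 310, true, 722, 724, [3, 12, 4, 2]⟩,
⟨9, 310, 7, 241, true, 721, 723, [12, 3, 4, 2]⟩,
⟨7, 241, 12, 413, true, 721, 723, [12, 3, 4, 2]⟩,
⟨12, 413, 5, 172, true, 721, 723, [3, 4, 2, 12]⟩,
⟨5, 172, 8, 275, true, 720, 722, [3, 4, 12, 2]⟩,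
⟨8, 275, 14, 481, true, 719, 721, [3, 12, 4, 2]⟩,
⟨14, 481, 3, 103, true, 719, 721, [3, 12, 4, 2]⟩,
⟨3, 103, 10, 343, true, 719, 721, [4, 2, 12, 3]⟩,
⟨10, 343, 7, 240, true, 718, 720, [4, 12, 2, 3]⟩,
⟨7, 240, 4, 137, true, 718, 720, [4, 12, 2, 3]⟩,
⟨4, 137, 9, 308, true, 717, 719, [2, 3, 12, 4]⟩,
⟨9, 308, 14, 479, true, 716, 718, [2, 12, 3, 4]⟩,
⟨14, 479, 5, 171, true, 716, 718, [2, 12, 3, 4]⟩,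
⟨5, 171, 6, 205, true, 715, 717, [12, 2, 3, 4]⟩,
⟨6, 205, 7, 239, true, 715, 717, [2, 3, 4, 12]⟩,
⟨7, 239, 8, 273, true, 715, 717, [2, 3, 4, 12]⟩,
⟨8, 273, 9, 307, true, 714, 716, [2, 3, 12, 4]⟩,
⟨9, 307, 10, 341, true, 713, 715, [2, 12, 3, 4]⟩,
⟨10, 341, 12, 409, true, 712, 714, [12, 2, 3, 4]⟩,
⟨12, 409, 14, 477, true, 712, 714, [2, 3, 4, 12]⟩,
⟨14, 477, 1, 34, true, 712, 714, [2, 3, 4, 12]⟩,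
⟨1, 34, 14, 475, true, 712, 714, [12, 4, 3, 2]⟩,
⟨14, 475, 12, 407, true, 712, 714, [12, 4, 3, 2]⟩,
⟨12, 407, 10, 339, true, 712, 714, [4, 3, 2, 12]⟩,
⟨10, 339, 9, 305, true, 711, 713, [4, 3, 12, 2]⟩,
⟨9, 305, 8, 271, true, 710, 712, [4, 12, 3, 2]⟩,
⟨8, 271, 7, 237, true, 709, 711, [12, 4, 3, 2]⟩,
⟨7, 237, 6, 203, true, 709, 711, [12, 4, 3, 2]⟩,
⟨6, 203, 5, 169, true, 709, 711, [4, 3, 2, 12]⟩,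
⟨5, 169, 14, 473, true, 708, 710, [4, 3, 12, 2]⟩,
⟨14, 473, 9, 304, true, 708, 710, [4, 3, 12, 2]⟩,
⟨9, 304, 4, 135, true, 707, 709, [4, 12, 3, 2]⟩,
⟨4, 135, 7, 236, true, 706, 708, [3, 2, 12, 4]⟩,
⟨7, 236, 10, 337, true, 706, 708, [3, 2, 12, 4]⟩,
⟨10, 337, 3, 101, true, 705, 707, [3, 12, 2, 4]⟩,
⟨3, 101, 14, 471, true, 705, 707, [2, 4, 12, 3]⟩,
⟨14, 471, 8, 269, true, 705, 707, [2, 4, 12, 3]⟩,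
⟨8, 269, 5, 168, true, 704, 706, [2, 12, 4, 3]⟩,
⟨5, 168, 12, 403, true, 703, 705, [12, 2, 4, 3]⟩,
⟨12, 403, 7, 235, true, 703, 705, [2, 4, 3, 12]⟩,
⟨7, 235, 9, 302, true, 703, 705, [2, 4, 3, 12]⟩,
⟨9, 302, 2, 67, true, 702, 704, [2, 4, 12, 3]⟩,
⟨2, 67, 9, 301, true, 701, 703, [3, 12, 4, 2]⟩,
⟨9, 301, 7, 234, true, 700, 702, [12, 3, 4, 2]⟩,
⟨7, 234, 12, 401, true, 700, 702, [12, 3, 4, 2]⟩,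
⟨12, 401, 5, 167, true, 700, 702, [3, 4, 2, 12]⟩,
⟨5, 167, 8, 267, true, 699, 701, [3, 4, 12, 2]⟩,
⟨8, 267, 14, 467, true, 698, 700, [3, 12, 4, 2]⟩,
⟨14, 467, 3, 100, true, 698, 700, [3, 12, 4, 2]⟩]

def cellsP1 : List Cell := [
⟨3, 100, 10, 333, true, 698, 700, [4, 2, 12, 3]⟩,
⟨10, 333, 7, 233, true, 697, 699, [4, 12, 2, 3]⟩,
⟨7, 233, 4, 133, true, 697, 699, [4, 12, 2, 3]⟩,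
⟨4, 133, 9, 299, true, 696, 698, [2, 3, 12, 4]⟩,
⟨9, 299, 14, 465, true, 695, 697, [2, 12, 3, 4]⟩,
⟨14, 465, 5, 166, true, 695, 697, [2, 12, 3, 4]⟩,
⟨5, 166, 6, 199, true, 694, 696, [12, 2, 3, 4]⟩,
⟨6, 199, 7, 232, true, 694, 696, [2, 3, 4, 12]⟩,
⟨7, 232, 8, 265, true, 694, 696, [2, 3, 4, 12]⟩,
⟨8, 265, 9, 298, true, 693, 695, [2, 3, 12, 4]⟩,
⟨9, 298, 10, 331, true, 692, 694, [2, 12, 3, 4]⟩,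
⟨10, 331, 12, 397, true, 691, 693, [12, 2, 3, 4]⟩,
⟨12, 397, 14, 463, true, 691, 693, [2, 3, 4, 12]⟩,
⟨14, 463, 1, 33, true, 691, 693, [2, 3, 4, 12]⟩,
⟨1, 33, 14, 461, true, 691, 693, [12, 4, 3, 2]⟩,
⟨14, 461, 12, 395, true, 691, 693, [12, 4, 3, 2]⟩,
⟨12, 395, 10, 329, true, 691, 693, [4, 3, 2, 12]⟩,
⟨10, 329, 9, 296, true, 690, 692, [4, 3, 12, 2]⟩,
⟨9, 296, 8, 263, true, 689, 691, [4, 12, 3, 2]⟩,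
⟨8, 263, 7, 230, true, 688, 690, [12, 4, 3, 2]⟩,
⟨7, 230, 6, 197, true, 688, 690, [12, 4, 3, 2]⟩,
⟨6, 197, 5, 164, true, 688, 690, [4, 3, 2, 12]⟩,
⟨5, 164, 14, 459, true, 687, 689, [4, 3, 12, 2]⟩,
⟨14, 459, 9, 295, true, 687, 689, [4, 3, 12, 2]⟩,
⟨9, 295, 4, 131, true, 686, 688, [4, 12, 3, 2]⟩,
⟨4, 131, 7, 229, true, 685, 687, [3, 2, 12, 4]⟩,
⟨7, 229, 10, 327, true, 685, 687, [3, 2, 12, 4]⟩,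
⟨10, 327, 3, 98, true, 684, 686, [3, 12, 2, 4]⟩,
⟨3, 98, 14, 457, true, 684, 686, [2, 4, 12, 3]⟩,
⟨14, 457, 8, 261, true, 684, 686, [2, 4, 12, 3]⟩,
⟨8, 261, 5, 163, true, 683, 685, [2, 12, 4, 3]⟩,
⟨5, 163, 12, 391, true, 682, 684, [12, 2, 4, 3]⟩,
⟨12, 391, 7, 228, true, 682, 684, [2, 4, 3, 12]⟩,
⟨7, 228, 9, 293, true, 682, 684, [2, 4, 3, 12]⟩,
⟨9, 293, 2, 65, true, 681, 683, [2, 4, 12, 3]⟩,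
⟨2, 65, 9, 292, true, 680, 682, [3, 12, 4, 2]⟩,
⟨9, 292, 7, 227, true, 679, 681, [12, 3, 4, 2]⟩,
⟨7, 227, 12, 389, true, 679, 681, [12, 3, 4, 2]⟩,
⟨12, 389, 5, 162, true, 679, 681, [3, 4, 2, 12]⟩,
⟨5, 162, 8, 259, true, 678, 680, [3, 4, 12, 2]⟩,
⟨8, 259, 14, 453, true, 677, 679, [3, 12, 4, 2]⟩,
⟨14, 453, 3, 97, true, 677, 679, [3, 12, 4, 2]⟩,
⟨3, 97, 10, 323, true, 677, 679, [4, 2, 12, 3]⟩,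
⟨10, 323, 7, 226, true, 676, 678, [4, 12, 2, 3]⟩,
⟨7, 226, 4, 129, true, 676, 678, [4, 12, 2, 3]⟩,
⟨4, 129, 9, 290, true, 675, 677, [2, 3, 12, 4]⟩,
⟨9, 290, 14, 451, true, 674, 676, [2, 12, 3, 4]⟩,
⟨14, 451, 5, 161, true, 674, 676, [2, 12, 3, 4]⟩,
⟨5, 161, 6, 193, true, 673, 675, [12, 2, 3, 4]⟩,
⟨6, 193, 7, 225, true, 673, 675, [2, 3, 4, 12]⟩,
⟨7, 225, 8, 257, true, 673, 675, [2, 3, 4, 12]⟩,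
⟨8, 257, 9, 289, true, 672, 674, [2, 3, 12, 4]⟩,
⟨9, 289, 10, 321, true, 671, 673, [2, 12, 3, 4]⟩,
⟨10, 321, 12, 385, true, 670, 672, [12, 2, 3, 4]⟩,
⟨12, 385, 14, 449, true, 670, 672, [2, 3, 4, 12]⟩,
⟨14, 449, 1, 32, true, 670, 672, [2, 3, 4, 12]⟩,
⟨1, 32, 14, 447, true, 670, 672, [12, 4, 3, 2]⟩,
⟨14, 447, 12, 383, true, 670, 672, [12, 4, 3, 2]⟩,
⟨12, 383, 10, 319, true, 670, 672, [4, 3, 2, 12]⟩,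
⟨10, 319, 9, 287, true, 669, 671, [4, 3, 12, 2]⟩,
⟨9, 287, 8, 255, true, 668, 670, [4, 12, 3, 2]⟩,
⟨8, 255, 7, 223, true, 667, 669, [12, 4, 3, 2]⟩,
⟨7, 223, 6, 191, true, 667, 669, [12, 4, 3, 2]⟩,
⟨6, 191, 5, 159, true, 667, 669, [4, 3, 2, 12]⟩,
⟨5, 159, 14, 445, true, 666, 668, [4, 3, 12, 2]⟩,
⟨14, 445, 9, 286, true, 666, 668, [4, 3, 12, 2]⟩,
⟨9, 286, 4, 127, true, 665, 667, [4, 12, 3, 2]⟩,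
⟨4, 127, 7, 222, true, 664, 666, [3, 2, 12, 4]⟩,
⟨7, 222, 10, 317, true, 664, 666, [3, 2, 12, 4]⟩,
⟨10, 317, 3, 95, true, 663, 665, [3, 12, 2, 4]⟩,
⟨3, 95, 14, 443, true, 663, 665, [2, 4, 12, 3]⟩,
⟨14, 443, 8, 253, true, 663, 665, [2, 4, 12, 3]⟩,
⟨8, 253, 5, 158, true, 662, 664, [2, 12, 4, 3]⟩,
⟨5, 158, 12, 379, true, 661, 663, [12, 2, 4, 3]⟩,
⟨12, 379, 7, 221, true, 661, 663, [2, 4, 3, 12]⟩,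
⟨7, 221, 9, 284, true, 661, 663, [2, 4, 3, 12]⟩,
⟨9, 284, 2, 63, true, 660, 662, [2, 4, 12, 3]⟩,
⟨2, 63, 9, 283, true, 659, 661, [3, 12, 4, 2]⟩,
⟨9, 283, 7, 220, true, 658, 660, [12, 3, 4, 2]⟩,
⟨7, 220, 12, 377, true, 658, 660, [12, 3, 4, 2]⟩,
⟨12, 377, 5, 157, true, 658, 660, [3, 4, 2, 12]⟩,
⟨5, 157, 8, 251, true, 657, 659, [3, 4, 12, 2]⟩,
⟨8, 251, 14, 439, true, 656, 658, [3, 12, 4, 2]⟩,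
⟨14, 439, 3, 94, true, 656, 658, [3, 12, 4, 2]⟩,
⟨3, 94, 10, 313, true, 656, 658, [4, 2, 12, 3]⟩,
⟨10, 313, 7, 219, true, 655, 657, [4, 12, 2, 3]⟩,
⟨7, 219, 4, 125, true, 655, 657, [4, 12, 2, 3]⟩,
⟨4, 125, 9, 281, true, 654, 656, [2, 3, 12, 4]⟩,
⟨9, 281, 14, 437, true, 653, 655, [2, 12, 3, 4]⟩,
⟨14, 437, 5, 156, true, 653, 655, [2, 12, 3, 4]⟩,
⟨5, 156, 6, 187, true, 652, 654, [12, 2, 3, 4]⟩,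
⟨6, 187, 7, 218, true, 652, 654, [2, 3, 4, 12]⟩,
⟨7, 218, 8, 249, true, 652, 654, [2, 3, 4, 12]⟩,
⟨8, 249, 9, 280, true, 651, 653, [2, 3, 12, 4]⟩,
⟨9, 280, 10, 311, true, 650, 652, [2, 12, 3, 4]⟩,
⟨10, 311, 12, 373, true, 649, 651, [12, 2, 3, 4]⟩,
⟨12, 373, 14, 435, true, 649, 651, [2, 3, 4, 12]⟩,
⟨14, 435, 1, 31, true, 649, 651, [2, 3, 4, 12]⟩,
⟨1, 31, 14, 433, true, 649, 651, [12, 4, 3, 2]⟩,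
⟨14, 433, 12, 371, true, 649, 651, [12, 4, 3, 2]⟩,
⟨12, 371, 10, 309, true, 649, 651, [4, 3, 2, 12]⟩,
⟨10, 309, 9, 278, true, 648, 650, [4, 3, 12, 2]⟩,
⟨9, 278, 8, 247, true, 647, 649, [4, 12, 3, 2]⟩,
⟨8, 247, 7, 216, true, 646, 648, [12, 4, 3, 2]⟩,
⟨7, 216, 6, 185, true, 646, 648, [12, 4, 3, 2]⟩,
⟨6, 185, 5, 154, true, 646, 648, [4, 3, 2, 12]⟩,
⟨5, 154, 14, 431, true, 645, 647, [4, 3, 12, 2]⟩,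
⟨14, 431, 9, 277, true, 645, 647, [4, 3, 12, 2]⟩,
⟨9, 277, 4, 123, true, 644, 646, [4, 12, 3, 2]⟩,
⟨4, 123, 7, 215, true, 643, 645, [3, 2, 12, 4]⟩,
⟨7, 215, 10, 307, true, 643, 645, [3, 2, 12, 4]⟩,
⟨10, 307, 3, 92, true, 642, 644, [3, 12, 2, 4]⟩,
⟨3, 92, 14, 429, true, 642, 644, [2, 4, 12, 3]⟩,
⟨14, 429, 8, 245, true, 642, 644, [2, 4, 12, 3]⟩,
⟨8, 245, 5, 153, true, 641, 643, [2, 12, 4, 3]⟩,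
⟨5, 153, 12, 367, true, 640, 642, [12, 2, 4, 3]⟩,
⟨12, 367, 7, 214, true, 640, 642, [2, 4, 3, 12]⟩,
⟨7, 214, 9, 275, true, 640, 642, [2, 4, 3, 12]⟩,
⟨9, 275, 2, 61, true, 639, 641, [2, 4, 12, 3]⟩,
⟨2, 61, 9, 274, true, 638, 640, [3, 12, 4, 2]⟩,
⟨9, 274, 7, 213, true, 637, 639, [12, 3, 4, 2]⟩,
⟨7, 213, 12, 365, true, 637, 639, [12, 3, 4, 2]⟩,
⟨12, 365, 5, 152, true, 637, 639, [3, 4, 2, 12]⟩,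
⟨5, 152, 8, 243, true, 636, 638, [3, 4, 12, 2]⟩,
⟨8, 243, 14, 425, true, 635, 637, [3, 12, 4, 2]⟩,
⟨14, 425, 3, 91, true, 635, 637, [3, 12, 4, 2]⟩,
⟨3, 91, 10, 303, true, 635, 637, [4, 2, 12, 3]⟩,
⟨10, 303, 7, 212, true, 634, 636, [4, 12, 2, 3]⟩,
⟨7, 212, 4, 121, true, 634, 636, [4, 12, 2, 3]⟩,
⟨4, 121, 9, 272, true, 633, 635, [2, 3, 12, 4]⟩,
⟨9, 272, 14, 423, true, 632, 634, [2, 12, 3, 4]⟩,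
⟨14, 423, 5, 151, true, 632, 634, [2, 12, 3, 4]⟩,
⟨5, 151, 6, 181, true, 631, 633, [12, 2, 3, 4]⟩,
⟨6, 181, 7, 211, true, 631, 633, [2, 3, 4, 12]⟩,
⟨7, 211, 8, 241, true, 631, 633, [2, 3, 4, 12]⟩,
⟨8, 241, 9, 271, true, 630, 632, [2, 3, 12, 4]⟩,
⟨9, 271, 10, 301, true, 629, 631, [2, 12, 3, 4]⟩,
⟨10, 301, 12, 361, true, 628, 630, [12, 2, 3, 4]⟩,
⟨12, 361, 14, 421, true, 628, 630, [2, 3, 4, 12]⟩,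
⟨14, 421, 1, 30, true, 628, 630, [2, 3, 4, 12]⟩,
⟨1, 30, 14, 419, true, 628, 630, [12, 4, 3, 2]⟩,
⟨14, 419, 12, 359, true, 628, 630, [12, 4, 3, 2]⟩,
⟨12, 359, 10, 299, true, 628, 630, [4, 3, 2, 12]⟩,
⟨10, 299, 9, 269, true, 627, 629, [4, 3, 12, 2]⟩,
⟨9, 269, 8, 239, true, 626, 628, [4, 12, 3, 2]⟩,
⟨8, 239, 7, 209, true, 625, 627, [12, 4, 3, 2]⟩,
⟨7, 209, 6, 179, true, 625, 627, [12, 4, 3, 2]⟩,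
⟨6, 179, 5, 149, true, 625, 627, [4, 3, 2, 12]⟩,
⟨5, 149, 14, 417, true, 624, 626, [4, 3, 12, 2]⟩,
⟨14, 417, 9, 268, true, 624, 626, [4, 3, 12, 2]⟩,
⟨9, 268, 4, 119, true, 623, 625, [4, 12, 3, 2]⟩,
⟨4, 119, 7, 208, true, 622, 624, [3, 2, 12, 4]⟩,
⟨7, 208, 10, 297, true, 622, 624, [3, 2, 12, 4]⟩,
⟨10, 297, 3, 89, true, 621, 623, [3, 12, 2, 4]⟩,
⟨3, 89, 14, 415, true, 621, 623, [2, 4, 12, 3]⟩,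
⟨14, 415, 8, 237, true, 621, 623, [2, 4, 12, 3]⟩,
⟨8, 237, 5, 148, true, 620, 622, [2, 12, 4, 3]⟩,
⟨5, 148, 12, 355, true, 619, 621, [12, 2, 4, 3]⟩,
⟨12, 355, 7, 207, true, 619, 621, [2, 4, 3, 12]⟩,
⟨7, 207, 9, 266, true, 619, 621, [2, 4, 3, 12]⟩,
⟨9, 266, 2, 59, true, 618, 620, [2, 4, 12, 3]⟩,
⟨2, 59, 9, 265, true, 617, 619, [3, 12, 4, 2]⟩,
⟨9, 265, 7, 206, true, 616, 618, [12, 3, 4, 2]⟩,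
⟨7, 206, 12, 353, true, 616, 618, [12, 3, 4, 2]⟩,
⟨12, 353, 5, 147, true, 616, 618, [3, 4, 2, 12]⟩,
⟨5, 147, 8, 235, true, 615, 617, [3, 4, 12, 2]⟩,
⟨8, 235, 14, 411, true, 614, 616, [3, 12, 4, 2]⟩,
⟨14, 411, 3, 88, true, 614, 616, [3, 12, 4, 2]⟩,
⟨3, 88, 10, 293, true, 614, 616, [4, 2, 12, 3]⟩,
⟨10, 293, 7, 205, true, 613, 615, [4, 12, 2, 3]⟩,
⟨7, 205, 4, 117, true, 613, 615, [4, 12, 2, 3]⟩,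
⟨4, 117, 9, 263, true, 612, 614, [2, 3, 12, 4]⟩,
⟨9, 263, 14, 409, true, 611, 613, [2, 12, 3, 4]⟩,
⟨14, 409, 5, 146, true, 611, 613, [2, 12, 3, 4]⟩,
⟨5, 146, 6, 175, true, 610, 612, [12, 2, 3, 4]⟩,
⟨6, 175, 7, 204, true, 610, 612, [2, 3, 4, 12]⟩,
⟨7, 204, 8, 233, true, 610, 612, [2, 3, 4, 12]⟩,
⟨8, 233, 9, 262, true, 609, 611, [2, 3, 12, 4]⟩,
⟨9, 262, 10, 291, true, 608, 610, [2, 12, 3, 4]⟩,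
⟨10, 291, 12, 349, true, 607, 609, [12, 2, 3, 4]⟩,
⟨12, 349, 14, 407, true, 607, 609, [2, 3, 4, 12]⟩,
⟨14, 407, 1, 29, true, 607, 609, [2, 3, 4, 12]⟩,
⟨1, 29, 14, 405, true, 607, 609, [12, 4, 3, 2]⟩,
⟨14, 405, 12, 347, true, 607, 609, [12, 4, 3, 2]⟩,
⟨12, 347, 10, 289, true, 607, 609, [4, 3, 2, 12]⟩,
⟨10, 289, 9, 260, true, 606, 608, [4, 3, 12, 2]⟩,
⟨9, 260, 8, 231, true, 605, 607, [4, 12, 3, 2]⟩,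
⟨8, 231, 7, 202, true, 604, 606, [12, 4, 3, 2]⟩,
⟨7, 202, 6, 173, true, 604, 606, [12, 4, 3, 2]⟩,
⟨6, 173, 5, 144, true, 604, 606, [4, 3, 2, 12]⟩,
⟨5, 144, 14, 403, true, 603, 605, [4, 3, 12, 2]⟩,
⟨14, 403, 9, 259, true, 603, 605, [4, 3, 12, 2]⟩,
⟨9, 259, 4, 115, true, 602, 604, [4, 12, 3, 2]⟩,
⟨4, 115, 7, 201, true, 601, 603, [3, 2, 12, 4]⟩,
⟨7, 201, 10, 287, true, 601, 603, [3, 2, 12, 4]⟩,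
⟨10, 287, 3, 86, true, 600, 602, [3, 12, 2, 4]⟩,
⟨3, 86, 14, 401, true, 600, 602, [2, 4, 12, 3]⟩,
⟨14, 401, 8, 229, true, 600, 602, [2, 4, 12, 3]⟩,
⟨8, 229, 5, 143, true, 599, 601, [2, 12, 4, 3]⟩,
⟨5, 143, 12, 343, true, 598, 600, [12, 2, 4, 3]⟩,
⟨12, 343, 7, 200, true, 598, 600, [2, 4, 3, 12]⟩,
⟨7, 200, 9, 257, true, 598, 600, [2, 4, 3, 12]⟩,
⟨9, 257, 2, 57, true, 597, 599, [2, 4, 12, 3]⟩,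
⟨2, 57, 9, 256, true, 596, 598, [3, 12, 4, 2]⟩,
⟨9, 256, 7, 199, true, 595, 597, [12, 3, 4, 2]⟩,
⟨7, 199, 12, 341, true, 595, 597, [12, 3, 4, 2]⟩,
⟨12, 341, 5, 142, true, 595, 597, [3, 4, 2, 12]⟩,
⟨5, 142, 8, 227, true, 594, 596, [3, 4, 12, 2]⟩,
⟨8, 227, 14, 397, true, 593, 595, [3, 12, 4, 2]⟩,
⟨14, 397, 3, 85, true, 593, 595, [3, 12, 4, 2]⟩,
⟨3, 85, 10, 283, true, 593, 595, [4, 2, 12, 3]⟩,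
⟨10, 283, 7, 198, true, 592, 594, [4, 12, 2, 3]⟩,
⟨7, 198, 4, 113, true, 592, 594, [4, 12, 2, 3]⟩,
⟨4, 113, 9, 254, true, 591, 593, [2, 3, 12, 4]⟩,
⟨9, 254, 14, 395, true, 590, 592, [2, 12, 3, 4]⟩,
⟨14, 395, 5, 141, true, 590, 592, [2, 12, 3, 4]⟩,
⟨5, 141, 6, 169, true, 589, 591, [12, 2, 3, 4]⟩,
⟨6, 169, 7, 197, true, 589, 591, [2, 3, 4, 12]⟩,
⟨7, 197, 8, 225, true, 589, 591, [2, 3, 4, 12]⟩,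
⟨8, 225, 9, 253, true, 588, 590, [2, 3, 12, 4]⟩,
⟨9, 253, 10, 281, true, 587, 589, [2, 12, 3, 4]⟩,
⟨10, 281, 12, 337, true, 586, 588, [12, 2, 3, 4]⟩,
⟨12, 337, 14, 393, true, 586, 588, [2, 3, 4, 12]⟩,
⟨14, 393, 1, 28, true, 586, 588, [2, 3, 4, 12]⟩,
⟨1, 28, 14, 391, true, 586, 588, [12, 4, 3, 2]⟩,
⟨14, 391, 12, 335, true, 586, 588, [12, 4, 3, 2]⟩,
⟨12, 335, 10, 279, true, 586, 588, [4, 3, 2, 12]⟩,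
⟨10, 279, 9, 251, true, 585, 587, [4, 3, 12, 2]⟩,
⟨9, 251, 8, 223, true, 584, 586, [4, 12, 3, 2]⟩,
⟨8, 223, 7, 195, true, 583, 585, [12, 4, 3, 2]⟩,
⟨7, 195, 6, 167, true, 583, 585, [12, 4, 3, 2]⟩,
⟨6, 167, 5, 139, true, 583, 585, [4, 3, 2, 12]⟩,
⟨5, 139, 14, 389, true, 582, 584, [4, 3, 12, 2]⟩,
⟨14, 389, 9, 250, true, 582, 584, [4, 3, 12, 2]⟩,
⟨9, 250, 4, 111, true, 581, 583, [4, 12, 3, 2]⟩,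
⟨4, 111, 7, 194, true, 580, 582, [3, 2, 12, 4]⟩,
⟨7, 194, 10, 277, true, 580, 582, [3, 2, 12, 4]⟩,
⟨10, 277, 3, 83, true, 579, 581, [3, 12, 2, 4]⟩,
⟨3, 83, 14, 387, true, 579, 581, [2, 4, 12, 3]⟩,
⟨14, 387, 8, 221, true, 579, 581, [2, 4, 12, 3]⟩,
⟨8, 221, 5, 138, true, 578, 580, [2, 12, 4, 3]⟩,
⟨5, 138, 12, 331, true, 577, 579, [12, 2, 4, 3]⟩,
⟨12, 331, 7, 193, true, 577, 579, [2, 4, 3, 12]⟩,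
⟨7, 193, 9, 248, true, 577, 579, [2, 4, 3, 12]⟩,
⟨9, 248, 2, 55, true, 576, 578, [2, 4, 12, 3]⟩,
⟨2, 55, 9, 247, true, 575, 577, [3, 12, 4, 2]⟩,
⟨9, 247, 7, 192, true, 574, 576, [12, 3, 4, 2]⟩,
⟨7, 192, 12, 329, true, 574, 576, [12, 3, 4, 2]⟩,
⟨12, 329, 5, 137, true, 574, 576, [3, 4, 2, 12]⟩,
⟨5, 137, 8, 219, true, 573, 575, [3, 4, 12, 2]⟩,
⟨8, 219, 14, 383, true, 572, 574, [3, 12, 4, 2]⟩,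
⟨14, 383, 3, 82, true, 572, 574, [3, 12, 4, 2]⟩,
⟨3, 82, 10, 273, true, 572, 574, [4, 2, 12, 3]⟩,
⟨10, 273, 7, 191, true, 571, 573, [4, 12, 2, 3]⟩,
⟨7, 191, 4, 109, true, 571, 573, [4, 12, 2, 3]⟩,
⟨4, 109, 9, 245, true, 570, 572, [2, 3, 12, 4]⟩,
⟨9, 245, 14, 381, true, 569, 571, [2, 12, 3, 4]⟩,
⟨14, 381, 5, 136, true, 569, 571, [2, 12, 3, 4]⟩,
⟨5, 136, 6, 163, true, 568, 570, [12, 2, 3, 4]⟩,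
⟨6, 163, 7, 190, true, 568, 570, [2, 3, 4, 12]⟩,
⟨7, 190, 8, 217, true, 568, 570, [2, 3, 4, 12]⟩,
⟨8, 217, 9, 244, true, 567, 569, [2, 3, 12, 4]⟩,
⟨9, 244, 10, 271, true, 566, 568, [2, 12, 3, 4]⟩,
⟨10, 271, 12, 325, true, 565, 567, [12, 2, 3, 4]⟩,
⟨12, 325, 14, 379, true, 565, 567, [2, 3, 4, 12]⟩,
⟨14, 379, 1, 27, true, 565, 567, [2, 3, 4, 12]⟩,
⟨1, 27, 14, 377, true, 565, 567, [12, 4, 3, 2]⟩,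
⟨14, 377, 12, 323, true, 565, 567, [12, 4, 3, 2]⟩,
⟨12, 323, 10, 269, true, 565, 567, [4, 3, 2, 12]⟩,
⟨10, 269, 9, 242, true, 564, 566, [4, 3, 12, 2]⟩,
⟨9, 242, 8, 215, true, 563, 565, [4, 12, 3, 2]⟩,
⟨8, 215, 7, 188, true, 562, 564, [12, 4, 3, 2]⟩,
⟨7, 188, 6, 161, true, 562, 564, [12, 4, 3, 2]⟩,
⟨6, 161, 5, 134, true, 562, 564, [4, 3, 2, 12]⟩,
⟨5, 134, 14, 375, true, 561, 563, [4, 3, 12, 2]⟩,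
⟨14, 375, 9, 241, true, 561, 563, [4, 3, 12, 2]⟩,
⟨9, 241, 4, 107, true, 560, 562, [4, 12, 3, 2]⟩,
⟨4, 107, 7, 187, true, 559, 561, [3, 2, 12, 4]⟩,
⟨7, 187, 10, 267, true, 559, 561, [3, 2, 12, 4]⟩,
⟨10, 267, 3, 80, true, 558, 560, [3, 12, 2, 4]⟩]

def cellsP2 : List Cell := [
⟨3, 80, 14, 373, true, 558, 560, [2, 4, 12, 3]⟩,
⟨14, 373, 8, 213, true, 558, 560, [2, 4, 12, 3]⟩,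
⟨8, 213, 5, 133, true, 557, 559, [2, 12, 4, 3]⟩,
⟨5, 133, 12, 319, true, 556, 558, [12, 2, 4, 3]⟩,
⟨12, 319, 7, 186, true, 556, 558, [2, 4, 3, 12]⟩,
⟨7, 186, 9, 239, true, 556, 558, [2, 4, 3, 12]⟩,
⟨9, 239, 2, 53, true, 555, 557, [2, 4, 12, 3]⟩,
⟨2, 53, 9, 238, true, 554, 556, [3, 12, 4, 2]⟩,
⟨9, 238, 7, 185, true, 553, 555, [12, 3, 4, 2]⟩,
⟨7, 185, 12, 317, true, 553, 555, [12, 3, 4, 2]⟩,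
⟨12, 317, 5, 132, true, 553, 555, [3, 4, 2, 12]⟩,
⟨5, 132, 8, 211, true, 552, 554, [3, 4, 12, 2]⟩,
⟨8, 211, 14, 369, true, 551, 553, [3, 12, 4, 2]⟩,
⟨14, 369, 3, 79, true, 551, 553, [3, 12, 4, 2]⟩,
⟨3, 79, 10, 263, true, 551, 553, [4, 2, 12, 3]⟩,
⟨10, 263, 7, 184, true, 550, 552, [4, 12, 2, 3]⟩,
⟨7, 184, 4, 105, true, 550, 552, [4, 12, 2, 3]⟩,
⟨4, 105, 9, 236, true, 549, 551, [2, 3, 12, 4]⟩,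
⟨9, 236, 14, 367, true, 548, 550, [2, 12, 3, 4]⟩,
⟨14, 367, 5, 131, true, 548, 550, [2, 12, 3, 4]⟩,
⟨5, 131, 6, 157, true, 547, 549, [12, 2, 3, 4]⟩,
⟨6, 157, 7, 183, true, 547, 549, [2, 3, 4, 12]⟩,
⟨7, 183, 8, 209, true, 547, 549, [2, 3, 4, 12]⟩,
⟨8, 209, 9, 235, true, 546, 548, [2, 3, 12, 4]⟩,
⟨9, 235, 10, 261, true, 545, 547, [2, 12, 3, 4]⟩,
⟨10, 261, 12, 313, true, 544, 546, [12, 2, 3, 4]⟩,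
⟨12, 313, 14, 365, true, 544, 546, [2, 3, 4, 12]⟩,
⟨14, 365, 1, 26, true, 544, 546, [2, 3, 4, 12]⟩,
⟨1, 26, 14, 363, true, 544, 546, [12, 4, 3, 2]⟩,
⟨14, 363, 12, 311, true, 544, 546, [12, 4, 3, 2]⟩,
⟨12, 311, 10, 259, true, 544, 546, [4, 3, 2, 12]⟩,
⟨10, 259, 9, 233, true, 543, 545, [4, 3, 12, 2]⟩,
⟨9, 233, 8, 207, true, 542, 544, [4, 12, 3, 2]⟩,
⟨8, 207, 7, 181, true, 541, 543, [12, 4, 3, 2]⟩,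
⟨7, 181, 6, 155, true, 541, 543, [12, 4, 3, 2]⟩,
⟨6, 155, 5, 129, true, 541, 543, [4, 3, 2, 12]⟩,
⟨5, 129, 14, 361, true, 540, 542, [4, 3, 12, 2]⟩,
⟨14, 361, 9, 232, true, 540, 542, [4, 3, 12, 2]⟩,
⟨9, 232, 4, 103, true, 539, 541, [4, 12, 3, 2]⟩,
⟨4, 103, 7, 180, true, 538, 540, [3, 2, 12, 4]⟩,
⟨7, 180, 10, 257, true, 538, 540, [3, 2, 12, 4]⟩,
⟨10, 257, 3, 77, true, 537, 539, [3, 12, 2, 4]⟩,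
⟨3, 77, 14, 359, true, 537, 539, [2, 4, 12, 3]⟩,
⟨14, 359, 8, 205, true, 537, 539, [2, 4, 12, 3]⟩,
⟨8, 205, 5, 128, true, 536, 538, [2, 12, 4, 3]⟩,
⟨5, 128, 12, 307, true, 535, 537, [12, 2, 4, 3]⟩,
⟨12, 307, 7, 179, true, 535, 537, [2, 4, 3, 12]⟩,
⟨7, 179, 9, 230, true, 535, 537, [2, 4, 3, 12]⟩,
⟨9, 230, 2, 51, true, 534, 536, [2, 4, 12, 3]⟩,
⟨2, 51, 9, 229, true, 533, 535, [3, 12, 4, 2]⟩,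
⟨9, 229, 7, 178, true, 532, 534, [12, 3, 4, 2]⟩,
⟨7, 178, 12, 305, true, 532, 534, [12, 3, 4, 2]⟩,
⟨12, 305, 5, 127, true, 532, 534, [3, 4, 2, 12]⟩,
⟨5, 127, 8, 203, true, 531, 533, [3, 4, 12, 2]⟩,
⟨8, 203, 14, 355, true, 530, 532, [3, 12, 4, 2]⟩,
⟨14, 355, 3, 76, true, 530, 532, [3, 12, 4, 2]⟩,
⟨3, 76, 10, 253, true, 530, 532, [4, 2, 12, 3]⟩,
⟨10, 253, 7, 177, true, 529, 531, [4, 12, 2, 3]⟩,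
⟨7, 177, 4, 101, true, 529, 531, [4, 12, 2, 3]⟩,
⟨4, 101, 9, 227, true, 528, 530, [2, 3, 12, 4]⟩,
⟨9, 227, 14, 353, true, 527, 529, [2, 12, 3, 4]⟩,
⟨14, 353, 5, 126, true, 527, 529, [2, 12, 3, 4]⟩,
⟨5, 126, 6, 151, true, 526, 528, [12, 2, 3, 4]⟩,
⟨6, 151, 7, 176, true, 526, 528, [2, 3, 4, 12]⟩,
⟨7, 176, 8, 201, true, 526, 528, [2, 3, 4, 12]⟩,
⟨8, 201, 9, 226, true, 525, 527, [2, 3, 12, 4]⟩,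
⟨9, 226, 10, 251, true, 524, 526, [2, 12, 3, 4]⟩,
⟨10, 251, 12, 301, true, 523, 525, [12, 2, 3, 4]⟩,
⟨12, 301, 14, 351, true, 523, 525, [2, 3, 4, 12]⟩,
⟨14, 351, 1, 25, true, 523, 525, [2, 3, 4, 12]⟩,
⟨1, 25, 14, 349, true, 523, 525, [12, 4, 3, 2]⟩,
⟨14, 349, 12, 299, true, 523, 525, [12, 4, 3, 2]⟩,
⟨12, 299, 10, 249, true, 523, 525, [4, 3, 2, 12]⟩,
⟨10, 249, 9, 224, true, 522, 524, [4, 3, 12, 2]⟩,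
⟨9, 224, 8, 199, true, 521, 523, [4, 12, 3, 2]⟩,
⟨8, 199, 7, 174, true, 520, 522, [12, 4, 3, 2]⟩,
⟨7, 174, 6, 149, true, 520, 522, [12, 4, 3, 2]⟩,
⟨6, 149, 5, 124, true, 520, 522, [4, 3, 2, 12]⟩,
⟨5, 124, 14, 347, true, 519, 521, [4, 3, 12, 2]⟩,
⟨14, 347, 9, 223, true, 519, 521, [4, 3, 12, 2]⟩,
⟨9, 223, 4, 99, true, 518, 520, [4, 12, 3, 2]⟩,
⟨4, 99, 7, 173, true, 517, 519, [3, 2, 12, 4]⟩,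
⟨7, 173, 10, 247, true, 517, 519, [3, 2, 12, 4]⟩,
⟨10, 247, 3, 74, true, 516, 518, [3, 12, 2, 4]⟩,
⟨3, 74, 14, 345, true, 516, 518, [2, 4, 12, 3]⟩,
⟨14, 345, 8, 197, true, 516, 518, [2, 4, 12, 3]⟩,
⟨8, 197, 5, 123, true, 515, 517, [2, 12, 4, 3]⟩,
⟨5, 123, 12, 295, true, 514, 516, [12, 2, 4, 3]⟩,
⟨12, 295, 7, 172, true, 514, 516, [2, 4, 3, 12]⟩,
⟨7, 172, 9, 221, true, 514, 516, [2, 4, 3, 12]⟩,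
⟨9, 221, 2, 49, true, 513, 515, [2, 4, 12, 3]⟩,
⟨2, 49, 9, 220, true, 512, 514, [3, 12, 4, 2]⟩,
⟨9, 220, 7, 171, true, 511, 513, [12, 3, 4, 2]⟩,
⟨7, 171, 12, 293, true, 511, 513, [12, 3, 4, 2]⟩,
⟨12, 293, 5, 122, true, 511, 513, [3, 4, 2, 12]⟩,
⟨5, 122, 8, 195, true, 510, 512, [3, 4, 12, 2]⟩,
⟨8, 195, 14, 341, true, 509, 511, [3, 12, 4, 2]⟩,
⟨14, 341, 3, 73, true, 509, 511, [3, 12, 4, 2]⟩,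
⟨3, 73, 10, 243, true, 509, 511, [4, 2, 12, 3]⟩,
⟨10, 243, 7, 170, true, 508, 510, [4, 12, 2, 3]⟩,
⟨7, 170, 4, 97, true, 508, 510, [4, 12, 2, 3]⟩,
⟨4, 97, 9, 218, true, 507, 509, [2, 3, 12, 4]⟩,
⟨9, 218, 14, 339, true, 506, 508, [2, 12, 3, 4]⟩,
⟨14, 339, 5, 121, true, 506, 508, [2, 12, 3, 4]⟩,
⟨5, 121, 6, 145, true, 505, 507, [12, 2, 3, 4]⟩,
⟨6, 145, 7, 169, true, 505, 507, [2, 3, 4, 12]⟩,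
⟨7, 169, 8, 193, true, 505, 507, [2, 3, 4, 12]⟩,
⟨8, 193, 9, 217, true, 504, 506, [2, 3, 12, 4]⟩,
⟨9, 217, 10, 241, true, 503, 505, [2, 12, 3, 4]⟩,
⟨10, 241, 12, 289, true, 502, 504, [12, 2, 3, 4]⟩,
⟨12, 289, 14, 337, true, 502, 504, [2, 3, 4, 12]⟩,
⟨14, 337, 1, 24, true, 502, 504, [2, 3, 4, 12]⟩,
⟨1, 24, 14, 335, true, 502, 504, [12, 4, 3, 2]⟩,
⟨14, 335, 12, 287, true, 502, 504, [12, 4, 3, 2]⟩,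
⟨12, 287, 10, 239, true, 502, 504, [4, 3, 2, 12]⟩,
⟨10, 239, 9, 215, true, 501, 503, [4, 3, 12, 2]⟩,
⟨9, 215, 8, 191, true, 500, 502, [4, 12, 3, 2]⟩,
⟨8, 191, 7, 167, true, 499, 501, [12, 4, 3, 2]⟩,
⟨7, 167, 6, 143, true, 499, 501, [12, 4, 3, 2]⟩,
⟨6, 143, 5, 119, true, 499, 501, [4, 3, 2, 12]⟩,
⟨5, 119, 14, 333, true, 498, 500, [4, 3, 12, 2]⟩,
⟨14, 333, 9, 214, true, 498, 500, [4, 3, 12, 2]⟩,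
⟨9, 214, 4, 95, true, 497, 499, [4, 12, 3, 2]⟩,
⟨4, 95, 7, 166, true, 496, 498, [3, 2, 12, 4]⟩,
⟨7, 166, 10, 237, true, 496, 498, [3, 2, 12, 4]⟩,
⟨10, 237, 3, 71, true, 495, 497, [3, 12, 2, 4]⟩,
⟨3, 71, 14, 331, true, 495, 497, [2, 4, 12, 3]⟩,
⟨14, 331, 8, 189, true, 495, 497, [2, 4, 12, 3]⟩,
⟨8, 189, 5, 118, true, 494, 496, [2, 12, 4, 3]⟩,
⟨5, 118, 12, 283, true, 493, 495, [12, 2, 4, 3]⟩,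
⟨12, 283, 7, 165, true, 493, 495, [2, 4, 3, 12]⟩,
⟨7, 165, 9, 212, true, 493, 495, [2, 4, 3, 12]⟩,
⟨9, 212, 2, 47, true, 492, 494, [2, 4, 12, 3]⟩,
⟨2, 47, 9, 211, true, 491, 493, [3, 12, 4, 2]⟩,
⟨9, 211, 7, 164, true, 490, 492, [12, 3, 4, 2]⟩,
⟨7, 164, 12, 281, true, 490, 492, [12, 3, 4, 2]⟩,
⟨12, 281, 5, 117, true, 490, 492, [3, 4, 2, 12]⟩,
⟨5, 117, 8, 187, true, 489, 491, [3, 4, 12, 2]⟩,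
⟨8, 187, 14, 327, true, 488, 490, [3, 12, 4, 2]⟩,
⟨14, 327, 3, 70, true, 488, 490, [3, 12, 4, 2]⟩,
⟨3, 70, 10, 233, true, 488, 490, [4, 2, 12, 3]⟩,
⟨10, 233, 7, 163, true, 487, 489, [4, 12, 2, 3]⟩,
⟨7, 163, 4, 93, true, 487, 489, [4, 12, 2, 3]⟩,
⟨4, 93, 9, 209, true, 486, 488, [2, 3, 12, 4]⟩,
⟨9, 209, 14, 325, true, 485, 487, [2, 12, 3, 4]⟩,
⟨14, 325, 5, 116, true, 485, 487, [2, 12, 3, 4]⟩,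
⟨5, 116, 6, 139, true, 484, 486, [12, 2, 3, 4]⟩,
⟨6, 139, 7, 162, true, 484, 486, [2, 3, 4, 12]⟩,
⟨7, 162, 8, 185, true, 484, 486, [2, 3, 4, 12]⟩,
⟨8, 185, 9, 208, true, 483, 485, [2, 3, 12, 4]⟩,
⟨9, 208, 10, 231, true, 482, 484, [2, 12, 3, 4]⟩,
⟨10, 231, 12, 277, true, 481, 483, [12, 2, 3, 4]⟩,
⟨12, 277, 14, 323, true, 481, 483, [2, 3, 4, 12]⟩,
⟨14, 323, 1, 23, true, 481, 483, [2, 3, 4, 12]⟩,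
⟨1, 23, 14, 321, true, 481, 483, [12, 4, 3, 2]⟩,
⟨14, 321, 12, 275, true, 481, 483, [12, 4, 3, 2]⟩,
⟨12, 275, 10, 229, true, 481, 483, [4, 3, 2, 12]⟩,
⟨10, 229, 9, 206, true, 480, 482, [4, 3, 12, 2]⟩,
⟨9, 206, 8, 183, true, 479, 481, [4, 12, 3, 2]⟩,
⟨8, 183, 7, 160, true, 478, 480, [12, 4, 3, 2]⟩,
⟨7, 160, 6, 137, true, 478, 480, [12, 4, 3, 2]⟩,
⟨6, 137, 5, 114, true, 478, 480, [4, 3, 2, 12]⟩,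
⟨5, 114, 14, 319, true, 477, 479, [4, 3, 12, 2]⟩,
⟨14, 319, 9, 205, true, 477, 479, [4, 3, 12, 2]⟩,
⟨9, 205, 4, 91, true, 476, 478, [4, 12, 3, 2]⟩,
⟨4, 91, 7, 159, true, 475, 477, [3, 2, 12, 4]⟩,
⟨7, 159, 10, 227, true, 475, 477, [3, 2, 12, 4]⟩,
⟨10, 227, 3, 68, true, 474, 476, [3, 12, 2, 4]⟩,
⟨3, 68, 14, 317, true, 474, 476, [2, 4, 12, 3]⟩,
⟨14, 317, 8, 181, true, 474, 476, [2, 4, 12, 3]⟩,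
⟨8, 181, 5, 113, true, 473, 475, [2, 12, 4, 3]⟩,
⟨5, 113, 12, 271, true, 472, 474, [12, 2, 4, 3]⟩,
⟨12, 271, 7, 158, true, 472, 474, [2, 4, 3, 12]⟩,
⟨7, 158, 9, 203, true, 472, 474, [2, 4, 3, 12]⟩,
⟨9, 203, 2, 45, true, 471, 473, [2, 4, 12, 3]⟩,
⟨2, 45, 9, 202, true, 470, 472, [3, 12, 4, 2]⟩,
⟨9, 202, 7, 157, true, 469, 471, [12, 3, 4, 2]⟩,
⟨7, 157, 12, 269, true, 469, 471, [12, 3, 4, 2]⟩,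
⟨12, 269, 5, 112, true, 469, 471, [3, 4, 2, 12]⟩,
⟨5, 112, 8, 179, true, 468, 470, [3, 4, 12, 2]⟩,
⟨8, 179, 14, 313, true, 467, 469, [3, 12, 4, 2]⟩,
⟨14, 313, 3, 67, true, 467, 469, [3, 12, 4, 2]⟩,
⟨3, 67, 10, 223, true, 467, 469, [4, 2, 12, 3]⟩,
⟨10, 223, 7, 156, true, 466, 468, [4, 12, 2, 3]⟩,
⟨7, 156, 4, 89, true, 466, 468, [4, 12, 2, 3]⟩,
⟨4, 89, 9, 200, true, 465, 467, [2, 3, 12, 4]⟩,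
⟨9, 200, 14, 311, true, 464, 466, [2, 12, 3, 4]⟩,
⟨14, 311, 5, 111, true, 464, 466, [2, 12, 3, 4]⟩,
⟨5, 111, 6, 133, true, 463, 465, [12, 2, 3, 4]⟩,
⟨6, 133, 7, 155, true, 463, 465, [2, 3, 4, 12]⟩,
⟨7, 155, 8, 177, true, 463, 465, [2, 3, 4, 12]⟩,
⟨8, 177, 9, 199, true, 462, 464, [2, 3, 12, 4]⟩,
⟨9, 199, 10, 221, true, 461, 463, [2, 12, 3, 4]⟩,
⟨10, 221, 12, 265, true, 460, 462, [12, 2, 3, 4]⟩,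
⟨12, 265, 14, 309, true, 460, 462, [2, 3, 4, 12]⟩,
⟨14, 309, 1, 22, true, 460, 462, [2, 3, 4, 12]⟩,
⟨1, 22, 14, 307, true, 460, 462, [12, 4, 3, 2]⟩,
⟨14, 307, 12, 263, true, 460, 462, [12, 4, 3, 2]⟩,
⟨12, 263, 10, 219, true, 460, 462, [4, 3, 2, 12]⟩,
⟨10, 219, 9, 197, true, 459, 461, [4, 3, 12, 2]⟩,
⟨9, 197, 8, 175, true, 458, 460, [4, 12, 3, 2]⟩,
⟨8, 175, 7, 153, true, 457, 459, [12, 4, 3, 2]⟩,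
⟨7, 153, 6, 131, true, 457, 459, [12, 4, 3, 2]⟩,
⟨6, 131, 5, 109, true, 457, 459, [4, 3, 2, 12]⟩,
⟨5, 109, 14, 305, true, 456, 458, [4, 3, 12, 2]⟩,
⟨14, 305, 9, 196, true, 456, 458, [4, 3, 12, 2]⟩,
⟨9, 196, 4, 87, true, 455, 457, [4, 12, 3, 2]⟩,
⟨4, 87, 7, 152, true, 454, 456, [3, 2, 12, 4]⟩,
⟨7, 152, 10, 217, true, 454, 456, [3, 2, 12, 4]⟩,
⟨10, 217, 3, 65, true, 453, 455, [3, 12, 2, 4]⟩,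
⟨3, 65, 14, 303, true, 453, 455, [2, 4, 12, 3]⟩,
⟨14, 303, 8, 173, true, 453, 455, [2, 4, 12, 3]⟩,
⟨8, 173, 5, 108, true, 452, 454, [2, 12, 4, 3]⟩,
⟨5, 108, 12, 259, true, 451, 453, [12, 2, 4, 3]⟩,
⟨12, 259, 7, 151, true, 451, 453, [2, 4, 3, 12]⟩,
⟨7, 151, 9, 194, true, 451, 453, [2, 4, 3, 12]⟩,
⟨9, 194, 2, 43, true, 450, 452, [2, 4, 12, 3]⟩,
⟨2, 43, 9, 193, true, 449, 451, [3, 12, 4, 2]⟩,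
⟨9, 193, 7, 150, true, 448, 450, [12, 3, 4, 2]⟩,
⟨7, 150, 12, 257, true, 448, 450, [12, 3, 4, 2]⟩,
⟨12, 257, 5, 107, true, 448, 450, [3, 4, 2, 12]⟩,
⟨5, 107, 8, 171, true, 447, 449, [3, 4, 12, 2]⟩,
⟨8, 171, 14, 299, true, 446, 448, [3, 12, 4, 2]⟩,
⟨14, 299, 3, 64, true, 446, 448, [3, 12, 4, 2]⟩,
⟨3, 64, 10, 213, true, 446, 448, [4, 2, 12, 3]⟩,
⟨10, 213, 7, 149, true, 445, 447, [4, 12, 2, 3]⟩,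
⟨7, 149, 4, 85, true, 445, 447, [4, 12, 2, 3]⟩,
⟨4, 85, 9, 191, true, 444, 446, [2, 3, 12, 4]⟩,
⟨9, 191, 14, 297, true, 443, 445, [2, 12, 3, 4]⟩,
⟨14, 297, 5, 106, true, 443, 445, [2, 12, 3, 4]⟩,
⟨5, 106, 6, 127, true, 442, 444, [12, 2, 3, 4]⟩,
⟨6, 127, 7, 148, true, 442, 444, [2, 3, 4, 12]⟩,
⟨7, 148, 8, 169, true, 442, 444, [2, 3, 4, 12]⟩,
⟨8, 169, 9, 190, true, 441, 443, [2, 3, 12, 4]⟩,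
⟨9, 190, 10, 211, true, 440, 442, [2, 12, 3, 4]⟩,
⟨10, 211, 12, 253, true, 439, 441, [12, 2, 3, 4]⟩,
⟨12, 253, 14, 295, true, 439, 441, [2, 3, 4, 12]⟩,
⟨14, 295, 1, 21, true, 439, 441, [2, 3, 4, 12]⟩,
⟨1, 21, 14, 293, true, 439, 441, [12, 4, 3, 2]⟩,
⟨14, 293, 12, 251, true, 439, 441, [12, 4, 3, 2]⟩,
⟨12, 251, 10, 209, true, 439, 441, [4, 3, 2, 12]⟩,
⟨10, 209, 9, 188, true, 438, 440, [4, 3, 12, 2]⟩,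
⟨9, 188, 8, 167, true, 437, 439, [4, 12, 3, 2]⟩,
⟨8, 167, 7, 146, true, 436, 438, [12, 4, 3, 2]⟩,
⟨7, 146, 6, 125, true, 436, 438, [12, 4, 3, 2]⟩,
⟨6, 125, 5, 104, true, 436, 438, [4, 3, 2, 12]⟩,
⟨5, 104, 14, 291, true, 435, 437, [4, 3, 12, 2]⟩,
⟨14, 291, 9, 187, true, 435, 437, [4, 3, 12, 2]⟩,
⟨9, 187, 4, 83, true, 434, 436, [4, 12, 3, 2]⟩,
⟨4, 83, 7, 145, true, 433, 435, [3, 2, 12, 4]⟩,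
⟨7, 145, 10, 207, true, 433, 435, [3, 2, 12, 4]⟩,
⟨10, 207, 3, 62, true, 432, 434, [3, 12, 2, 4]⟩,
⟨3, 62, 14, 289, true, 432, 434, [2, 4, 12, 3]⟩,
⟨14, 289, 8, 165, true, 432, 434, [2, 4, 12, 3]⟩,
⟨8, 165, 5, 103, true, 431, 433, [2, 12, 4, 3]⟩,
⟨5, 103, 12, 247, true, 430, 432, [12, 2, 4, 3]⟩,
⟨12, 247, 7, 144, true, 430, 432, [2, 4, 3, 12]⟩,
⟨7, 144, 9, 185, true, 430, 432, [2, 4, 3, 12]⟩,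
⟨9, 185, 2, 41, true, 429, 431, [2, 4, 12, 3]⟩,
⟨2, 41, 9, 184, true, 428, 430, [3, 12, 4, 2]⟩,
⟨9, 184, 7, 143, true, 427, 429, [12, 3, 4, 2]⟩,
⟨7, 143, 12, 245, true, 427, 429, [12, 3, 4, 2]⟩,
⟨12, 245, 5, 102, true, 427, 429, [3, 4, 2, 12]⟩,
⟨5, 102, 8, 163, true, 426, 428, [3, 4, 12, 2]⟩,
⟨8, 163, 14, 285, true, 425, 427, [3, 12, 4, 2]⟩,
⟨14, 285, 3, 61, true, 425, 427, [3, 12, 4, 2]⟩,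
⟨3, 61, 10, 203, true, 425, 427, [4, 2, 12, 3]⟩,
⟨10, 203, 7, 142, true, 424, 426, [4, 12, 2, 3]⟩,
⟨7, 142, 4, 81, true, 424, 426, [4, 12, 2, 3]⟩,
⟨4, 81, 9, 182, true, 423, 425, [2, 3, 12, 4]⟩,
⟨9, 182, 14, 283, true, 422, 424, [2, 12, 3, 4]⟩,
⟨14, 283, 5, 101, true, 422, 424, [2, 12, 3, 4]⟩,
⟨5, 101, 6, 121, true, 421, 423, [12, 2, 3, 4]⟩,
⟨6, 121, 7, 141, true, 421, 423, [2, 3, 4, 12]⟩,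
⟨7, 141, 8, 161, true, 421, 423, [2, 3, 4, 12]⟩,
⟨8, 161, 9, 181, true, 420, 422, [2, 3, 12, 4]⟩,
⟨9, 181, 10, 201, true, 419, 421, [2, 12, 3, 4]⟩,
⟨10, 201, 12, 241, true, 418, 420, [12, 2, 3, 4]⟩,
⟨12, 241, 14, 281, true, 418, 420, [2, 3, 4, 12]⟩,
⟨14, 281, 1, 20, true, 418, 420, [2, 3, 4, 12]⟩]

def cellsP3 : List Cell := [
⟨1, 20, 14, 279, true, 418, 420, [12, 4, 3, 2]⟩,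
⟨14, 279, 12, 239, true, 418, 420, [12, 4, 3, 2]⟩,
⟨12, 239, 10, 199, true, 418, 420, [4, 3, 2, 12]⟩,
⟨10, 199, 9, 179, true, 417, 419, [4, 3, 12, 2]⟩,
⟨9, 179, 8, 159, true, 416, 418, [4, 12, 3, 2]⟩,
⟨8, 159, 7, 139, true, 415, 417, [12, 4, 3, 2]⟩,
⟨7, 139, 6, 119, true, 415, 417, [12, 4, 3, 2]⟩,
⟨6, 119, 5, 99, true, 415, 417, [4, 3, 2, 12]⟩,
⟨5, 99, 14, 277, true, 414, 416, [4, 3, 12, 2]⟩,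
⟨14, 277, 9, 178, true, 414, 416, [4, 3, 12, 2]⟩,
⟨9, 178, 4, 79, true, 413, 415, [4, 12, 3, 2]⟩,
⟨4, 79, 7, 138, true, 412, 414, [3, 2, 12, 4]⟩,
⟨7, 138, 10, 197, true, 412, 414, [3, 2, 12, 4]⟩,
⟨10, 197, 3, 59, true, 411, 413, [3, 12, 2, 4]⟩,
⟨3, 59, 14, 275, true, 411, 413, [2, 4, 12, 3]⟩,
⟨14, 275, 8, 157, true, 411, 413, [2, 4, 12, 3]⟩,
⟨8, 157, 5, 98, true, 410, 412, [2, 12, 4, 3]⟩,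
⟨5, 98, 12, 235, true, 409, 411, [12, 2, 4, 3]⟩,
⟨12, 235, 7, 137, true, 409, 411, [2, 4, 3, 12]⟩,
⟨7, 137, 9, 176, true, 409, 411, [2, 4, 3, 12]⟩,
⟨9, 176, 2, 39, true, 408, 410, [2, 4, 12, 3]⟩,
⟨2, 39, 9, 175, true, 407, 409, [3, 12, 4, 2]⟩,
⟨9, 175, 7, 136, true, 406, 408, [12, 3, 4, 2]⟩,
⟨7, 136, 12, 233, true, 406, 408, [12, 3, 4, 2]⟩,
⟨12, 233, 5, 97, true, 406, 408, [3, 4, 2, 12]⟩,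
⟨5, 97, 8, 155, true, 405, 407, [3, 4, 12, 2]⟩,
⟨8, 155, 14, 271, true, 404, 406, [3, 12, 4, 2]⟩,
⟨14, 271, 3, 58, true, 404, 406, [3, 12, 4, 2]⟩,
⟨3, 58, 10, 193, true, 404, 406, [4, 2, 12, 3]⟩,
⟨10, 193, 7, 135, true, 403, 405, [4, 12, 2, 3]⟩,
⟨7, 135, 4, 77, true, 403, 405, [4, 12, 2, 3]⟩,
⟨4, 77, 9, 173, true, 402, 404, [2, 3, 12, 4]⟩,
⟨9, 173, 14, 269, true, 401, 403, [2, 12, 3, 4]⟩,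
⟨14, 269, 5, 96, true, 401, 403, [2, 12, 3, 4]⟩,
⟨5, 96, 6, 115, true, 400, 402, [12, 2, 3, 4]⟩,
⟨6, 115, 7, 134, true, 400, 402, [2, 3, 4, 12]⟩,
⟨7, 134, 8, 153, true, 400, 402, [2, 3, 4, 12]⟩,
⟨8, 153, 9, 172, true, 399, 401, [2, 3, 12, 4]⟩,
⟨9, 172, 10, 191, true, 398, 400, [2, 12, 3, 4]⟩,
⟨10, 191, 12, 229, true, 397, 399, [12, 2, 3, 4]⟩,
⟨12, 229, 14, 267, true, 397, 399, [2, 3, 4, 12]⟩,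
⟨14, 267, 1, 19, true, 397, 399, [2, 3, 4, 12]⟩,
⟨1, 19, 14, 265, true, 397, 399, [12, 4, 3, 2]⟩,
⟨14, 265, 12, 227, true, 397, 399, [12, 4, 3, 2]⟩,
⟨12, 227, 10, 189, true, 397, 399, [4, 3, 2, 12]⟩,
⟨10, 189, 9, 170, true, 396, 398, [4, 3, 12, 2]⟩,
⟨9, 170, 8, 151, true, 395, 397, [4, 12, 3, 2]⟩,
⟨8, 151, 7, 132, true, 394, 396, [12, 4, 3, 2]⟩,
⟨7, 132, 6, 113, true, 394, 396, [12, 4, 3, 2]⟩,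
⟨6, 113, 5, 94, true, 394, 396, [4, 3, 2, 12]⟩,
⟨5, 94, 14, 263, true, 393, 395, [4, 3, 12, 2]⟩,
⟨14, 263, 9, 169, true, 393, 395, [4, 3, 12, 2]⟩,
⟨9, 169, 4, 75, true, 392, 394, [4, 12, 3, 2]⟩,
⟨4, 75, 7, 131, true, 391, 393, [3, 2, 12, 4]⟩,
⟨7, 131, 10, 187, true, 391, 393, [3, 2, 12, 4]⟩,
⟨10, 187, 3, 56, true, 390, 392, [3, 12, 2, 4]⟩,
⟨3, 56, 14, 261, true, 390, 392, [2, 4, 12, 3]⟩,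
⟨14, 261, 8, 149, true, 390, 392, [2, 4, 12, 3]⟩,
⟨8, 149, 5, 93, true, 389, 391, [2, 12, 4, 3]⟩,
⟨5, 93, 12, 223, true, 388, 390, [12, 2, 4, 3]⟩,
⟨12, 223, 7, 130, true, 388, 390, [2, 4, 3, 12]⟩,
⟨7, 130, 9, 167, true, 388, 390, [2, 4, 3, 12]⟩,
⟨9, 167, 2, 37, true, 387, 389, [2, 4, 12, 3]⟩,
⟨2, 37, 9, 166, true, 386, 388, [3, 12, 4, 2]⟩,
⟨9, 166, 7, 129, true, 385, 387, [12, 3, 4, 2]⟩,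
⟨7, 129, 12, 221, true, 385, 387, [12, 3, 4, 2]⟩,
⟨12, 221, 5, 92, true, 385, 387, [3, 4, 2, 12]⟩,
⟨5, 92, 8, 147, true, 384, 386, [3, 4, 12, 2]⟩,
⟨8, 147, 14, 257, true, 383, 385, [3, 12, 4, 2]⟩,
⟨14, 257, 3, 55, true, 383, 385, [3, 12, 4, 2]⟩,
⟨3, 55, 10, 183, true, 383, 385, [4, 2, 12, 3]⟩,
⟨10, 183, 7, 128, true, 382, 384, [4, 12, 2, 3]⟩,
⟨7, 128, 4, 73, true, 382, 384, [4, 12, 2, 3]⟩,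
⟨4, 73, 9, 164, true, 381, 383, [2, 3, 12, 4]⟩,
⟨9, 164, 14, 255, true, 380, 382, [2, 12, 3, 4]⟩,
⟨14, 255, 5, 91, true, 380, 382, [2, 12, 3, 4]⟩,
⟨5, 91, 6, 109, true, 379, 381, [12, 2, 3, 4]⟩,
⟨6, 109, 7, 127, true, 379, 381, [2, 3, 4, 12]⟩,
⟨7, 127, 8, 145, true, 379, 381, [2, 3, 4, 12]⟩,
⟨8, 145, 9, 163, true, 378, 380, [2, 3, 12, 4]⟩,
⟨9, 163, 10, 181, true, 377, 379, [2, 12, 3, 4]⟩,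
⟨10, 181, 12, 217, true, 376, 378, [12, 2, 3, 4]⟩,
⟨12, 217, 14, 253, true, 376, 378, [2, 3, 4, 12]⟩,
⟨14, 253, 1, 18, true, 376, 378, [2, 3, 4, 12]⟩,
⟨1, 18, 14, 251, true, 376, 378, [12, 4, 3, 2]⟩,
⟨14, 251, 12, 215, true, 376, 378, [12, 4, 3, 2]⟩,
⟨12, 215, 10, 179, true, 376, 378, [4, 3, 2, 12]⟩,
⟨10, 179, 9, 161, true, 375, 377, [4, 3, 12, 2]⟩,
⟨9, 161, 8, 143, true, 374, 376, [4, 12, 3, 2]⟩,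
⟨8, 143, 7, 125, true, 373, 375, [12, 4, 3, 2]⟩,
⟨7, 125, 6, 107, true, 373, 375, [12, 4, 3, 2]⟩,
⟨6, 107, 5, 89, true, 373, 375, [4, 3, 2, 12]⟩,
⟨5, 89, 14, 249, true, 372, 374, [4, 3, 12, 2]⟩,
⟨14, 249, 9, 160, true, 372, 374, [4, 3, 12, 2]⟩,
⟨9, 160, 4, 71, true, 371, 373, [4, 12, 3, 2]⟩,
⟨4, 71, 7, 124, true, 370, 372, [3, 2, 12, 4]⟩,
⟨7, 124, 10, 177, true, 370, 372, [3, 2, 12, 4]⟩,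
⟨10, 177, 3, 53, true, 369, 371, [3, 12, 2, 4]⟩,
⟨3, 53, 14, 247, true, 369, 371, [2, 4, 12, 3]⟩,
⟨14, 247, 8, 141, true, 369, 371, [2, 4, 12, 3]⟩,
⟨8, 141, 5, 88, true, 368, 370, [2, 12, 4, 3]⟩,
⟨5, 88, 12, 211, true, 367, 369, [12, 2, 4, 3]⟩,
⟨12, 211, 7, 123, true, 367, 369, [2, 4, 3, 12]⟩,
⟨7, 123, 9, 158, true, 367, 369, [2, 4, 3, 12]⟩,
⟨9, 158, 2, 35, true, 366, 368, [2, 4, 12, 3]⟩,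
⟨2, 35, 9, 157, true, 365, 367, [3, 12, 4, 2]⟩,
⟨9, 157, 7, 122, true, 364, 366, [12, 3, 4, 2]⟩,
⟨7, 122, 12, 209, true, 364, 366, [12, 3, 4, 2]⟩,
⟨12, 209, 5, 87, true, 364, 366, [3, 4, 2, 12]⟩,
⟨5, 87, 8, 139, true, 363, 365, [3, 4, 12, 2]⟩,
⟨8, 139, 14, 243, true, 362, 364, [3, 12, 4, 2]⟩,
⟨14, 243, 3, 52, true, 362, 364, [3, 12, 4, 2]⟩,
⟨3, 52, 10, 173, true, 362, 364, [4, 2, 12, 3]⟩,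
⟨10, 173, 7, 121, true, 361, 363, [4, 12, 2, 3]⟩,
⟨7, 121, 4, 69, true, 361, 363, [4, 12, 2, 3]⟩,
⟨4, 69, 9, 155, true, 360, 362, [2, 3, 12, 4]⟩,
⟨9, 155, 14, 241, true, 359, 361, [2, 12, 3, 4]⟩,
⟨14, 241, 5, 86, true, 359, 361, [2, 12, 3, 4]⟩,
⟨5, 86, 6, 103, true, 358, 360, [12, 2, 3, 4]⟩,
⟨6, 103, 7, 120, true, 358, 360, [2, 3, 4, 12]⟩,
⟨7, 120, 8, 137, true, 358, 360, [2, 3, 4, 12]⟩,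
⟨8, 137, 9, 154, true, 357, 359, [2, 3, 12, 4]⟩,
⟨9, 154, 10, 171, true, 356, 358, [2, 12, 3, 4]⟩,
⟨10, 171, 12, 205, true, 355, 357, [12, 2, 3, 4]⟩,
⟨12, 205, 14, 239, true, 355, 357, [2, 3, 4, 12]⟩,
⟨14, 239, 1, 17, true, 355, 357, [2, 3, 4, 12]⟩,
⟨1, 17, 14, 237, true, 355, 357, [12, 4, 3, 2]⟩,
⟨14, 237, 12, 203, true, 355, 357, [12, 4, 3, 2]⟩,
⟨12, 203, 10, 169, true, 355, 357, [4, 3, 2, 12]⟩,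
⟨10, 169, 9, 152, true, 354, 356, [4, 3, 12, 2]⟩,
⟨9, 152, 8, 135, true, 353, 355, [4, 12, 3, 2]⟩,
⟨8, 135, 7, 118, true, 352, 354, [12, 4, 3, 2]⟩,
⟨7, 118, 6, 101, true, 352, 354, [12, 4, 3, 2]⟩,
⟨6, 101, 5, 84, true, 352, 354, [4, 3, 2, 12]⟩,
⟨5, 84, 14, 235, true, 351, 353, [4, 3, 12, 2]⟩,
⟨14, 235, 9, 151, true, 351, 353, [4, 3, 12, 2]⟩,
⟨9, 151, 4, 67, true, 350, 352, [4, 12, 3, 2]⟩,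
⟨4, 67, 7, 117, true, 349, 351, [3, 2, 12, 4]⟩,
⟨7, 117, 10, 167, true, 349, 351, [3, 2, 12, 4]⟩,
⟨10, 167, 3, 50, true, 348, 350, [3, 12, 2, 4]⟩,
⟨3, 50, 14, 233, true, 348, 350, [2, 4, 12, 3]⟩,
⟨14, 233, 8, 133, true, 348, 350, [2, 4, 12, 3]⟩,
⟨8, 133, 5, 83, true, 347, 349, [2, 12, 4, 3]⟩,
⟨5, 83, 12, 199, true, 346, 348, [12, 2, 4, 3]⟩,
⟨12, 199, 7, 116, true, 346, 348, [2, 4, 3, 12]⟩,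
⟨7, 116, 9, 149, true, 346, 348, [2, 4, 3, 12]⟩,
⟨9, 149, 2, 33, true, 345, 347, [2, 4, 12, 3]⟩,
⟨2, 33, 9, 148, true, 344, 346, [3, 12, 4, 2]⟩,
⟨9, 148, 7, 115, true, 343, 345, [12, 3, 4, 2]⟩,
⟨7, 115, 12, 197, true, 343, 345, [12, 3, 4, 2]⟩,
⟨12, 197, 5, 82, true, 343, 345, [3, 4, 2, 12]⟩,
⟨5, 82, 8, 131, true, 342, 344, [3, 4, 12, 2]⟩,
⟨8, 131, 14, 229, true, 341, 343, [3, 12, 4, 2]⟩,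
⟨14, 229, 3, 49, true, 341, 343, [3, 12, 4, 2]⟩,
⟨3, 49, 10, 163, true, 341, 343, [4, 2, 12, 3]⟩,
⟨10, 163, 7, 114, true, 340, 342, [4, 12, 2, 3]⟩,
⟨7, 114, 4, 65, true, 340, 342, [4, 12, 2, 3]⟩,
⟨4, 65, 9, 146, true, 339, 341, [2, 3, 12, 4]⟩,
⟨9, 146, 14, 227, true, 338, 340, [2, 12, 3, 4]⟩,
⟨14, 227, 5, 81, true, 338, 340, [2, 12, 3, 4]⟩,
⟨5, 81, 6, 97, true, 337, 339, [12, 2, 3, 4]⟩,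
⟨6, 97, 7, 113, true, 337, 339, [2, 3, 4, 12]⟩,
⟨7, 113, 8, 129, true, 337, 339, [2, 3, 4, 12]⟩,
⟨8, 129, 9, 145, true, 336, 338, [2, 3, 12, 4]⟩,
⟨9, 145, 10, 161, true, 335, 337, [2, 12, 3, 4]⟩,
⟨10, 161, 12, 193, true, 334, 336, [12, 2, 3, 4]⟩,
⟨12, 193, 14, 225, true, 334, 336, [2, 3, 4, 12]⟩,
⟨14, 225, 1, 16, true, 334, 336, [2, 3, 4, 12]⟩,
⟨1, 16, 14, 223, true, 334, 336, [12, 4, 3, 2]⟩,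
⟨14, 223, 12, 191, true, 334, 336, [12, 4, 3, 2]⟩,
⟨12, 191, 10, 159, true, 334, 336, [4, 3, 2, 12]⟩,
⟨10, 159, 9, 143, true, 333, 335, [4, 3, 12, 2]⟩,
⟨9, 143, 8, 127, true, 332, 334, [4, 12, 3, 2]⟩,
⟨8, 127, 7, 111, true, 331, 333, [12, 4, 3, 2]⟩,
⟨7, 111, 6, 95, true, 331, 333, [12, 4, 3, 2]⟩,
⟨6, 95, 5, 79, true, 331, 333, [4, 3, 2, 12]⟩,
⟨5, 79, 14, 221, true, 330, 332, [4, 3, 12, 2]⟩,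
⟨14, 221, 9, 142, true, 330, 332, [4, 3, 12, 2]⟩,
⟨9, 142, 4, 63, true, 329, 331, [4, 12, 3, 2]⟩,
⟨4, 63, 7, 110, true, 328, 330, [3, 2, 12, 4]⟩,
⟨7, 110, 10, 157, true, 328, 330, [3, 2, 12, 4]⟩,
⟨10, 157, 3, 47, true, 327, 329, [3, 12, 2, 4]⟩,
⟨3, 47, 14, 219, true, 327, 329, [2, 4, 12, 3]⟩,
⟨14, 219, 8, 125, true, 327, 329, [2, 4, 12, 3]⟩,
⟨8, 125, 5, 78, true, 326, 328, [2, 12, 4, 3]⟩,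
⟨5, 78, 12, 187, true, 325, 327, [12, 2, 4, 3]⟩,
⟨12, 187, 7, 109, true, 325, 327, [2, 4, 3, 12]⟩,
⟨7, 109, 9, 140, true, 325, 327, [2, 4, 3, 12]⟩,
⟨9, 140, 2, 31, true, 324, 326, [2, 4, 12, 3]⟩,
⟨2, 31, 9, 139, true, 323, 325, [3, 12, 4, 2]⟩,
⟨9, 139, 7, 108, true, 322, 324, [12, 3, 4, 2]⟩,
⟨7, 108, 12, 185, true, 322, 324, [12, 3, 4, 2]⟩,
⟨12, 185, 5, 77, true, 322, 324, [3, 4, 2, 12]⟩,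
⟨5, 77, 8, 123, true, 321, 323, [3, 4, 12, 2]⟩,
⟨8, 123, 14, 215, true, 320, 322, [3, 12, 4, 2]⟩,
⟨14, 215, 3, 46, true, 320, 322, [3, 12, 4, 2]⟩,
⟨3, 46, 10, 153, true, 320, 322, [4, 2, 12, 3]⟩,
⟨10, 153, 7, 107, true, 319, 321, [4, 12, 2, 3]⟩,
⟨7, 107, 4, 61, true, 319, 321, [4, 12, 2, 3]⟩,
⟨4, 61, 9, 137, true, 318, 320, [2, 3, 12, 4]⟩,
⟨9, 137, 14, 213, true, 317, 319, [2, 12, 3, 4]⟩,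
⟨14, 213, 5, 76, true, 317, 319, [2, 12, 3, 4]⟩,
⟨5, 76, 6, 91, true, 316, 318, [12, 2, 3, 4]⟩,
⟨6, 91, 7, 106, true, 316, 318, [2, 3, 4, 12]⟩,
⟨7, 106, 8, 121, true, 316, 318, [2, 3, 4, 12]⟩,
⟨8, 121, 9, 136, true, 315, 317, [2, 3, 12, 4]⟩,
⟨9, 136, 10, 151, true, 314, 316, [2, 12, 3, 4]⟩,
⟨10, 151, 12, 181, true, 313, 315, [12, 2, 3, 4]⟩,
⟨12, 181, 14, 211, true, 313, 315, [2, 3, 4, 12]⟩,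
⟨14, 211, 1, 15, true, 313, 315, [2, 3, 4, 12]⟩,
⟨1, 15, 14, 209, true, 313, 315, [12, 4, 3, 2]⟩,
⟨14, 209, 12, 179, true, 313, 315, [12, 4, 3, 2]⟩,
⟨12, 179, 10, 149, true, 313, 315, [4, 3, 2, 12]⟩,
⟨10, 149, 9, 134, true, 312, 314, [4, 3, 12, 2]⟩,
⟨9, 134, 8, 119, true, 311, 313, [4, 12, 3, 2]⟩,
⟨8, 119, 7, 104, true, 310, 312, [12, 4, 3, 2]⟩,
⟨7, 104, 6, 89, true, 310, 312, [12, 4, 3, 2]⟩,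
⟨6, 89, 5, 74, true, 310, 312, [4, 3, 2, 12]⟩,
⟨5, 74, 14, 207, true, 309, 311, [4, 3, 12, 2]⟩,
⟨14, 207, 9, 133, true, 309, 311, [4, 3, 12, 2]⟩,
⟨9, 133, 4, 59, true, 308, 310, [4, 12, 3, 2]⟩,
⟨4, 59, 7, 103, true, 307, 309, [3, 2, 12, 4]⟩,
⟨7, 103, 10, 147, true, 307, 309, [3, 2, 12, 4]⟩,
⟨10, 147, 3, 44, true, 306, 308, [3, 12, 2, 4]⟩,
⟨3, 44, 14, 205, true, 306, 308, [2, 4, 12, 3]⟩,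
⟨14, 205, 8, 117, true, 306, 308, [2, 4, 12, 3]⟩,
⟨8, 117, 5, 73, true, 305, 307, [2, 12, 4, 3]⟩,
⟨5, 73, 12, 175, true, 304, 306, [12, 2, 4, 3]⟩,
⟨12, 175, 7, 102, true, 304, 306, [2, 4, 3, 12]⟩,
⟨7, 102, 9, 131, true, 304, 306, [2, 4, 3, 12]⟩,
⟨9, 131, 2, 29, true, 303, 305, [2, 4, 12, 3]⟩,
⟨2, 29, 9, 130, true, 302, 304, [3, 12, 4, 2]⟩,
⟨9, 130, 7, 101, true, 301, 303, [12, 3, 4, 2]⟩,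
⟨7, 101, 12, 173, true, 301, 303, [12, 3, 4, 2]⟩,
⟨12, 173, 5, 72, true, 301, 303, [3, 4, 2, 12]⟩,
⟨5, 72, 8, 115, true, 300, 302, [3, 4, 12, 2]⟩,
⟨8, 115, 14, 201, true, 299, 301, [3, 12, 4, 2]⟩,
⟨14, 201, 3, 43, true, 299, 301, [3, 12, 4, 2]⟩,
⟨3, 43, 10, 143, true, 299, 301, [4, 2, 12, 3]⟩,
⟨10, 143, 7, 100, true, 298, 300, [4, 12, 2, 3]⟩,
⟨7, 100, 4, 57, true, 298, 300, [4, 12, 2, 3]⟩,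
⟨4, 57, 9, 128, true, 297, 299, [2, 3, 12, 4]⟩,
⟨9, 128, 14, 199, true, 296, 298, [2, 12, 3, 4]⟩,
⟨14, 199, 5, 71, true, 296, 298, [2, 12, 3, 4]⟩,
⟨5, 71, 6, 85, true, 295, 297, [12, 2, 3, 4]⟩,
⟨6, 85, 7, 99, true, 295, 297, [2, 3, 4, 12]⟩,
⟨7, 99, 8, 113, true, 295, 297, [2, 3, 4, 12]⟩,
⟨8, 113, 9, 127, true, 294, 296, [2, 3, 12, 4]⟩,
⟨9, 127, 10, 141, true, 293, 295, [2, 12, 3, 4]⟩,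
⟨10, 141, 12, 169, true, 292, 294, [12, 2, 3, 4]⟩,
⟨12, 169, 14, 197, true, 292, 294, [2, 3, 4, 12]⟩,
⟨14, 197, 1, 14, true, 292, 294, [2, 3, 4, 12]⟩,
⟨1, 14, 14, 195, true, 292, 294, [12, 4, 3, 2]⟩,
⟨14, 195, 12, 167, true, 292, 294, [12, 4, 3, 2]⟩,
⟨12, 167, 10, 139, true, 292, 294, [4, 3, 2, 12]⟩,
⟨10, 139, 9, 125, true, 291, 293, [4, 3, 12, 2]⟩,
⟨9, 125, 8, 111, true, 290, 292, [4, 12, 3, 2]⟩,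
⟨8, 111, 7, 97, true, 289, 291, [12, 4, 3, 2]⟩,
⟨7, 97, 6, 83, true, 289, 291, [12, 4, 3, 2]⟩,
⟨6, 83, 5, 69, true, 289, 291, [4, 3, 2, 12]⟩,
⟨5, 69, 14, 193, true, 288, 290, [4, 3, 12, 2]⟩,
⟨14, 193, 9, 124, true, 288, 290, [4, 3, 12, 2]⟩,
⟨9, 124, 4, 55, true, 287, 289, [4, 12, 3, 2]⟩,
⟨4, 55, 7, 96, true, 286, 288, [3, 2, 12, 4]⟩,
⟨7, 96, 10, 137, true, 286, 288, [3, 2, 12, 4]⟩,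
⟨10, 137, 3, 41, true, 285, 287, [3, 12, 2, 4]⟩,
⟨3, 41, 14, 191, true, 285, 287, [2, 4, 12, 3]⟩,
⟨14, 191, 8, 109, true, 285, 287, [2, 4, 12, 3]⟩,
⟨8, 109, 5, 68, true, 284, 286, [2, 12, 4, 3]⟩,
⟨5, 68, 12, 163, true, 283, 285, [12, 2, 4, 3]⟩,
⟨12, 163, 7, 95, true, 283, 285, [2, 4, 3, 12]⟩,
⟨7, 95, 9, 122, true, 283, 285, [2, 4, 3, 12]⟩,
⟨9, 122, 2, 27, true, 282, 284, [2, 4, 12, 3]⟩,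
⟨2, 27, 9, 121, true, 281, 283, [3, 12, 4, 2]⟩,
⟨9, 121, 7, 94, true, 280, 282, [12, 3, 4, 2]⟩,
⟨7, 94, 12, 161, true, 280, 282, [12, 3, 4, 2]⟩,
⟨12, 161, 5, 67, true, 280, 282, [3, 4, 2, 12]⟩,
⟨5, 67, 8, 107, true, 279, 281, [3, 4, 12, 2]⟩,
⟨8, 107, 14, 187, true, 278, 280, [3, 12, 4, 2]⟩,
⟨14, 187, 3, 40, true, 278, 280, [3, 12, 4, 2]⟩]

def cellsP4 : List Cell := [
⟨3, 40, 10, 133, true, 278, 280, [4, 2, 12, 3]⟩,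
⟨10, 133, 7, 93, true, 277, 279, [4, 12, 2, 3]⟩,
⟨7, 93, 4, 53, true, 277, 279, [4, 12, 2, 3]⟩,
⟨4, 53, 9, 119, true, 276, 278, [2, 3, 12, 4]⟩,
⟨9, 119, 14, 185, true, 275, 277, [2, 12, 3, 4]⟩,
⟨14, 185, 5, 66, true, 275, 277, [2, 12, 3, 4]⟩,
⟨5, 66, 6, 79, true, 274, 276, [12, 2, 3, 4]⟩,
⟨6, 79, 7, 92, true, 274, 276, [2, 3, 4, 12]⟩,
⟨7, 92, 8, 105, true, 274, 276, [2, 3, 4, 12]⟩,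
⟨8, 105, 9, 118, true, 273, 275, [2, 3, 12, 4]⟩,
⟨9, 118, 10, 131, true, 272, 274, [2, 12, 3, 4]⟩,
⟨10, 131, 12, 157, true, 271, 273, [12, 2, 3, 4]⟩,
⟨12, 157, 14, 183, true, 271, 273, [2, 3, 4, 12]⟩,
⟨14, 183, 1, 13, true, 271, 273, [2, 3, 4, 12]⟩,
⟨1, 13, 14, 181, true, 271, 273, [12, 4, 3, 2]⟩,
⟨14, 181, 12, 155, true, 271, 273, [12, 4, 3, 2]⟩,
⟨12, 155, 10, 129, true, 271, 273, [4, 3, 2, 12]⟩,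
⟨10, 129, 9, 116, true, 270, 272, [4, 3, 12, 2]⟩,
⟨9, 116, 8, 103, true, 269, 271, [4, 12, 3, 2]⟩,
⟨8, 103, 7, 90, true, 268, 270, [12, 4, 3, 2]⟩,
⟨7, 90, 6, 77, true, 268, 270, [12, 4, 3, 2]⟩,
⟨6, 77, 5, 64, true, 268, 270, [4, 3, 2, 12]⟩,
⟨5, 64, 14, 179, true, 267, 269, [4, 3, 12, 2]⟩,
⟨14, 179, 9, 115, true, 267, 269, [4, 3, 12, 2]⟩,
⟨9, 115, 4, 51, true, 266, 268, [4, 12, 3, 2]⟩,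
⟨4, 51, 7, 89, true, 265, 267, [3, 2, 12, 4]⟩,
⟨7, 89, 10, 127, true, 265, 267, [3, 2, 12, 4]⟩,
⟨10, 127, 3, 38, true, 264, 266, [3, 12, 2, 4]⟩,
⟨3, 38, 14, 177, true, 264, 266, [2, 4, 12, 3]⟩,
⟨14, 177, 8, 101, true, 264, 266, [2, 4, 12, 3]⟩,
⟨8, 101, 5, 63, true, 263, 265, [2, 12, 4, 3]⟩,
⟨5, 63, 12, 151, true, 262, 264, [12, 2, 4, 3]⟩,
⟨12, 151, 7, 88, true, 262, 264, [2, 4, 3, 12]⟩,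
⟨7, 88, 9, 113, true, 262, 264, [2, 4, 3, 12]⟩,
⟨9, 113, 2, 25, true, 261, 263, [2, 4, 12, 3]⟩,
⟨2, 25, 9, 112, true, 260, 262, [3, 12, 4, 2]⟩,
⟨9, 112, 7, 87, true, 259, 261, [12, 3, 4, 2]⟩,
⟨7, 87, 12, 149, true, 259, 261, [12, 3, 4, 2]⟩,
⟨12, 149, 5, 62, true, 259, 261, [3, 4, 2, 12]⟩,
⟨5, 62, 8, 99, true, 258, 260, [3, 4, 12, 2]⟩,
⟨8, 99, 14, 173, true, 257, 259, [3, 12, 4, 2]⟩,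
⟨14, 173, 3, 37, true, 257, 259, [3, 12, 4, 2]⟩,
⟨3, 37, 10, 123, true, 257, 259, [4, 2, 12, 3]⟩,
⟨10, 123, 7, 86, true, 256, 258, [4, 12, 2, 3]⟩,
⟨7, 86, 4, 49, true, 256, 258, [4, 12, 2, 3]⟩,
⟨4, 49, 9, 110, true, 255, 257, [2, 3, 12, 4]⟩,
⟨9, 110, 14, 171, true, 254, 256, [2, 12, 3, 4]⟩,
⟨14, 171, 5, 61, true, 254, 256, [2, 12, 3, 4]⟩,
⟨5, 61, 6, 73, true, 253, 255, [12, 2, 3, 4]⟩,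
⟨6, 73, 7, 85, true, 253, 255, [2, 3, 4, 12]⟩,
⟨7, 85, 8, 97, true, 253, 255, [2, 3, 4, 12]⟩,
⟨8, 97, 9, 109, true, 252, 254, [2, 3, 12, 4]⟩,
⟨9, 109, 10, 121, true, 251, 253, [2, 12, 3, 4]⟩,
⟨10, 121, 12, 145, true, 250, 252, [12, 2, 3, 4]⟩,
⟨12, 145, 14, 169, true, 250, 252, [2, 3, 4, 12]⟩,
⟨14, 169, 1, 12, true, 250, 252, [2, 3, 4, 12]⟩,
⟨1, 12, 14, 167, true, 250, 252, [12, 4, 3, 2]⟩,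
⟨14, 167, 12, 143, true, 250, 252, [12, 4, 3, 2]⟩,
⟨12, 143, 10, 119, true, 250, 252, [4, 3, 2, 12]⟩,
⟨10, 119, 9, 107, true, 249, 251, [4, 3, 12, 2]⟩,
⟨9, 107, 8, 95, true, 248, 250, [4, 12, 3, 2]⟩,
⟨8, 95, 7, 83, true, 247, 249, [12, 4, 3, 2]⟩,
⟨7, 83, 6, 71, true, 247, 249, [12, 4, 3, 2]⟩,
⟨6, 71, 5, 59, true, 247, 249, [4, 3, 2, 12]⟩,
⟨5, 59, 14, 165, true, 246, 248, [4, 3, 12, 2]⟩,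
⟨14, 165, 9, 106, true, 246, 248, [4, 3, 12, 2]⟩,
⟨9, 106, 4, 47, true, 245, 247, [4, 12, 3, 2]⟩,
⟨4, 47, 7, 82, true, 244, 246, [3, 2, 12, 4]⟩,
⟨7, 82, 10, 117, true, 244, 246, [3, 2, 12, 4]⟩,
⟨10, 117, 3, 35, true, 243, 245, [3, 12, 2, 4]⟩,
⟨3, 35, 14, 163, true, 243, 245, [2, 4, 12, 3]⟩,
⟨14, 163, 8, 93, true, 243, 245, [2, 4, 12, 3]⟩,
⟨8, 93, 5, 58, true, 242, 244, [2, 12, 4, 3]⟩,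
⟨5, 58, 12, 139, true, 241, 243, [12, 2, 4, 3]⟩,
⟨12, 139, 7, 81, true, 241, 243, [2, 4, 3, 12]⟩,
⟨7, 81, 9, 104, true, 241, 243, [2, 4, 3, 12]⟩,
⟨9, 104, 2, 23, true, 240, 242, [2, 4, 12, 3]⟩,
⟨2, 23, 9, 103, true, 239, 241, [3, 12, 4, 2]⟩,
⟨9, 103, 7, 80, true, 238, 240, [12, 3, 4, 2]⟩,
⟨7, 80, 12, 137, true, 238, 240, [12, 3, 4, 2]⟩,
⟨12, 137, 5, 57, true, 238, 240, [3, 4, 2, 12]⟩,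
⟨5, 57, 8, 91, true, 237, 239, [3, 4, 12, 2]⟩,
⟨8, 91, 14, 159, true, 236, 238, [3, 12, 4, 2]⟩,
⟨14, 159, 3, 34, true, 236, 238, [3, 12, 4, 2]⟩,
⟨3, 34, 10, 113, true, 236, 238, [4, 2, 12, 3]⟩,
⟨10, 113, 7, 79, true, 235, 237, [4, 12, 2, 3]⟩,
⟨7, 79, 4, 45, true, 235, 237, [4, 12, 2, 3]⟩,
⟨4, 45, 9, 101, true, 234, 236, [2, 3, 12, 4]⟩,
⟨9, 101, 14, 157, true, 233, 235, [2, 12, 3, 4]⟩,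
⟨14, 157, 5, 56, true, 233, 235, [2, 12, 3, 4]⟩,
⟨5, 56, 6, 67, true, 232, 234, [12, 2, 3, 4]⟩,
⟨6, 67, 7, 78, true, 232, 234, [2, 3, 4, 12]⟩,
⟨7, 78, 8, 89, true, 232, 234, [2, 3, 4, 12]⟩,
⟨8, 89, 9, 100, true, 231, 233, [2, 3, 12, 4]⟩,
⟨9, 100, 10, 111, true, 230, 232, [2, 12, 3, 4]⟩,
⟨10, 111, 12, 133, true, 229, 231, [12, 2, 3, 4]⟩,
⟨12, 133, 14, 155, true, 229, 231, [2, 3, 4, 12]⟩,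
⟨14, 155, 1, 11, true, 229, 231, [2, 3, 4, 12]⟩,
⟨1, 11, 14, 153, true, 229, 231, [12, 4, 3, 2]⟩,
⟨14, 153, 12, 131, true, 229, 231, [12, 4, 3, 2]⟩,
⟨12, 131, 10, 109, true, 229, 231, [4, 3, 2, 12]⟩,
⟨10, 109, 9, 98, true, 228, 230, [4, 3, 12, 2]⟩,
⟨9, 98, 8, 87, true, 227, 229, [4, 12, 3, 2]⟩,
⟨8, 87, 7, 76, true, 226, 228, [12, 4, 3, 2]⟩,
⟨7, 76, 6, 65, true, 226, 228, [12, 4, 3, 2]⟩,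
⟨6, 65, 5, 54, true, 226, 228, [4, 3, 2, 12]⟩,
⟨5, 54, 14, 151, true, 225, 227, [4, 3, 12, 2]⟩,
⟨14, 151, 9, 97, true, 225, 227, [4, 3, 12, 2]⟩,
⟨9, 97, 4, 43, true, 224, 226, [4, 12, 3, 2]⟩,
⟨4, 43, 7, 75, true, 223, 225, [3, 2, 12, 4]⟩,
⟨7, 75, 10, 107, true, 223, 225, [3, 2, 12, 4]⟩,
⟨10, 107, 3, 32, true, 222, 224, [3, 12, 2, 4]⟩,
⟨3, 32, 14, 149, true, 222, 224, [2, 4, 12, 3]⟩,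
⟨14, 149, 8, 85, true, 222, 224, [2, 4, 12, 3]⟩,
⟨8, 85, 5, 53, true, 221, 223, [2, 12, 4, 3]⟩,
⟨5, 53, 12, 127, true, 220, 222, [12, 2, 4, 3]⟩,
⟨12, 127, 7, 74, true, 220, 222, [2, 4, 3, 12]⟩,
⟨7, 74, 9, 95, true, 220, 222, [2, 4, 3, 12]⟩,
⟨9, 95, 2, 21, true, 219, 221, [2, 4, 12, 3]⟩,
⟨2, 21, 9, 94, true, 218, 220, [3, 12, 4, 2]⟩,
⟨9, 94, 7, 73, true, 217, 219, [12, 3, 4, 2]⟩,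
⟨7, 73, 12, 125, true, 217, 219, [12, 3, 4, 2]⟩,
⟨12, 125, 5, 52, true, 217, 219, [3, 4, 2, 12]⟩,
⟨5, 52, 8, 83, true, 216, 218, [3, 4, 12, 2]⟩,
⟨8, 83, 14, 145, true, 215, 217, [3, 12, 4, 2]⟩,
⟨14, 145, 3, 31, true, 215, 217, [3, 12, 4, 2]⟩,
⟨3, 31, 10, 103, true, 215, 217, [4, 2, 12, 3]⟩,
⟨10, 103, 7, 72, true, 214, 216, [4, 12, 2, 3]⟩,
⟨7, 72, 4, 41, true, 214, 216, [4, 12, 2, 3]⟩,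
⟨4, 41, 9, 92, true, 213, 215, [2, 3, 12, 4]⟩,
⟨9, 92, 14, 143, true, 212, 214, [2, 12, 3, 4]⟩,
⟨14, 143, 5, 51, true, 212, 214, [2, 12, 3, 4]⟩,
⟨5, 51, 6, 61, true, 211, 213, [12, 2, 3, 4]⟩,
⟨6, 61, 7, 71, true, 211, 213, [2, 3, 4, 12]⟩,
⟨7, 71, 8, 81, true, 211, 213, [2, 3, 4, 12]⟩,
⟨8, 81, 9, 91, true, 210, 212, [2, 3, 12, 4]⟩,
⟨9, 91, 10, 101, true, 209, 211, [2, 12, 3, 4]⟩,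
⟨10, 101, 12, 121, true, 208, 210, [12, 2, 3, 4]⟩,
⟨12, 121, 14, 141, true, 208, 210, [2, 3, 4, 12]⟩,
⟨14, 141, 1, 10, true, 208, 210, [2, 3, 4, 12]⟩,
⟨1, 10, 14, 139, true, 208, 210, [12, 4, 3, 2]⟩,
⟨14, 139, 12, 119, true, 208, 210, [12, 4, 3, 2]⟩,
⟨12, 119, 10, 99, true, 208, 210, [4, 3, 2, 12]⟩,
⟨10, 99, 9, 89, true, 207, 209, [4, 3, 12, 2]⟩,
⟨9, 89, 8, 79, true, 206, 208, [4, 12, 3, 2]⟩,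
⟨8, 79, 7, 69, true, 205, 207, [12, 4, 3, 2]⟩,
⟨7, 69, 6, 59, true, 205, 207, [12, 4, 3, 2]⟩,
⟨6, 59, 5, 49, true, 205, 207, [4, 3, 2, 12]⟩,
⟨5, 49, 14, 137, true, 204, 206, [4, 3, 12, 2]⟩,
⟨14, 137, 9, 88, true, 204, 206, [4, 3, 12, 2]⟩,
⟨9, 88, 4, 39, true, 203, 205, [4, 12, 3, 2]⟩,
⟨4, 39, 7, 68, true, 202, 204, [3, 2, 12, 4]⟩,
⟨7, 68, 10, 97, true, 202, 204, [3, 2, 12, 4]⟩,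
⟨10, 97, 3, 29, true, 201, 203, [3, 12, 2, 4]⟩,
⟨3, 29, 14, 135, true, 201, 203, [2, 4, 12, 3]⟩,
⟨14, 135, 8, 77, true, 201, 203, [2, 4, 12, 3]⟩,
⟨8, 77, 5, 48, true, 200, 202, [2, 12, 4, 3]⟩,
⟨5, 48, 12, 115, true, 199, 201, [12, 2, 4, 3]⟩,
⟨12, 115, 7, 67, true, 199, 201, [2, 4, 3, 12]⟩,
⟨7, 67, 9, 86, true, 199, 201, [2, 4, 3, 12]⟩,
⟨9, 86, 2, 19, true, 198, 200, [2, 4, 12, 3]⟩,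
⟨2, 19, 9, 85, true, 197, 199, [3, 12, 4, 2]⟩,
⟨9, 85, 7, 66, true, 196, 198, [12, 3, 4, 2]⟩,
⟨7, 66, 12, 113, true, 196, 198, [12, 3, 4, 2]⟩,
⟨12, 113, 5, 47, true, 196, 198, [3, 4, 2, 12]⟩,
⟨5, 47, 8, 75, true, 195, 197, [3, 4, 12, 2]⟩,
⟨8, 75, 14, 131, true, 194, 196, [3, 12, 4, 2]⟩,
⟨14, 131, 3, 28, true, 194, 196, [3, 12, 4, 2]⟩,
⟨3, 28, 10, 93, true, 194, 196, [4, 2, 12, 3]⟩,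
⟨10, 93, 7, 65, true, 193, 195, [4, 12, 2, 3]⟩,
⟨7, 65, 4, 37, true, 193, 195, [4, 12, 2, 3]⟩,
⟨4, 37, 9, 83, true, 192, 194, [2, 3, 12, 4]⟩,
⟨9, 83, 14, 129, true, 191, 193, [2, 12, 3, 4]⟩,
⟨14, 129, 5, 46, true, 191, 193, [2, 12, 3, 4]⟩,
⟨5, 46, 6, 55, true, 190, 192, [12, 2, 3, 4]⟩,
⟨6, 55, 7, 64, true, 190, 192, [2, 3, 4, 12]⟩,
⟨7, 64, 8, 73, true, 190, 192, [2, 3, 4, 12]⟩,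
⟨8, 73, 9, 82, true, 189, 191, [2, 3, 12, 4]⟩,
⟨9, 82, 10, 91, true, 188, 190, [2, 12, 3, 4]⟩,
⟨10, 91, 12, 109, true, 187, 189, [12, 2, 3, 4]⟩,
⟨12, 109, 14, 127, true, 187, 189, [2, 3, 4, 12]⟩,
⟨14, 127, 1, 9, true, 187, 189, [2, 3, 4, 12]⟩,
⟨1, 9, 14, 125, true, 187, 189, [12, 4, 3, 2]⟩,
⟨14, 125, 12, 107, true, 187, 189, [12, 4, 3, 2]⟩,
⟨12, 107, 10, 89, true, 187, 189, [4, 3, 2, 12]⟩,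
⟨10, 89, 9, 80, true, 186, 188, [4, 3, 12, 2]⟩,
⟨9, 80, 8, 71, true, 185, 187, [4, 12, 3, 2]⟩,
⟨8, 71, 7, 62, true, 184, 186, [12, 4, 3, 2]⟩,
⟨7, 62, 6, 53, true, 184, 186, [12, 4, 3, 2]⟩,
⟨6, 53, 5, 44, true, 184, 186, [4, 3, 2, 12]⟩,
⟨5, 44, 14, 123, true, 183, 185, [4, 3, 12, 2]⟩,
⟨14, 123, 9, 79, true, 183, 185, [4, 3, 12, 2]⟩,
⟨9, 79, 4, 35, true, 182, 184, [4, 12, 3, 2]⟩,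
⟨4, 35, 7, 61, true, 181, 183, [3, 2, 12, 4]⟩,
⟨7, 61, 10, 87, true, 181, 183, [3, 2, 12, 4]⟩,
⟨10, 87, 3, 26, true, 180, 182, [3, 12, 2, 4]⟩,
⟨3, 26, 14, 121, true, 180, 182, [2, 4, 12, 3]⟩,
⟨14, 121, 8, 69, true, 180, 182, [2, 4, 12, 3]⟩,
⟨8, 69, 5, 43, true, 179, 181, [2, 12, 4, 3]⟩,
⟨5, 43, 12, 103, true, 178, 180, [12, 2, 4, 3]⟩,
⟨12, 103, 7, 60, true, 178, 180, [2, 4, 3, 12]⟩,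
⟨7, 60, 9, 77, true, 178, 180, [2, 4, 3, 12]⟩,
⟨9, 77, 2, 17, true, 177, 179, [2, 4, 12, 3]⟩,
⟨2, 17, 9, 76, true, 176, 178, [3, 12, 4, 2]⟩,
⟨9, 76, 7, 59, true, 175, 177, [12, 3, 4, 2]⟩,
⟨7, 59, 12, 101, true, 175, 177, [12, 3, 4, 2]⟩,
⟨12, 101, 5, 42, true, 175, 177, [3, 4, 2, 12]⟩,
⟨5, 42, 8, 67, true, 174, 176, [3, 4, 12, 2]⟩,
⟨8, 67, 14, 117, true, 173, 175, [3, 12, 4, 2]⟩,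
⟨14, 117, 3, 25, true, 173, 175, [3, 12, 4, 2]⟩,
⟨3, 25, 10, 83, true, 173, 175, [4, 2, 12, 3]⟩,
⟨10, 83, 7, 58, true, 172, 174, [4, 12, 2, 3]⟩,
⟨7, 58, 4, 33, true, 172, 174, [4, 12, 2, 3]⟩,
⟨4, 33, 9, 74, true, 171, 173, [2, 3, 12, 4]⟩,
⟨9, 74, 14, 115, true, 170, 172, [2, 12, 3, 4]⟩,
⟨14, 115, 5, 41, true, 170, 172, [2, 12, 3, 4]⟩,
⟨5, 41, 6, 49, true, 169, 171, [12, 2, 3, 4]⟩,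
⟨6, 49, 7, 57, true, 169, 171, [2, 3, 4, 12]⟩,
⟨7, 57, 8, 65, true, 169, 171, [2, 3, 4, 12]⟩,
⟨8, 65, 9, 73, true, 168, 170, [2, 3, 12, 4]⟩,
⟨9, 73, 10, 81, true, 167, 169, [2, 12, 3, 4]⟩,
⟨10, 81, 12, 97, true, 166, 168, [12, 2, 3, 4]⟩,
⟨12, 97, 14, 113, true, 166, 168, [2, 3, 4, 12]⟩,
⟨14, 113, 1, 8, true, 166, 168, [2, 3, 4, 12]⟩,
⟨1, 8, 14, 111, true, 166, 168, [12, 4, 3, 2]⟩,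
⟨14, 111, 12, 95, true, 166, 168, [12, 4, 3, 2]⟩,
⟨12, 95, 10, 79, true, 166, 168, [4, 3, 2, 12]⟩,
⟨10, 79, 9, 71, true, 165, 167, [4, 3, 12, 2]⟩,
⟨9, 71, 8, 63, true, 164, 166, [4, 12, 3, 2]⟩,
⟨8, 63, 7, 55, true, 163, 165, [12, 4, 3, 2]⟩,
⟨7, 55, 6, 47, true, 163, 165, [12, 4, 3, 2]⟩,
⟨6, 47, 5, 39, true, 163, 165, [4, 3, 2, 12]⟩,
⟨5, 39, 14, 109, true, 162, 164, [4, 3, 12, 2]⟩,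
⟨14, 109, 9, 70, true, 162, 164, [4, 3, 12, 2]⟩,
⟨9, 70, 4, 31, true, 161, 163, [4, 12, 3, 2]⟩,
⟨4, 31, 7, 54, true, 160, 162, [3, 2, 12, 4]⟩,
⟨7, 54, 10, 77, true, 160, 162, [3, 2, 12, 4]⟩,
⟨10, 77, 3, 23, true, 159, 161, [3, 12, 2, 4]⟩,
⟨3, 23, 14, 107, true, 159, 161, [2, 4, 12, 3]⟩,
⟨14, 107, 8, 61, true, 159, 161, [2, 4, 12, 3]⟩,
⟨8, 61, 5, 38, true, 158, 160, [2, 12, 4, 3]⟩,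
⟨5, 38, 12, 91, true, 157, 159, [12, 2, 4, 3]⟩,
⟨12, 91, 7, 53, true, 157, 159, [2, 4, 3, 12]⟩,
⟨7, 53, 9, 68, true, 157, 159, [2, 4, 3, 12]⟩,
⟨9, 68, 2, 15, true, 156, 158, [2, 4, 12, 3]⟩,
⟨2, 15, 9, 67, true, 155, 157, [3, 12, 4, 2]⟩,
⟨9, 67, 7, 52, true, 154, 156, [12, 3, 4, 2]⟩,
⟨7, 52, 12, 89, true, 154, 156, [12, 3, 4, 2]⟩,
⟨12, 89, 5, 37, true, 154, 156, [3, 4, 2, 12]⟩,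
⟨5, 37, 8, 59, true, 153, 155, [3, 4, 12, 2]⟩,
⟨8, 59, 14, 103, true, 152, 154, [3, 12, 4, 2]⟩,
⟨14, 103, 3, 22, true, 152, 154, [3, 12, 4, 2]⟩,
⟨3, 22, 10, 73, true, 152, 154, [4, 2, 12, 3]⟩,
⟨10, 73, 7, 51, true, 151, 153, [4, 12, 2, 3]⟩,
⟨7, 51, 4, 29, true, 151, 153, [4, 12, 2, 3]⟩,
⟨4, 29, 9, 65, true, 150, 152, [2, 3, 12, 4]⟩,
⟨9, 65, 14, 101, true, 149, 151, [2, 12, 3, 4]⟩,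
⟨14, 101, 5, 36, true, 149, 151, [2, 12, 3, 4]⟩,
⟨5, 36, 6, 43, true, 148, 150, [12, 2, 3, 4]⟩,
⟨6, 43, 7, 50, true, 148, 150, [2, 3, 4, 12]⟩,
⟨7, 50, 8, 57, true, 148, 150, [2, 3, 4, 12]⟩,
⟨8, 57, 9, 64, true, 147, 149, [2, 3, 12, 4]⟩,
⟨9, 64, 10, 71, true, 146, 148, [2, 12, 3, 4]⟩,
⟨10, 71, 12, 85, true, 145, 147, [12, 2, 3, 4]⟩,
⟨12, 85, 14, 99, true, 145, 147, [2, 3, 4, 12]⟩,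
⟨14, 99, 1, 7, true, 145, 147, [2, 3, 4, 12]⟩,
⟨1, 7, 14, 97, true, 145, 147, [12, 4, 3, 2]⟩,
⟨14, 97, 12, 83, true, 145, 147, [12, 4, 3, 2]⟩,
⟨12, 83, 10, 69, true, 145, 147, [4, 3, 2, 12]⟩,
⟨10, 69, 9, 62, true, 144, 146, [4, 3, 12, 2]⟩,
⟨9, 62, 8, 55, true, 143, 145, [4, 12, 3, 2]⟩,
⟨8, 55, 7, 48, true, 142, 144, [12, 4, 3, 2]⟩,
⟨7, 48, 6, 41, true, 142, 144, [12, 4, 3, 2]⟩,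
⟨6, 41, 5, 34, true, 142, 144, [4, 3, 2, 12]⟩,
⟨5, 34, 14, 95, true, 141, 143, [4, 3, 12, 2]⟩,
⟨14, 95, 9, 61, true, 141, 143, [4, 3, 12, 2]⟩,
⟨9, 61, 4, 27, true, 140, 142, [4, 12, 3, 2]⟩,
⟨4, 27, 7, 47, true, 139, 141, [3, 2, 12, 4]⟩,
⟨7, 47, 10, 67, true, 139, 141, [3, 2, 12, 4]⟩,
⟨10, 67, 3, 20, true, 138, 140, [3, 12, 2, 4]⟩]

def cellsP5 : List Cell := [
⟨3, 20, 14, 93, true, 138, 140, [2, 4, 12, 3]⟩,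
⟨14, 93, 8, 53, true, 138, 140, [2, 4, 12, 3]⟩,
⟨8, 53, 5, 33, true, 137, 139, [2, 12, 4, 3]⟩,
⟨5, 33, 12, 79, true, 136, 138, [12, 2, 4, 3]⟩,
⟨12, 79, 7, 46, true, 136, 138, [2, 4, 3, 12]⟩,
⟨7, 46, 9, 59, true, 136, 138, [2, 4, 3, 12]⟩,
⟨9, 59, 2, 13, true, 135, 137, [2, 4, 12, 3]⟩,
⟨2, 13, 9, 58, true, 134, 136, [3, 12, 4, 2]⟩,
⟨9, 58, 7, 45, true, 133, 135, [12, 3, 4, 2]⟩,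
⟨7, 45, 12, 77, true, 133, 135, [12, 3, 4, 2]⟩,
⟨12, 77, 5, 32, true, 133, 135, [3, 4, 2, 12]⟩,
⟨5, 32, 8, 51, true, 132, 134, [3, 4, 12, 2]⟩,
⟨8, 51, 14, 89, true, 131, 133, [3, 12, 4, 2]⟩,
⟨14, 89, 3, 19, true, 131, 133, [3, 12, 4, 2]⟩,
⟨3, 19, 10, 63, true, 131, 133, [4, 2, 12, 3]⟩,
⟨10, 63, 7, 44, true, 130, 132, [4, 12, 2, 3]⟩,
⟨7, 44, 4, 25, true, 130, 132, [4, 12, 2, 3]⟩,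
⟨4, 25, 9, 56, true, 129, 131, [2, 3, 12, 4]⟩,
⟨9, 56, 14, 87, true, 128, 130, [2, 12, 3, 4]⟩,
⟨14, 87, 5, 31, true, 128, 130, [2, 12, 3, 4]⟩,
⟨5, 31, 6, 37, true, 127, 129, [12, 2, 3, 4]⟩,
⟨6, 37, 7, 43, true, 127, 129, [2, 3, 4, 12]⟩,
⟨7, 43, 8, 49, true, 127, 129, [2, 3, 4, 12]⟩,
⟨8, 49, 9, 55, true, 126, 128, [2, 3, 12, 4]⟩,
⟨9, 55, 10, 61, true, 125, 127, [2, 12, 3, 4]⟩,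
⟨10, 61, 12, 73, true, 124, 126, [12, 2, 3, 4]⟩,
⟨12, 73, 14, 85, true, 124, 126, [2, 3, 4, 12]⟩,
⟨14, 85, 1, 6, true, 124, 126, [2, 3, 4, 12]⟩,
⟨1, 6, 14, 83, true, 124, 126, [12, 4, 3, 2]⟩,
⟨14, 83, 12, 71, true, 124, 126, [12, 4, 3, 2]⟩,
⟨12, 71, 10, 59, true, 124, 126, [4, 3, 2, 12]⟩,
⟨10, 59, 9, 53, true, 123, 125, [4, 3, 12, 2]⟩,
⟨9, 53, 8, 47, true, 122, 124, [4, 12, 3, 2]⟩,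
⟨8, 47, 7, 41, true, 121, 123, [12, 4, 3, 2]⟩,
⟨7, 41, 6, 35, true, 121, 123, [12, 4, 3, 2]⟩,
⟨6, 35, 5, 29, true, 121, 123, [4, 3, 2, 12]⟩,
⟨5, 29, 14, 81, true, 120, 122, [4, 3, 12, 2]⟩,
⟨14, 81, 9, 52, true, 120, 122, [4, 3, 12, 2]⟩,
⟨9, 52, 4, 23, true, 119, 121, [4, 12, 3, 2]⟩,
⟨4, 23, 7, 40, true, 118, 120, [3, 2, 12, 4]⟩,
⟨7, 40, 10, 57, true, 118, 120, [3, 2, 12, 4]⟩,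
⟨10, 57, 3, 17, true, 117, 119, [3, 12, 2, 4]⟩,
⟨3, 17, 14, 79, true, 117, 119, [2, 4, 12, 3]⟩,
⟨14, 79, 8, 45, true, 117, 119, [2, 4, 12, 3]⟩,
⟨8, 45, 5, 28, true, 116, 118, [2, 12, 4, 3]⟩,
⟨5, 28, 12, 67, true, 115, 117, [12, 2, 4, 3]⟩,
⟨12, 67, 7, 39, true, 115, 117, [2, 4, 3, 12]⟩,
⟨7, 39, 9, 50, true, 115, 117, [2, 4, 3, 12]⟩,
⟨9, 50, 2, 11, true, 114, 116, [2, 4, 12, 3]⟩,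
⟨2, 11, 9, 49, true, 113, 115, [3, 12, 4, 2]⟩,
⟨9, 49, 7, 38, true, 112, 114, [12, 3, 4, 2]⟩,
⟨7, 38, 12, 65, true, 112, 114, [12, 3, 4, 2]⟩,
⟨12, 65, 5, 27, true, 112, 114, [3, 4, 2, 12]⟩,
⟨5, 27, 8, 43, true, 111, 113, [3, 4, 12, 2]⟩,
⟨8, 43, 14, 75, true, 110, 112, [3, 12, 4, 2]⟩,
⟨14, 75, 3, 16, true, 110, 112, [3, 12, 4, 2]⟩,
⟨3, 16, 10, 53, true, 110, 112, [4, 2, 12, 3]⟩,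
⟨10, 53, 7, 37, true, 109, 111, [4, 12, 2, 3]⟩,
⟨7, 37, 4, 21, true, 109, 111, [4, 12, 2, 3]⟩,
⟨4, 21, 9, 47, true, 108, 110, [2, 3, 12, 4]⟩,
⟨9, 47, 14, 73, true, 107, 109, [2, 12, 3, 4]⟩,
⟨14, 73, 5, 26, true, 107, 109, [2, 12, 3, 4]⟩,
⟨5, 26, 6, 31, true, 106, 108, [12, 2, 3, 4]⟩,
⟨6, 31, 7, 36, true, 106, 108, [2, 3, 4, 12]⟩,
⟨7, 36, 8, 41, true, 106, 108, [2, 3, 4, 12]⟩,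
⟨8, 41, 9, 46, true, 105, 107, [2, 3, 12, 4]⟩,
⟨9, 46, 10, 51, true, 104, 106, [2, 12, 3, 4]⟩,
⟨10, 51, 12, 61, true, 103, 105, [12, 2, 3, 4]⟩,
⟨12, 61, 14, 71, true, 103, 105, [2, 3, 4, 12]⟩,
⟨14, 71, 1, 5, true, 103, 105, [2, 3, 4, 12]⟩,
⟨1, 5, 14, 69, true, 103, 105, [12, 4, 3, 2]⟩,
⟨14, 69, 12, 59, true, 103, 105, [12, 4, 3, 2]⟩,
⟨12, 59, 10, 49, true, 103, 105, [4, 3, 2, 12]⟩,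
⟨10, 49, 9, 44, true, 102, 104, [4, 3, 12, 2]⟩,
⟨9, 44, 8, 39, true, 101, 103, [4, 12, 3, 2]⟩,
⟨8, 39, 7, 34, true, 100, 102, [12, 4, 3, 2]⟩,
⟨7, 34, 6, 29, true, 100, 102, [12, 4, 3, 2]⟩,
⟨6, 29, 5, 24, true, 100, 102, [4, 3, 2, 12]⟩,
⟨5, 24, 14, 67, true, 99, 101, [4, 3, 12, 2]⟩,
⟨14, 67, 9, 43, true, 99, 101, [4, 3, 12, 2]⟩,
⟨9, 43, 4, 19, true, 98, 100, [4, 12, 3, 2]⟩,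
⟨4, 19, 7, 33, true, 97, 99, [3, 2, 12, 4]⟩,
⟨7, 33, 10, 47, true, 97, 99, [3, 2, 12, 4]⟩,
⟨10, 47, 3, 14, true, 96, 98, [3, 12, 2, 4]⟩,
⟨3, 14, 14, 65, true, 96, 98, [2, 4, 12, 3]⟩,
⟨14, 65, 8, 37, true, 96, 98, [2, 4, 12, 3]⟩,
⟨8, 37, 5, 23, true, 95, 97, [2, 12, 4, 3]⟩,
⟨5, 23, 12, 55, true, 94, 96, [12, 2, 4, 3]⟩,
⟨12, 55, 7, 32, true, 94, 96, [2, 4, 3, 12]⟩,
⟨7, 32, 9, 41, true, 94, 96, [2, 4, 3, 12]⟩,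
⟨9, 41, 2, 9, true, 93, 95, [2, 4, 12, 3]⟩,
⟨2, 9, 9, 40, true, 92, 94, [3, 12, 4, 2]⟩,
⟨9, 40, 7, 31, true, 91, 93, [12, 3, 4, 2]⟩,
⟨7, 31, 12, 53, true, 91, 93, [12, 3, 4, 2]⟩,
⟨12, 53, 5, 22, true, 91, 93, [3, 4, 2, 12]⟩,
⟨5, 22, 8, 35, true, 90, 92, [3, 4, 12, 2]⟩,
⟨8, 35, 14, 61, true, 89, 91, [3, 12, 4, 2]⟩,
⟨14, 61, 3, 13, true, 89, 91, [3, 12, 4, 2]⟩,
⟨3, 13, 10, 43, true, 89, 91, [4, 2, 12, 3]⟩,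
⟨10, 43, 7, 30, true, 88, 90, [4, 12, 2, 3]⟩,
⟨7, 30, 4, 17, true, 88, 90, [4, 12, 2, 3]⟩,
⟨4, 17, 9, 38, true, 87, 89, [2, 3, 12, 4]⟩,
⟨9, 38, 14, 59, true, 86, 88, [2, 12, 3, 4]⟩,
⟨14, 59, 5, 21, true, 86, 88, [2, 12, 3, 4]⟩,
⟨5, 21, 6, 25, true, 85, 87, [12, 2, 3, 4]⟩,
⟨6, 25, 7, 29, true, 85, 87, [2, 3, 4, 12]⟩,
⟨7, 29, 8, 33, true, 85, 87, [2, 3, 4, 12]⟩,
⟨8, 33, 9, 37, true, 84, 86, [2, 3, 12, 4]⟩,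
⟨9, 37, 10, 41, true, 83, 85, [2, 12, 3, 4]⟩,
⟨10, 41, 12, 49, true, 82, 84, [12, 2, 3, 4]⟩,
⟨12, 49, 14, 57, true, 82, 84, [2, 3, 4, 12]⟩,
⟨14, 57, 1, 4, true, 82, 84, [2, 3, 4, 12]⟩,
⟨1, 4, 14, 55, true, 82, 84, [12, 4, 3, 2]⟩,
⟨14, 55, 12, 47, true, 82, 84, [12, 4, 3, 2]⟩,
⟨12, 47, 10, 39, true, 82, 84, [4, 3, 2, 12]⟩,
⟨10, 39, 9, 35, true, 81, 83, [4, 3, 12, 2]⟩,
⟨9, 35, 8, 31, true, 80, 82, [4, 12, 3, 2]⟩,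
⟨8, 31, 7, 27, true, 79, 81, [12, 4, 3, 2]⟩,
⟨7, 27, 6, 23, true, 79, 81, [12, 4, 3, 2]⟩,
⟨6, 23, 5, 19, true, 79, 81, [4, 3, 2, 12]⟩,
⟨5, 19, 14, 53, true, 78, 80, [4, 3, 12, 2]⟩,
⟨14, 53, 9, 34, true, 78, 80, [4, 3, 12, 2]⟩,
⟨9, 34, 4, 15, true, 77, 79, [4, 12, 3, 2]⟩,
⟨4, 15, 7, 26, true, 76, 78, [3, 2, 12, 4]⟩,
⟨7, 26, 10, 37, true, 76, 78, [3, 2, 12, 4]⟩,
⟨10, 37, 3, 11, true, 75, 77, [3, 12, 2, 4]⟩,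
⟨3, 11, 14, 51, true, 75, 77, [2, 4, 12, 3]⟩,
⟨14, 51, 8, 29, true, 75, 77, [2, 4, 12, 3]⟩,
⟨8, 29, 5, 18, true, 74, 76, [2, 12, 4, 3]⟩,
⟨5, 18, 12, 43, true, 73, 75, [12, 2, 4, 3]⟩,
⟨12, 43, 7, 25, true, 73, 75, [2, 4, 3, 12]⟩,
⟨7, 25, 9, 32, true, 73, 75, [2, 4, 3, 12]⟩,
⟨9, 32, 2, 7, true, 72, 74, [2, 4, 12, 3]⟩,
⟨2, 7, 9, 31, true, 71, 73, [3, 12, 4, 2]⟩,
⟨9, 31, 7, 24, true, 70, 72, [12, 3, 4, 2]⟩,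
⟨7, 24, 12, 41, true, 70, 72, [12, 3, 4, 2]⟩,
⟨12, 41, 5, 17, true, 70, 72, [3, 4, 2, 12]⟩,
⟨5, 17, 8, 27, true, 69, 71, [3, 4, 12, 2]⟩,
⟨8, 27, 14, 47, true, 68, 70, [3, 12, 4, 2]⟩,
⟨14, 47, 3, 10, true, 68, 70, [3, 12, 4, 2]⟩,
⟨3, 10, 10, 33, true, 68, 70, [4, 2, 12, 3]⟩,
⟨10, 33, 7, 23, true, 67, 69, [4, 12, 2, 3]⟩,
⟨7, 23, 4, 13, true, 67, 69, [4, 12, 2, 3]⟩,
⟨4, 13, 9, 29, true, 66, 68, [2, 3, 12, 4]⟩,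
⟨9, 29, 14, 45, true, 65, 67, [2, 12, 3, 4]⟩,
⟨14, 45, 5, 16, true, 65, 67, [2, 12, 3, 4]⟩,
⟨5, 16, 6, 19, true, 64, 66, [12, 2, 3, 4]⟩,
⟨6, 19, 7, 22, true, 64, 66, [2, 3, 4, 12]⟩,
⟨7, 22, 8, 25, true, 64, 66, [2, 3, 4, 12]⟩,
⟨8, 25, 9, 28, true, 63, 65, [2, 3, 12, 4]⟩,
⟨9, 28, 10, 31, true, 62, 64, [2, 12, 3, 4]⟩,
⟨10, 31, 12, 37, true, 61, 63, [12, 2, 3, 4]⟩,
⟨12, 37, 14, 43, true, 61, 63, [2, 3, 4, 12]⟩,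
⟨14, 43, 1, 3, true, 61, 63, [2, 3, 4, 12]⟩,
⟨1, 3, 14, 41, true, 61, 63, [12, 4, 3, 2]⟩,
⟨14, 41, 12, 35, true, 61, 63, [12, 4, 3, 2]⟩,
⟨12, 35, 10, 29, true, 61, 63, [4, 3, 2, 12]⟩,
⟨10, 29, 9, 26, true, 60, 62, [4, 3, 12, 2]⟩,
⟨9, 26, 8, 23, true, 59, 61, [4, 12, 3, 2]⟩,
⟨8, 23, 7, 20, true, 58, 60, [12, 4, 3, 2]⟩,
⟨7, 20, 6, 17, true, 58, 60, [12, 4, 3, 2]⟩,
⟨6, 17, 5, 14, true, 58, 60, [4, 3, 2, 12]⟩,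
⟨5, 14, 14, 39, true, 57, 59, [4, 3, 12, 2]⟩,
⟨14, 39, 9, 25, true, 57, 59, [4, 3, 12, 2]⟩,
⟨9, 25, 4, 11, true, 56, 58, [4, 12, 3, 2]⟩,
⟨4, 11, 7, 19, true, 55, 57, [3, 2, 12, 4]⟩,
⟨7, 19, 10, 27, true, 55, 57, [3, 2, 12, 4]⟩,
⟨10, 27, 3, 8, true, 54, 56, [3, 12, 2, 4]⟩,
⟨3, 8, 14, 37, true, 54, 56, [2, 4, 12, 3]⟩,
⟨14, 37, 8, 21, true, 54, 56, [2, 4, 12, 3]⟩,
⟨8, 21, 5, 13, true, 53, 55, [2, 12, 4, 3]⟩,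
⟨5, 13, 12, 31, true, 52, 54, [12, 2, 4, 3]⟩,
⟨12, 31, 7, 18, true, 52, 54, [2, 4, 3, 12]⟩,
⟨7, 18, 9, 23, true, 52, 54, [2, 4, 3, 12]⟩,
⟨9, 23, 2, 5, true, 51, 53, [2, 4, 12, 3]⟩,
⟨2, 5, 9, 22, true, 50, 52, [3, 12, 4, 2]⟩,
⟨9, 22, 7, 17, true, 49, 51, [12, 3, 4, 2]⟩,
⟨7, 17, 12, 29, true, 49, 51, [12, 3, 4, 2]⟩,
⟨12, 29, 5, 12, true, 49, 51, [3, 4, 2, 12]⟩,
⟨5, 12, 8, 19, true, 48, 50, [3, 4, 12, 2]⟩,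
⟨8, 19, 14, 33, true, 47, 49, [3, 12, 4, 2]⟩,
⟨14, 33, 3, 7, true, 47, 49, [3, 12, 4, 2]⟩,
⟨3, 7, 10, 23, true, 47, 49, [4, 2, 12, 3]⟩,
⟨10, 23, 7, 16, true, 46, 48, [4, 12, 2, 3]⟩,
⟨7, 16, 4, 9, true, 46, 48, [4, 12, 2, 3]⟩,
⟨4, 9, 9, 20, true, 45, 47, [2, 3, 12, 4]⟩,
⟨9, 20, 14, 31, true, 44, 46, [2, 12, 3, 4]⟩,
⟨14, 31, 5, 11, true, 44, 46, [2, 12, 3, 4]⟩,
⟨5, 11, 6, 13, true, 43, 45, [12, 2, 3, 4]⟩,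
⟨6, 13, 7, 15, true, 43, 45, [2, 3, 4, 12]⟩,
⟨7, 15, 8, 17, true, 43, 45, [2, 3, 4, 12]⟩,
⟨8, 17, 9, 19, true, 42, 44, [2, 3, 12, 4]⟩,
⟨9, 19, 10, 21, true, 41, 43, [2, 12, 3, 4]⟩,
⟨10, 21, 12, 25, true, 40, 42, [12, 2, 3, 4]⟩,
⟨12, 25, 14, 29, true, 40, 42, [2, 3, 4, 12]⟩,
⟨14, 29, 1, 2, true, 40, 42, [2, 3, 4, 12]⟩,
⟨1, 2, 14, 27, true, 40, 42, [12, 4, 3, 2]⟩,
⟨14, 27, 12, 23, true, 40, 42, [12, 4, 3, 2]⟩,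
⟨12, 23, 10, 19, true, 40, 42, [4, 3, 2, 12]⟩,
⟨10, 19, 9, 17, true, 39, 41, [4, 3, 12, 2]⟩,
⟨9, 17, 8, 15, true, 38, 40, [4, 12, 3, 2]⟩,
⟨8, 15, 7, 13, true, 37, 39, [12, 4, 3, 2]⟩,
⟨7, 13, 6, 11, true, 37, 39, [12, 4, 3, 2]⟩,
⟨6, 11, 5, 9, true, 37, 39, [4, 3, 2, 12]⟩,
⟨5, 9, 14, 25, true, 36, 38, [4, 3, 12, 2]⟩,
⟨14, 25, 9, 16, true, 36, 38, [4, 3, 12, 2]⟩,
⟨9, 16, 4, 7, true, 35, 37, [4, 12, 3, 2]⟩,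
⟨4, 7, 7, 12, true, 34, 36, [3, 2, 12, 4]⟩,
⟨7, 12, 10, 17, true, 34, 36, [3, 2, 12, 4]⟩,
⟨10, 17, 3, 5, true, 33, 35, [3, 12, 2, 4]⟩,
⟨3, 5, 14, 23, true, 33, 35, [2, 4, 12, 3]⟩,
⟨14, 23, 8, 13, true, 33, 35, [2, 4, 12, 3]⟩,
⟨8, 13, 5, 8, true, 32, 34, [2, 12, 4, 3]⟩,
⟨5, 8, 12, 19, true, 31, 33, [12, 2, 4, 3]⟩,
⟨12, 19, 7, 11, true, 31, 33, [2, 4, 3, 12]⟩,
⟨7, 11, 9, 14, true, 31, 33, [2, 4, 3, 12]⟩,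
⟨9, 14, 2, 3, true, 30, 32, [2, 4, 12, 3]⟩,
⟨2, 3, 9, 13, true, 29, 31, [3, 12, 4, 2]⟩,
⟨9, 13, 7, 10, true, 28, 30, [12, 3, 4, 2]⟩,
⟨7, 10, 12, 17, true, 28, 30, [12, 3, 4, 2]⟩,
⟨12, 17, 5, 7, true, 28, 30, [3, 4, 2, 12]⟩,
⟨5, 7, 8, 11, true, 27, 29, [3, 4, 12, 2]⟩,
⟨8, 11, 14, 19, true, 26, 28, [3, 12, 4, 2]⟩,
⟨14, 19, 3, 4, true, 26, 28, [3, 12, 4, 2]⟩,
⟨3, 4, 10, 13, true, 26, 28, [4, 2, 12, 3]⟩,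
⟨10, 13, 7, 9, true, 25, 27, [4, 12, 2, 3]⟩,
⟨7, 9, 4, 5, true, 25, 27, [4, 12, 2, 3]⟩,
⟨4, 5, 9, 11, true, 24, 26, [2, 3, 12, 4]⟩,
⟨9, 11, 14, 17, true, 23, 25, [2, 12, 3, 4]⟩,
⟨14, 17, 5, 6, true, 23, 25, [2, 12, 3, 4]⟩,
⟨5, 6, 6, 7, true, 22, 24, [12, 2, 3, 4]⟩,
⟨6, 7, 7, 8, true, 22, 24, [2, 3, 4, 12]⟩,
⟨7, 8, 8, 9, true, 22, 24, [2, 3, 4, 12]⟩,
⟨8, 9, 9, 10, true, 21, 23, [2, 3, 12, 4]⟩,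
⟨9, 10, 10, 11, true, 20, 22, [2, 12, 3, 4]⟩,
⟨10, 11, 12, 13, true, 19, 21, [12, 2, 3, 4]⟩,
⟨12, 13, 14, 15, true, 19, 21, [2, 3, 4, 12]⟩,
⟨14, 15, 1, 1, true, 19, 21, [2, 3, 4, 12]⟩,
⟨1, 1, 14, 13, true, 19, 21, [12, 4, 3, 2]⟩,
⟨14, 13, 12, 11, true, 19, 21, [12, 4, 3, 2]⟩,
⟨12, 11, 10, 9, true, 19, 21, [4, 3, 2, 12]⟩,
⟨10, 9, 9, 8, true, 18, 20, [4, 3, 12, 2]⟩,
⟨9, 8, 8, 7, true, 17, 19, [4, 12, 3, 2]⟩,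
⟨8, 7, 7, 6, true, 16, 18, [12, 4, 3, 2]⟩,
⟨7, 6, 6, 5, true, 16, 18, [12, 4, 3, 2]⟩,
⟨6, 5, 5, 4, true, 16, 18, [4, 3, 2, 12]⟩,
⟨5, 4, 14, 11, true, 15, 17, [4, 3, 12, 2]⟩,
⟨14, 11, 9, 7, true, 15, 17, [4, 3, 12, 2]⟩,
⟨9, 7, 4, 3, true, 14, 16, [4, 12, 3, 2]⟩,
⟨4, 3, 7, 5, true, 13, 15, [3, 2, 12, 4]⟩,
⟨7, 5, 10, 7, true, 13, 15, [3, 2, 12, 4]⟩,
⟨10, 7, 3, 2, true, 12, 14, [3, 12, 2, 4]⟩,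
⟨3, 2, 14, 9, true, 12, 14, [2, 4, 12, 3]⟩,
⟨14, 9, 8, 5, true, 12, 14, [2, 4, 12, 3]⟩,
⟨8, 5, 5, 3, true, 11, 13, [2, 12, 4, 3]⟩,
⟨5, 3, 12, 7, true, 10, 12, [12, 2, 4, 3]⟩,
⟨12, 7, 7, 4, true, 10, 12, [2, 4, 3, 12]⟩,
⟨7, 4, 9, 5, true, 10, 12, [2, 4, 3, 12]⟩,
⟨9, 5, 2, 1, true, 9, 11, [2, 4, 12, 3]⟩,
⟨2, 1, 9, 4, true, 8, 10, [3, 12, 4, 2]⟩,
⟨9, 4, 7, 3, true, 7, 9, [12, 3, 4, 2]⟩,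
⟨7, 3, 12, 5, true, 7, 9, [12, 3, 4, 2]⟩,
⟨12, 5, 5, 2, true, 7, 9, [3, 4, 2, 12]⟩,
⟨5, 2, 8, 3, true, 6, 8, [3, 4, 12, 2]⟩,
⟨8, 3, 14, 5, true, 5, 7, [3, 12, 4, 2]⟩,
⟨14, 5, 3, 1, true, 5, 7, [3, 12, 4, 2]⟩,
⟨3, 1, 10, 3, true, 5, 7, [4, 2, 12, 3]⟩,
⟨10, 3, 7, 2, true, 4, 6, [4, 12, 2, 3]⟩,
⟨7, 2, 4, 1, true, 4, 6, [4, 12, 2, 3]⟩,
⟨4, 1, 9, 2, true, 3, 5, [2, 3, 12, 4]⟩,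
⟨9, 2, 14, 3, true, 2, 4, [2, 12, 3, 4]⟩,
⟨14, 3, 5, 1, true, 2, 4, [2, 12, 3, 4]⟩,
⟨5, 1, 6, 1, true, 1, 3, [12, 2, 3, 4]⟩,
⟨6, 1, 7, 1, false, 2, 3, [2, 3, 4, 12]⟩,
⟨7, 1, 8, 1, false, 3, 3, [2, 3, 4, 12]⟩,
⟨8, 1, 9, 1, false, 2, 2, [2, 3, 12, 4]⟩,
⟨9, 1, 10, 1, false, 1, 1, [2, 12, 3, 4]⟩,
⟨10, 1, 12, 1, false, 0, 0, [12, 2, 3, 4]⟩,
⟨12, 1, 14, 1, false, 0, 0, [2, 3, 4, 12]⟩]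

def cells : List Cell := cellsP0 ++ cellsP1 ++ cellsP2 ++ cellsP3 ++ cellsP4 ++ cellsP5

end Pool.Agent.LZ
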