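import Pool.Agent.H337R2.LZ.Defs
import Pool.Agent.H574R2.D3.D3

/-!
# p-adic size of the determinant (task D3)
-/

open Polynomial Pool.Agent.H337R2

namespace Pool.Agent.LZ

noncomputable section

/-- the statement of task C2, functional `A` -/
def D3St_C2a : Prop := ∀ {n p : ℕ} [Fact p.Prime] (_ : 1 ≤ n) (_ : 12 * n < p ^ 2) (q : ℕ) (α : ℚ)
    (_ : QI q α)
    (E : ℚ[X]) (W : ℚ) (_ : 0 ≤ W) (A : ℕ → ℚ) (_ : ∀ k, 0 ≤ A k)
    (_ : ∀ k ∈ sL n, PB p (p : ℚ) (A k) (TS (-(k : ℚ)) E))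
    (_ : ∀ k ∈ sL n, PB p 1 1 (TS (-(k : ℚ)) E))
    (_ : ∀ k ∈ sL n, (p : ℚ) ^ (-eL n p k) * A k ≤ W ∨
      (padicNorm p (cL n) ≤ W ∧ ∀ k' ∈ sL n, k' ≠ k → ¬ (p : ℤ) ∣ (k' : ℤ) - k)),
    padicNorm p ((q : ℚ) * xa n α (PL n * E)) ≤ W

/-- the statement of task C2, functional `B` -/
def D3St_C2b : Prop := ∀ {n p : ℕ} [Fact p.Prime] (_ : 1 ≤ n) (_ : 12 * n < p ^ 2) (q : ℕ) (β : ℚ)
    (_ : QI q β)
    (E : ℚ[X]) (W : ℚ) (_ : 0 ≤ W) (A : ℕ → ℚ) (_ : ∀ k, 0 ≤ A k)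
    (_ : ∀ k ∈ sL n, PB p (p : ℚ) (A k) (TS (-(k : ℚ)) E))
    (_ : ∀ k ∈ sL n, PB p 1 1 (TS (-(k : ℚ)) E))
    (_ : ∀ k ∈ sL n, (p : ℚ) ^ (-eL n p k - 2) * A k ≤ W ∨
      (padicNorm p (cL n) ≤ W ∧ ∀ k' ∈ sL n, k' ≠ k → ¬ (p : ℤ) ∣ (k' : ℤ) - k)),
    padicNorm p ((q : ℚ) * xb n β (PL n * E)) ≤ W

/-- node polynomials -/
def D3_ND (κ : ℕ → ℕ) (i : ℕ) : ℚ[X] := ∏ l ∈ Finset.range i, (X + C ((κ l : ℕ) : ℚ))

lemma D3_ND_monic (κ : ℕ → ℕ) (i : ℕ) : (D3_ND κ i).Monic ∧ (D3_ND κ i).natDegree = i := by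
  unfold D3_ND
  refine ⟨Polynomial.monic_prod_of_monic _ _ fun l _ => Polynomial.monic_X_add_C _, ?_⟩
  rw [Polynomial.natDegree_prod_of_monic _ _ fun l _ => Polynomial.monic_X_add_C _]
  simp only [Polynomial.natDegree_X_add_C, Finset.sum_const, Finset.card_range, smul_eq_mul, mul_one]

lemma D3_lin1 (p : ℕ) [Fact p.Prime] (ρ : ℚ) (hρ : 1 ≤ ρ) (k r : ℕ) :
    PB p ρ 1 (TS (-(k : ℚ)) (X + C ((r : ℕ) : ℚ))) := by
  rw [TS_lin]
  exact Pool.Agent.H574R2.D3.D3_lin p ρ hρ (-(k : ℤ) + r) _ (by push_cast; ring)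

lemma D3_lin0 (p : ℕ) [Fact p.Prime] (k r : ℕ) (h : r = k % p) :
    PB p (p : ℚ) (p : ℚ)⁻¹ (TS (-(k : ℚ)) (X + C ((r : ℕ) : ℚ))) := by
  rw [TS_lin]
  refine Pool.Agent.H574R2.D3.D3_lin_dvd p (-(k : ℤ) + r) ?_ _ (by push_cast; ring)
  have h1 : (p : ℤ) ∣ (k : ℤ) - (k % p : ℕ) := by
    rw [Int.natCast_mod]
    exact Int.dvd_self_sub_emod
  rw [h, neg_add_eq_sub, ← dvd_neg, neg_sub]
  exact h1

lemma D3_ND_PB1 (p : ℕ) [Fact p.Prime] (ρ : ℚ) (hρ : 1 ≤ ρ) (k : ℕ) (κ : ℕ → ℕ) (i : ℕ) :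
    PB p ρ 1 (TS (-(k : ℚ)) (D3_ND κ i)) := by
  unfold D3_ND
  rw [map_prod]
  have := PB.prod (p := p) (Finset.range i) (fun _ => (1 : ℚ))
    (fun l => TS (-(k : ℚ)) (X + C ((κ l : ℕ) : ℚ))) (by linarith : (0 : ℚ) ≤ ρ)
    (fun _ _ => zero_le_one) (fun l _ => D3_lin1 p ρ hρ k (κ l))
  simpa using this

lemma D3_ND_PB (p : ℕ) [hp : Fact p.Prime] (k : ℕ) (κ : ℕ → ℕ) (i : ℕ) :
    PB p (p : ℚ) ((p : ℚ)⁻¹ ^ ((Finset.range i).filter fun l => κ l = k % p).card)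
      (TS (-(k : ℚ)) (D3_ND κ i)) := by
  have hp0 : (0 : ℚ) < p := by exact_mod_cast hp.1.pos
  have hp1 : (1 : ℚ) ≤ p := by exact_mod_cast hp.1.one_le
  unfold D3_ND
  rw [map_prod]
  have h := PB.prod (p := p) (Finset.range i) (fun l => if κ l = k % p then (p : ℚ)⁻¹ else 1)
    (fun l => TS (-(k : ℚ)) (X + C ((κ l : ℕ) : ℚ))) hp0.le
    (fun l _ => by split_ifs <;> positivity) (fun l _ => by
      show PB p (p : ℚ) (if κ l = k % p then (p : ℚ)⁻¹ else 1) _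
      split_ifs with hl
      · exact D3_lin0 p k (κ l) hl
      · exact D3_lin1 p (p : ℚ) hp1 k (κ l))
  rw [Finset.prod_ite, Finset.prod_const, Finset.prod_const_one, mul_one] at h
  exact h

/-- bounds for the power series of the product of two node polynomials -/
lemma D3_NN_PB (p : ℕ) [hp : Fact p.Prime] (k : ℕ) (κ κ' : ℕ → ℕ) (i j : ℕ) :
    PB p (p : ℚ) ((p : ℚ)⁻¹ ^ ((Finset.range i).filter fun l => κ l = k % p).card *
          (p : ℚ)⁻¹ ^ ((Finset.range j).filter fun l => κ' l = k % p).card)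
      (TS (-(k : ℚ)) (D3_ND κ i * D3_ND κ' j)) := by
  have hp0 : (0 : ℚ) < p := by exact_mod_cast hp.1.pos
  rw [map_mul]
  exact PB.mul hp0.le (by positivity) (by positivity) (D3_ND_PB p k κ i) (D3_ND_PB p k κ' j)

lemma D3_NN_PB1 (p : ℕ) [hp : Fact p.Prime] (ρ : ℚ) (hρ : 1 ≤ ρ) (k : ℕ) (κ κ' : ℕ → ℕ) (i j : ℕ) :
    PB p ρ 1 (TS (-(k : ℚ)) (D3_ND κ i * D3_ND κ' j)) := by
  rw [map_mul]
  have := PB.mul (by linarith : (0 : ℚ) ≤ ρ) zero_le_one zero_le_one (D3_ND_PB1 p ρ hρ k κ i)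
    (D3_ND_PB1 p ρ hρ k κ' j)
  simpa using this

/-- the exponent depends only on the class -/
lemma D3_eL_mod (n p k : ℕ) : eL n p (k % p) = eL n p k := by
  unfold eL
  have h : (k % p) % p = k % p := Nat.mod_mod _ _
  rw [Pool.Agent.H574R2.D3.D2_cnt_congr (A := 1) (B := 2 * n) h,
    Pool.Agent.H574R2.D3.D2_cnt_congr (A := 2 * n + 1) (B := 12 * n) h,
    Pool.Agent.H574R2.D3.D2_cnt_congr (A := 3 * n + 1) (B := 12 * n) h,
    Pool.Agent.H574R2.D3.D2_cnt_congr (A := 4 * n + 1) (B := 12 * n) h]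

/-- the determinant with the common denominators -/
lemma D3_det_smul (A B : ℚ[X] →ₗ[ℚ] ℚ) (m : ℕ) (q : ℚ) (κ κ' κ'' : ℕ → ℕ) :
    (Matrix.of fun i j : Fin (2 * m) => q * (if j.1 < m then A (D3_ND κ i.1 * D3_ND κ' j.1)
      else B (D3_ND κ i.1 * D3_ND κ'' (j.1 - m)))).det = q ^ (2 * m) * MD A B m := by
  have h1 : (Matrix.of fun i j : Fin (2 * m) => q * (if j.1 < m then
      A (D3_ND κ i.1 * D3_ND κ' j.1) else B (D3_ND κ i.1 * D3_ND κ'' (j.1 - m)))) =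
      q • (Matrix.of fun i j : Fin (2 * m) => if j.1 < m then
      A (D3_ND κ i.1 * D3_ND κ' j.1) else B (D3_ND κ i.1 * D3_ND κ'' (j.1 - m))) := by
    ext i j
    simp
  rw [h1, Matrix.det_smul, Fintype.card_fin,
    Pool.Agent.H574R2.D3.A1_MD_monic A B m (D3_ND κ) (D3_ND κ') (D3_ND κ'')
    (fun i _ => D3_ND_monic κ i) (fun i _ => D3_ND_monic κ' i) (fun i _ => D3_ND_monic κ'' i)]

/-- the greedy choice of classes -/
lemma D3_pick (S : Finset ℕ) (c : ℕ → ℤ) (μ : ℤ) (m : ℕ) :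
    ∃ (κ : ℕ → ℕ) (s : ℕ → ℤ), (∀ i, μ ≤ s i) ∧
      (∑ i ∈ Finset.range m, s i ≤ m * μ + ∑ k ∈ S, TA (c k - μ)) ∧
      ∀ k ∈ S, ∀ i, c k - (((Finset.range i).filter fun l => κ l = k).card : ℤ) ≤ s i := by
  rcases S.eq_empty_or_nonempty with hS0 | hS0
  · refine ⟨fun _ => 0, fun _ => μ, fun _ => le_rfl, ?_, ?_⟩
    · rw [hS0, Finset.sum_empty, add_zero, Finset.sum_const, Finset.card_range, nsmul_eq_mul]
    · intro k hk
      rw [hS0] at hk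
      exact absurd hk (Finset.notMem_empty k)
  · obtain ⟨κ, s, -, h2, h3, h4⟩ := Pool.Agent.H574R2.D3.D1_greedy S hS0 c μ m
    exact ⟨κ, s, h2, h3, h4⟩

theorem D3_det_of (hC2a : D3St_C2a) (hC2b : D3St_C2b) {n p : ℕ} [Fact p.Prime] (hn : 1 ≤ n)
    (hp2 : 12 * n < p ^ 2) (q : ℕ) (α β : ℚ)
    (hα : QI q α) (hβ : QI q β) (m : ℕ) (aN ay : ℤ) (g : ℕ → ℤ) (S : Finset ℕ)
    (h : ∀ k ∈ sL n, k % p ∈ S ∨
      (padicNorm p (cL n) ≤ (p : ℚ) ^ aN ∧ padicNorm p (cL n) ≤ (p : ℚ) ^ ay ∧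
        ∀ k' ∈ sL n, k' ≠ k → ¬ (p : ℤ) ∣ (k' : ℤ) - k)) :
    padicNorm p ((q : ℚ) ^ (2 * m) * MD (AL n α) (BL n β) m) ≤
      (p : ℚ) ^ ((m : ℤ) * (aN + ay) + ∑ κ ∈ S, (TA (g κ) + TA (-eL n p κ - g κ - aN) +
        TA (-eL n p κ - 2 - g κ - ay))) := by
  have hpp : p.Prime := Fact.out
  have hp0 : (0 : ℚ) < p := by exact_mod_cast hpp.pos
  have hp1 : (1 : ℚ) ≤ p := by exact_mod_cast hpp.one_le
  obtain ⟨κ, s, hs1, hs2, hs3⟩ := D3_pick S g 0 (2 * m)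
  obtain ⟨κ', s', hs1', hs2', hs3'⟩ := D3_pick S (fun k => -eL n p k - g k) aN m
  obtain ⟨κ'', s'', hs1'', hs2'', hs3''⟩ := D3_pick S (fun k => -eL n p k - 2 - g k) ay m
  -- the exponent of one entry
  have hexp : ∀ (b y : ℤ) (c d : ℕ), b - c - d ≤ y →
      (p : ℚ) ^ b * ((p : ℚ)⁻¹ ^ c * (p : ℚ)⁻¹ ^ d) ≤ (p : ℚ) ^ y := by
    intro b y c d hy
    have e : (p : ℚ) ^ b * ((p : ℚ)⁻¹ ^ c * (p : ℚ)⁻¹ ^ d) = (p : ℚ) ^ (b - c - d : ℤ) := by
      rw [zpow_sub₀ hp0.ne', zpow_sub₀ hp0.ne', zpow_natCast, zpow_natCast,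
        inv_pow, inv_pow, div_eq_mul_inv, div_eq_mul_inv, mul_assoc]
    rw [e]
    exact zpow_le_zpow_right₀ hp1 hy
  have hmat := Pool.Agent.H574R2.D3.D3_A3 p (2 * m) (Matrix.of fun i j : Fin (2 * m) => (q : ℚ) *
      (if j.1 < m then AL n α (D3_ND κ i.1 * D3_ND κ' j.1)
      else BL n β (D3_ND κ i.1 * D3_ND κ'' (j.1 - m))))
    (fun i => (p : ℚ) ^ (s i)) (fun j => if j < m then (p : ℚ) ^ (s' j) else (p : ℚ) ^ (s'' (j - m)))
    (fun i => by positivity) (fun j => by split_ifs <;> positivity) (by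
      intro i j
      rw [Matrix.of_apply]
      by_cases hj : j.1 < m
      · rw [if_pos hj]
        simp only [if_pos hj]
        rw [AL_apply, ← zpow_add₀ hp0.ne']
        refine hC2a hn hp2 q α hα _ _ (by positivity)
          (fun k => (p : ℚ)⁻¹ ^ ((Finset.range i.1).filter fun l => κ l = k % p).card *
            (p : ℚ)⁻¹ ^ ((Finset.range j.1).filter fun l => κ' l = k % p).card)
          (fun k => by positivity) (fun k hk => ?_) (fun k hk => ?_) (fun k hk => ?_)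
        · exact D3_NN_PB p k κ κ' i.1 j.1
        · exact D3_NN_PB1 p 1 le_rfl k κ κ' i.1 j.1
        · rcases h k hk with h1 | h1
          · left
            have h2 := hs3 _ h1 i.1
            have h3 := hs3' _ h1 j.1
            rw [D3_eL_mod] at h3
            exact hexp _ _ _ _ (by linarith)
          · right
            refine ⟨h1.1.trans (zpow_le_zpow_right₀ hp1 ?_), h1.2.2⟩
            have h2 := hs1 i.1
            have h3 := hs1' j.1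
            linarith
      · rw [if_neg hj]
        simp only [if_neg hj]
        rw [BL_apply, ← zpow_add₀ hp0.ne']
        refine hC2b hn hp2 q β hβ _ _ (by positivity)
          (fun k => (p : ℚ)⁻¹ ^ ((Finset.range i.1).filter fun l => κ l = k % p).card *
            (p : ℚ)⁻¹ ^ ((Finset.range (j.1 - m)).filter fun l => κ'' l = k % p).card)
          (fun k => by positivity) (fun k hk => ?_) (fun k hk => ?_) (fun k hk => ?_)
        · exact D3_NN_PB p k κ κ'' i.1 (j.1 - m)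
        · exact D3_NN_PB1 p 1 le_rfl k κ κ'' i.1 (j.1 - m)
        · rcases h k hk with h1 | h1
          · left
            have h2 := hs3 _ h1 i.1
            have h3 := hs3'' _ h1 (j.1 - m)
            rw [D3_eL_mod] at h3
            exact hexp _ _ _ _ (by linarith)
          · right
            refine ⟨h1.2.1.trans (zpow_le_zpow_right₀ hp1 ?_), h1.2.2⟩
            have h2 := hs1 i.1
            have h3 := hs1'' (j.1 - m)
            linarith)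
  rw [D3_det_smul] at hmat
  refine le_trans hmat ?_
  have hcprod : ∏ j ∈ Finset.range (2 * m), (if j < m then (p : ℚ) ^ (s' j) else
      (p : ℚ) ^ (s'' (j - m))) = (p : ℚ) ^ (∑ j ∈ Finset.range m, s' j) *
      (p : ℚ) ^ (∑ j ∈ Finset.range m, s'' j) := by
    rw [two_mul, Finset.prod_range_add,
      ← Pool.Agent.H574R2.D3.D3_prod_zpow (p : ℚ) hp0.ne' s' m,
      ← Pool.Agent.H574R2.D3.D3_prod_zpow (p : ℚ) hp0.ne' s'' m]
    congr 1
    · exact Finset.prod_congr rfl fun j hj => if_pos (Finset.mem_range.1 hj)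
    · refine Finset.prod_congr rfl fun j _ => ?_
      rw [if_neg (by omega), Nat.add_sub_cancel_left]
  rw [hcprod, Pool.Agent.H574R2.D3.D3_prod_zpow (p : ℚ) hp0.ne' s (2 * m), ← zpow_add₀ hp0.ne',
    ← zpow_add₀ hp0.ne']
  refine zpow_le_zpow_right₀ hp1 ?_
  rw [Finset.sum_add_distrib, Finset.sum_add_distrib]
  have h0 : ∑ k ∈ S, TA (g k - 0) = ∑ k ∈ S, TA (g k) := by
    refine Finset.sum_congr rfl fun k _ => by rw [sub_zero]
  rw [h0] at hs2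
  linarith

/-- the constant is an integer -/
lemma D3_cL (n p : ℕ) [Fact p.Prime] : padicNorm p (cL n) ≤ 1 := by
  obtain ⟨c, hc⟩ := Nat.factorial_dvd_factorial (show 2 * n ≤ 8 * n by omega)
  have h : cL n = ((((10 * n).factorial * (9 * n).factorial * c : ℕ) : ℤ) : ℚ) := by
    unfold cL
    rw [hc]
    have : (((2 * n).factorial : ℕ) : ℚ) ≠ 0 := by exact_mod_cast Nat.factorial_ne_zero _
    push_cast
    field_simp
  rw [h]
  exact padicNorm.of_int _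

theorem D3_large_of (hC2a : D3St_C2a) (hC2b : D3St_C2b) {n p : ℕ} [Fact p.Prime] (hn : 1 ≤ n)
    (hp2 : 12 * n < p ^ 2) (hp : 10 * n ≤ p) (q : ℕ) (α β : ℚ)
    (hα : QI q α) (hβ : QI q β) (m : ℕ) :
    padicNorm p ((q : ℚ) ^ (2 * m) * MD (AL n α) (BL n β) m) ≤ 1 := by
  have h := D3_det_of hC2a hC2b hn hp2 q α β hα hβ m 0 0 (fun _ => 0) ∅ (by
    intro k hk
    right
    rw [zpow_zero]
    refine ⟨D3_cL n p, D3_cL n p, fun k' hk' hne hd => ?_⟩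
    have h1 := Finset.mem_Icc.1 hk
    have h2 := Finset.mem_Icc.1 hk'
    have h3 : ((k' : ℤ) - k) ≠ 0 := by omega
    have h4 := Int.le_of_dvd (by positivity : 0 < |(k' : ℤ) - k|) ((dvd_abs _ _).2 hd)
    rcases abs_cases ((k' : ℤ) - k) with ⟨h5, -⟩ | ⟨h5, -⟩
    · rw [h5] at h4; omega
    · rw [h5] at h4; omega)
  simpa using h

end

end Pool.Agent.LZ
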