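import Pool.Agent.H337R2.LZ.C2
import Pool.Agent.H337R2.LZ.C3
import Pool.Agent.H337R2.LZ.C4
import Pool.Agent.H574R2.D3.A1
import Pool.Agent.H574R2.D3.A3
import Pool.Agent.H337R2.Cx3

/-! Task D4: the small primes. -/

open Polynomial Pool.Agent.H337R2

namespace Pool.Agent.LZ

noncomputable section

set_option linter.unusedVariables false

/-! ### statements of the tasks C2, C3, C4 -/

def D4St_C2xa : Prop := ∀ {n p : ℕ} [Fact p.Prime] (hn : 1 ≤ n) (hp2 : 12 * n < p ^ 2) (q : ℕ) (α : ℚ)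
    (hα : QI q α) (E : ℚ[X]) (W : ℚ) (hW : 0 ≤ W) (A : ℕ → ℚ) (hA : ∀ k, 0 ≤ A k)
    (hE : ∀ k ∈ sL n, PB p (p : ℚ) (A k) (TS (-(k : ℚ)) E))
    (hE1 : ∀ k ∈ sL n, PB p 1 1 (TS (-(k : ℚ)) E))
    (h : ∀ k ∈ sL n, (p : ℚ) ^ (-eL n p k) * A k ≤ W ∨
      (padicNorm p (cL n) ≤ W ∧ ∀ k' ∈ sL n, k' ≠ k → ¬ (p : ℤ) ∣ (k' : ℤ) - k)),
    padicNorm p ((q : ℚ) * xa n α (PL n * E)) ≤ W

def D4St_C2xb : Prop := ∀ {n p : ℕ} [Fact p.Prime] (hn : 1 ≤ n) (hp2 : 12 * n < p ^ 2) (q : ℕ) (β : ℚ)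
    (hβ : QI q β) (E : ℚ[X]) (W : ℚ) (hW : 0 ≤ W) (A : ℕ → ℚ) (hA : ∀ k, 0 ≤ A k)
    (hE : ∀ k ∈ sL n, PB p (p : ℚ) (A k) (TS (-(k : ℚ)) E))
    (hE1 : ∀ k ∈ sL n, PB p 1 1 (TS (-(k : ℚ)) E))
    (h : ∀ k ∈ sL n, (p : ℚ) ^ (-eL n p k - 2) * A k ≤ W ∨
      (padicNorm p (cL n) ≤ W ∧ ∀ k' ∈ sL n, k' ≠ k → ¬ (p : ℤ) ∣ (k' : ℤ) - k)),
    padicNorm p ((q : ℚ) * xb n β (PL n * E)) ≤ W

def D4St_C3 : Prop := ∀ {n p : ℕ} [Fact p.Prime] (hn : 1 ≤ n) (q : ℕ) (u : ℚ) (hu : QI q u)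
    (E : ℚ[X]) (A : ℚ) (hA : 0 ≤ A)
    (hE : ∀ k ∈ sL n, PB p ((14 * n + 1 : ℕ) : ℚ) A (TS (-(k : ℚ)) E)),
    padicNorm p ((q : ℚ) * xa n u (PL n * E)) ≤ ((14 * n + 1 : ℕ) : ℚ) ^ 40 * A ∧
    padicNorm p ((q : ℚ) * xb n u (PL n * E)) ≤ ((14 * n + 1 : ℕ) : ℚ) ^ 40 * A

def D4St_C4 : Prop := ∀ {n p : ℕ} [Fact p.Prime] (ρ : ℚ) (hρ1 : 1 ≤ ρ)
    (hρ : ∀ l : ℕ, 1 ≤ l → l ≤ 14 * n → (padicNorm p (l : ℚ))⁻¹ ≤ ρ) (i : ℕ) (hi : i ≤ 14 * n) (k : ℕ),
    PB p ρ (padicNorm p ((i.factorial : ℕ) : ℚ)) (TS (-(k : ℚ)) (∏ l ∈ Finset.range i, (X + C (l : ℚ))))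

/-- the node weights -/
def D4f (p i : ℕ) : ℚ := padicNorm p ((i.factorial : ℕ) : ℚ)

lemma D4f_nonneg (p i : ℕ) [Fact p.Prime] : 0 ≤ D4f p i := padicNorm.nonneg _

/-- polynomials with consecutive zeros -/
def D4P (i : ℕ) : ℚ[X] := ∏ l ∈ Finset.range i, (X + C (l : ℚ))

lemma D4P_monic (i : ℕ) : (D4P i).Monic ∧ (D4P i).natDegree = i := by
  constructor
  · exact monic_prod_of_monic _ _ fun l _ => monic_X_add_C _
  · rw [D4P, natDegree_prod_of_monic _ _ fun l _ => monic_X_add_C _]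
    simp only [natDegree_X_add_C, Finset.sum_const, Finset.card_range, smul_eq_mul, mul_one]

lemma D4_aux {n p : ℕ} [Fact p.Prime] (q : ℕ) (α β : ℚ) (m : ℕ) (U V : ℚ) (hU : 0 ≤ U) (hV : 0 ≤ V)
    (ha : ∀ i j : ℕ, i < 2 * m → j < m →
      padicNorm p ((q : ℚ) * xa n α (PL n * (D4P i * D4P j))) ≤ U * (D4f p i * D4f p j))
    (hb : ∀ i j : ℕ, i < 2 * m → j < m →
      padicNorm p ((q : ℚ) * xb n β (PL n * (D4P i * D4P j))) ≤ V * (D4f p i * D4f p j)) :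
    padicNorm p ((q : ℚ) ^ (2 * m) * MD (AL n α) (BL n β) m) ≤
      (U * V) ^ m * ((∏ i ∈ Finset.range (2 * m), D4f p i) * ∏ i ∈ Finset.range m, D4f p i ^ 2) := by
  have hM := Pool.Agent.H574R2.D3.A1_MD_monic (AL n α) (BL n β) m D4P D4P D4P (fun i _ => D4P_monic i)
    (fun i _ => D4P_monic i) (fun i _ => D4P_monic i)
  have h1 : (q : ℚ) ^ (2 * m) * MD (AL n α) (BL n β) m =
      ((q : ℚ) • (Matrix.of fun i j : Fin (2 * m) =>
        if j.1 < m then AL n α (D4P i.1 * D4P j.1) else BL n β (D4P i.1 * D4P (j.1 - m)))).det := by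
    rw [Matrix.det_smul, Fintype.card_fin, hM]
  rw [h1]
  have h2 := Pool.Agent.H574R2.D3.A3_padic_det p (2 * m) ((q : ℚ) • (Matrix.of fun i j : Fin (2 * m) =>
        if j.1 < m then AL n α (D4P i.1 * D4P j.1) else BL n β (D4P i.1 * D4P (j.1 - m))))
    (fun i => D4f p i) (fun j => if j < m then U * D4f p j else V * D4f p (j - m))
    (fun i => D4f_nonneg p i)
    (fun j => by
      split_ifs
      · exact mul_nonneg hU (D4f_nonneg p _)
      · exact mul_nonneg hV (D4f_nonneg p _))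
    (by
      intro i j
      rw [Matrix.smul_apply, Matrix.of_apply, smul_eq_mul]
      by_cases hj : j.1 < m
      · simp only [hj, if_true]
        rw [AL_apply]
        refine (ha i j i.2 hj).trans (le_of_eq ?_)
        ring
      · simp only [hj, if_false]
        rw [BL_apply]
        refine (hb i (j - m) i.2 (by have := j.2; omega)).trans (le_of_eq ?_)
        ring)
  refine h2.trans (le_of_eq ?_)
  have h3 : ∏ j ∈ Finset.range (2 * m), (if j < m then U * D4f p j else V * D4f p (j - m)) =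
      (U * V) ^ m * ∏ i ∈ Finset.range m, D4f p i ^ 2 := by
    rw [show Finset.range (2 * m) = Finset.range (m + m) by rw [two_mul], Finset.prod_range_add]
    have h4 : ∏ x ∈ Finset.range m, (if x < m then U * D4f p x else V * D4f p (x - m)) =
        ∏ x ∈ Finset.range m, (U * D4f p x) := by
      apply Finset.prod_congr rfl
      intro x hx
      rw [Finset.mem_range] at hx
      rw [if_pos hx]
    have h5 : ∏ x ∈ Finset.range m, (if m + x < m then U * D4f p (m + x) else V * D4f p (m + x - m)) =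
        ∏ x ∈ Finset.range m, (V * D4f p x) := by
      apply Finset.prod_congr rfl
      intro x _
      rw [if_neg (by omega), Nat.add_sub_cancel_left]
    rw [h4, h5, Finset.prod_mul_distrib, Finset.prod_mul_distrib, Finset.prod_const, Finset.prod_const,
      Finset.card_range, Finset.prod_pow]
    ring
  rw [h3]
  ring

lemma D4_lin (p : ℕ) [Fact p.Prime] (z : ℤ) (a : ℚ) (ha : a = (z : ℚ)) :
    PB p 1 1 (PowerSeries.X + PowerSeries.C a) := by
  refine PB.linX zero_le_one zero_le_one ?_ (by norm_num)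
  rw [ha]
  exact padicNorm.of_int z

lemma D4_mul (p : ℕ) [Fact p.Prime] (f g : PowerSeries ℚ) (hf : PB p 1 1 f) (hg : PB p 1 1 g) :
    PB p 1 1 (f * g) := by
  have h := PB.mul (p := p) (ρ := 1) (A := 1) (B := 1) zero_le_one zero_le_one zero_le_one hf hg
  rwa [one_mul] at h

lemma D4P_int (p k i : ℕ) [Fact p.Prime] : PB p 1 1 (TS (-(k : ℚ)) (D4P i)) := by
  induction i with
  | zero =>
    have h : D4P 0 = 1 := by simp [D4P]
    rw [h, map_one]
    exact PB.one zero_le_one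
  | succ i ih =>
    have h : D4P (i + 1) = D4P i * (X + C (i : ℚ)) := by
      rw [D4P, Finset.prod_range_succ]
      rfl
    rw [h, map_mul]
    refine D4_mul p _ _ ih ?_
    rw [TS_lin]
    exact D4_lin p (-(k : ℤ) + i) _ (by push_cast; ring)

lemma D4E_int (p k i j : ℕ) [Fact p.Prime] : PB p 1 1 (TS (-(k : ℚ)) (D4P i * D4P j)) := by
  rw [map_mul]
  exact D4_mul p _ _ (D4P_int p k i) (D4P_int p k j)

/-- counting: a block of `N` consecutive integers has at least `⌊N/p⌋` elements in a class -/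
lemma D4_cnt_ge {p A B k N : ℕ} (hp : 0 < p) (h : B + 1 = A + N) : ((N / p : ℕ) : ℤ) ≤ cnt p A B k := by
  rw [cnt_eq p A B k hp (by omega)]
  have h1 := ediv_super ((A : ℤ) - 1 - k) (N : ℤ) p (by exact_mod_cast hp)
  have h2 : (A : ℤ) - 1 - k + N = (B : ℤ) - k := by omega
  rw [h2] at h1
  push_cast
  linarith

/-- counting: a block of `N` consecutive integers has at most `⌊N/p⌋ + 1` elements in a class -/
lemma D4_cnt_le {p A B k N : ℕ} (hp : 0 < p) (h : B + 1 = A + N) : (cnt p A B k : ℤ) ≤ ((N / p : ℕ) : ℤ) + 1 := by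
  rw [cnt_eq p A B k hp (by omega)]
  have hp' : (0 : ℤ) < p := by exact_mod_cast hp
  have h1 := ediv_sub1 ((A : ℤ) - 1 - k) (N : ℤ) p hp'
  have h2 : (A : ℤ) - 1 - k + N + 1 = ((B : ℤ) - k) + 1 := by omega
  rw [h2] at h1
  have h3 : ((B : ℤ) - k) / p ≤ (((B : ℤ) - k) + 1) / p := Int.ediv_le_ediv hp' (by omega)
  push_cast
  linarith

lemma D4_eL {n p : ℕ} (hp : 0 < p) (k : ℕ) : -eL n p k ≤ 3 := by
  have h1 := D4_cnt_ge (k := k) hp (show 2 * n + 1 = 1 + 2 * n by ring)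
  have h2 := D4_cnt_le (k := k) hp (show 12 * n + 1 = (2 * n + 1) + 10 * n by ring)
  have h3 := D4_cnt_le (k := k) hp (show 12 * n + 1 = (3 * n + 1) + 9 * n by ring)
  have h4 := D4_cnt_le (k := k) hp (show 12 * n + 1 = (4 * n + 1) + 8 * n by ring)
  unfold eL
  push_cast at h1 h2 h3 h4 ⊢
  linarith

theorem D4_small_med_St (S1 : D4St_C2xa) (S2 : D4St_C2xb) (S4 : D4St_C4)
    {n p : ℕ} [Fact p.Prime] (hn : 1 ≤ n) (hp2 : 14 * n < p ^ 2) (q : ℕ) (α β : ℚ)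
    (hα : QI q α) (hβ : QI q β) :
    padicNorm p ((q : ℚ) ^ (14 * n) * DD n α β) ≤
      ((p : ℚ) ^ 4) ^ (7 * n) * ((∏ i ∈ Finset.range (14 * n), padicNorm p ((i.factorial : ℕ) : ℚ)) *
        ∏ i ∈ Finset.range (7 * n), padicNorm p ((i.factorial : ℕ) : ℚ) ^ 2) := by
  have hp : p.Prime := Fact.out
  have hp1 : (1 : ℚ) ≤ p := by exact_mod_cast hp.one_lt.le
  have hp0 : (0 : ℚ) ≤ p := by linarith
  have hPB1 : ∀ i : ℕ, i ≤ 14 * n → ∀ k : ℕ, PB p (p : ℚ) (D4f p i) (TS (-(k : ℚ)) (D4P i)) := by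
    intro i hi k
    apply S4 (n := n) (p : ℚ) hp1 _ i hi k
    intro l hl1 hl2
    have h1 := norm_small (p := p) (a := (l : ℤ)) (by omega) (by
      rw [abs_of_nonneg (by positivity)]
      have h2 : l < p ^ 2 := by omega
      exact_mod_cast h2)
    rw [Int.cast_natCast] at h1
    rw [h1]
    split_ifs
    · rw [inv_inv]
    · rw [inv_one]; exact hp1
  have hPB : ∀ i j : ℕ, i < 2 * (7 * n) → j < 7 * n → ∀ k : ℕ,
      PB p (p : ℚ) (D4f p i * D4f p j) (TS (-(k : ℚ)) (D4P i * D4P j)) := by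
    intro i j hi hj k
    rw [map_mul]
    exact PB.mul hp0 (D4f_nonneg p i) (D4f_nonneg p j) (hPB1 i (by omega) k) (hPB1 j (by omega) k)
  have key := D4_aux (n := n) (p := p) q α β (7 * n) ((p : ℚ) ^ 3) (p : ℚ) (by positivity) hp0
    (by
      intro i j hi hj
      have hA : 0 ≤ D4f p i * D4f p j := mul_nonneg (D4f_nonneg p i) (D4f_nonneg p j)
      apply S1 hn (by omega) q α hα (D4P i * D4P j) _ (mul_nonneg (by positivity) hA)
        (fun _ => D4f p i * D4f p j) (fun _ => hA) (fun k _ => hPB i j hi hj k)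
        (fun k _ => D4E_int p k i j)
      intro k _
      left
      apply mul_le_mul_of_nonneg_right _ hA
      rw [← zpow_natCast (p : ℚ) 3]
      exact zpow_le_zpow_right₀ hp1 (D4_eL hp.pos k))
    (by
      intro i j hi hj
      have hA : 0 ≤ D4f p i * D4f p j := mul_nonneg (D4f_nonneg p i) (D4f_nonneg p j)
      apply S2 hn (by omega) q β hβ (D4P i * D4P j) _ (mul_nonneg (by positivity) hA)
        (fun _ => D4f p i * D4f p j) (fun _ => hA) (fun k _ => hPB i j hi hj k)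
        (fun k _ => D4E_int p k i j)
      intro k _
      left
      apply mul_le_mul_of_nonneg_right _ hA
      have h3 : (p : ℚ) ^ (-eL n p k - 2) ≤ (p : ℚ) ^ (1 : ℤ) := by
        apply zpow_le_zpow_right₀ hp1
        have := D4_eL (n := n) hp.pos k
        linarith
      rwa [zpow_one] at h3)
  rw [show 2 * (7 * n) = 14 * n by ring, show (p : ℚ) ^ 3 * p = (p : ℚ) ^ 4 by ring] at key
  exact key

theorem D4_small_crude_St (S3 : D4St_C3) (S4 : D4St_C4)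
    {n p : ℕ} [Fact p.Prime] (hn : 1 ≤ n) (q : ℕ) (α β : ℚ)
    (hα : QI q α) (hβ : QI q β) :
    padicNorm p ((q : ℚ) ^ (14 * n) * DD n α β) ≤
      (((14 * n + 1 : ℕ) : ℚ) ^ 40) ^ (14 * n) *
        ((∏ i ∈ Finset.range (14 * n), padicNorm p ((i.factorial : ℕ) : ℚ)) *
        ∏ i ∈ Finset.range (7 * n), padicNorm p ((i.factorial : ℕ) : ℚ) ^ 2) := by
  have hM0 : (0 : ℚ) ≤ ((14 * n + 1 : ℕ) : ℚ) := Nat.cast_nonneg _
  have hPB1 : ∀ i : ℕ, i ≤ 14 * n → ∀ k : ℕ,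
      PB p ((14 * n + 1 : ℕ) : ℚ) (D4f p i) (TS (-(k : ℚ)) (D4P i)) := by
    intro i hi k
    apply S4 (n := n) _ (by exact_mod_cast (by omega : 1 ≤ 14 * n + 1)) _ i hi k
    intro l hl1 hl2
    have h1 := norm_inv_le (p := p) (a := (l : ℤ)) (by omega) (M := ((14 * n + 1 : ℕ) : ℚ)) (by
      rw [Int.cast_natCast, abs_of_nonneg (by positivity)]
      exact_mod_cast (by omega : l ≤ 14 * n + 1))
    rw [Int.cast_natCast] at h1
    exact h1
  have hPB : ∀ i j : ℕ, i < 2 * (7 * n) → j < 7 * n → ∀ k : ℕ,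
      PB p ((14 * n + 1 : ℕ) : ℚ) (D4f p i * D4f p j) (TS (-(k : ℚ)) (D4P i * D4P j)) := by
    intro i j hi hj k
    rw [map_mul]
    exact PB.mul hM0 (D4f_nonneg p i) (D4f_nonneg p j) (hPB1 i (by omega) k) (hPB1 j (by omega) k)
  have key := D4_aux (n := n) (p := p) q α β (7 * n) (((14 * n + 1 : ℕ) : ℚ) ^ 40) (((14 * n + 1 : ℕ) : ℚ) ^ 40)
    (pow_nonneg hM0 _) (pow_nonneg hM0 _)
    (by
      intro i j hi hj
      exact (S3 hn q α hα (D4P i * D4P j) _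
        (mul_nonneg (D4f_nonneg p i) (D4f_nonneg p j)) (fun k _ => hPB i j hi hj k)).1)
    (by
      intro i j hi hj
      exact (S3 hn q β hβ (D4P i * D4P j) _
        (mul_nonneg (D4f_nonneg p i) (D4f_nonneg p j)) (fun k _ => hPB i j hi hj k)).2)
  have e1 : ∀ M : ℚ, (M * M) ^ (7 * n) = M ^ (14 * n) := by
    intro M
    rw [← pow_two, ← pow_mul]
    congr 1
    ring
  rw [show 2 * (7 * n) = 14 * n by ring, e1] at key
  exact key

theorem D4_small_med {n p : ℕ} [Fact p.Prime] (hn : 1 ≤ n) (hp2 : 14 * n < p ^ 2) (q : ℕ) (α β : ℚ)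
    (hα : QI q α) (hβ : QI q β) :
    padicNorm p ((q : ℚ) ^ (14 * n) * DD n α β) ≤
      ((p : ℚ) ^ 4) ^ (7 * n) * ((∏ i ∈ Finset.range (14 * n), padicNorm p ((i.factorial : ℕ) : ℚ)) *
        ∏ i ∈ Finset.range (7 * n), padicNorm p ((i.factorial : ℕ) : ℚ) ^ 2) :=
  D4_small_med_St (@C2_xa) (@C2_xb) (@C4_PB) hn hp2 q α β hα hβ

theorem D4_small_crude {n p : ℕ} [Fact p.Prime] (hn : 1 ≤ n) (q : ℕ) (α β : ℚ)
    (hα : QI q α) (hβ : QI q β) :
    padicNorm p ((q : ℚ) ^ (14 * n) * DD n α β) ≤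
      (((14 * n + 1 : ℕ) : ℚ) ^ 40) ^ (14 * n) *
        ((∏ i ∈ Finset.range (14 * n), padicNorm p ((i.factorial : ℕ) : ℚ)) *
        ∏ i ∈ Finset.range (7 * n), padicNorm p ((i.factorial : ℕ) : ℚ) ^ 2) :=
  D4_small_crude_St (@C3_crude) (@C4_PB) hn q α β hα hβ

end

end Pool.Agent.LZ
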