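import Pool.Agent.H337R2.Med
import Pool.Agent.H337R2.PsiCert3
import Pool.Agent.H574R2.D3.Defs

/-!
# `1, ζ(2), ζ(3)` are linearly independent over `ℚ`: definitions

`R(t) = (10n)! (9n)! (8n)! / (2n)! · ∏_{j=1}^{2n} (t+j) / (∏_{2n<k≤12n} (t+k) ∏_{3n<k≤12n} (t+k) ∏_{4n<k≤12n} (t+k))`.
If `ζ(3) = α + β ζ(2)` then `∑_{t≥0} R(t) Q(t) = AL(Q) + ζ(2) BL(Q)`; the determinant is
`DD n α β = det [ AL(X^(i+j)) | BL(X^(i+j)) ]` of size `14 n`.
-/

open Polynomial Pool.Agent.H337R2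

namespace Pool.Agent.LZ

noncomputable section

/-- mixed Hankel determinant of size `2m` -/
abbrev MD := Pool.Agent.H574R2.D3.MD

/-- `y(y+1)/2` for `y > 0` -/
abbrev TA := Pool.Agent.H574R2.D3.T1

/-- `⌊(y+1)²/3⌋` for `y > 0` -/
abbrev TB := Pool.Agent.H574R2.D3.T3

/-- the poles are at `-k`, `2n < k ≤ 12n` -/
abbrev sL (n : ℕ) : Finset ℕ := Finset.Icc (2 * n + 1) (12 * n)

/-- multiplicities of the poles -/
def mL (n k : ℕ) : ℕ := if k ≤ 3 * n then 1 else if k ≤ 4 * n then 2 else 3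

/-- `(10n)! (9n)! (8n)! / (2n)!` -/
def cL (n : ℕ) : ℚ := (((10 * n).factorial * (9 * n).factorial * (8 * n).factorial : ℕ) : ℚ) / ((2 * n).factorial : ℕ)

/-- numerator -/
def PL (n : ℕ) : ℚ[X] := C (cL n) * ∏ j ∈ Finset.Icc 1 (2 * n), (X + C (j : ℚ))

/-- coefficient of `ζ(i)` -/
def rho (n : ℕ) (P : ℚ[X]) (i : ℕ) : ℚ := ∑ k ∈ sL n, pa (sL n) (mL n) P k i

/-- the linear form with `ζ(2)` replaced by `0` and `ζ(3)` by `α` -/
def xa (n : ℕ) (α : ℚ) (P : ℚ[X]) : ℚ :=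
  rho n P 3 * α - ∑ i ∈ Finset.Icc 1 3, ∑ k ∈ sL n, pa (sL n) (mL n) P k i * hs i (k - 2 * n - 1)

/-- the coefficient of `ζ(2)` when `ζ(3) = α + β ζ(2)` -/
def xb (n : ℕ) (β : ℚ) (P : ℚ[X]) : ℚ := rho n P 2 + rho n P 3 * β

lemma pa_add (s : Finset ℕ) (μ : ℕ → ℕ) (P Q : ℚ[X]) (k i : ℕ) :
    pa s μ (P + Q) k i = pa s μ P k i + pa s μ Q k i :=
  Pool.Agent.H574R2.D3.pa_add s μ P Q k i

lemma pa_C_mul (s : Finset ℕ) (μ : ℕ → ℕ) (c : ℚ) (P : ℚ[X]) (k i : ℕ) :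
    pa s μ (C c * P) k i = c * pa s μ P k i :=
  Pool.Agent.H574R2.D3.pa_C_mul s μ c P k i

lemma rho_add (n : ℕ) (P Q : ℚ[X]) (i : ℕ) : rho n (P + Q) i = rho n P i + rho n Q i := by
  unfold rho
  rw [← Finset.sum_add_distrib]
  exact Finset.sum_congr rfl fun k _ => pa_add _ _ _ _ _ _

lemma rho_C_mul (n : ℕ) (c : ℚ) (P : ℚ[X]) (i : ℕ) : rho n (C c * P) i = c * rho n P i := by
  unfold rho
  rw [Finset.mul_sum]
  exact Finset.sum_congr rfl fun k _ => pa_C_mul _ _ _ _ _ _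

lemma xa_add (n : ℕ) (α : ℚ) (P Q : ℚ[X]) : xa n α (P + Q) = xa n α P + xa n α Q := by
  unfold xa
  have h : ∑ i ∈ Finset.Icc 1 3, ∑ k ∈ sL n, pa (sL n) (mL n) (P + Q) k i * hs i (k - 2 * n - 1) =
      ∑ i ∈ Finset.Icc 1 3, ∑ k ∈ sL n, pa (sL n) (mL n) P k i * hs i (k - 2 * n - 1) +
      ∑ i ∈ Finset.Icc 1 3, ∑ k ∈ sL n, pa (sL n) (mL n) Q k i * hs i (k - 2 * n - 1) := by
    rw [← Finset.sum_add_distrib]
    apply Finset.sum_congr rfl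
    intro i _
    rw [← Finset.sum_add_distrib]
    exact Finset.sum_congr rfl fun k _ => by rw [pa_add]; ring
  rw [h, rho_add]
  ring

lemma xa_C_mul (n : ℕ) (α : ℚ) (c : ℚ) (P : ℚ[X]) : xa n α (C c * P) = c * xa n α P := by
  unfold xa
  have h : ∑ i ∈ Finset.Icc 1 3, ∑ k ∈ sL n, pa (sL n) (mL n) (C c * P) k i * hs i (k - 2 * n - 1) =
      c * ∑ i ∈ Finset.Icc 1 3, ∑ k ∈ sL n, pa (sL n) (mL n) P k i * hs i (k - 2 * n - 1) := by
    rw [Finset.mul_sum]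
    apply Finset.sum_congr rfl
    intro i _
    rw [Finset.mul_sum]
    exact Finset.sum_congr rfl fun k _ => by rw [pa_C_mul]; ring
  rw [h, rho_C_mul]
  ring

lemma xb_add (n : ℕ) (β : ℚ) (P Q : ℚ[X]) : xb n β (P + Q) = xb n β P + xb n β Q := by
  unfold xb
  rw [rho_add, rho_add]; ring

lemma xb_C_mul (n : ℕ) (β : ℚ) (c : ℚ) (P : ℚ[X]) : xb n β (C c * P) = c * xb n β P := by
  unfold xb
  rw [rho_C_mul, rho_C_mul]; ring

/-- the functional `A` -/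
def AL (n : ℕ) (α : ℚ) : ℚ[X] →ₗ[ℚ] ℚ where
  toFun Q := xa n α (PL n * Q)
  map_add' P Q := by rw [mul_add, xa_add]
  map_smul' c P := by
    rw [RingHom.id_apply, Polynomial.smul_eq_C_mul, mul_left_comm, xa_C_mul, smul_eq_mul]

/-- the functional `B` -/
def BL (n : ℕ) (β : ℚ) : ℚ[X] →ₗ[ℚ] ℚ where
  toFun Q := xb n β (PL n * Q)
  map_add' P Q := by rw [mul_add, xb_add]
  map_smul' c P := by
    rw [RingHom.id_apply, Polynomial.smul_eq_C_mul, mul_left_comm, xb_C_mul, smul_eq_mul]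

lemma AL_apply (n : ℕ) (α : ℚ) (Q : ℚ[X]) : AL n α Q = xa n α (PL n * Q) := rfl

lemma BL_apply (n : ℕ) (β : ℚ) (Q : ℚ[X]) : BL n β Q = xb n β (PL n * Q) := rfl

/-- the determinant, of size `14n` -/
def DD (n : ℕ) (α β : ℚ) : ℚ := MD (AL n α) (BL n β) (7 * n)

/-- `q` is a denominator of `u` -/
def QI (q : ℕ) (u : ℚ) : Prop := 0 < q ∧ ∃ z : ℤ, (q : ℚ) * u = z

/-- the exponent `e_p(k)`: valuation of the constant, plus zeros, minus poles in the class of `k` -/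
def eL (n p k : ℕ) : ℤ :=
  ((10 * n / p : ℕ) : ℤ) + ((9 * n / p : ℕ) : ℤ) + ((8 * n / p : ℕ) : ℤ) - ((2 * n / p : ℕ) : ℤ)
    + cnt p 1 (2 * n) k - cnt p (2 * n + 1) (12 * n) k - cnt p (3 * n + 1) (12 * n) k - cnt p (4 * n + 1) (12 * n) k

/-! ### Cells -/

/-- a cell `u0/v0 < p/n ≤ u1/v1`; `full`: all classes are charged; levels `lN`, `ly`; `od`: the thresholds
`2, 3, 4, 12` in increasing order of the residues `a n mod p` -/
structure Cell where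
  u0 : ℕ
  v0 : ℕ
  u1 : ℕ
  v1 : ℕ
  full : Bool
  lN : ℤ
  ly : ℤ
  od : List ℕ

/-- `⌊a n / p⌋` in the cell -/
def Cell.fl (c : Cell) (a : ℕ) : ℕ := a * c.v1 / c.u1

/-- weight of a threshold in `e` -/
def wtE : ℕ → ℤ
  | 2 => 2
  | 3 => 1
  | 4 => 1
  | 12 => -3
  | _ => 0

/-- weight of a threshold in the number of pole sites -/
def wtS : ℕ → ℤ
  | 2 => -1
  | 12 => 1
  | _ => 0

/-- cost of a class with exponent `e` and `s` pole sites -/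
def Cell.cost (c : Cell) (e s : ℤ) : ℤ :=
  if c.full then TB (c.lN - e)
  else if 2 ≤ s then
    ((List.range 12).map fun d : ℕ => TA (d : ℤ) + TA (c.lN - e - d) + TA (c.ly - e - 2 - d)).foldl min 1000000
  else 0

/-- base exponent -/
def Cell.e0 (c : Cell) : ℤ :=
  (c.fl 10 : ℤ) + c.fl 9 + c.fl 8 - c.fl 2 + 2 * c.fl 2 + c.fl 3 + c.fl 4 - 3 * c.fl 12

/-- the cost of the classes: pair `(A, B)` meaning `A n + B p`. `a`: last threshold passed (`0` at the start),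
`e, s`: exponent and number of sites on the next interval -/
def Cell.go (c : Cell) : ℕ → ℤ → ℤ → List ℕ → ℤ × ℤ
  | a, e, s, [] => (- (a : ℤ) * c.cost e s, (1 + (c.fl a : ℤ)) * c.cost e s)
  | a, e, s, b :: l =>
    let r := c.go b (e - wtE b) (s - wtS b) l
    (r.1 + ((b : ℤ) - a) * c.cost e s, r.2 - ((c.fl b : ℤ) - c.fl a) * c.cost e s)

/-- number of sites when all indicators are `1` is `fl 12 - fl 2 + 0`; `e` when all are `1` is `e0 + 1` -/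
def Cell.AB (c : Cell) : ℤ × ℤ :=
  let r := c.go 0 (c.e0 + 1) ((c.fl 12 : ℤ) - c.fl 2) c.od
  (r.1 - 7 * (c.lN + c.ly), r.2)

/-- the factorial part -/
def Cell.sf (c : Cell) : ℤ × ℤ :=
  (14 * (c.fl 14 : ℤ) + 14 * c.fl 7, - ((c.fl 14 : ℤ) * (c.fl 14 + 1) / 2 + (c.fl 7 : ℤ) * (c.fl 7 + 1)))

/-- validity of a cell -/
def Cell.ok (c : Cell) : Bool :=
  decide (0 < c.u0) && decide (0 < c.v0) && decide (0 < c.u1) && decide (0 < c.v1) &&
  decide (c.u0 * c.v1 < c.u1 * c.v0) &&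
  ([2, 3, 4, 12, 10, 9, 8, 7, 14].all fun a => decide (a * c.v0 ≤ (c.fl a + 1) * c.u0)) &&
  (c.od.isPerm [2, 3, 4, 12]) &&
  ((List.zip c.od (c.od.drop 1)).all fun x =>
    decide (0 ≤ ((x.2 : ℤ) - x.1) * c.v0 - ((c.fl x.2 : ℤ) - c.fl x.1) * c.u0) &&
    decide (0 ≤ ((x.2 : ℤ) - x.1) * c.v1 - ((c.fl x.2 : ℤ) - c.fl x.1) * c.u1)) &&
  (if c.full then decide (c.ly = c.lN + 2)
   else decide (c.lN ≤ (c.fl 10 : ℤ) + c.fl 9 + c.fl 8 - c.fl 2) &&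
    decide (c.ly ≤ (c.fl 10 : ℤ) + c.fl 9 + c.fl 8 - c.fl 2))

/-- primes in `(lo n, hi n]` -/
def PR (lo hi : ℚ) (n : ℕ) : Finset ℕ := by
  classical exact (Finset.range (15 * n)).filter (fun p : ℕ => p.Prime ∧ lo * (n : ℚ) < p ∧ (p : ℚ) ≤ hi * n)

/-! ### Nodes -/

/-- start of the brick `g` (in the coordinate `u = 10 t`, divided by `n`) -/
def bb : ℕ → ℤ
  | 0 => 0
  | 1 => 10
  | 2 => 20
  | 3 => 37
  | 4 => 72
  | 5 => 142
  | 6 => 312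
  | 7 => -116
  | 8 => -104
  | 9 => -95
  | 10 => -85
  | 11 => -76
  | 12 => -66
  | 13 => -56
  | _ => 0

/-- step of the brick `g` -/
def cc : ℕ → ℕ
  | 0 => 10
  | 1 => 10
  | 2 => 17
  | 3 => 35
  | 4 => 70
  | 5 => 170
  | 6 => 660
  | 7 => 12
  | 8 => 9
  | 9 => 10
  | 10 => 9
  | 11 => 10
  | 12 => 10
  | 13 => 13
  | _ => 1

/-- the nodes (times 10); `i < 14 n`, the first `7n` are for the zeta part -/
def nd (n i : ℕ) : ℤ := bb (i / n) * n + cc (i / n) * ((i % n : ℕ) : ℤ)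

/-- the nodes -/
def zq (n i : ℕ) : ℚ := (nd n i : ℚ) / 10

/-- `∏_{j ∈ s, j ≠ i} (X - z_j)` -/
def lag (s : Finset ℕ) (z : ℕ → ℚ) (i : ℕ) : ℚ[X] := ∏ j ∈ s.erase i, (X - C (z j))

/-- `∏_{i, j ∈ s, i ≠ j} |z_i - z_j|` -/
def VD (s : Finset ℕ) (z : ℕ → ℚ) : ℝ := ∏ i ∈ s, ∏ j ∈ s.erase i, |((z i - z j : ℚ) : ℝ)|

/-- the value `R(t)` -/
def Wt (n t : ℕ) : ℝ :=
  ((10 * n).factorial * (9 * n).factorial * (8 * n).factorial / (2 * n).factorial : ℝ) *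
    ((t + 2 * n).factorial / t.factorial) *
    ((t + 2 * n).factorial * (t + 3 * n).factorial * (t + 4 * n).factorial / ((t + 12 * n).factorial : ℝ) ^ 3)

/-- punctured log-product over the nodes with index in `s`, at the point `u` (coordinate `10 t`) -/
def Lp (n : ℕ) (s : Finset ℕ) (u : ℤ) : ℝ := ∑ i ∈ s, Real.log (((u - nd n i : ℤ) : ℝ) / 10)

/-- potential of the brick `g` -/
def Ub (g : ℕ) (w : ℝ) : ℝ := (Psi (w - bb g) - Psi (w - bb g - cc g)) / cc g - Real.log 10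

/-- `log R(t) = n φ(10 t / n) + O(log n)` -/
def phi (w : ℝ) : ℝ :=
  (2 * Psi (w + 20) - Psi w + Psi (w + 30) + Psi (w + 40) - 3 * Psi (w + 120)) / 10 +
    35 * Real.log 10 + 18 * Real.log 3 + 22 * Real.log 2 - 25

/-- total potentials -/
def FN (w : ℝ) : ℝ := phi w + 2 * ∑ g ∈ Finset.range 7, Ub g w + ∑ g ∈ Finset.Ico 7 14, Ub g w

def FY (w : ℝ) : ℝ := phi w + ∑ g ∈ Finset.range 7, Ub g w + 2 * ∑ g ∈ Finset.Ico 7 14, Ub g w

/-- antiderivative of `Ψ` -/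
def GG (z : ℝ) : ℝ := z ^ 2 / 2 * Real.log z - 3 / 4 * z ^ 2

/-- mutual energy of two bricks -/
def en (g h : ℕ) : ℝ :=
  (GG (bb g + cc g - bb h) - GG (bb g + cc g - bb h - cc h) - GG (bb g - bb h) + GG (bb g - bb h - cc h)) /
    (cc g * cc h) - Real.log 10

/-- `∫_0^20 φ / 10` -/
def iphi : ℝ :=
  ((2 * (GG 40 - GG 20) - GG 20 + (GG 50 - GG 30) + (GG 60 - GG 40) - 3 * (GG 140 - GG 120)) / 10 +
    20 * (35 * Real.log 10 + 18 * Real.log 3 + 22 * Real.log 2 - 25)) / 10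

/-- saturated part of the energy -/
def eS : ℝ := iphi + ∑ g ∈ Finset.range 2, ∑ h ∈ Finset.range 2, en g h

/-- energy of the other nodes -/
def eN : ℝ := ∑ g ∈ Finset.Ico 2 7, ∑ h ∈ Finset.Ico 2 7, en g h + ∑ g ∈ Finset.Ico 2 7, ∑ h ∈ Finset.Ico 7 14, en g h +
  ∑ g ∈ Finset.Ico 7 14, ∑ h ∈ Finset.Ico 7 14, en g h

/-! ### Local objects for the non-vanishing at `n = p` -/

/-- local multiplicities: sites `j = 2, …, 11` -/
def ml (j : ℕ) : ℕ := if j ≤ 2 then 1 else if j ≤ 3 then 2 else 3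

/-- local power series at the pole `j` -/
def ser (j e : ℕ) : PowerSeries ℚ :=
  (PowerSeries.X + PowerSeries.C (-(j : ℚ))) * (PowerSeries.X + PowerSeries.C (1 - (j : ℚ))) *
  (∏ b ∈ (Finset.Icc 2 11).erase j, iv ((b : ℚ) - j) ^ ml b) * (PowerSeries.X + PowerSeries.C (-(j : ℚ))) ^ e

/-- local functional `A` on monomials -/
def Fm (e : ℕ) : ℚ :=
  - ∑ j ∈ Finset.Icc 2 11, ∑ i ∈ Finset.Icc 1 (ml j), PowerSeries.coeff (ml j - i) (ser j e) * hs i (j - 2)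

/-- local functional `B` on monomials -/
def Bm (e : ℕ) : ℚ := ∑ j ∈ Finset.Icc 3 11, PowerSeries.coeff (ml j - 2) (ser j e)

/-- the other classes, with multiplicity `c` -/
def OT (p r c : ℕ) : ℚ[X] := ∏ r' ∈ (Finset.Icc 1 p).erase r, (X + C (r' : ℚ)) ^ c

end

end Pool.Agent.LZ
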