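import Pool.Agent.H337R2.LZ.Defs

/-! E1: floors in a cell, counting in a class (helper972). -/

open Polynomial Pool.Agent.H337R2 Filter Topology

namespace Pool.Agent.LZ

/-- floors in a cell -/
theorem E1_fl {c : Cell} (hc : c.ok = true) {n p : ℕ} (hp : 0 < p) (h0 : c.u0 * n < p * c.v0)
    (h1 : p * c.v1 ≤ c.u1 * n) {a : ℕ} (ha : a ∈ [2, 3, 4, 12, 10, 9, 8, 7, 14]) :
    a * n / p = c.fl a := by
  unfold Cell.ok at hc
  simp only [Bool.and_eq_true, decide_eq_true_eq] at hc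
  obtain ⟨⟨⟨⟨⟨⟨⟨⟨k1, k2⟩, k3⟩, k4⟩, k5⟩, k6⟩, k7⟩, k8⟩, k9⟩ := hc
  rw [List.all_eq_true] at k6
  have k10 := k6 a ha
  rw [decide_eq_true_eq] at k10
  apply Nat.div_eq_of_lt_le
  · -- fl a * p ≤ a * n
    have e1 : c.fl a * c.u1 ≤ a * c.v1 := Nat.div_mul_le_self _ _
    have e2 : (c.fl a * p) * c.u1 ≤ (a * n) * c.u1 := by
      calc (c.fl a * p) * c.u1 = (c.fl a * c.u1) * p := by ring
        _ ≤ (a * c.v1) * p := Nat.mul_le_mul_right _ e1
        _ = a * (p * c.v1) := by ring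
        _ ≤ a * (c.u1 * n) := Nat.mul_le_mul_left _ h1
        _ = (a * n) * c.u1 := by ring
    exact Nat.le_of_mul_le_mul_right e2 k3
  · have e2 : (a * n) * c.v0 < ((c.fl a + 1) * p) * c.v0 := by
      calc (a * n) * c.v0 = (a * c.v0) * n := by ring
        _ ≤ ((c.fl a + 1) * c.u0) * n := Nat.mul_le_mul_right _ k10
        _ = (c.fl a + 1) * (c.u0 * n) := by ring
        _ < (c.fl a + 1) * (p * c.v0) := Nat.mul_lt_mul_of_pos_left h0 (Nat.succ_pos _)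
        _ = ((c.fl a + 1) * p) * c.v0 := by ring
    exact Nat.lt_of_mul_lt_mul_right e2

theorem E1_aux {p N r : ℕ} (hp : 0 < p) (hr : r < p) :
    ((N : ℤ) - r) / p = ((N / p : ℕ) : ℤ) - 1 + (if r ≤ N % p then 1 else 0) := by
  have hp' : (0 : ℤ) < p := by exact_mod_cast hp
  have e1 : (N : ℤ) = ((N % p : ℕ) : ℤ) + p * ((N / p : ℕ) : ℤ) := by
    exact_mod_cast (Nat.mod_add_div N p).symm
  have e2 : N % p < p := Nat.mod_lt _ hp
  have e3 : (N : ℤ) - r = (((N % p : ℕ) : ℤ) - r) + p * ((N / p : ℕ) : ℤ) := by linarith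
  rw [e3, Int.add_mul_ediv_left _ _ hp'.ne']
  split_ifs with h
  · rw [Int.ediv_eq_zero_of_lt (by omega) (by omega)]
    ring
  · have e4 : ((N % p : ℕ) : ℤ) - r = (((N % p : ℕ) : ℤ) - r + p) + p * (-1) := by ring
    rw [e4, Int.add_mul_ediv_left _ _ hp'.ne', Int.ediv_eq_zero_of_lt (by omega) (by omega)]
    ring

/-- `cnt` of `(a n, b n]` for the class `r` -/
theorem E1_cnt {n p a b r : ℕ} (hp : 0 < p) (hab : a ≤ b) (hr : r < p) :
    (cnt p (a * n + 1) (b * n) r : ℤ) = ((b * n / p : ℕ) : ℤ) - ((a * n / p : ℕ) : ℤ) +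
      (if r ≤ b * n % p then 1 else 0) - (if r ≤ a * n % p then 1 else 0) := by
  have h1 : a * n ≤ b * n := Nat.mul_le_mul_right _ hab
  rw [cnt_eq p (a * n + 1) (b * n) r hp (by omega)]
  have h2 : ((a * n + 1 : ℕ) : ℤ) - 1 - r = ((a * n : ℕ) : ℤ) - r := by push_cast; ring
  rw [h2, E1_aux hp hr, E1_aux hp hr]
  ring

end Pool.Agent.LZ
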