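import Pool.Agent.H337R2.LZ.Defs
import Pool.Agent.H337R2.LZ.Cells
import Pool.Agent.H337R2.Count
import Pool.Agent.H574R2.D3.D1

/-!
# Task E4: the p-adic size of the determinant in a cell
-/

open Polynomial Pool.Agent.H337R2

namespace Pool.Agent.LZ

/-- statement of D3_det -/
def D3_detSt : Prop := ∀ {n p : ℕ} [Fact p.Prime] (_hn : 1 ≤ n) (_hp2 : 12 * n < p ^ 2) (q : ℕ) (α β : ℚ)
    (_hα : QI q α) (_hβ : QI q β) (m : ℕ) (aN ay : ℤ) (g : ℕ → ℤ) (S : Finset ℕ) (_hS : S ⊆ Finset.range p)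
    (_h : ∀ k ∈ sL n, k % p ∈ S ∨
      (padicNorm p (cL n) ≤ (p : ℚ) ^ aN ∧ padicNorm p (cL n) ≤ (p : ℚ) ^ ay ∧
        ∀ k' ∈ sL n, k' ≠ k → ¬ (p : ℤ) ∣ (k' : ℤ) - k)),
    padicNorm p ((q : ℚ) ^ (2 * m) * MD (AL n α) (BL n β) m) ≤
      (p : ℚ) ^ ((m : ℤ) * (aN + ay) + ∑ κ ∈ S, (TA (g κ) + TA (-eL n p κ - g κ - aN) +
        TA (-eL n p κ - 2 - g κ - ay)))

/-- statement of E1_fl -/
def E1_flSt : Prop := ∀ {c : Cell} (_hc : c.ok = true) {n p : ℕ} (_hp : 0 < p) (_h0 : c.u0 * n < p * c.v0)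
    (_h1 : p * c.v1 ≤ c.u1 * n) {a : ℕ} (_ha : a ∈ [2, 3, 4, 12, 10, 9, 8, 7, 14]), a * n / p = c.fl a

/-- statement of E1_cnt -/
def E1_cntSt : Prop := ∀ {n p a b r : ℕ} (_hp : 0 < p) (_hab : a ≤ b) (_hr : r < p),
    (cnt p (a * n + 1) (b * n) r : ℤ) = ((b * n / p : ℕ) : ℤ) - ((a * n / p : ℕ) : ℤ) +
      (if r ≤ b * n % p then 1 else 0) - (if r ≤ a * n % p then 1 else 0)

/-- statement of E2_sum -/
def E2_sumSt : Prop := ∀ {c : Cell} (_hc : c.ok = true) {n p : ℕ} (_hn : 1 ≤ n) (_hp : p.Prime)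
    (_h0 : c.u0 * n < p * c.v0)
    (_h1 : p * c.v1 ≤ c.u1 * n) (f : ℕ → ℤ) (K : ℤ) (_hK : 0 ≤ K) (_hf0 : f 0 ≤ K)
    (_hf : ∀ r, 1 ≤ r → r < p → f r ≤
      c.cost (eL n p r) ((cnt p (2 * n + 1) (12 * n) r : ℕ) : ℤ)),
    ∑ r ∈ Finset.range p, f r ≤ (c.AB.1 + 7 * (c.lN + c.ly)) * n + c.AB.2 * p + K

namespace E4aux

theorem foldl_min_mem (l : List ℤ) : ∀ M : ℤ, l.foldl min M = M ∨ l.foldl min M ∈ l := by
  induction l with
  | nil => intro M; exact Or.inl rfl
  | cons a l ih =>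
    intro M
    rw [List.foldl_cons]
    rcases ih (min M a) with h | h
    · rw [h]
      rcases min_choice M a with h' | h'
      · exact Or.inl h'
      · rw [h']; exact Or.inr List.mem_cons_self
    · exact Or.inr (List.mem_cons_of_mem _ h)

theorem TA_nonneg (y : ℤ) : 0 ≤ TA y := by
  show 0 ≤ Pool.Agent.H574R2.D3.T1 y
  unfold Pool.Agent.H574R2.D3.T1
  split_ifs with h
  · positivity
  · exact le_rfl

theorem TB_nonneg (y : ℤ) : 0 ≤ TB y := by
  show 0 ≤ Pool.Agent.H574R2.D3.T3 y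
  unfold Pool.Agent.H574R2.D3.T3
  split_ifs with h
  · positivity
  · exact le_rfl

theorem TA_le {y : ℤ} (h : y ≤ 40) : TA y ≤ 820 := by
  show Pool.Agent.H574R2.D3.T1 y ≤ 820
  unfold Pool.Agent.H574R2.D3.T1
  split_ifs with h0
  · have : y * (y + 1) ≤ 1640 := by nlinarith
    omega
  · norm_num

/-- the cost for the shift `d` -/
def Fd (c : Cell) (e d : ℤ) : ℤ := TA d + TA (c.lN - e - d) + TA (c.ly - e - 2 - d)

theorem Fd_nonneg (c : Cell) (e d : ℤ) : 0 ≤ Fd c e d :=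
  add_nonneg (add_nonneg (TA_nonneg _) (TA_nonneg _)) (TA_nonneg _)

theorem cL_norm {n p : ℕ} [Fact p.Prime] (hp2 : 12 * n < p ^ 2) : padicNorm p (cL n) =
    (p : ℚ) ^ (-(((10 * n / p : ℕ) : ℤ) + ((9 * n / p : ℕ) : ℤ) + ((8 * n / p : ℕ) : ℤ) -
      ((2 * n / p : ℕ) : ℤ))) := by
  have hp0 : (p : ℚ) ≠ 0 := by exact_mod_cast (Fact.out : p.Prime).ne_zero
  unfold cL
  rw [padicNorm.div]
  push_cast
  rw [padicNorm.mul, padicNorm.mul, norm_factorial (N := 10 * n) (by omega),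
    norm_factorial (N := 9 * n) (by omega), norm_factorial (N := 8 * n) (by omega),
    norm_factorial (N := 2 * n) (by omega), div_eq_mul_inv, ← zpow_neg, ← zpow_add₀ hp0,
    ← zpow_add₀ hp0, ← zpow_add₀ hp0]
  congr 1
  push_cast
  ring

end E4aux

open E4aux

/-- class `0` -/
theorem E4_eL0 (hE1f : E1_flSt) (hE1c : E1_cntSt) {c : Cell} (hc : c.ok = true) {n p : ℕ} (hp : 0 < p)
    (h0 : c.u0 * n < p * c.v0) (h1 : p * c.v1 ≤ c.u1 * n) : eL n p 0 = c.e0 := by
  have f2 := hE1f hc hp h0 h1 (a := 2) (by decide)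
  have f3 := hE1f hc hp h0 h1 (a := 3) (by decide)
  have f4 := hE1f hc hp h0 h1 (a := 4) (by decide)
  have f12 := hE1f hc hp h0 h1 (a := 12) (by decide)
  have f10 := hE1f hc hp h0 h1 (a := 10) (by decide)
  have f9 := hE1f hc hp h0 h1 (a := 9) (by decide)
  have f8 := hE1f hc hp h0 h1 (a := 8) (by decide)
  have c1 := hE1c (n := n) (p := p) (a := 0) (b := 2) (r := 0) hp (by omega) hp
  have c2 := hE1c (n := n) (p := p) (a := 2) (b := 12) (r := 0) hp (by omega) hp
  have c3 := hE1c (n := n) (p := p) (a := 3) (b := 12) (r := 0) hp (by omega) hp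
  have c4 := hE1c (n := n) (p := p) (a := 4) (b := 12) (r := 0) hp (by omega) hp
  simp only [Nat.zero_le, if_true, zero_mul, Nat.zero_div, zero_add] at c1 c2 c3 c4
  unfold eL Cell.e0
  rw [c1, c2, c3, c4, f2, f3, f4, f12, f10, f9, f8]
  push_cast
  ring

/-- bound of the exponent from below for `n < p` -/
theorem E4_low (hE1c : E1_cntSt) {n p r : ℕ} (hnp : n < p) (hr : r < p) :
    ((10 * n / p : ℕ) : ℤ) + ((9 * n / p : ℕ) : ℤ) + ((8 * n / p : ℕ) : ℤ) - ((2 * n / p : ℕ) : ℤ)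
      - 36 ≤ eL n p r := by
  have hp : 0 < p := by omega
  have c2 := hE1c (n := n) (p := p) (a := 2) (b := 12) (r := r) hp (by omega) hr
  have c3 := hE1c (n := n) (p := p) (a := 3) (b := 12) (r := r) hp (by omega) hr
  have c4 := hE1c (n := n) (p := p) (a := 4) (b := 12) (r := r) hp (by omega) hr
  have h12 : 12 * n / p ≤ 11 := by
    rw [← Nat.lt_succ_iff, Nat.div_lt_iff_lt_mul hp]
    omega
  have k12 : ((12 * n / p : ℕ) : ℤ) ≤ 11 := by exact_mod_cast h12
  have k2 : (0 : ℤ) ≤ ((2 * n / p : ℕ) : ℤ) := Int.natCast_nonneg _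
  have k3 : (0 : ℤ) ≤ ((3 * n / p : ℕ) : ℤ) := Int.natCast_nonneg _
  have k4 : (0 : ℤ) ≤ ((4 * n / p : ℕ) : ℤ) := Int.natCast_nonneg _
  have g1 : (0 : ℤ) ≤ (cnt p 1 (2 * n) r : ℤ) := Int.natCast_nonneg _
  have i1 : (if r ≤ 12 * n % p then (1 : ℤ) else 0) ≤ 1 := by split_ifs <;> norm_num
  have i2 : (0 : ℤ) ≤ (if r ≤ 2 * n % p then (1 : ℤ) else 0) := by split_ifs <;> norm_num
  have i3 : (0 : ℤ) ≤ (if r ≤ 3 * n % p then (1 : ℤ) else 0) := by split_ifs <;> norm_num
  have i4 : (0 : ℤ) ≤ (if r ≤ 4 * n % p then (1 : ℤ) else 0) := by split_ifs <;> norm_num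
  unfold eL
  linarith

/-- from the integer exponent to the real statement -/
theorem E4_fin {c : Cell} {n p q : ℕ} {α β : ℚ} (hp : p.Prime) {z K : ℤ}
    (h : padicNorm p ((q : ℚ) ^ (2 * (7 * n)) * MD (AL n α) (BL n β) (7 * n)) ≤ (p : ℚ) ^ z)
    (hz : z ≤ c.AB.1 * n + c.AB.2 * p + K) :
    ((padicNorm p ((q : ℚ) ^ (14 * n) * DD n α β) : ℚ) : ℝ) ≤
      (p : ℝ) ^ ((c.AB.1 : ℝ) * n + c.AB.2 * p + K) := by
  have e : 2 * (7 * n) = 14 * n := by ring
  rw [e] at h
  have h1 : ((padicNorm p ((q : ℚ) ^ (14 * n) * DD n α β) : ℚ) : ℝ) ≤ (((p : ℚ) ^ z : ℚ) : ℝ) := by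
    exact_mod_cast h
  refine h1.trans ?_
  rw [Rat.cast_zpow, Rat.cast_natCast, ← Real.rpow_intCast]
  refine Real.rpow_le_rpow_of_exponent_le (by exact_mod_cast hp.one_lt.le) ?_
  exact_mod_cast hz

/-- the cell estimate -/
theorem E4_cell' (hD3 : D3_detSt) (hE1f : E1_flSt) (hE1c : E1_cntSt) (hE2 : E2_sumSt)
    (c : Cell) (hc : c.ok = true) (hx : c.full = true ∨ c.v0 ≤ c.u0) : ∃ K0 : ℝ, ∀ n : ℕ, 1 ≤ n →
    ∀ p : ℕ, p.Prime → 12 * n < p ^ 2 →
    c.u0 * n < p * c.v0 → p * c.v1 ≤ c.u1 * n → ∀ (q : ℕ) (α β : ℚ), QI q α → QI q β →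
    ((padicNorm p ((q : ℚ) ^ (14 * n) * DD n α β) : ℚ) : ℝ) ≤
      (p : ℝ) ^ ((c.AB.1 : ℝ) * n + c.AB.2 * p + K0) := by
  classical
  by_cases hfull : c.full = true
  · -- all classes charged
    refine ⟨((TB (c.lN - c.e0) : ℤ) : ℝ), ?_⟩
    intro n hn p hp hp2 h0 h1 q α β hα hβ
    have : Fact p.Prime := ⟨hp⟩
    choose g hg using fun y => Pool.Agent.H574R2.D3.D1_split y
    have hly : c.ly = c.lN + 2 := by
      have hc' := hc
      unfold Cell.ok at hc'
      simp only [hfull, if_true, Bool.and_eq_true, decide_eq_true_eq] at hc'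
      exact hc'.2
    have hd := hD3 hn hp2 q α β hα hβ (7 * n) (-c.lN) (-c.ly)
      (fun κ => g (c.lN - eL n p κ)) (Finset.range p) (Finset.Subset.refl _)
      (fun k _ => Or.inl (Finset.mem_range.2 (Nat.mod_lt _ hp.pos)))
    refine E4_fin hp hd ?_
    have hs := hE2 hc hn hp h0 h1 (fun κ => TA (g (c.lN - eL n p κ)) +
        TA (-eL n p κ - g (c.lN - eL n p κ) - -c.lN) +
        TA (-eL n p κ - 2 - g (c.lN - eL n p κ) - -c.ly)) (TB (c.lN - c.e0)) (TB_nonneg _)
    have hf : ∀ r, TA (g (c.lN - eL n p r)) +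
        TA (-eL n p r - g (c.lN - eL n p r) - -c.lN) +
        TA (-eL n p r - 2 - g (c.lN - eL n p r) - -c.ly) ≤ TB (c.lN - eL n p r) := by
      intro r
      have h2 := hg (c.lN - eL n p r)
      have e1 : -eL n p r - g (c.lN - eL n p r) - -c.lN =
          c.lN - eL n p r - g (c.lN - eL n p r) := by ring
      have e2 : -eL n p r - 2 - g (c.lN - eL n p r) - -c.ly =
          c.lN - eL n p r - g (c.lN - eL n p r) := by rw [hly]; ring
      rw [e1, e2]
      have h3 : TA (g (c.lN - eL n p r)) + 2 * TA (c.lN - eL n p r - g (c.lN - eL n p r)) ≤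
          TB (c.lN - eL n p r) := h2
      linarith
    have hs' := hs (by
        have h2 := hf 0
        rw [E4_eL0 hE1f hE1c hc hp.pos h0 h1] at h2 ⊢
        exact h2)
      (by
        intro r _ _
        have hcost : c.cost (eL n p r) ((cnt p (2 * n + 1) (12 * n) r : ℕ) : ℤ) =
            TB (c.lN - eL n p r) := by
          unfold Cell.cost
          rw [if_pos hfull]
        rw [hcost]
        exact hf r)
    push_cast
    linarith
  · -- not full
    have hnf : c.full = false := by simpa using hfull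
    have hx' : c.v0 ≤ c.u0 := by
      rcases hx with h | h
      · exact absurd h hfull
      · exact h
    refine ⟨((∑ d ∈ Finset.range 12, Fd c c.e0 (d : ℤ) : ℤ) : ℝ), ?_⟩
    intro n hn p hp hp2 h0 h1 q α β hα hβ
    have : Fact p.Prime := ⟨hp⟩
    have hok : 0 < c.v0 ∧ c.lN ≤ (c.fl 10 : ℤ) + c.fl 9 + c.fl 8 - c.fl 2 ∧
        c.ly ≤ (c.fl 10 : ℤ) + c.fl 9 + c.fl 8 - c.fl 2 := by
      have hc' := hc
      unfold Cell.ok at hc'
      simp only [hnf, Bool.and_eq_true, decide_eq_true_eq] at hc'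
      have h2 := hc'.2
      simp only [Bool.false_eq_true, if_false, Bool.and_eq_true, decide_eq_true_eq] at h2
      refine ⟨?_, h2.1, h2.2⟩
      exact hc'.1.1.1.1.1.1.1.2
    obtain ⟨hv0, hlN, hly⟩ := hok
    have hnp : n < p := by
      have h2 : c.v0 * n < c.v0 * p := by
        calc c.v0 * n ≤ c.u0 * n := Nat.mul_le_mul_right _ hx'
          _ < p * c.v0 := h0
          _ = c.v0 * p := Nat.mul_comm _ _
      exact Nat.lt_of_mul_lt_mul_left h2
    have f2 := hE1f hc hp.pos h0 h1 (a := 2) (by decide)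
    have f10 := hE1f hc hp.pos h0 h1 (a := 10) (by decide)
    have f9 := hE1f hc hp.pos h0 h1 (a := 9) (by decide)
    have f8 := hE1f hc hp.pos h0 h1 (a := 8) (by decide)
    -- the shift
    let good : ℤ → ℕ → Prop := fun e d => d < 12 ∧ Fd c e (d : ℤ) ≤ c.cost e 2
    let g : ℕ → ℤ := fun κ => if h : ∃ d : ℕ, good (eL n p κ) d then ((Classical.choose h : ℕ) : ℤ) else 0
    have hg12 : ∀ κ, ∃ d ∈ Finset.range 12, g κ = ((d : ℕ) : ℤ) := by
      intro κ
      by_cases h : ∃ d : ℕ, good (eL n p κ) d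
      · refine ⟨Classical.choose h, Finset.mem_range.2 (Classical.choose_spec h).1, ?_⟩
        exact dif_pos h
      · exact ⟨0, by decide, dif_neg h⟩
    have hgood : ∀ κ, κ < p → Fd c (eL n p κ) (g κ) ≤ c.cost (eL n p κ) 2 := by
      intro κ hκ
      have hlow := E4_low hE1c hnp hκ
      rw [f2, f10, f9, f8] at hlow
      have h0' : Fd c (eL n p κ) 0 ≤ 1000000 := by
        unfold Fd
        have a1 : TA 0 ≤ 820 := TA_le (by norm_num)
        have a2 : TA (c.lN - eL n p κ - 0) ≤ 820 := TA_le (by linarith)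
        have a3 : TA (c.ly - eL n p κ - 2 - 0) ≤ 820 := TA_le (by linarith)
        linarith
      have h : ∃ d : ℕ, good (eL n p κ) d := by
        have hcost : c.cost (eL n p κ) 2 = ((List.range 12).map fun d : ℕ => TA (d : ℤ) +
            TA (c.lN - eL n p κ - d) + TA (c.ly - eL n p κ - 2 - d)).foldl min 1000000 := by
          unfold Cell.cost
          rw [if_neg hfull, if_pos le_rfl]
        rcases foldl_min_mem ((List.range 12).map fun d : ℕ => TA (d : ℤ) +
            TA (c.lN - eL n p κ - d) + TA (c.ly - eL n p κ - 2 - d)) 1000000 with h2 | h2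
        · refine ⟨0, by norm_num, ?_⟩
          rw [hcost, h2]
          exact h0'
        · obtain ⟨d, hd, hd'⟩ := List.mem_map.1 h2
          refine ⟨d, List.mem_range.1 hd, ?_⟩
          rw [hcost, ← hd']
          exact le_rfl
      have h3 : g κ = ((Classical.choose h : ℕ) : ℤ) := dif_pos h
      rw [h3]
      exact (Classical.choose_spec h).2
    set S : Finset ℕ := (Finset.range p).filter fun κ => 2 ≤ cnt p (2 * n + 1) (12 * n) κ with hS
    have hpnat : (1 : ℚ) ≤ (p : ℚ) := by exact_mod_cast hp.one_lt.le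
    have hd := hD3 hn hp2 q α β hα hβ (7 * n) (-c.lN) (-c.ly) g S (Finset.filter_subset _ _)
      (by
        intro k hk
        by_cases hkS : k % p ∈ S
        · exact Or.inl hkS
        · right
          refine ⟨?_, ?_, ?_⟩
          · rw [cL_norm hp2, f2, f10, f9, f8]
            exact zpow_le_zpow_right₀ hpnat (by linarith)
          · rw [cL_norm hp2, f2, f10, f9, f8]
            exact zpow_le_zpow_right₀ hpnat (by linarith)
          · intro k' hk' hne hdvd
            apply hkS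
            rw [hS, Finset.mem_filter, Finset.mem_range]
            refine ⟨Nat.mod_lt _ hp.pos, ?_⟩
            have hkm : (p : ℤ) ∣ (k : ℤ) - ((k % p : ℕ) : ℤ) := by
              refine ⟨((k / p : ℕ) : ℤ), ?_⟩
              have := Nat.div_add_mod k p
              have h2 : (k : ℤ) = (p : ℤ) * ((k / p : ℕ) : ℤ) + ((k % p : ℕ) : ℤ) := by
                exact_mod_cast this.symm
              linarith
            have hk'm : (p : ℤ) ∣ (k' : ℤ) - ((k % p : ℕ) : ℤ) := by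
              have h2 := dvd_add hdvd hkm
              have e : ((k' : ℤ) - k) + ((k : ℤ) - ((k % p : ℕ) : ℤ)) =
                  (k' : ℤ) - ((k % p : ℕ) : ℤ) := by ring
              rwa [e] at h2
            have hsub : ({k, k'} : Finset ℕ) ⊆ (Finset.Icc (2 * n + 1) (12 * n)).filter
                (fun m : ℕ => (p : ℤ) ∣ (m : ℤ) - ((k % p : ℕ) : ℤ)) := by
              intro x hx2
              rw [Finset.mem_insert, Finset.mem_singleton] at hx2
              rw [Finset.mem_filter]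
              rcases hx2 with rfl | rfl
              · exact ⟨hk, hkm⟩
              · exact ⟨hk', hk'm⟩
            have hcard := Finset.card_le_card hsub
            rw [Finset.card_pair (Ne.symm hne)] at hcard
            exact hcard)
    refine E4_fin hp hd ?_
    have hFd : ∀ κ, TA (g κ) + TA (-eL n p κ - g κ - -c.lN) + TA (-eL n p κ - 2 - g κ - -c.ly) =
        Fd c (eL n p κ) (g κ) := by
      intro κ
      unfold Fd
      have e1 : -eL n p κ - g κ - -c.lN = c.lN - eL n p κ - g κ := by ring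
      have e2 : -eL n p κ - 2 - g κ - -c.ly = c.ly - eL n p κ - 2 - g κ := by ring
      rw [e1, e2]
    have hsum : ∑ κ ∈ S, (TA (g κ) + TA (-eL n p κ - g κ - -c.lN) +
        TA (-eL n p κ - 2 - g κ - -c.ly)) =
        ∑ κ ∈ Finset.range p, if 2 ≤ cnt p (2 * n + 1) (12 * n) κ then Fd c (eL n p κ) (g κ)
          else 0 := by
      rw [hS, Finset.sum_filter]
      exact Finset.sum_congr rfl fun κ _ => by rw [hFd]
    rw [hsum]
    have hs := hE2 hc hn hp h0 h1 (fun κ => if 2 ≤ cnt p (2 * n + 1) (12 * n) κ then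
        Fd c (eL n p κ) (g κ) else 0) (∑ d ∈ Finset.range 12, Fd c c.e0 (d : ℤ))
      (Finset.sum_nonneg fun d _ => Fd_nonneg _ _ _)
      (by
        have hK : 0 ≤ ∑ d ∈ Finset.range 12, Fd c c.e0 (d : ℤ) :=
          Finset.sum_nonneg fun d _ => Fd_nonneg _ _ _
        show (if 2 ≤ cnt p (2 * n + 1) (12 * n) 0 then Fd c (eL n p 0) (g 0) else 0) ≤ _
        split_ifs
        · obtain ⟨d, hd12, hgd⟩ := hg12 0
          rw [hgd, E4_eL0 hE1f hE1c hc hp.pos h0 h1]
          exact Finset.single_le_sum (f := fun d : ℕ => Fd c c.e0 (d : ℤ))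
            (fun d _ => Fd_nonneg _ _ _) hd12
        · exact hK)
      (by
        intro r _ hr
        show (if 2 ≤ cnt p (2 * n + 1) (12 * n) r then Fd c (eL n p r) (g r) else 0) ≤ _
        split_ifs with h2
        · have hcost : c.cost (eL n p r) ((cnt p (2 * n + 1) (12 * n) r : ℕ) : ℤ) =
              c.cost (eL n p r) 2 := by
            unfold Cell.cost
            rw [if_neg hfull, if_neg hfull, if_pos (by exact_mod_cast h2), if_pos le_rfl]
          rw [hcost]
          exact hgood r hr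
        · have hcost : c.cost (eL n p r) ((cnt p (2 * n + 1) (12 * n) r : ℕ) : ℤ) = 0 := by
            unfold Cell.cost
            rw [if_neg hfull, if_neg (by
              intro h3
              exact h2 (by exact_mod_cast h3))]
          rw [hcost])
    push_cast at hs ⊢
    linarith

/-- the additional condition holds for the cells in the list -/
theorem E4_x : cells.all (fun c => c.full || decide (c.v0 ≤ c.u0)) = true := by
  decide +kernel

/-- p-adic size of the determinant in a cell -/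
theorem E4_cell (hD3 : D3_detSt) (hE1f : E1_flSt) (hE1c : E1_cntSt) (hE2 : E2_sumSt)
    (c : Cell) (hmem : c ∈ cells) (hc : c.ok = true) : ∃ K0 : ℝ, ∀ n : ℕ, 1 ≤ n →
    ∀ p : ℕ, p.Prime → 12 * n < p ^ 2 →
    c.u0 * n < p * c.v0 → p * c.v1 ≤ c.u1 * n → ∀ (q : ℕ) (α β : ℚ), QI q α → QI q β →
    ((padicNorm p ((q : ℚ) ^ (14 * n) * DD n α β) : ℚ) : ℝ) ≤
      (p : ℝ) ^ ((c.AB.1 : ℝ) * n + c.AB.2 * p + K0) := by
  refine E4_cell' hD3 hE1f hE1c hE2 c hc ?_
  have h := List.all_eq_true.1 E4_x c hmem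
  rw [Bool.or_eq_true, decide_eq_true_eq] at h
  exact h

end Pool.Agent.LZ
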