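import Pool.Agent.H337R2.LZ.Cells

set_option autoImplicit false

namespace Pool.Agent.LZ

theorem E5_ok : cells.all Cell.ok = true := by
  decide +kernel

/-- chain property of a list of cells from `a / b` to `c / d` -/
def E5chk : List Cell → ℕ → ℕ → ℕ → ℕ → Bool
  | [], a, b, c, d => decide (a = c) && decide (b = d)
  | x :: l, a, b, c, d => decide (x.u0 = a) && (decide (x.v0 = b) && E5chk l x.u1 x.v1 c d)

theorem E5_chain {n p : ℕ} : ∀ (l : List Cell) (a b c d : ℕ), E5chk l a b c d = true →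
    a * n < p * b → p * d ≤ c * n → ∃ x ∈ l, x.u0 * n < p * x.v0 ∧ p * x.v1 ≤ x.u1 * n := by
  intro l
  induction l with
  | nil =>
    intro a b c d h h0 h1
    simp only [E5chk, Bool.and_eq_true, decide_eq_true_eq] at h
    obtain ⟨rfl, rfl⟩ := h
    omega
  | cons x l ih =>
    intro a b c d h h0 h1
    simp only [E5chk, Bool.and_eq_true, decide_eq_true_eq] at h
    obtain ⟨rfl, rfl, h2⟩ := h
    by_cases hx : p * x.v1 ≤ x.u1 * n
    · exact ⟨x, List.mem_cons_self, h0, hx⟩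
    · obtain ⟨y, hy, hy2⟩ := ih _ _ _ _ h2 (not_le.1 hx) h1
      exact ⟨y, List.mem_cons_of_mem _ hy, hy2⟩

theorem E5_chk : E5chk cells 1 40 14 1 = true := by
  decide +kernel

/-- the cells cover `(1/40, 14]` -/
theorem E5_cover {n p : ℕ} (h0 : n < 40 * p) (h1 : p ≤ 14 * n) :
    ∃ c ∈ cells, c.u0 * n < p * c.v0 ∧ p * c.v1 ≤ c.u1 * n :=
  E5_chain cells 1 40 14 1 E5_chk (by omega) (by omega)

end Pool.Agent.LZ
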