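import Pool.Agent.H337R2.LZ.Defs
import Pool.Agent.H574R2.D3.F1

/-! Task F1: sums over the primes in `(lo n, hi n]` of linear functions. -/

open Filter Topology Finset

namespace Pool.Agent.LZ

open Pool.Agent.H574R2.D3 (pw sum_one sum_id theta_tendsto integral_theta)

theorem F1_PR (lo hi : ℚ) (h0 : 0 < lo) (h1 : lo ≤ hi) (h2 : hi ≤ 14) (n : ℕ) (hn : 1 ≤ n)
    (f : ℕ → ℝ) : ∑ p ∈ PR lo hi n, f p * Real.log p =
      ∑ k ∈ Ioc ⌊(lo : ℝ) * n⌋₊ ⌊(hi : ℝ) * n⌋₊, f k * pw k := by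
  classical
  have hn0 : (0 : ℚ) < n := by exact_mod_cast hn
  have hn0' : (0 : ℝ) < n := by exact_mod_cast hn
  have hlo : (0 : ℝ) < lo := by exact_mod_cast h0
  have hhi : (0 : ℝ) < hi := lt_of_lt_of_le hlo (by exact_mod_cast h1)
  have hE : PR lo hi n = (Ioc ⌊(lo : ℝ) * n⌋₊ ⌊(hi : ℝ) * n⌋₊).filter Nat.Prime := by
    ext p
    unfold PR
    rw [mem_filter, mem_filter, mem_range, mem_Ioc, Nat.floor_lt (by positivity),
      Nat.le_floor_iff (by positivity)]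
    constructor
    · rintro ⟨_, hp, h3, h4⟩
      refine ⟨⟨?_, ?_⟩, hp⟩
      · exact_mod_cast h3
      · exact_mod_cast h4
    · rintro ⟨⟨h3, h4⟩, hp⟩
      have h3' : lo * (n : ℚ) < p := by exact_mod_cast h3
      have h4' : (p : ℚ) ≤ hi * n := by exact_mod_cast h4
      refine ⟨?_, hp, h3', h4'⟩
      have h5 : (p : ℚ) < 15 * n := by nlinarith
      exact_mod_cast h5
  rw [hE, sum_filter]
  refine sum_congr rfl fun k _ => ?_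
  unfold pw
  split_ifs <;> simp

theorem F1_lin (lo hi : ℚ) (h0 : 0 < lo) (h1 : lo ≤ hi) (h2 : hi ≤ 14) (A B : ℤ) :
    Tendsto (fun n : ℕ => (∑ p ∈ PR lo hi n, ((A : ℝ) * n + B * p) * Real.log p) / (n : ℝ) ^ 2) atTop
      (𝓝 (((A * (hi - lo) + B * (hi ^ 2 - lo ^ 2) / 2 : ℚ)) : ℝ)) := by
  have hlo : (0 : ℝ) < lo := by exact_mod_cast h0
  have hab : (lo : ℝ) ≤ hi := by exact_mod_cast h1
  have hhi : (0 : ℝ) < hi := lt_of_lt_of_le hlo hab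
  have hθb := theta_tendsto (hi : ℝ) hhi
  have hθa := theta_tendsto (lo : ℝ) hlo
  have hI := integral_theta (lo : ℝ) (hi : ℝ) hlo hab
  have h := ((hθb.sub hθa).const_mul (A : ℝ)).add
    ((((hθb.const_mul (hi : ℝ)).sub (hθa.const_mul (lo : ℝ))).sub hI).const_mul (B : ℝ))
  have hlim : (((A * (hi - lo) + B * (hi ^ 2 - lo ^ 2) / 2 : ℚ)) : ℝ) =
      (A : ℝ) * ((hi : ℝ) - lo) + (B : ℝ) * ((hi : ℝ) * hi - lo * lo - ((hi : ℝ) ^ 2 - (lo : ℝ) ^ 2) / 2) := by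
    push_cast
    ring
  rw [hlim]
  refine h.congr' ?_
  filter_upwards [eventually_ge_atTop 1] with n hn
  have hn0 : (0 : ℝ) < n := by exact_mod_cast hn
  have hle : (lo : ℝ) * n ≤ (hi : ℝ) * n := mul_le_mul_of_nonneg_right hab hn0.le
  rw [F1_PR lo hi h0 h1 h2 n hn (fun p => (A : ℝ) * n + B * p)]
  have e1 : ∑ k ∈ Ioc ⌊(lo : ℝ) * n⌋₊ ⌊(hi : ℝ) * n⌋₊, ((A : ℝ) * n + B * k) * pw k =
      (A : ℝ) * n * ∑ k ∈ Ioc ⌊(lo : ℝ) * n⌋₊ ⌊(hi : ℝ) * n⌋₊, (1 : ℝ) * pw k +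
        (B : ℝ) * ∑ k ∈ Ioc ⌊(lo : ℝ) * n⌋₊ ⌊(hi : ℝ) * n⌋₊, (k : ℝ) * pw k := by
    rw [mul_sum, mul_sum, ← sum_add_distrib]
    refine sum_congr rfl fun k _ => ?_
    ring
  rw [e1, sum_one _ _ hle, sum_id _ _ (by positivity) hle]
  field_simp

end Pool.Agent.LZ
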