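import Pool.Agent.H337R2.LZ.Cells

set_option autoImplicit false

open Polynomial Pool.Agent.H337R2 Filter Topology

namespace Pool.Agent.LZ

namespace F4x

theorem sum_div (p : ℕ) (hp : 0 < p) (M : ℕ) :
    (2 : ℤ) * ((∑ i ∈ Finset.range M, (i / p) : ℕ) : ℤ) =
      2 * ((M / p : ℕ) : ℤ) * M - p * (((M / p : ℕ) : ℤ) * (((M / p : ℕ) : ℤ) + 1)) := by
  induction M with
  | zero => simp
  | succ M ih =>
    rw [Finset.sum_range_succ, Nat.cast_add, mul_add, ih, Nat.succ_div]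
    by_cases h : p ∣ M + 1
    · rw [if_pos h]
      obtain ⟨k, hk⟩ := h
      have h1 : (M + 1) / p = k := by rw [hk]; exact Nat.mul_div_cancel_left _ hp
      rw [Nat.succ_div, if_pos ⟨k, hk⟩] at h1
      have h2 : ((M : ℤ) + 1) = p * (((M / p : ℕ) : ℤ) + 1) := by
        have h3 : M + 1 = p * (M / p + 1) := by rw [h1]; exact hk
        exact_mod_cast h3
      have h4 : (M : ℤ) = p * (((M / p : ℕ) : ℤ) + 1) - 1 := by linarith
      simp only [Nat.cast_add, Nat.cast_one]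
      generalize ((M / p : ℕ) : ℤ) = f at *
      rw [h4]
      ring
    · rw [if_neg h]
      simp only [Nat.cast_add, Nat.cast_one, add_zero]
      ring

theorem fl_eq {c : Cell} {n p a : ℕ} (h0 : c.u0 * n < p * c.v0)
    (h1 : p * c.v1 ≤ c.u1 * n) (hv1 : 0 < c.v1)
    (ha : a * c.v0 ≤ (c.fl a + 1) * c.u0) : a * n / p = c.fl a := by
  have hp : 0 < p := by
    rcases Nat.eq_zero_or_pos p with h | h
    · subst h; omega
    · exact h
  apply Nat.div_eq_of_lt_le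
  · -- fl a * p ≤ a n
    have h2 : c.fl a * c.u1 ≤ a * c.v1 := Nat.div_mul_le_self _ _
    have h3 : (c.fl a * p) * c.v1 ≤ (a * n) * c.v1 := by
      calc (c.fl a * p) * c.v1 = c.fl a * (p * c.v1) := by ring
        _ ≤ c.fl a * (c.u1 * n) := Nat.mul_le_mul_left _ h1
        _ = (c.fl a * c.u1) * n := by ring
        _ ≤ (a * c.v1) * n := Nat.mul_le_mul_right _ h2
        _ = (a * n) * c.v1 := by ring
    exact Nat.le_of_mul_le_mul_right h3 hv1
  · have h3 : (a * n) * c.v0 < ((c.fl a + 1) * p) * c.v0 := by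
      calc (a * n) * c.v0 = (a * c.v0) * n := by ring
        _ ≤ ((c.fl a + 1) * c.u0) * n := Nat.mul_le_mul_right _ ha
        _ = (c.fl a + 1) * (c.u0 * n) := by ring
        _ < (c.fl a + 1) * (p * c.v0) := Nat.mul_lt_mul_of_pos_left h0 (Nat.succ_pos _)
        _ = _ := by ring
    exact Nat.lt_of_mul_lt_mul_right h3

end F4x

/-- the factorial part in a cell -/
theorem F4_sf {c : Cell} (hc : c.ok = true) {n p : ℕ} (hn : 1 ≤ n) (hp : 0 < p) (h0 : c.u0 * n < p * c.v0)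
    (h1 : p * c.v1 ≤ c.u1 * n) :
    ((∑ i ∈ Finset.range (14 * n), (i / p) + 2 * ∑ i ∈ Finset.range (7 * n), (i / p) : ℕ) : ℤ) =
      c.sf.1 * n + c.sf.2 * p := by
  unfold Cell.ok at hc
  simp only [Bool.and_eq_true, decide_eq_true_eq, List.all_cons, List.all_nil] at hc
  obtain ⟨⟨⟨⟨⟨⟨⟨⟨hu0, hv0⟩, hu1⟩, hv1⟩, huv⟩, hfl⟩, _⟩, _⟩, _⟩ := hc
  have e14 := F4x.fl_eq (a := 14) h0 h1 hv1 (by omega)
  have e7 := F4x.fl_eq (a := 7) h0 h1 hv1 (by omega)
  have s14 := F4x.sum_div p hp (14 * n)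
  have s7 := F4x.sum_div p hp (7 * n)
  rw [e14] at s14
  rw [e7] at s7
  unfold Cell.sf
  rw [Nat.cast_add, Nat.cast_mul]
  generalize ((∑ i ∈ Finset.range (14 * n), (i / p) : ℕ) : ℤ) = A at *
  generalize ((∑ i ∈ Finset.range (7 * n), (i / p) : ℕ) : ℤ) = B at *
  generalize ((c.fl 14 : ℕ) : ℤ) = f at *
  generalize ((c.fl 7 : ℕ) : ℤ) = g at *
  obtain ⟨k, hk⟩ := Int.even_mul_succ_self f
  have hk2 : f * (f + 1) = 2 * k := by rw [hk]; ring
  have hk3 : f * (f + 1) / 2 = k := by rw [hk2]; exact Int.mul_ediv_cancel_left _ (by norm_num)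
  simp only [hk3]
  rw [hk2] at s14
  push_cast at s14 s7 ⊢
  have h5 : 2 * (A + 2 * B) = 2 * ((14 * f + 14 * g) * n + -(k + g * (g + 1)) * p) := by
    linear_combination s14 + 2 * s7
  linarith

end Pool.Agent.LZ
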