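import Pool.Agent.H337R2.LZ.Defs
import Pool.Agent.H574R2.D3.F5

/-!
# Task F5: superfactorials and the product formula
-/

open Polynomial Pool.Agent.H337R2 Filter Topology

namespace Pool.Agent.LZ

noncomputable section

open Pool.Agent.H574R2.D3 (F5_log_factorial F5_norm)

lemma F5_part (n K : ℕ) (hn : 30000 ≤ n) (hK : K ≤ 14 * n) :
    ∑ p ∈ (Finset.range (n + 1)).filter (fun p : ℕ => p.Prime ∧ 40 * p ≤ n), ∑ i ∈ Finset.range K,
      Real.log ((padicNorm p ((i.factorial : ℕ) : ℚ) : ℚ) : ℝ) ≤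
    - ∑ i ∈ Finset.range K, Real.log (i.factorial : ℝ) +
      ∑ p ∈ PR (1 / 40) 14 n, ((∑ i ∈ Finset.range K, (i / p) : ℕ) : ℝ) * Real.log p := by
  classical
  set S := (Finset.range (15 * n)).filter (fun p : ℕ => p.Prime) with hS
  -- the left side
  have hL : ∑ p ∈ (Finset.range (n + 1)).filter (fun p : ℕ => p.Prime ∧ 40 * p ≤ n),
      ∑ i ∈ Finset.range K, Real.log ((padicNorm p ((i.factorial : ℕ) : ℚ) : ℚ) : ℝ) =
      -∑ i ∈ Finset.range K, ∑ p ∈ S.filter (fun p => 40 * p ≤ n),
        (((i.factorial).factorization p : ℝ) * Real.log p) := by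
    have : (Finset.range (n + 1)).filter (fun p : ℕ => p.Prime ∧ 40 * p ≤ n) =
        S.filter (fun p => 40 * p ≤ n) := by
      ext p
      simp only [hS, Finset.mem_filter, Finset.mem_range]
      constructor
      · rintro ⟨h1, h2, h3⟩
        exact ⟨⟨by omega, h2⟩, h3⟩
      · rintro ⟨⟨h1, h2⟩, h3⟩
        exact ⟨by omega, h2, h3⟩
    rw [this, Finset.sum_comm, ← Finset.sum_neg_distrib]
    refine Finset.sum_congr rfl fun i _ => ?_
    rw [← Finset.sum_neg_distrib]
    refine Finset.sum_congr rfl fun p hp => ?_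
    have hpp : p.Prime := by
      have := (Finset.mem_filter.1 hp).1
      exact (Finset.mem_filter.1 this).2
    exact F5_norm p i hpp
  have hR : ∑ i ∈ Finset.range K, Real.log (i.factorial : ℝ) =
      ∑ i ∈ Finset.range K, ∑ p ∈ S.filter (fun p => 40 * p ≤ n),
        (((i.factorial).factorization p : ℝ) * Real.log p) +
      ∑ i ∈ Finset.range K, ∑ p ∈ S.filter (fun p => ¬ 40 * p ≤ n),
        (((i.factorial).factorization p : ℝ) * Real.log p) := by
    rw [← Finset.sum_add_distrib]
    refine Finset.sum_congr rfl fun i hi => ?_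
    rw [Finset.sum_filter_add_sum_filter_not]
    exact F5_log_factorial _ _ (by rw [Finset.mem_range] at hi; omega)
  have hmain : ∑ i ∈ Finset.range K, ∑ p ∈ S.filter (fun p => ¬ 40 * p ≤ n),
        (((i.factorial).factorization p : ℝ) * Real.log p) ≤
      ∑ p ∈ PR (1 / 40) 14 n, ((∑ i ∈ Finset.range K, (i / p) : ℕ) : ℝ) * Real.log p := by
    rw [Finset.sum_comm]
    have hPS : PR (1 / 40) 14 n = (S.filter (fun p => ¬ 40 * p ≤ n)).filter (fun p => p ≤ 14 * n) := by
      ext p
      unfold PR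
      simp only [hS, Finset.mem_filter, Finset.mem_range]
      constructor
      · rintro ⟨h1, h2, h3, h4⟩
        refine ⟨⟨⟨h1, h2⟩, ?_⟩, by exact_mod_cast h4⟩
        intro h5
        have h6 : (40 : ℚ) * p ≤ n := by exact_mod_cast h5
        linarith
      · rintro ⟨⟨⟨h1, h2⟩, h3⟩, h4⟩
        refine ⟨h1, h2, ?_, by exact_mod_cast h4⟩
        have h6 : (n : ℚ) < 40 * p := by
          have : n < 40 * p := by omega
          exact_mod_cast this
        linarith
    rw [hPS, ← Finset.sum_filter_add_sum_filter_not (S.filter (fun p => ¬ 40 * p ≤ n))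
      (fun p => p ≤ 14 * n)]
    have hz : ∑ p ∈ (S.filter (fun p => ¬ 40 * p ≤ n)).filter (fun p => ¬ p ≤ 14 * n),
        ∑ i ∈ Finset.range K, (((i.factorial).factorization p : ℝ) * Real.log p) = 0 := by
      refine Finset.sum_eq_zero fun p hp => Finset.sum_eq_zero fun i hi => ?_
      rw [Finset.mem_range] at hi
      have h1 := (Finset.mem_filter.1 hp).2
      have h2 : (i.factorial).factorization p = 0 :=
        Nat.factorization_factorial_eq_zero_of_lt (by omega)
      rw [h2]; simp
    rw [hz, add_zero]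
    apply Finset.sum_le_sum
    intro p hp
    have h1 := (Finset.mem_filter.1 hp).2
    have h2 := (Finset.mem_filter.1 (Finset.mem_filter.1 hp).1).2
    have h3 := (Finset.mem_filter.1 (Finset.mem_filter.1 (Finset.mem_filter.1 hp).1).1).2
    rw [← Finset.sum_mul]
    have := Fact.mk h3
    have h4 : ∀ i ∈ Finset.range K,
        ((i.factorial).factorization p : ℝ) = ((i / p : ℕ) : ℝ) := by
      intro i hi
      rw [Finset.mem_range] at hi
      have h5 : Nat.log p i < 2 := by
        apply Nat.log_lt_of_lt_pow' (by norm_num)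
        have h9 : n + 1 ≤ 40 * p := by omega
        have h10 : (n + 1) * (n + 1) ≤ (40 * p) * (40 * p) := Nat.mul_le_mul h9 h9
        have h11 : 30000 * n ≤ n * n := Nat.mul_le_mul_right n hn
        have h12 : 1600 * (14 * n) < 1600 * p ^ 2 := by nlinarith
        omega
      rw [Nat.factorization_def _ h3, padicValNat_factorial h5]
      have : Finset.Ico 1 2 = {1} := by decide
      rw [this]
      simp
    rw [Finset.sum_congr rfl h4, ← Nat.cast_sum]
  rw [hL, hR]
  linarith

/-- factorials: the small prime part -/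
theorem F5_fact : ∀ᶠ n : ℕ in atTop,
    ∑ p ∈ (Finset.range (n + 1)).filter (fun p : ℕ => p.Prime ∧ 40 * p ≤ n),
      (∑ i ∈ Finset.range (14 * n), Real.log ((padicNorm p ((i.factorial : ℕ) : ℚ) : ℚ) : ℝ) +
       2 * ∑ i ∈ Finset.range (7 * n), Real.log ((padicNorm p ((i.factorial : ℕ) : ℚ) : ℚ) : ℝ)) ≤
    - (∑ i ∈ Finset.range (14 * n), Real.log (i.factorial : ℝ) +
       2 * ∑ i ∈ Finset.range (7 * n), Real.log (i.factorial : ℝ)) +
      ∑ p ∈ PR (1 / 40) 14 n,
        ((∑ i ∈ Finset.range (14 * n), (i / p) + 2 * ∑ i ∈ Finset.range (7 * n), (i / p) : ℕ) : ℝ) * Real.log p := by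
  filter_upwards [eventually_ge_atTop 30000] with n hn
  have h1 := F5_part n (14 * n) hn le_rfl
  have h2 := F5_part n (7 * n) hn (by omega)
  rw [Finset.sum_add_distrib, ← Finset.mul_sum]
  have h3 : ∑ p ∈ PR (1 / 40) 14 n,
        ((∑ i ∈ Finset.range (14 * n), (i / p) + 2 * ∑ i ∈ Finset.range (7 * n), (i / p) : ℕ) : ℝ) *
          Real.log p =
      ∑ p ∈ PR (1 / 40) 14 n, ((∑ i ∈ Finset.range (14 * n), (i / p) : ℕ) : ℝ) * Real.log p +
      2 * ∑ p ∈ PR (1 / 40) 14 n, ((∑ i ∈ Finset.range (7 * n), (i / p) : ℕ) : ℝ) * Real.log p := by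
    rw [Finset.mul_sum, ← Finset.sum_add_distrib]
    refine Finset.sum_congr rfl fun p _ => ?_
    push_cast
    ring
  rw [h3]
  linarith

end

end Pool.Agent.LZ
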