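import Mathlib

/-! Task F6: lower bound for the superfactorials (helper368). -/

open Filter Topology

namespace Pool.Agent.LZ

noncomputable section

/-- `x²/2 log x - 3/4 x²` -/
def F6_G (x : ℝ) : ℝ := x ^ 2 / 2 * Real.log x - 3 / 4 * x ^ 2

theorem F6_deriv {x : ℝ} (hx : 0 < x) : HasDerivAt F6_G (x * Real.log x - x) x := by
  have h1 : HasDerivAt (fun x : ℝ => x ^ 2 / 2) x x := by
    have := (hasDerivAt_pow 2 x).div_const 2
    refine this.congr_deriv ?_
    norm_num
  have h2 := h1.mul (Real.hasDerivAt_log hx.ne')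
  have h3 : HasDerivAt (fun x : ℝ => 3 / 4 * x ^ 2) (3 / 2 * x) x := by
    have := (hasDerivAt_pow 2 x).const_mul (3 / 4)
    refine this.congr_deriv ?_
    norm_num
    ring
  refine (h2.sub h3).congr_deriv ?_
  field_simp
  ring

theorem F6_mono {x y : ℝ} (hx : 1 ≤ x) (hxy : x ≤ y) :
    x * Real.log x - x ≤ y * Real.log y - y := by
  have hx0 : 0 < x := by linarith
  have hy0 : 0 < y := by linarith
  have h1 : 0 ≤ Real.log x := Real.log_nonneg hx
  -- `log y ≥ log x + 1 - x / y`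
  have h2 : Real.log x - Real.log y ≤ x / y - 1 := by
    rw [← Real.log_div hx0.ne' hy0.ne']
    exact Real.log_le_sub_one_of_pos (by positivity)
  have h3 : y * (Real.log x - Real.log y) ≤ x - y := by
    have := mul_le_mul_of_nonneg_left h2 hy0.le
    have e : y * (x / y - 1) = x - y := by field_simp
    rwa [e] at this
  nlinarith [mul_nonneg (sub_nonneg.2 hxy) h1]

theorem F6_step {x : ℝ} (hx : 1 ≤ x) : F6_G (x + 1) - F6_G x ≤ (x + 1) * Real.log (x + 1) - (x + 1) := by
  have hcont : ContinuousOn F6_G (Set.Icc x (x + 1)) := fun y hy =>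
    (F6_deriv (by linarith [hy.1])).continuousAt.continuousWithinAt
  obtain ⟨ξ, hξ, he⟩ := exists_hasDerivAt_eq_slope F6_G (fun y => y * Real.log y - y)
    (by linarith) hcont (fun y hy => F6_deriv (by linarith [hy.1]))
  have h1 : F6_G (x + 1) - F6_G x = ξ * Real.log ξ - ξ := by
    rw [he]
    have : x + 1 - x = 1 := by ring
    rw [this, div_one]
  rw [h1]
  exact F6_mono (by linarith [hξ.1]) hξ.2.le

theorem F6_fac {n : ℕ} (hn : 1 ≤ n) :
    (n : ℝ) * Real.log n - n ≤ Real.log (n.factorial : ℝ) := by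
  have hn0 : (0 : ℝ) < n := by exact_mod_cast hn
  have hf : (0 : ℝ) < n.factorial := by exact_mod_cast Nat.factorial_pos n
  have h1 := Real.pow_div_factorial_le_exp (n : ℝ) hn0.le n
  have h2 := Real.log_le_log (by positivity) h1
  rw [Real.log_exp, Real.log_div (by positivity) hf.ne', Real.log_pow] at h2
  linarith

theorem F6_ind (K : ℕ) : F6_G ((K : ℝ) + 1) ≤
    ∑ i ∈ Finset.range (K + 2), Real.log (i.factorial : ℝ) := by
  induction K with
  | zero =>
    have h0 : F6_G (((0 : ℕ) : ℝ) + 1) = - (3 / 4) := by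
      unfold F6_G
      rw [Nat.cast_zero, zero_add, Real.log_one]
      norm_num
    rw [h0]
    simp [Finset.sum_range_succ]
    norm_num
  | succ K ih =>
    rw [Finset.sum_range_succ]
    have h1 := F6_step (x := (K : ℝ) + 1) (by linarith [(Nat.cast_nonneg K : (0:ℝ) ≤ K)])
    have h2 := F6_fac (n := K + 2) (by omega)
    push_cast at h2 ⊢
    have e : (K : ℝ) + 1 + 1 = K + 2 := by ring
    rw [e] at h1 ⊢
    linarith

theorem F6_low {K : ℕ} (hK : 2 ≤ K) : F6_G K - K * Real.log K ≤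
    ∑ i ∈ Finset.range K, Real.log (i.factorial : ℝ) := by
  obtain ⟨k, rfl⟩ : ∃ k, K = k + 2 := ⟨K - 2, by omega⟩
  have h1 := F6_ind k
  have h2 := F6_step (x := (k : ℝ) + 1) (by linarith [(Nat.cast_nonneg k : (0:ℝ) ≤ k)])
  push_cast
  have e : (k : ℝ) + 1 + 1 = k + 2 := by ring
  rw [e] at h2
  have h3 : (0 : ℝ) ≤ k := Nat.cast_nonneg k
  linarith

theorem F6_num : (35397 : ℝ) / 100 ≤ 98 * Real.log 2 + 147 * Real.log 7 := by
  have h1 : 73 * Real.log 2 - 26 * Real.log 7 ≤ 61 / 10000 := by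
    have h2 : Real.log ((2 : ℝ) ^ 73 / 7 ^ 26) = 73 * Real.log 2 - 26 * Real.log 7 := by
      rw [Real.log_div (by norm_num) (by norm_num), Real.log_pow, Real.log_pow]
      norm_num
    rw [← h2]
    refine (Real.log_le_sub_one_of_pos (by positivity)).trans ?_
    norm_num
  have h3 := Real.log_two_gt_d9
  nlinarith

theorem F6_superfac : ∀ ε : ℝ, 0 < ε → ∀ᶠ n : ℕ in atTop,
    147 * (n : ℝ) ^ 2 * Real.log n + (13347 / 100 - ε) * (n : ℝ) ^ 2 ≤
      ∑ i ∈ Finset.range (14 * n), Real.log (i.factorial : ℝ) +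
       2 * ∑ i ∈ Finset.range (7 * n), Real.log (i.factorial : ℝ) := by
  intro ε hε
  have hlog : Tendsto (fun x : ℝ => Real.log x / x) atTop (𝓝 0) := by
    have := Real.isLittleO_log_id_atTop.tendsto_div_nhds_zero
    simpa using this
  have h14 : Tendsto (fun n : ℕ => (14 * (n : ℝ))) atTop atTop :=
    tendsto_natCast_atTop_atTop.const_mul_atTop (by norm_num)
  have hl2 := (hlog.comp h14).eventually (gt_mem_nhds (show (0 : ℝ) < ε / 392 by positivity))
  filter_upwards [hl2, eventually_ge_atTop 1] with n h1 hn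
  have hn' : (1 : ℝ) ≤ n := by exact_mod_cast hn
  have hn0 : (0 : ℝ) < n := by linarith
  have h2 := F6_low (K := 14 * n) (by omega)
  have h3 := F6_low (K := 7 * n) (by omega)
  have l14 : Real.log 14 = Real.log 2 + Real.log 7 := by
    rw [← Real.log_mul (by norm_num) (by norm_num)]; norm_num
  have e14 : F6_G ((14 * n : ℕ) : ℝ) = 98 * (n : ℝ) ^ 2 * Real.log n +
      (98 * Real.log 2 + 98 * Real.log 7 - 147) * (n : ℝ) ^ 2 := by
    unfold F6_G
    push_cast
    rw [Real.log_mul (by norm_num) hn0.ne', l14]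
    ring
  have e7 : F6_G ((7 * n : ℕ) : ℝ) = 49 / 2 * (n : ℝ) ^ 2 * Real.log n +
      (49 / 2 * Real.log 7 - 147 / 4) * (n : ℝ) ^ 2 := by
    unfold F6_G
    push_cast
    rw [Real.log_mul (by norm_num) hn0.ne']
    ring
  rw [e14] at h2
  rw [e7] at h3
  push_cast at h2 h3
  have h8 : Real.log (14 * n) < ε / 392 * (14 * n) := by
    have h9 : Real.log (14 * (n : ℝ)) / (14 * n) < ε / 392 := h1
    rwa [div_lt_iff₀ (by positivity)] at h9
  have h8' : Real.log (7 * n) ≤ ε / 392 * (14 * n) := by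
    refine le_trans (Real.log_le_log (by positivity) ?_) h8.le
    linarith
  have h10 : (14 * (n : ℝ)) * Real.log (14 * n) ≤ ε / 2 * (n : ℝ) ^ 2 := by
    have := mul_le_mul_of_nonneg_left h8.le (show (0 : ℝ) ≤ 14 * n by positivity)
    refine this.trans (le_of_eq ?_)
    ring
  have h10' : (7 * (n : ℝ)) * Real.log (7 * n) ≤ ε / 4 * (n : ℝ) ^ 2 := by
    have := mul_le_mul_of_nonneg_left h8' (show (0 : ℝ) ≤ 7 * n by positivity)
    refine this.trans (le_of_eq ?_)
    ring
  have h11 := mul_le_mul_of_nonneg_right F6_num (show (0 : ℝ) ≤ (n : ℝ) ^ 2 by positivity)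
  nlinarith [h2, h3, h10, h10', h11]

end

end Pool.Agent.LZ
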