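import Pool.Agent.H337R2.LZ.Defs
import Pool.Agent.H337R2.Count
import Pool.Agent.H574R2.D3.H2

/-!
# Tasks H1 and H2: exponents and principal coefficients at `n = p`
-/

open Polynomial Pool.Agent.H337R2

namespace Pool.Agent.LZ

noncomputable section

theorem H1_eL {p : ℕ} (hp : p.Prime) (hp2 : 12 < p) {k : ℕ} (hk : k ∈ sL p) : eL p p k = 0 := by
  have hpp : (0 : ℤ) < p := by exact_mod_cast hp.pos
  have hd : ∀ a : ℕ, a * p / p = a := fun a => Nat.mul_div_cancel a hp.pos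
  have hc : ∀ a b : ℕ, a ≤ b → (cnt p (a * p + 1) (b * p) k : ℤ) = b - a := by
    intro a b hab
    rw [cnt_eq p (a * p + 1) (b * p) k hp.pos (by
      have : a * p ≤ b * p := Nat.mul_le_mul_right p hab
      omega)]
    have h1 : (((b * p : ℕ) : ℤ) - k) / p = (-(k : ℤ)) / p + b := by
      rw [show ((b * p : ℕ) : ℤ) - k = -(k : ℤ) + b * p by push_cast; ring,
        Int.add_mul_ediv_right _ _ hpp.ne']
    have h2 : (((a * p + 1 : ℕ) : ℤ) - 1 - k) / p = (-(k : ℤ)) / p + a := by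
      rw [show ((a * p + 1 : ℕ) : ℤ) - 1 - k = -(k : ℤ) + a * p by push_cast; ring,
        Int.add_mul_ediv_right _ _ hpp.ne']
    rw [h1, h2]; ring
  have h0 := hc 0 2 (by norm_num)
  rw [zero_mul, zero_add] at h0
  unfold eL
  rw [hd, hd, hd, hd, h0, hc 2 12 (by norm_num), hc 3 12 (by norm_num), hc 4 12 (by norm_num)]
  norm_num

namespace H2y

set_option linter.unusedSectionVars false

open Pool.Agent.H336R2.HD.H2aux
open Pool.Agent.H574R2.D3.H2x (cls mem_cls prod_cls)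

variable {p : ℕ} [hp : Fact p.Prime]

def SA (p r : ℕ) : Finset ℕ := Finset.Icc 1 (2 * p) \ cls p r (Finset.range 2)
def SC (p r : ℕ) : Finset ℕ := Finset.Icc (2 * p + 1) (12 * p) \ cls p r (Finset.Icc 2 11)

lemma not_dvd_gen {r m : ℕ} (hr1 : 1 ≤ r) (hr2 : r ≤ p) (hm0 : 1 ≤ m) (hm : m ≤ 12 * p)
    (h : ∀ i, i < 12 → r + i * p ≠ m) : ¬ (p : ℤ) ∣ (m : ℤ) - r := by
  rintro ⟨c, hc⟩
  have hpp : (0 : ℤ) < p := by exact_mod_cast hp.out.pos
  have hc1 : c < 12 := by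
    by_contra h
    have h5 : (p : ℤ) * 12 ≤ p * c := mul_le_mul_of_nonneg_left (by omega) hpp.le
    omega
  have hc2 : -1 < c := by
    by_contra h
    have h5 : (p : ℤ) * c ≤ p * (-1) := mul_le_mul_of_nonneg_left (by omega) hpp.le
    omega
  apply h c.toNat (by omega)
  have h6 : ((c.toNat : ℕ) : ℤ) = c := Int.toNat_of_nonneg (by omega)
  have h7 : ((r + c.toNat * p : ℕ) : ℤ) = m := by
    push_cast
    rw [h6]
    linarith
  exact_mod_cast h7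

lemma SA_not_dvd {r m : ℕ} (hr1 : 1 ≤ r) (hr2 : r ≤ p) (hm : m ∈ SA p r) :
    ¬ (p : ℤ) ∣ (m : ℤ) - r := by
  unfold SA at hm
  rw [Finset.mem_sdiff, Finset.mem_Icc, mem_cls] at hm
  obtain ⟨⟨h0, h1⟩, h2⟩ := hm
  apply not_dvd_gen hr1 hr2 h0 (by omega)
  intro i hi hm
  apply h2
  refine ⟨i, ?_, hm⟩
  rw [Finset.mem_range]
  by_contra h
  have : 2 * p ≤ i * p := Nat.mul_le_mul_right p (by omega)
  omega

lemma SC_not_dvd {r m : ℕ} (hr1 : 1 ≤ r) (hr2 : r ≤ p) (hm : m ∈ SC p r) :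
    ¬ (p : ℤ) ∣ (m : ℤ) - r := by
  unfold SC at hm
  rw [Finset.mem_sdiff, Finset.mem_Icc, mem_cls] at hm
  obtain ⟨⟨h1, h3⟩, h2⟩ := hm
  apply not_dvd_gen hr1 hr2 (by omega) (by omega)
  intro i hi hm
  apply h2
  refine ⟨i, ?_, hm⟩
  rw [Finset.mem_Icc]
  constructor
  · by_contra h
    have : i * p ≤ 1 * p := Nat.mul_le_mul_right p (by omega)
    omega
  · omega

/-- the exact part -/
def FM (p : ℕ) (j e : ℕ) : PowerSeries ℚ :=
  (PowerSeries.X + PowerSeries.C (-(j : ℚ) * p)) * (PowerSeries.X + PowerSeries.C ((1 - (j : ℚ)) * p)) *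
  (∏ b ∈ (Finset.Icc 2 11).erase j, iv (((b : ℚ) - j) * p) ^ ml b) *
  (PowerSeries.X + PowerSeries.C (-(j : ℚ) * p)) ^ e

lemma sum_ml {j : ℕ} (hj2 : 2 ≤ j) (hj11 : j ≤ 11) :
    ∑ b ∈ (Finset.Icc 2 11).erase j, ml b = 27 - ml j := by
  interval_cases j <;> decide

lemma ml_le (j : ℕ) : ml j ≤ 3 := by
  unfold ml; split_ifs <;> omega

lemma FM_eq (hp0 : (p : ℚ) ≠ 0) {j : ℕ} (hj2 : 2 ≤ j) (hj11 : j ≤ 11) (e : ℕ) : FM p j e =
    PowerSeries.C ((p : ℚ) ^ 2 * ((p : ℚ)⁻¹) ^ (27 - ml j) * (p : ℚ) ^ e) *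
      PowerSeries.rescale ((p : ℚ)⁻¹) (ser j e) := by
  have hprod : ∏ b ∈ (Finset.Icc 2 11).erase j, iv (((b : ℚ) - j) * p) ^ ml b =
      PowerSeries.C ((p : ℚ)⁻¹) ^ (27 - ml j) * PowerSeries.rescale ((p : ℚ)⁻¹)
        (∏ b ∈ (Finset.Icc 2 11).erase j, iv ((b : ℚ) - j) ^ ml b) := by
    rw [map_prod]
    have h1 : PowerSeries.C ((p : ℚ)⁻¹) ^ (27 - ml j) =
        ∏ b ∈ (Finset.Icc 2 11).erase j, (PowerSeries.C ((p : ℚ)⁻¹) ^ ml b : PowerSeries ℚ) := by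
      rw [Finset.prod_pow_eq_pow_sum, sum_ml hj2 hj11]
    rw [h1, ← Finset.prod_mul_distrib]
    apply Finset.prod_congr rfl
    intro b _
    rw [iv_rescale hp0, mul_pow, map_pow]
  unfold FM ser
  rw [hprod, lin_rescale hp0, lin_rescale hp0]
  generalize (∏ b ∈ (Finset.Icc 2 11).erase j, iv ((b : ℚ) - j) ^ ml b) = PI0
  simp only [map_mul, map_pow]
  ring

lemma FM_coeff (hp0 : (p : ℚ) ≠ 0) {j : ℕ} (hj2 : 2 ≤ j) (hj11 : j ≤ 11) (e l : ℕ) :
    PowerSeries.coeff l (FM p j e) =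
    (p : ℚ) ^ 2 * ((p : ℚ)⁻¹) ^ (27 - ml j) * (p : ℚ) ^ e *
      (((p : ℚ)⁻¹) ^ l * PowerSeries.coeff l (ser j e)) := by
  rw [FM_eq hp0 hj2 hj11, PowerSeries.coeff_C_mul, PowerSeries.coeff_rescale]

lemma FM_PB (hp100 : 100 ≤ p) {j : ℕ} (hj2 : 2 ≤ j) (hj11 : j ≤ 11) (e : ℕ) :
    PB p (p : ℚ) (((p : ℚ)⁻¹) ^ 2 * (p : ℚ) ^ (27 - ml j) * ((p : ℚ)⁻¹) ^ e) (FM p j e) := by
  have hp0 : (0 : ℚ) ≤ p := p_pos'.le
  have hinv : (0 : ℚ) ≤ (p : ℚ)⁻¹ := inv_nonneg.2 hp0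
  have e1 : PB p (p : ℚ) (p : ℚ)⁻¹ (PowerSeries.X + PowerSeries.C (-(j : ℚ) * p)) :=
    PB_linp (-(j : ℤ)) (by push_cast; ring)
  have e2 : PB p (p : ℚ) (p : ℚ)⁻¹ (PowerSeries.X + PowerSeries.C ((1 - (j : ℚ)) * p)) :=
    PB_linp (1 - (j : ℤ)) (by push_cast; ring)
  have f1 := PB.mul hp0 hinv hinv e1 e2
  have f2 : PB p (p : ℚ) (∏ b ∈ (Finset.Icc 2 11).erase j, (p : ℚ) ^ ml b)
      (∏ b ∈ (Finset.Icc 2 11).erase j, iv (((b : ℚ) - j) * p) ^ ml b) := by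
    apply PB.prod _ _ _ hp0
    · intro b _; positivity
    · intro b hb
      rw [Finset.mem_erase, Finset.mem_Icc] at hb
      apply PB.pow hp0 hp0
      apply PB_ivp (a := (b : ℤ) - j) (by push_cast; ring)
      apply not_dvd_of_lt
      · have := hb.1
        omega
      · omega
      · omega
  have f3 := PB.pow hp0 hinv e1 e
  rw [Finset.prod_pow_eq_pow_sum, sum_ml hj2 hj11] at f2
  rw [← pow_two] at f1
  exact PB.mul hp0 (by positivity) (by positivity) (PB.mul hp0 (by positivity) (by positivity) f1 f2) f3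

/-- the constant -/
def wM (p r : ℕ) : ℚ :=
  (∏ m ∈ SA p r, ((m : ℚ) - r)) *
  (∏ r' ∈ (Finset.Icc 1 p).erase r, ((r' : ℚ) - r) ^ 21) *
  ∏ m ∈ SC p r, (((m : ℚ) - r)⁻¹) ^ mL p m

/-- the unit part -/
def GM (p r k : ℕ) : PowerSeries ℚ :=
  (∏ m ∈ SA p r, (PowerSeries.X + PowerSeries.C (-(k : ℚ) + m))) *
  (∏ r' ∈ (Finset.Icc 1 p).erase r, (PowerSeries.X + PowerSeries.C (-(k : ℚ) + r')) ^ 21) *
  (∏ m ∈ SC p r, iv (-(k : ℚ) + m) ^ mL p m)

lemma GM_UC {r : ℕ} (hr1 : 1 ≤ r) (hr2 : r ≤ p) (j : ℕ) :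
    UC p (GM p r (r + j * p)) (wM p r) := by
  unfold GM wM
  refine UC.mul (UC.mul ?_ ?_) ?_
  · apply UC.prod
    intro m hm
    apply UC.lin (a := -((r + j * p : ℕ) : ℤ) + m) (a0 := (m : ℤ) - r)
    · push_cast; ring
    · push_cast; ring
    · exact SA_not_dvd hr1 hr2 hm
    · refine ⟨-j, ?_⟩
      push_cast; ring
  · apply UC.prod
    intro r' hr'
    rw [Finset.mem_erase, Finset.mem_Icc] at hr'
    apply UC.pow
    apply UC.lin (a := -((r + j * p : ℕ) : ℤ) + r') (a0 := (r' : ℤ) - r)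
    · push_cast; ring
    · push_cast; ring
    · exact not_dvd_of_lt (by omega) (by omega) (by omega)
    · refine ⟨-j, ?_⟩
      push_cast; ring
  · apply UC.prod
    intro m hm
    apply UC.pow
    apply UC.iv (a := -((r + j * p : ℕ) : ℤ) + m) (a0 := (m : ℤ) - r)
    · push_cast; ring
    · push_cast; ring
    · exact SC_not_dvd hr1 hr2 hm
    · refine ⟨-j, ?_⟩
      push_cast; ring

/-! ### the numerator -/

lemma TS_num2 (p r e k : ℕ) : TS (-(k : ℚ)) (PL p * ((X + C (r : ℚ)) ^ e * OT p r 21)) =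
    PowerSeries.C (cL p) *
    (∏ m ∈ Finset.Icc 1 (2 * p), (PowerSeries.X + PowerSeries.C (-(k : ℚ) + m))) *
    ((PowerSeries.X + PowerSeries.C (-(k : ℚ) + r)) ^ e *
    ∏ r' ∈ (Finset.Icc 1 p).erase r, (PowerSeries.X + PowerSeries.C (-(k : ℚ) + r')) ^ 21) := by
  unfold PL OT
  simp only [map_mul, map_pow, map_prod, TS_C, TS_lin]

lemma mL_site {r : ℕ} (hr1 : 1 ≤ r) (hr2 : r ≤ p) {j : ℕ} (hj2 : 2 ≤ j) :
    mL p (r + j * p) = ml j := by
  unfold mL ml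
  rcases Nat.lt_or_ge j 3 with h | h
  · have : j = 2 := by omega
    subst this
    rw [if_pos (by omega), if_pos (by omega)]
  rcases Nat.lt_or_ge j 4 with h' | h'
  · have : j = 3 := by omega
    subst this
    rw [if_neg (by omega), if_pos (by omega), if_neg (by omega), if_pos (by omega)]
  · have : 4 * p ≤ j * p := Nat.mul_le_mul_right p h'
    rw [if_neg (by omega), if_neg (by omega), if_neg (by omega), if_neg (by omega)]

lemma VV_den2 (hp100 : 100 ≤ p) {r : ℕ} (hr1 : 1 ≤ r) (hr2 : r ≤ p) {j : ℕ} (hj2 : 2 ≤ j)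
    (hj11 : j ≤ 11) :
    VV ((sL p).erase (r + j * p)) (mL p) (-((r + j * p : ℕ) : ℚ)) =
      (∏ m ∈ SC p r, iv (-((r + j * p : ℕ) : ℚ) + m) ^ mL p m) *
      ∏ b ∈ (Finset.Icc 2 11).erase j, iv (((b : ℚ) - j) * p) ^ ml b := by
  have hjp1 : 2 * p ≤ j * p := Nat.mul_le_mul_right p hj2
  have hjp2 : j * p ≤ 11 * p := Nat.mul_le_mul_right p hj11
  have hVV : VV ((sL p).erase (r + j * p)) (mL p) (-((r + j * p : ℕ) : ℚ)) =
      ∏ m ∈ (sL p).erase (r + j * p), iv (-((r + j * p : ℕ) : ℚ) + m) ^ mL p m := rfl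
  rw [hVV]
  have hsub : cls p r ((Finset.Icc 2 11).erase j) ⊆ (sL p).erase (r + j * p) := by
    intro m hm
    rw [mem_cls] at hm
    obtain ⟨i, hi, rfl⟩ := hm
    rw [Finset.mem_erase, Finset.mem_Icc] at hi
    have hi1 : 2 * p ≤ i * p := Nat.mul_le_mul_right p hi.2.1
    have hi2 : i * p ≤ 11 * p := Nat.mul_le_mul_right p hi.2.2
    rw [Finset.mem_erase, Finset.mem_Icc]
    refine ⟨?_, by omega, by omega⟩
    intro h
    apply hi.1
    have h7 : i * p = j * p := by omega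
    exact Nat.eq_of_mul_eq_mul_right (by omega) h7
  rw [prod_cls (p := p) r _ _ hsub, mul_comm]
  have hset : (sL p).erase (r + j * p) \ cls p r ((Finset.Icc 2 11).erase j) = SC p r := by
    ext m
    unfold SC
    rw [Finset.mem_sdiff, Finset.mem_sdiff, Finset.mem_erase, mem_cls, mem_cls]
    constructor
    · rintro ⟨⟨h1, h2⟩, h3⟩
      refine ⟨h2, ?_⟩
      rintro ⟨i, hi, hm⟩
      apply h3
      refine ⟨i, ?_, hm⟩
      rw [Finset.mem_erase]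
      refine ⟨?_, hi⟩
      rintro rfl
      exact h1 hm.symm
    · rintro ⟨h1, h2⟩
      refine ⟨⟨?_, h1⟩, ?_⟩
      · rintro rfl
        exact h2 ⟨j, by rw [Finset.mem_Icc]; omega, rfl⟩
      · rintro ⟨i, hi, hm⟩
        exact h2 ⟨i, Finset.mem_of_mem_erase hi, hm⟩
  rw [hset]
  have h6 : ∀ b : ℕ, -((r + j * p : ℕ) : ℚ) + ((r + b * p : ℕ) : ℚ) = ((b : ℚ) - j) * p := by
    intro b
    push_cast
    ring
  have h7 : ∏ i ∈ (Finset.Icc 2 11).erase j,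
      iv (-((r + j * p : ℕ) : ℚ) + ((r + i * p : ℕ) : ℚ)) ^ mL p (r + i * p) =
      ∏ b ∈ (Finset.Icc 2 11).erase j, iv (((b : ℚ) - j) * p) ^ ml b := by
    refine Finset.prod_congr rfl fun b hb => ?_
    rw [Finset.mem_erase, Finset.mem_Icc] at hb
    rw [h6, mL_site hr1 hr2 hb.2.1]
  rw [h7]

/-- the factorisation -/
lemma factor2 (hp100 : 100 ≤ p) {r : ℕ} (hr1 : 1 ≤ r) (hr2 : r ≤ p) {j : ℕ} (hj2 : 2 ≤ j)
    (hj11 : j ≤ 11) (e : ℕ) :
    TS (-((r + j * p : ℕ) : ℚ)) (PL p * ((X + C (r : ℚ)) ^ e * OT p r 21)) *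
      VV ((sL p).erase (r + j * p)) (mL p) (-((r + j * p : ℕ) : ℚ)) =
    PowerSeries.C (cL p) * (FM p j e * GM p r (r + j * p)) := by
  rw [TS_num2, VV_den2 hp100 hr1 hr2 hj2 hj11]
  have v1 : -((r + j * p : ℕ) : ℚ) + (r : ℚ) = -(j : ℚ) * p := by push_cast; ring
  have h6 : ∀ b : ℕ, -((r + j * p : ℕ) : ℚ) + ((r + b * p : ℕ) : ℚ) = ((b : ℚ) - j) * p := by
    intro b
    push_cast
    ring
  have hA : ∏ m ∈ Finset.Icc 1 (2 * p), (PowerSeries.X + PowerSeries.C (-((r + j * p : ℕ) : ℚ) + m)) =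
      ((PowerSeries.X + PowerSeries.C (-(j : ℚ) * p)) *
        (PowerSeries.X + PowerSeries.C ((1 - (j : ℚ)) * p))) *
      ∏ m ∈ SA p r, (PowerSeries.X + PowerSeries.C (-((r + j * p : ℕ) : ℚ) + m)) := by
    rw [prod_cls (p := p) r (Finset.Icc 1 (2 * p)) (Finset.range 2)]
    · simp only [h6]
      rw [Finset.prod_range_succ, Finset.prod_range_one, Nat.cast_zero, Nat.cast_one, zero_sub]
      rfl
    · intro m hm
      rw [mem_cls] at hm
      obtain ⟨i, hi, rfl⟩ := hm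
      rw [Finset.mem_range] at hi
      have hi2 : i * p ≤ 1 * p := Nat.mul_le_mul_right p (by omega)
      rw [Finset.mem_Icc]
      omega
  rw [hA, v1]
  unfold FM GM
  generalize ∏ m ∈ SA p r, (PowerSeries.X + PowerSeries.C (-((r + j * p : ℕ) : ℚ) + m) : PowerSeries ℚ) = a1
  generalize ∏ m ∈ SC p r, iv (-((r + j * p : ℕ) : ℚ) + m) ^ mL p m = a3
  generalize ∏ b ∈ (Finset.Icc 2 11).erase j, iv (((b : ℚ) - j) * p) ^ ml b = a4
  generalize ∏ r' ∈ (Finset.Icc 1 p).erase r,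
    (PowerSeries.X + PowerSeries.C (-((r + j * p : ℕ) : ℚ) + r') : PowerSeries ℚ) ^ 21 = a5
  generalize (PowerSeries.X + PowerSeries.C (-(j : ℚ) * p)) ^ e = a6
  ring

lemma norm_cL (hp100 : 100 ≤ p) : padicNorm p (cL p) = ((p : ℚ)⁻¹) ^ 25 := by
  have hpp : (0 : ℚ) < p := p_pos'
  have hf : ∀ a : ℕ, a ≤ 10 → padicNorm p (((a * p).factorial : ℕ) : ℚ) = ((p : ℚ)⁻¹) ^ a := by
    intro a ha
    have h1 : a * p < p ^ 2 := by nlinarith
    rw [norm_factorial h1, Nat.mul_div_cancel _ (by omega : 0 < p)]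
    simp
  unfold cL
  rw [padicNorm.div]
  push_cast
  rw [padicNorm.mul, padicNorm.mul, hf 10 (by norm_num), hf 9 (by norm_num), hf 8 (by norm_num),
    hf 2 (by norm_num)]
  field_simp

end H2y

open H2y
open Pool.Agent.H336R2.HD.H2aux (coeff_mul_UC)

theorem H2_pa {p : ℕ} [Fact p.Prime] (hp : 100 ≤ p) (r : ℕ) (hr1 : 1 ≤ r) (hr2 : r ≤ p) :
    ∃ w : ℚ, padicNorm p w = 1 ∧ ∀ e j i : ℕ, e ≤ 19 → 2 ≤ j → j ≤ 11 → 1 ≤ i → i ≤ ml j →
      padicNorm p (pa (sL p) (mL p) (PL p * ((X + C (r : ℚ)) ^ e * OT p r 21)) (r + j * p) i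
        / (p : ℚ) ^ (i + e) -
        w * PowerSeries.coeff (ml j - i) (ser j e)) ≤ (p : ℚ)⁻¹ := by
  have hp0 : (p : ℚ) ≠ 0 := p_pos'.ne'
  have hpp : (0 : ℚ) < p := p_pos'
  have hcst := norm_cL hp
  refine ⟨cL p / (p : ℚ) ^ 25 * wM p r, ?_, ?_⟩
  · have h0 := (GM_UC hr1 hr2 0).1
    rw [padicNorm.mul, padicNorm.div, hcst, h0, padicNorm_pow', padicNorm.padicNorm_p_of_prime, mul_one]
    exact div_self (by positivity)
  · intro e j i he hj2 hj11 hi1 hi2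
    have hml := ml_le j
    unfold pa
    rw [mL_site hr1 hr2 hj2, if_pos hi2]
    unfold pfc
    rw [factor2 hp hr1 hr2 hj2 hj11 e, PowerSeries.coeff_C_mul]
    have h1 := coeff_mul_UC (p := p) (by positivity) (FM_PB hp hj2 hj11 e) (GM_UC hr1 hr2 j) (ml j - i)
    have h2 := FM_coeff hp0 hj2 hj11 e (ml j - i)
    set X1 := PowerSeries.coeff (ml j - i) (FM p j e * GM p r (r + j * p)) with hX1
    set X2 := PowerSeries.coeff (ml j - i) (FM p j e) with hX2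
    set q : ℚ := (p : ℚ)⁻¹ with hq
    have hq0 : q ≠ 0 := inv_ne_zero hp0
    have hqpos : 0 < q := inv_pos.2 hpp
    have hpq : (p : ℚ) * q = 1 := mul_inv_cancel₀ hp0
    have hE : 27 - ml j + (ml j - i) + (i + 25) = 27 + 25 := by omega
    have hpow : (p : ℚ) ^ 2 * q ^ (27 - ml j) * (p : ℚ) ^ e * q ^ (ml j - i) * (p : ℚ) ^ 25 =
        (p : ℚ) ^ (i + e) := by
      have h3 : q ^ (27 - ml j) * q ^ (ml j - i) * (p : ℚ) ^ 27 = (p : ℚ) ^ i := by
        have h4 : (p : ℚ) ^ 27 = (p : ℚ) ^ (27 - ml j) * (p : ℚ) ^ (ml j - i) * (p : ℚ) ^ i := by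
          rw [← pow_add, ← pow_add]; congr 1; omega
        rw [h4]
        calc q ^ (27 - ml j) * q ^ (ml j - i) * ((p : ℚ) ^ (27 - ml j) * (p : ℚ) ^ (ml j - i) * (p : ℚ) ^ i)
            = ((p : ℚ) * q) ^ (27 - ml j) * ((p : ℚ) * q) ^ (ml j - i) * (p : ℚ) ^ i := by
              rw [mul_pow, mul_pow]; ring
          _ = (p : ℚ) ^ i := by rw [hpq, one_pow, one_pow, one_mul, one_mul]
      calc (p : ℚ) ^ 2 * q ^ (27 - ml j) * (p : ℚ) ^ e * q ^ (ml j - i) * (p : ℚ) ^ 25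
          = (q ^ (27 - ml j) * q ^ (ml j - i) * (p : ℚ) ^ 27) * (p : ℚ) ^ e := by ring
        _ = (p : ℚ) ^ (i + e) := by rw [h3, pow_add]
    have h6 : cL p * X1 / (p : ℚ) ^ (i + e) -
        cL p / (p : ℚ) ^ 25 * wM p r * PowerSeries.coeff (ml j - i) (ser j e) =
        cL p / (p : ℚ) ^ (i + e) * (X1 - X2 * wM p r) := by
      rw [h2, mul_sub]
      congr 1
      · ring
      · rw [← hpow]
        have h7 : q ^ (27 - ml j) ≠ 0 := by positivity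
        have h8 : q ^ (ml j - i) ≠ 0 := by positivity
        generalize q ^ (27 - ml j) = c1 at *
        generalize q ^ (ml j - i) = c2 at *
        field_simp
    rw [h6, padicNorm.mul, padicNorm.div, hcst, padicNorm_pow', padicNorm.padicNorm_p_of_prime]
    calc q ^ 25 / q ^ (i + e) * padicNorm p (X1 - X2 * wM p r)
        ≤ q ^ 25 / q ^ (i + e) *
          (q ^ 2 * (p : ℚ) ^ (27 - ml j) * q ^ e * q * (p : ℚ) ^ (ml j - i)) :=
          mul_le_mul_of_nonneg_left h1 (by positivity)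
      _ = q := by
        have h9 : (p : ℚ) ^ (27 - ml j) * (p : ℚ) ^ (ml j - i) * q ^ 27 = q ^ i := by
          have h4 : q ^ 27 = q ^ (27 - ml j) * q ^ (ml j - i) * q ^ i := by
            rw [← pow_add, ← pow_add]; congr 1; omega
          rw [h4]
          calc (p : ℚ) ^ (27 - ml j) * (p : ℚ) ^ (ml j - i) * (q ^ (27 - ml j) * q ^ (ml j - i) * q ^ i)
              = ((p : ℚ) * q) ^ (27 - ml j) * ((p : ℚ) * q) ^ (ml j - i) * q ^ i := by
                rw [mul_pow, mul_pow]; ring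
            _ = q ^ i := by rw [hpq, one_pow, one_pow, one_mul, one_mul]
        have h10 : q ^ (i + e) ≠ 0 := by positivity
        rw [div_mul_eq_mul_div, div_eq_iff h10]
        calc q ^ 25 * (q ^ 2 * (p : ℚ) ^ (27 - ml j) * q ^ e * q * (p : ℚ) ^ (ml j - i))
            = ((p : ℚ) ^ (27 - ml j) * (p : ℚ) ^ (ml j - i) * q ^ 27) * (q ^ e * q) := by ring
          _ = q * q ^ (i + e) := by
            rw [h9, pow_add]; ring

end

end Pool.Agent.LZ
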