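import Pool.Agent.H337R2.LZ.H3pre
import Pool.Agent.H337R2.LZ.C1
import Pool.Agent.H337R2.LZ.H2

/-!
# H3: the diagonal entries modulo p
-/

open Polynomial Pool.Agent.H337R2

namespace Pool.Agent.LZ

open H3

theorem H3_diag {p : ℕ} [Fact p.Prime] (hp : 100 ≤ p) (α β : ℚ) (hα : padicNorm p α ≤ 1)
    (hβ : padicNorm p β ≤ 1) (r : ℕ) (hr1 : 1 ≤ r) (hr2 : r ≤ p) :
    ∃ w : ℚ, padicNorm p w = 1 ∧ ∀ e : ℕ, e ≤ 19 →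
      padicNorm p ((p : ℚ) ^ (-(e : ℤ)) * AL p α ((X + C (r : ℚ)) ^ e * OT p r 21) - w * Fm e) ≤ (p : ℚ)⁻¹ ∧
      padicNorm p ((p : ℚ) ^ (-(e : ℤ) - 2) * BL p β ((X + C (r : ℚ)) ^ e * OT p r 21) - w * Bm e) ≤ (p : ℚ)⁻¹ :=
  H3_of (fun E _ hk A hA hE i => C1_pa (by omega) (by nlinarith) E hk A hA hE i) (by omega) α β
    hα hβ r hr1 hr2 (H2_pa hp r hr1 hr2)

end Pool.Agent.LZ
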