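import Pool.Agent.H337R2.LZ.Defs
import Pool.Agent.H336R2.HD.H1

/-! Task H3 (helper259): the diagonal blocks; `C1_pa` and `H2_pa` enter as hypotheses. -/

open Polynomial Pool.Agent.H337R2

namespace Pool.Agent.LZ.H3

noncomputable section

variable {p : ℕ} [hp : Fact p.Prime]

/-! ### the exponent `eL` -/

theorem eL_val (k : ℕ) : eL p p k = 0 := by
  have hp0 : 0 < p := hp.out.pos
  have hpz : (p : ℤ) ≠ 0 := by exact_mod_cast hp0.ne'
  have e0 : (cnt p 1 (2 * p) k : ℤ) = 2 := by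
    rw [cnt_eq p 1 (2 * p) k hp0 (by omega),
      show ((2 * p : ℕ) : ℤ) - k = -(k : ℤ) + p * 2 by push_cast; ring,
      show ((1 : ℕ) : ℤ) - 1 - k = -(k : ℤ) by push_cast; ring,
      Int.add_mul_ediv_left _ _ hpz]
    ring
  have e1 : (cnt p (2 * p + 1) (12 * p) k : ℤ) = 10 := by
    rw [cnt_eq p (2 * p + 1) (12 * p) k hp0 (by omega)]
    push_cast
    rw [show (12 : ℤ) * p - k = (2 * (p : ℤ) + 1 - 1 - (k : ℤ)) + p * 10 by ring,
      Int.add_mul_ediv_left _ _ hpz]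
    ring
  have e2 : (cnt p (3 * p + 1) (12 * p) k : ℤ) = 9 := by
    rw [cnt_eq p (3 * p + 1) (12 * p) k hp0 (by omega)]
    push_cast
    rw [show (12 : ℤ) * p - k = (3 * (p : ℤ) + 1 - 1 - (k : ℤ)) + p * 9 by ring,
      Int.add_mul_ediv_left _ _ hpz]
    ring
  have e3 : (cnt p (4 * p + 1) (12 * p) k : ℤ) = 8 := by
    rw [cnt_eq p (4 * p + 1) (12 * p) k hp0 (by omega)]
    push_cast
    rw [show (12 : ℤ) * p - k = (4 * (p : ℤ) + 1 - 1 - (k : ℤ)) + p * 8 by ring,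
      Int.add_mul_ediv_left _ _ hpz]
    ring
  unfold eL
  rw [e0, e1, e2, e3, Nat.mul_div_cancel _ hp0, Nat.mul_div_cancel _ hp0,
    Nat.mul_div_cancel _ hp0, Nat.mul_div_cancel _ hp0]
  norm_num

/-! ### the numerator -/

/-- the polynomial -/
def Qr (p r e : ℕ) : ℚ[X] := (X + C (r : ℚ)) ^ e * OT p r 21

theorem inv0 : (0 : ℚ) ≤ (p : ℚ)⁻¹ := inv_nonneg.2 p_pos'.le

theorem one_le_p : (1 : ℚ) ≤ p := by exact_mod_cast hp.out.one_lt.le

theorem PB_lin1 (a : ℤ) (k : ℕ) : PB p (p : ℚ) 1 (TS (-(k : ℚ)) (X + C (a : ℚ))) := by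
  rw [TS_lin]
  apply PB.linX p_pos'.le zero_le_one
  · have := padicNorm.of_int (p := p) (-(k : ℤ) + a)
    push_cast at this
    exact this
  · rw [one_mul]; exact one_le_p

theorem PB_linp (a : ℤ) (k : ℕ) (h : (p : ℤ) ∣ a - k) :
    PB p (p : ℚ) (p : ℚ)⁻¹ (TS (-(k : ℚ)) (X + C (a : ℚ))) := by
  rw [TS_lin]
  apply PB.linX p_pos'.le inv0
  · have := norm_le_ite (p := p) (a - k)
    rw [if_pos h] at this
    rw [show -(k : ℚ) + a = ((a - k : ℤ) : ℚ) by push_cast; ring]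
    exact this
  · rw [inv_mul_cancel₀ p_pos'.ne']

theorem PB_Xr (r k : ℕ) : PB p (p : ℚ) 1 (TS (-(k : ℚ)) (X + C (r : ℚ))) := by
  have h1 := PB_lin1 (p := p) (r : ℤ) k
  push_cast at h1
  exact h1

theorem PB_Xrp (r k : ℕ) (h : (p : ℤ) ∣ (k : ℤ) - r) :
    PB p (p : ℚ) (p : ℚ)⁻¹ (TS (-(k : ℚ)) (X + C (r : ℚ))) := by
  have h1 := PB_linp (p := p) (r : ℤ) k (by
      rw [show (r : ℤ) - k = -((k : ℤ) - r) by ring, dvd_neg]; exact h)
  push_cast at h1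
  exact h1

/-- all factors with individual bounds -/
theorem PB_EE (c r e k : ℕ) (ar : ℚ) (a : ℕ → ℚ) (hr : 0 ≤ ar) (ha : ∀ r', 0 ≤ a r')
    (br : PB p (p : ℚ) ar (TS (-(k : ℚ)) (X + C (r : ℚ))))
    (b : ∀ r' ∈ (Finset.Icc 1 p).erase r,
      PB p (p : ℚ) (a r') (TS (-(k : ℚ)) (X + C (r' : ℚ)))) :
    PB p (p : ℚ) (ar ^ e * ∏ r' ∈ (Finset.Icc 1 p).erase r, a r' ^ c)
      (TS (-(k : ℚ)) ((X + C (r : ℚ)) ^ e * OT p r c)) := by
  unfold OT
  rw [map_mul, map_pow, map_prod]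
  simp only [map_pow]
  have h1 := PB.prod (p := p) ((Finset.Icc 1 p).erase r) (fun r' => a r' ^ c)
    (fun r' => (TS (-(k : ℚ)) (X + C (r' : ℚ))) ^ c) p_pos'.le
    (fun r' _ => pow_nonneg (ha r') _) (fun r' hr' => PB.pow p_pos'.le (ha r') (b r' hr') c)
  exact PB.mul p_pos'.le (pow_nonneg hr _)
    (Finset.prod_nonneg fun r' _ => pow_nonneg (ha r') _) (PB.pow p_pos'.le hr br e) h1

theorem PB_near (c r e k : ℕ) (h : (p : ℤ) ∣ (k : ℤ) - r) :
    PB p (p : ℚ) ((p : ℚ)⁻¹ ^ e) (TS (-(k : ℚ)) ((X + C (r : ℚ)) ^ e * OT p r c)) := by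
  have := PB_EE (p := p) c r e k (p : ℚ)⁻¹ (fun _ => 1) inv0 (fun _ => zero_le_one)
    (PB_Xrp r k h) (fun r' _ => PB_Xr r' k)
  simpa using this

theorem PB_far (c r e k r'' : ℕ) (hr'' : r'' ∈ Finset.Icc 1 p) (hne : r'' ≠ r)
    (h : (p : ℤ) ∣ (k : ℤ) - r'') :
    PB p (p : ℚ) ((p : ℚ)⁻¹ ^ c) (TS (-(k : ℚ)) ((X + C (r : ℚ)) ^ e * OT p r c)) := by
  classical
  have := PB_EE (p := p) c r e k 1 (fun r' => if r' = r'' then (p : ℚ)⁻¹ else 1)
    zero_le_one (fun r' => by split_ifs; exacts [inv0, zero_le_one]) (PB_Xr r k)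
    (fun r' _ => by
      split_ifs with h'
      · rw [h']; exact PB_Xrp r'' k h
      · exact PB_Xr r' k)
  have h2 : ∏ r' ∈ (Finset.Icc 1 p).erase r, (if r' = r'' then (p : ℚ)⁻¹ else 1) ^ c =
      (p : ℚ)⁻¹ ^ c := by
    rw [Finset.prod_eq_single r'']
    · rw [if_pos rfl]
    · intro b _ hb
      rw [if_neg hb, one_pow]
    · intro h3
      exact absurd (Finset.mem_erase.2 ⟨hne, hr''⟩) h3
  rw [h2] at this
  simpa using this

theorem exists_rep (k : ℕ) : ∃ r'' ∈ Finset.Icc 1 p, (p : ℤ) ∣ (k : ℤ) - r'' := by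
  have hp0 := hp.out.pos
  have hm := Nat.mod_lt k hp0
  have hdm := Nat.div_add_mod k p
  have hdz : (k : ℤ) = p * ((k / p : ℕ) : ℤ) + ((k % p : ℕ) : ℤ) := by exact_mod_cast hdm.symm
  by_cases h : k % p = 0
  · refine ⟨p, Finset.mem_Icc.2 ⟨by omega, le_rfl⟩, ((k / p : ℕ) : ℤ) - 1, ?_⟩
    rw [h, Nat.cast_zero, add_zero] at hdz
    rw [mul_sub, mul_one, ← hdz]
  · refine ⟨k % p, Finset.mem_Icc.2 ⟨by omega, by omega⟩, ((k / p : ℕ) : ℤ), ?_⟩
    linarith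

/-- statement of `C1_pa` for `n = p` -/
def C1st (p : ℕ) : Prop := ∀ (E : ℚ[X]) (k : ℕ), k ∈ sL p → ∀ (A : ℚ), 0 ≤ A →
  PB p (p : ℚ) A (TS (-(k : ℚ)) E) → ∀ i : ℕ,
    padicNorm p (pa (sL p) (mL p) (PL p * E) k i) ≤ (p : ℚ) ^ (-eL p p k - i : ℤ) * A

/-- the coefficients -/
def cf (p r e k i : ℕ) : ℚ := pa (sL p) (mL p) (PL p * Qr p r e) k i

/-- bound of the coefficients in the class of `r` -/
theorem pa_near (hC : C1st p) (r e k i : ℕ) (hk : k ∈ sL p) (h : (p : ℤ) ∣ (k : ℤ) - r) :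
    padicNorm p (cf p r e k i) ≤ (p : ℚ) ^ (-(i : ℤ) - e) := by
  have h1 := hC (Qr p r e) k hk _ (pow_nonneg inv0 e) (PB_near 21 r e k h) i
  refine h1.trans (le_of_eq ?_)
  rw [eL_val k, inv_pow, ← zpow_natCast, ← zpow_neg, ← zpow_add₀ p_pos'.ne']
  congr 1
  ring

/-- bound of the coefficients in the other classes -/
theorem pa_far (hC : C1st p) (r e k i : ℕ) (hk : k ∈ sL p) (h : ¬ (p : ℤ) ∣ (k : ℤ) - r) :
    padicNorm p (cf p r e k i) ≤ (p : ℚ) ^ (-(i : ℤ) - 21) := by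
  obtain ⟨r'', hr'', h''⟩ := exists_rep (p := p) k
  have h1 := hC (Qr p r e) k hk _ (pow_nonneg inv0 21)
    (PB_far 21 r e k r'' hr'' (fun e => h (e ▸ h'')) h'') i
  refine h1.trans (le_of_eq ?_)
  rw [eL_val k, inv_pow, ← zpow_natCast, ← zpow_neg, ← zpow_add₀ p_pos'.ne']
  congr 1
  push_cast
  ring

/-! ### splitting the sum over the poles -/

omit hp in
theorem mL_class {r j : ℕ} (hr1 : 1 ≤ r) (hr2 : r ≤ p) (hj : j ∈ Finset.Icc 2 11) :
    mL p (r + j * p) = ml j := by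
  rw [Finset.mem_Icc] at hj
  obtain ⟨h1, h2⟩ := hj
  unfold mL ml
  interval_cases j <;> split_ifs <;> first | rfl | omega

omit hp in
theorem sum_split {r : ℕ} (hp0 : 0 < p) (hr1 : 1 ≤ r) (hr2 : r ≤ p) : ∃ S ⊆ sL p,
    (∀ k ∈ S, ∀ j ∈ Finset.Icc 2 11, k ≠ r + j * p) ∧
    ∀ g : ℕ → ℚ, ∑ k ∈ sL p, g k =
      (∑ j ∈ Finset.Icc 2 11, g (r + j * p)) + ∑ k ∈ S, g k := by
  classical
  have hb : ∀ j ∈ Finset.Icc 2 11, 2 * p ≤ j * p ∧ j * p ≤ 11 * p := fun j hj => by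
    rw [Finset.mem_Icc] at hj
    exact ⟨Nat.mul_le_mul_right p hj.1, Nat.mul_le_mul_right p hj.2⟩
  have hsub : (Finset.Icc 2 11).image (fun j => r + j * p) ⊆ sL p := by
    intro k hk
    rw [Finset.mem_image] at hk
    rw [Finset.mem_Icc]
    obtain ⟨j, hj, rfl⟩ := hk
    have := hb j hj
    omega
  refine ⟨sL p \ (Finset.Icc 2 11).image (fun j => r + j * p), Finset.sdiff_subset, ?_, ?_⟩
  · intro k hk j hj
    rw [Finset.mem_sdiff] at hk
    exact fun h => hk.2 (Finset.mem_image.2 ⟨j, hj, h.symm⟩)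
  · intro g
    have h1 : ∑ j ∈ Finset.Icc 2 11, g (r + j * p) =
        ∑ k ∈ (Finset.Icc 2 11).image (fun j => r + j * p), g k := by
      rw [Finset.sum_image]
      intro a _ b _ hab
      have : a * p = b * p := by simpa using hab
      exact Nat.eq_of_mul_eq_mul_right (by omega) this
    rw [h1, add_comm]
    exact (Finset.sum_sdiff hsub).symm

theorem rest_class {r k : ℕ} (hr1 : 1 ≤ r) (hr2 : r ≤ p) (hk : k ∈ sL p)
    (h : ∀ j ∈ Finset.Icc 2 11, k ≠ r + j * p) :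
    ¬ (p : ℤ) ∣ (k : ℤ) - r := by
  have hp0 := hp.out.pos
  rw [Finset.mem_Icc] at hk
  obtain ⟨h1, h2⟩ := hk
  rintro ⟨m, hm⟩
  have hm' : (k : ℤ) = r + p * m := by linarith
  have h3 : 1 < m := by
    by_contra hcon
    push Not at hcon
    have := mul_le_mul_of_nonneg_left hcon (by positivity : (0 : ℤ) ≤ p)
    have h1' : (2 : ℤ) * p + 1 ≤ k := by exact_mod_cast h1
    have h2' : (r : ℤ) ≤ p := by exact_mod_cast hr2
    linarith
  have h4 : m < 12 := by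
    by_contra hcon
    push Not at hcon
    have := mul_le_mul_of_nonneg_left hcon (by positivity : (0 : ℤ) ≤ p)
    have h1' : (k : ℤ) ≤ 12 * p := by exact_mod_cast h2
    have h2' : (1 : ℤ) ≤ r := by exact_mod_cast hr1
    linarith
  have h5 := h m.toNat (by rw [Finset.mem_Icc]; omega)
  apply h5
  have h6 : ((m.toNat : ℕ) : ℤ) = m := Int.toNat_of_nonneg (by omega)
  have : (k : ℤ) = ((r + m.toNat * p : ℕ) : ℤ) := by
    push_cast
    rw [h6, hm']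
    ring
  exact_mod_cast this

/-! ### small facts on norms -/

theorem nadd {a b c : ℚ} (ha : padicNorm p a ≤ c) (hb : padicNorm p b ≤ c) :
    padicNorm p (a + b) ≤ c := padicNorm.nonarchimedean.trans (max_le ha hb)

theorem nsub {a b c : ℚ} (ha : padicNorm p a ≤ c) (hb : padicNorm p b ≤ c) :
    padicNorm p (a - b) ≤ c := padicNorm.sub.trans (max_le ha hb)

theorem nmul {a b x y : ℚ} (ha : padicNorm p a ≤ x) (hb : padicNorm p b ≤ y) :
    padicNorm p (a * b) ≤ x * y := by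
  rw [padicNorm.mul]
  exact mul_le_mul ha hb (padicNorm.nonneg _) ((padicNorm.nonneg _).trans ha)

theorem norm_ppow (m : ℕ) : padicNorm p ((p : ℚ) ^ m) = (p : ℚ) ^ (-(m : ℤ)) := by
  rw [padicNorm_pow', padicNorm.padicNorm_p_of_prime, inv_pow, zpow_neg, zpow_natCast]

theorem norm_pneg (m : ℕ) : padicNorm p ((p : ℚ) ^ (-(m : ℤ))) = (p : ℚ) ^ (m : ℤ) := by
  rw [zpow_neg, zpow_natCast, inv_eq_one_div, padicNorm.div, padicNorm.one, norm_ppow, one_div,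
    zpow_neg, inv_inv, zpow_natCast]

/-- statement of `H2_pa` -/
def H2st (p r : ℕ) : Prop :=
  ∃ w : ℚ, padicNorm p w = 1 ∧ ∀ e j i : ℕ, e ≤ 19 → 2 ≤ j → j ≤ 11 → 1 ≤ i → i ≤ ml j →
    padicNorm p (pa (sL p) (mL p) (PL p * ((X + C (r : ℚ)) ^ e * OT p r 21)) (r + j * p) i
      / (p : ℚ) ^ (i + e) -
      w * PowerSeries.coeff (ml j - i) (ser j e)) ≤ (p : ℚ)⁻¹

omit hp in
theorem class_mem {r j : ℕ} (hr1 : 1 ≤ r) (hr2 : r ≤ p) (hj : j ∈ Finset.Icc 2 11) :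
    r + j * p ∈ sL p := by
  rw [Finset.mem_Icc] at hj ⊢
  have h1 : 2 * p ≤ j * p := Nat.mul_le_mul_right p hj.1
  have h2 : j * p ≤ 11 * p := Nat.mul_le_mul_right p hj.2
  omega

/-- normalised coefficient is integral -/
theorem cf_norm (hC : C1st p) {r e i j : ℕ} (hr1 : 1 ≤ r) (hr2 : r ≤ p)
    (hj : j ∈ Finset.Icc 2 11) : padicNorm p (cf p r e (r + j * p) i / (p : ℚ) ^ (i + e)) ≤ 1 := by
  have hka := pa_near (p := p) hC r e (r + j * p) i (class_mem hr1 hr2 hj)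
    ⟨j, by push_cast; ring⟩
  rw [padicNorm.div, norm_ppow, div_le_one (zpow_pos p_pos' _)]
  refine hka.trans (le_of_eq ?_)
  congr 1
  push_cast
  ring

/-- the local coefficient, zero beyond the multiplicity -/
def lc (j e i : ℕ) : ℚ := if i ≤ ml j then PowerSeries.coeff (ml j - i) (ser j e) else 0

/-- `H2_pa` for all `i` -/
theorem H2_all {r : ℕ} (hr1 : 1 ≤ r) (hr2 : r ≤ p) {w : ℚ}
    (hw : ∀ e j i : ℕ, e ≤ 19 → 2 ≤ j → j ≤ 11 → 1 ≤ i → i ≤ ml j →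
    padicNorm p (pa (sL p) (mL p) (PL p * ((X + C (r : ℚ)) ^ e * OT p r 21)) (r + j * p) i
      / (p : ℚ) ^ (i + e) -
      w * PowerSeries.coeff (ml j - i) (ser j e)) ≤ (p : ℚ)⁻¹)
    {e i j : ℕ} (he : e ≤ 19) (hj : j ∈ Finset.Icc 2 11) (hi : 1 ≤ i) :
    padicNorm p (cf p r e (r + j * p) i / (p : ℚ) ^ (i + e) - w * lc j e i) ≤ (p : ℚ)⁻¹ := by
  by_cases h : i ≤ ml j
  · have hj' := Finset.mem_Icc.1 hj
    have := hw e j i he hj'.1 hj'.2 hi h
    rw [lc, if_pos h]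
    exact this
  · have h1 : cf p r e (r + j * p) i = 0 := by
      unfold cf pa
      rw [mL_class hr1 hr2 hj, if_neg h]
    rw [lc, if_neg h, h1, zero_div, mul_zero, sub_zero, padicNorm.zero]
    exact inv0

/-- the contribution of one near pole, with a harmonic number -/
theorem near_term (hC : C1st p) (hp30 : 30 ≤ p) {r e i j : ℕ} (hr1 : 1 ≤ r) (hr2 : r ≤ p)
    (hj : j ∈ Finset.Icc 2 11) (hi1 : 1 ≤ i) (γ : ℚ)
    (hγ : padicNorm p (cf p r e (r + j * p) i / (p : ℚ) ^ (i + e) - γ) ≤ (p : ℚ)⁻¹) :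
    padicNorm p ((p : ℚ) ^ (-(e : ℤ)) * (cf p r e (r + j * p) i * hs i (r + j * p - 2 * p - 1)) -
      γ * hs i (j - 2)) ≤ (p : ℚ)⁻¹ := by
  have hj' := Finset.mem_Icc.1 hj
  have e1 : r + j * p - 2 * p - 1 = (j - 2) * p + (r - 1) := by
    have h1 : (j - 2) * p + 2 * p = j * p := by
      rw [← Nat.add_mul]
      congr 1
      omega
    omega
  have hA1 := cf_norm (p := p) hC (e := e) (i := i) hr1 hr2 hj
  rw [e1]
  set a := cf p r e (r + j * p) i with ha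
  set A := a / (p : ℚ) ^ (i + e) with hA
  have haA : (p : ℚ) ^ (-(e : ℤ)) * a = A * (p : ℚ) ^ i := by
    rw [hA, zpow_neg, zpow_natCast, pow_add]
    have h1 : (p : ℚ) ^ i ≠ 0 := pow_ne_zero _ p_pos'.ne'
    have h2 : (p : ℚ) ^ e ≠ 0 := pow_ne_zero _ p_pos'.ne'
    field_simp
  have hb := Pool.Agent.H336R2.HD.H1_hs (p := p) (r - 1) (j - 2) i (by omega) (by omega) hi1
  have hH := hs_norm_small (p := p) i (j - 2) (by omega)
  have key : (p : ℚ) ^ (-(e : ℤ)) * (a * hs i ((j - 2) * p + (r - 1))) - γ * hs i (j - 2) =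
      A * ((p : ℚ) ^ i * hs i ((j - 2) * p + (r - 1)) - hs i (j - 2)) +
        (A - γ) * hs i (j - 2) := by
    linear_combination hs i ((j - 2) * p + (r - 1)) * haA
  rw [key]
  refine nadd ?_ ?_
  · have := nmul hA1 hb
    rwa [one_mul] at this
  · have := nmul hγ hH
    rwa [mul_one] at this

/-- the contribution of the other poles -/
theorem far_term (hC : C1st p) (hp30 : 30 ≤ p) {r e i k : ℕ} (he : e ≤ 19) (hk : k ∈ sL p)
    (h : ¬ (p : ℤ) ∣ (k : ℤ) - r) :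
    padicNorm p ((p : ℚ) ^ (-(e : ℤ)) * (cf p r e k i * hs i (k - 2 * p - 1))) ≤ (p : ℚ)⁻¹ := by
  have hk' := Finset.mem_Icc.1 hk
  have h1 := pa_far (p := p) hC r e k i hk h
  have h2 := hs_norm_med (p := p) i (k - 2 * p - 1) (by
    have : k ≤ 12 * p := hk'.2
    have h3 : 30 * p ≤ p ^ 2 := by nlinarith
    omega)
  have h4 := nmul (norm_pneg (p := p) e).le (nmul h1 h2)
  refine h4.trans ?_
  rw [← zpow_natCast (p : ℚ) i, ← zpow_add₀ p_pos'.ne', ← zpow_add₀ p_pos'.ne', ← zpow_neg_one]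
  apply zpow_le_zpow_right₀ one_le_p
  omega

/-- the coefficients of order three -/
theorem three_term (hC : C1st p) (u : ℚ) (hu : padicNorm p u ≤ 1) {r e k : ℕ} (he : e ≤ 19)
    (hk : k ∈ sL p) :
    padicNorm p ((p : ℚ) ^ (-(e : ℤ) - 2) * (cf p r e k 3 * u)) ≤ (p : ℚ)⁻¹ := by
  have hn : padicNorm p ((p : ℚ) ^ (-(e : ℤ) - 2)) = (p : ℚ) ^ ((e : ℤ) + 2) := by
    have := norm_pneg (p := p) (e + 2)
    rw [show (-(e : ℤ) - 2) = -(((e + 2 : ℕ)) : ℤ) by push_cast; ring, this]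
    push_cast
    rfl
  by_cases h : (p : ℤ) ∣ (k : ℤ) - r
  · have h1 := pa_near (p := p) hC r e k 3 hk h
    have h3 := nmul hn.le (nmul h1 hu)
    rw [mul_one, ← zpow_add₀ p_pos'.ne'] at h3
    refine h3.trans ?_
    rw [← zpow_neg_one]
    apply zpow_le_zpow_right₀ one_le_p
    push_cast
    omega
  · have h1 := pa_far (p := p) hC r e k 3 hk h
    have h3 := nmul hn.le (nmul h1 hu)
    rw [mul_one, ← zpow_add₀ p_pos'.ne'] at h3
    refine h3.trans ?_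
    rw [← zpow_neg_one]
    apply zpow_le_zpow_right₀ one_le_p
    push_cast
    omega

theorem three_term' (hC : C1st p) (u : ℚ) (hu : padicNorm p u ≤ 1) {r e k : ℕ} (he : e ≤ 19)
    (hk : k ∈ sL p) :
    padicNorm p ((p : ℚ) ^ (-(e : ℤ)) * (cf p r e k 3 * u)) ≤ (p : ℚ)⁻¹ := by
  have h1 := three_term (p := p) hC u hu he hk (r := r)
  have h2 : (p : ℚ) ^ (-(e : ℤ)) * (cf p r e k 3 * u) =
      (p : ℚ) ^ 2 * ((p : ℚ) ^ (-(e : ℤ) - 2) * (cf p r e k 3 * u)) := by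
    rw [zpow_sub₀ p_pos'.ne']
    have : (p : ℚ) ≠ 0 := p_pos'.ne'
    have h3 : ((p : ℚ) ^ (2 : ℤ)) = (p : ℚ) ^ 2 := by norm_cast
    rw [h3]
    field_simp
  rw [h2]
  have h3 : padicNorm p ((p : ℚ) ^ 2) ≤ 1 := by
    rw [norm_ppow]
    apply zpow_le_one_of_nonpos₀ one_le_p
    norm_num
  have := nmul h3 h1
  rwa [one_mul] at this

omit hp in
/-- the `B`-part: near poles -/
theorem nearB_term {r e j : ℕ} (γ : ℚ)
    (hγ : padicNorm p (cf p r e (r + j * p) 2 / (p : ℚ) ^ (2 + e) - γ) ≤ (p : ℚ)⁻¹) :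
    padicNorm p ((p : ℚ) ^ (-(e : ℤ) - 2) * cf p r e (r + j * p) 2 - γ) ≤ (p : ℚ)⁻¹ := by
  have h1 : (p : ℚ) ^ (-(e : ℤ) - 2) = ((p : ℚ) ^ (2 + e))⁻¹ := by
    rw [← zpow_natCast, ← zpow_neg]
    congr 1
    push_cast
    ring
  rw [h1, mul_comm, ← div_eq_mul_inv]
  exact hγ

/-- the `B`-part: other poles -/
theorem farB_term (hC : C1st p) {r e k : ℕ} (he : e ≤ 19) (hk : k ∈ sL p)
    (h : ¬ (p : ℤ) ∣ (k : ℤ) - r) :
    padicNorm p ((p : ℚ) ^ (-(e : ℤ) - 2) * cf p r e k 2) ≤ (p : ℚ)⁻¹ := by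
  have hn : padicNorm p ((p : ℚ) ^ (-(e : ℤ) - 2)) = (p : ℚ) ^ ((e : ℤ) + 2) := by
    have := norm_pneg (p := p) (e + 2)
    rw [show (-(e : ℤ) - 2) = -(((e + 2 : ℕ)) : ℤ) by push_cast; ring, this]
    push_cast
    rfl
  have h1 := pa_far (p := p) hC r e k 2 hk h
  have h3 := nmul hn.le h1
  rw [← zpow_add₀ p_pos'.ne'] at h3
  refine h3.trans ?_
  rw [← zpow_neg_one]
  apply zpow_le_zpow_right₀ one_le_p
  push_cast
  omega

/-! ### the local functionals -/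

theorem Fm_eq (e : ℕ) : Fm e = - ∑ i ∈ Finset.Icc 1 3, ∑ j ∈ Finset.Icc 2 11,
    lc j e i * hs i (j - 2) := by
  unfold Fm
  rw [Finset.sum_comm]
  congr 1
  refine Finset.sum_congr rfl fun j hj => ?_
  have hml : ml j ≤ 3 := by
    unfold ml
    split_ifs <;> norm_num
  have h1 : ∑ i ∈ Finset.Icc 1 3, lc j e i * hs i (j - 2) =
      ∑ i ∈ Finset.Icc 1 (ml j), lc j e i * hs i (j - 2) := by
    symm
    apply Finset.sum_subset (Finset.Icc_subset_Icc le_rfl hml)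
    intro i hi hi'
    rw [Finset.mem_Icc] at hi hi'
    rw [lc, if_neg (by omega), zero_mul]
  rw [h1]
  refine Finset.sum_congr rfl fun i hi => ?_
  rw [Finset.mem_Icc] at hi
  rw [lc, if_pos hi.2]

theorem Bm_eq (e : ℕ) : Bm e = ∑ j ∈ Finset.Icc 2 11, lc j e 2 := by
  unfold Bm
  have h1 : Finset.Icc 2 11 = insert 2 (Finset.Icc 3 11) := by decide
  rw [h1, Finset.sum_insert (by decide)]
  have h2 : lc 2 e 2 = 0 := by
    rw [lc, if_neg]
    unfold ml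
    norm_num
  rw [h2, zero_add]
  refine Finset.sum_congr rfl fun j hj => ?_
  rw [Finset.mem_Icc] at hj
  rw [lc, if_pos]
  unfold ml
  split_ifs <;> omega

end

end Pool.Agent.LZ.H3

namespace Pool.Agent.LZ

open H3

theorem H3_of {p : ℕ} [Fact p.Prime] (hC : C1st p) (hp : 30 ≤ p) (α β : ℚ)
    (hα : padicNorm p α ≤ 1) (hβ : padicNorm p β ≤ 1)
    (r : ℕ) (hr1 : 1 ≤ r) (hr2 : r ≤ p) (h2s : H2st p r) :
    ∃ w : ℚ, padicNorm p w = 1 ∧ ∀ e : ℕ, e ≤ 19 →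
      padicNorm p ((p : ℚ) ^ (-(e : ℤ)) * AL p α ((X + C (r : ℚ)) ^ e * OT p r 21) - w * Fm e) ≤
        (p : ℚ)⁻¹ ∧
      padicNorm p ((p : ℚ) ^ (-(e : ℤ) - 2) * BL p β ((X + C (r : ℚ)) ^ e * OT p r 21) -
        w * Bm e) ≤ (p : ℚ)⁻¹ := by
  obtain ⟨w, hw1, hw⟩ := h2s
  refine ⟨w, hw1, fun e he => ?_⟩
  obtain ⟨S, hS, hSr, hsum⟩ := sum_split (p := p) (by omega) hr1 hr2
  constructor
  · show padicNorm p ((p : ℚ) ^ (-(e : ℤ)) * AL p α (Qr p r e) - w * Fm e) ≤ _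
    have hN : (p : ℚ) ^ (-(e : ℤ)) * AL p α (Qr p r e) - w * Fm e =
        (∑ k ∈ sL p, (p : ℚ) ^ (-(e : ℤ)) * (cf p r e k 3 * α)) -
        ∑ i ∈ Finset.Icc 1 3,
        ((∑ j ∈ Finset.Icc 2 11, ((p : ℚ) ^ (-(e : ℤ)) *
          (cf p r e (r + j * p) i * hs i (r + j * p - 2 * p - 1)) -
          (w * lc j e i) * hs i (j - 2))) +
        ∑ k ∈ S, (p : ℚ) ^ (-(e : ℤ)) * (cf p r e k i * hs i (k - 2 * p - 1))) := by
      have h2 : AL p α (Qr p r e) = (∑ k ∈ sL p, cf p r e k 3) * α - ∑ i ∈ Finset.Icc 1 3,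
          ∑ k ∈ sL p, cf p r e k i * hs i (k - 2 * p - 1) := by
        rw [AL_apply]
        rfl
      have h3 : ∀ i, ∑ k ∈ sL p, cf p r e k i * hs i (k - 2 * p - 1) =
          (∑ j ∈ Finset.Icc 2 11, cf p r e (r + j * p) i * hs i (r + j * p - 2 * p - 1)) +
          ∑ k ∈ S, cf p r e k i * hs i (k - 2 * p - 1) := fun i => hsum _
      rw [h2, Fm_eq]
      simp only [h3, Finset.sum_sub_distrib, Finset.sum_add_distrib, Finset.mul_sum, mul_sub,
        mul_add, Finset.sum_mul, mul_neg, mul_assoc]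
      ring
    rw [hN]
    refine nsub ?_ ?_
    · apply padicNorm.sum_le' _ inv0
      intro k hk
      exact three_term' hC α hα he hk
    · apply padicNorm.sum_le' _ inv0
      intro i hi
      rw [Finset.mem_Icc] at hi
      refine nadd ?_ ?_
      · apply padicNorm.sum_le' _ inv0
        intro j hj
        exact near_term hC hp hr1 hr2 hj hi.1 _ (H2_all hr1 hr2 hw he hj hi.1)
      · apply padicNorm.sum_le' _ inv0
        intro k hk
        exact far_term hC hp he (hS hk) (rest_class hr1 hr2 (hS hk) (hSr k hk))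
  · show padicNorm p ((p : ℚ) ^ (-(e : ℤ) - 2) * BL p β (Qr p r e) - w * Bm e) ≤ _
    have hN : (p : ℚ) ^ (-(e : ℤ) - 2) * BL p β (Qr p r e) - w * Bm e =
        (∑ j ∈ Finset.Icc 2 11, ((p : ℚ) ^ (-(e : ℤ) - 2) * cf p r e (r + j * p) 2 -
          w * lc j e 2)) +
        ∑ k ∈ S, (p : ℚ) ^ (-(e : ℤ) - 2) * cf p r e k 2 +
        ∑ k ∈ sL p, (p : ℚ) ^ (-(e : ℤ) - 2) * (cf p r e k 3 * β) := by
      have h2 : BL p β (Qr p r e) = ∑ k ∈ sL p, cf p r e k 2 +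
          (∑ k ∈ sL p, cf p r e k 3) * β := by
        rw [BL_apply]
        rfl
      have h3 : ∑ k ∈ sL p, cf p r e k 2 = (∑ j ∈ Finset.Icc 2 11, cf p r e (r + j * p) 2) +
          ∑ k ∈ S, cf p r e k 2 := hsum _
      rw [h2, h3, Bm_eq]
      simp only [Finset.sum_sub_distrib, Finset.mul_sum, mul_add, Finset.sum_mul]
      ring
    rw [hN]
    refine nadd (nadd ?_ ?_) ?_
    · apply padicNorm.sum_le' _ inv0
      intro j hj
      exact nearB_term _ (H2_all hr1 hr2 hw he hj (by norm_num))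
    · apply padicNorm.sum_le' _ inv0
      intro k hk
      exact farB_term hC he (hS hk) (rest_class hr1 hr2 (hS hk) (hSr k hk))
    · apply padicNorm.sum_le' _ inv0
      intro k hk
      exact three_term hC β hβ he hk

end Pool.Agent.LZ
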