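import Pool.Agent.H337R2.LZ.Defs
import Pool.Agent.H574R2.D3.H4

/-! Task H4 (`1, ζ(2), ζ(3)`): the off-diagonal entries (`n = p`), from `C1_pa` (at `n = p`) and `H1_eL`. -/

open Polynomial Pool.Agent.H337R2

namespace Pool.Agent.LZ

noncomputable section

set_option linter.unusedSectionVars false

section off

variable {p : ℕ} [hp : Fact p.Prime]

open Pool.Agent.H574R2.D3 (H4_norm_zpow H4_lin H4_prod_le H4_prod_le_one)

/-- the size of the factor `X + r` at the pole `k` -/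
def H4_a (p k r : ℕ) : ℚ := if (p : ℤ) ∣ (r : ℤ) - k then (p : ℚ)⁻¹ else 1

lemma H4_a_nonneg (k r : ℕ) : 0 ≤ H4_a p k r := by
  unfold H4_a; split_ifs
  · exact inv_nonneg.2 p_pos'.le
  · exact zero_le_one

lemma H4_a_le_one (k r : ℕ) : H4_a p k r ≤ 1 := by
  unfold H4_a; split_ifs
  · exact inv_le_one_of_one_le₀ p_one'
  · exact le_rfl

lemma H4_node (k r : ℕ) : PB p (p : ℚ) (H4_a p k r) (TS (-(k : ℚ)) (X + C (r : ℚ))) := by
  have h : PB p (p : ℚ) (H4_a p k r) (TS (-(k : ℚ)) (X + C ((r : ℤ) : ℚ))) := by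
    rw [TS_lin]
    apply H4_lin
    unfold H4_a
    split_ifs with h
    · exact Or.inr ⟨rfl, h⟩
    · exact Or.inl rfl
  rwa [Int.cast_natCast] at h

/-- the total bound at the pole `k` -/
def H4_A (p r s l l' k : ℕ) : ℚ :=
  (H4_a p k r ^ l * ∏ r' ∈ (Finset.Icc 1 p).erase r, H4_a p k r' ^ 14) *
    (H4_a p k s ^ l' * ∏ r' ∈ (Finset.Icc 1 p).erase s, H4_a p k r' ^ 7)

lemma H4_A_nonneg (r s l l' k : ℕ) : 0 ≤ H4_A p r s l l' k := by
  unfold H4_A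
  have h2 : ∀ r, 0 ≤ H4_a p k r := fun r => H4_a_nonneg k r
  have h3 : ∀ (c : ℕ) (S : Finset ℕ), 0 ≤ ∏ r' ∈ S, H4_a p k r' ^ c := fun c S =>
    Finset.prod_nonneg fun i _ => pow_nonneg (h2 i) _
  exact mul_nonneg (mul_nonneg (pow_nonneg (h2 _) _) (h3 _ _))
    (mul_nonneg (pow_nonneg (h2 _) _) (h3 _ _))

lemma H4_PB (r s l l' k : ℕ) : PB p (p : ℚ) (H4_A p r s l l' k) (TS (-(k : ℚ))
    (((X + C (r : ℚ)) ^ l * OT p r 14) * ((X + C (s : ℚ)) ^ l' * OT p s 7))) := by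
  have hp0 : (0 : ℚ) ≤ p := p_pos'.le
  have h2 : ∀ r, 0 ≤ H4_a p k r := fun r => H4_a_nonneg k r
  have h3 : ∀ (c : ℕ) (S : Finset ℕ), 0 ≤ ∏ r' ∈ S, H4_a p k r' ^ c := fun c S =>
    Finset.prod_nonneg fun i _ => pow_nonneg (h2 i) _
  unfold H4_A OT
  rw [map_mul, map_mul, map_mul, map_prod, map_prod,
    map_pow (TS (-(k : ℚ))) (X + C (r : ℚ)),
    map_pow (TS (-(k : ℚ))) (X + C (s : ℚ))]
  have hprod : ∀ (c : ℕ) (S : Finset ℕ), PB p (p : ℚ) (∏ r' ∈ S, H4_a p k r' ^ c)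
      (∏ r' ∈ S, TS (-(k : ℚ)) ((X + C (r' : ℚ)) ^ c)) := by
    intro c S
    apply PB.prod _ _ _ hp0
    · intro i _; exact pow_nonneg (h2 i) _
    · intro i _
      rw [map_pow]
      exact PB.pow hp0 (h2 i) (H4_node k i) c
  refine PB.mul hp0 (mul_nonneg (pow_nonneg (h2 _) _) (h3 _ _))
    (mul_nonneg (pow_nonneg (h2 _) _) (h3 _ _)) ?_ ?_
  · exact PB.mul hp0 (pow_nonneg (h2 _) _) (h3 _ _) (PB.pow hp0 (h2 _) (H4_node k r) l) (hprod _ _)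
  · exact PB.mul hp0 (pow_nonneg (h2 _) _) (h3 _ _) (PB.pow hp0 (h2 _) (H4_node k s) l') (hprod _ _)

/-- numerical value of the bound -/
lemma H4_A_le (r s l l' : ℕ) (hr1 : 1 ≤ r) (hr2 : r ≤ p) (hs1 : 1 ≤ s)
    (hs2 : s ≤ p) (hrs : r ≠ s) (hl : l < 14) (hl' : l' < 7) (k : ℕ) :
    (p : ℚ) ^ ((l : ℤ) + l') * H4_A p r s l l' k ≤ (p : ℚ)⁻¹ := by
  have hp1 : (1 : ℚ) ≤ p := p_one'
  have hp0 : (0 : ℚ) < p := p_pos'
  have h2 : ∀ r, 0 ≤ H4_a p k r := fun r => H4_a_nonneg k r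
  have h2' : ∀ r, H4_a p k r ≤ 1 := fun r => H4_a_le_one k r
  have h2p : ∀ c r, H4_a p k r ^ c ≤ 1 := fun c r => pow_le_one₀ (h2 r) (h2' r)
  have h2n : ∀ c r, 0 ≤ H4_a p k r ^ c := fun c r => pow_nonneg (h2 r) _
  have h3 : ∀ (c : ℕ) (S : Finset ℕ), 0 ≤ ∏ r' ∈ S, H4_a p k r' ^ c := fun c S =>
    Finset.prod_nonneg fun i _ => h2n c i
  have h3' : ∀ (c : ℕ) (S : Finset ℕ), ∏ r' ∈ S, H4_a p k r' ^ c ≤ 1 := fun c S =>
    H4_prod_le_one S _ (h2n c) (h2p c)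
  have hal : H4_a p k r ^ l ≤ 1 := pow_le_one₀ (h2 r) (h2' r)
  have hal' : H4_a p k s ^ l' ≤ 1 := pow_le_one₀ (h2 s) (h2' s)
  have hal0 : 0 ≤ H4_a p k r ^ l := pow_nonneg (h2 r) _
  have hal0' : 0 ≤ H4_a p k s ^ l' := pow_nonneg (h2 s) _
  have hrI : r ∈ Finset.Icc 1 p := by rw [Finset.mem_Icc]; omega
  have hsI : s ∈ Finset.Icc 1 p := by rw [Finset.mem_Icc]; omega
  -- reduction to an exponent
  have fin : ∀ m : ℕ, H4_A p r s l l' k ≤ ((p : ℚ)⁻¹) ^ m → (l : ℤ) + l' - m ≤ -1 →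
      (p : ℚ) ^ ((l : ℤ) + l') * H4_A p r s l l' k ≤ (p : ℚ)⁻¹ := by
    intro m h4 h5
    calc (p : ℚ) ^ ((l : ℤ) + l') * H4_A p r s l l' k
        ≤ (p : ℚ) ^ ((l : ℤ) + l') * ((p : ℚ)⁻¹) ^ m :=
          mul_le_mul_of_nonneg_left h4 (zpow_nonneg hp0.le _)
      _ = (p : ℚ) ^ ((l : ℤ) + l' - m) := by
          rw [inv_pow, ← zpow_natCast, ← zpow_neg, ← zpow_add₀ hp0.ne']
          congr 1
      _ ≤ (p : ℚ) ^ (-1 : ℤ) := zpow_le_zpow_right₀ hp1 h5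
      _ = (p : ℚ)⁻¹ := zpow_neg_one _
  -- the class of k
  obtain ⟨c, hc1, hc2, hc⟩ : ∃ c : ℕ, 1 ≤ c ∧ c ≤ p ∧ (p : ℤ) ∣ (c : ℤ) - k := by
    have h5 : k % p < p := Nat.mod_lt _ hp.out.pos
    have h7 : p * (k / p) + k % p = k := Nat.div_add_mod k p
    have h7z : (p : ℤ) * ((k / p : ℕ) : ℤ) + ((k % p : ℕ) : ℤ) = k := by exact_mod_cast h7
    rcases Nat.eq_zero_or_pos (k % p) with h | h
    · refine ⟨p, hp.out.one_lt.le, le_rfl, 1 - ((k / p : ℕ) : ℤ), ?_⟩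
      rw [h] at h7z
      push_cast at h7z ⊢
      linarith
    · refine ⟨k % p, h, h5.le, -((k / p : ℕ) : ℤ), ?_⟩
      linarith
  have hac : H4_a p k c = (p : ℚ)⁻¹ := by unfold H4_a; rw [if_pos hc]
  have hcI : c ∈ Finset.Icc 1 p := Finset.mem_Icc.2 ⟨hc1, hc2⟩
  by_cases hcr : c = r
  · subst hcr
    apply fin (l + 7)
    · unfold H4_A
      have e1 : ∏ r' ∈ (Finset.Icc 1 p).erase s, H4_a p k r' ^ 7 ≤ H4_a p k c ^ 7 :=
        H4_prod_le _ (fun r' => H4_a p k r' ^ 7) (h2n 7) (h2p 7) c (Finset.mem_erase.2 ⟨hrs, hrI⟩)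
      rw [pow_add, ← hac]
      calc _ ≤ (H4_a p k c ^ l * 1) * (1 * H4_a p k c ^ 7) := by
            apply mul_le_mul _ _ (mul_nonneg hal0' (h3 _ _)) (by rw [mul_one]; exact hal0)
            · exact mul_le_mul_of_nonneg_left (h3' _ _) hal0
            · exact mul_le_mul hal' e1 (h3 _ _) zero_le_one
        _ = _ := by ring
    · push_cast; omega
  · by_cases hcs : c = s
    · subst hcs
      apply fin (l' + 14)
      · unfold H4_A
        have e1 : ∏ r' ∈ (Finset.Icc 1 p).erase r, H4_a p k r' ^ 14 ≤ H4_a p k c ^ 14 :=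
          H4_prod_le _ (fun r' => H4_a p k r' ^ 14) (h2n 14) (h2p 14) c (Finset.mem_erase.2 ⟨hcr, hsI⟩)
        rw [pow_add, ← hac]
        calc _ ≤ (1 * H4_a p k c ^ 14) * (H4_a p k c ^ l' * 1) := by
              apply mul_le_mul _ _ (mul_nonneg hal0' (h3 _ _)) (by rw [one_mul]; exact h2n _ _)
              · exact mul_le_mul hal e1 (h3 _ _) zero_le_one
              · exact mul_le_mul_of_nonneg_left (h3' _ _) hal0'
          _ = _ := by ring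
      · push_cast; omega
    · apply fin 21
      · unfold H4_A
        have e1 : ∏ r' ∈ (Finset.Icc 1 p).erase r, H4_a p k r' ^ 14 ≤ H4_a p k c ^ 14 :=
          H4_prod_le _ (fun r' => H4_a p k r' ^ 14) (h2n 14) (h2p 14) c (Finset.mem_erase.2 ⟨hcr, hcI⟩)
        have e2 : ∏ r' ∈ (Finset.Icc 1 p).erase s, H4_a p k r' ^ 7 ≤ H4_a p k c ^ 7 :=
          H4_prod_le _ (fun r' => H4_a p k r' ^ 7) (h2n 7) (h2p 7) c (Finset.mem_erase.2 ⟨hcs, hcI⟩)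
        rw [show (21 : ℕ) = 14 + 7 from rfl, pow_add, ← hac]
        calc _ ≤ (1 * H4_a p k c ^ 14) * (1 * H4_a p k c ^ 7) := by
              apply mul_le_mul _ _ (mul_nonneg hal0' (h3 _ _)) (by rw [one_mul]; exact h2n _ _)
              · exact mul_le_mul hal e1 (h3 _ _) zero_le_one
              · exact mul_le_mul hal' e2 (h3 _ _) zero_le_one
          _ = _ := by ring
      · push_cast; omega

/-- `xa` is small if all partial fraction coefficients are -/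
lemma H4_xa_le (α : ℚ) (hα : padicNorm p α ≤ 1) (hp100 : 100 ≤ p) (P : ℚ[X]) (W : ℚ)
    (hW : 0 ≤ W) (h : ∀ k ∈ sL p, ∀ i, padicNorm p (pa (sL p) (mL p) P k i) * (p : ℚ) ^ i ≤ W) :
    padicNorm p (xa p α P) ≤ W := by
  have hp1 : (1 : ℚ) ≤ p := p_one'
  unfold xa rho
  refine padicNorm.sub.trans (max_le ?_ ?_)
  · rw [Finset.sum_mul]
    apply padicNorm.sum_le' _ hW
    intro k hk
    rw [padicNorm.mul]
    refine le_trans ?_ (h k hk 3)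
    apply mul_le_mul_of_nonneg_left _ (padicNorm.nonneg _)
    exact hα.trans (one_le_pow₀ hp1)
  · apply padicNorm.sum_le' _ hW
    intro i _
    apply padicNorm.sum_le' _ hW
    intro k hk
    rw [padicNorm.mul]
    refine le_trans ?_ (h k hk i)
    apply mul_le_mul_of_nonneg_left _ (padicNorm.nonneg _)
    apply hs_norm_med
    rw [sL, Finset.mem_Icc] at hk
    have : 12 * p < p * p := Nat.mul_lt_mul_of_pos_right (by omega) hp.out.pos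
    rw [sq]
    omega

/-- `xb` is small if all partial fraction coefficients are -/
lemma H4_xb_le (β : ℚ) (hβ : padicNorm p β ≤ 1) (P : ℚ[X]) (W : ℚ)
    (hW : 0 ≤ W) (h : ∀ k ∈ sL p, ∀ i, 2 ≤ i → padicNorm p (pa (sL p) (mL p) P k i) ≤ W) :
    padicNorm p (xb p β P) ≤ W := by
  unfold xb rho
  refine padicNorm.nonarchimedean.trans (max_le ?_ ?_)
  · apply padicNorm.sum_le' _ hW
    intro k hk
    exact h k hk 2 le_rfl
  · rw [Finset.sum_mul]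
    apply padicNorm.sum_le' _ hW
    intro k hk
    rw [padicNorm.mul]
    refine le_trans ?_ (h k hk 3 (by norm_num))
    exact mul_le_of_le_one_right (padicNorm.nonneg _) hβ

/-- `H4_offdiag`, from `C1_pa` at `n = p` and `H1_eL` -/
theorem H4_offdiag_of
    (hC1 : ∀ (E : ℚ[X]) {k : ℕ}, k ∈ sL p → ∀ (A : ℚ), 0 ≤ A → PB p (p : ℚ) A (TS (-(k : ℚ)) E) →
      ∀ i : ℕ, padicNorm p (pa (sL p) (mL p) (PL p * E) k i) ≤ (p : ℚ) ^ (-eL p p k - i : ℤ) * A)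
    (hH1 : ∀ {k : ℕ}, k ∈ sL p → eL p p k = 0)
    (hp100 : 100 ≤ p) (α β : ℚ) (hα : padicNorm p α ≤ 1)
    (hβ : padicNorm p β ≤ 1) (r s l l' : ℕ) (hr1 : 1 ≤ r) (hr2 : r ≤ p) (hs1 : 1 ≤ s) (hs2 : s ≤ p) (hrs : r ≠ s)
    (hl : l < 14) (hl' : l' < 7) :
    padicNorm p ((p : ℚ) ^ (-(l : ℤ) - (l' : ℤ)) * AL p α
      (((X + C (r : ℚ)) ^ l * OT p r 14) * ((X + C (s : ℚ)) ^ l' * OT p s 7))) ≤ (p : ℚ)⁻¹ ∧
    padicNorm p ((p : ℚ) ^ (-(l : ℤ) - (l' : ℤ) - 2) * BL p β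
      (((X + C (r : ℚ)) ^ l * OT p r 14) * ((X + C (s : ℚ)) ^ l' * OT p s 7))) ≤ (p : ℚ)⁻¹ := by
  have hp0 : (0 : ℚ) < p := p_pos'
  have hp1 : (1 : ℚ) ≤ p := p_one'
  set Q : ℚ[X] := ((X + C (r : ℚ)) ^ l * OT p r 14) * ((X + C (s : ℚ)) ^ l' * OT p s 7) with hQ
  have hkey : ∀ k ∈ sL p, ∀ i : ℕ,
      padicNorm p (pa (sL p) (mL p) (PL p * Q) k i) ≤
        (p : ℚ) ^ (-(i : ℤ)) * ((p : ℚ) ^ (-(l : ℤ) - (l' : ℤ)) * (p : ℚ)⁻¹) := by
    intro k hk i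
    have h1 := hC1 _ hk _ (H4_A_nonneg r s l l' k) (H4_PB r s l l' k) i
    have h2 := H4_A_le r s l l' hr1 hr2 hs1 hs2 hrs hl hl' k
    refine h1.trans ?_
    have e1 : (p : ℚ) ^ (-eL p p k - i : ℤ) =
        (p : ℚ) ^ (-(i : ℤ)) * ((p : ℚ) ^ (-(l : ℤ) - (l' : ℤ)) * (p : ℚ) ^ ((l : ℤ) + l')) := by
      rw [hH1 hk, ← zpow_add₀ hp0.ne', ← zpow_add₀ hp0.ne']
      congr 1
      ring
    rw [e1, mul_assoc, mul_assoc]
    exact mul_le_mul_of_nonneg_left (mul_le_mul_of_nonneg_left h2 (by positivity)) (by positivity)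
  constructor
  · rw [AL_apply, padicNorm.mul, H4_norm_zpow]
    have key := H4_xa_le α hα hp100 (PL p * Q)
      ((p : ℚ) ^ (-(l : ℤ) - (l' : ℤ)) * (p : ℚ)⁻¹) (by positivity) (by
        intro k hk i
        calc _ ≤ ((p : ℚ) ^ (-(i : ℤ)) * ((p : ℚ) ^ (-(l : ℤ) - (l' : ℤ)) * (p : ℚ)⁻¹)) * (p : ℚ) ^ i :=
              mul_le_mul_of_nonneg_right (hkey k hk i) (by positivity)
          _ = (p : ℚ) ^ (-(l : ℤ) - (l' : ℤ)) * (p : ℚ)⁻¹ * ((p : ℚ) ^ (-(i : ℤ)) * (p : ℚ) ^ i) := by ring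
          _ = _ := by
              rw [zpow_neg, zpow_natCast, inv_mul_cancel₀ (pow_ne_zero _ hp0.ne'), mul_one])
    calc _ ≤ (p : ℚ) ^ (-(-(l : ℤ) - (l' : ℤ))) * ((p : ℚ) ^ (-(l : ℤ) - (l' : ℤ)) * (p : ℚ)⁻¹) :=
          mul_le_mul_of_nonneg_left key (by positivity)
      _ = (p : ℚ)⁻¹ := by
          rw [← mul_assoc, ← zpow_add₀ hp0.ne', neg_add_cancel, zpow_zero, one_mul]
  · rw [BL_apply, padicNorm.mul, H4_norm_zpow]
    have key := H4_xb_le β hβ (PL p * Q)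
      ((p : ℚ) ^ (-(l : ℤ) - (l' : ℤ) - 2) * (p : ℚ)⁻¹) (by positivity) (by
        intro k hk i hi
        refine (hkey k hk i).trans ?_
        have e1 : (p : ℚ) ^ (-(l : ℤ) - (l' : ℤ) - 2) * (p : ℚ)⁻¹ =
            (p : ℚ) ^ (-(2 : ℤ)) * ((p : ℚ) ^ (-(l : ℤ) - (l' : ℤ)) * (p : ℚ)⁻¹) := by
          rw [← mul_assoc, ← zpow_add₀ hp0.ne']
          congr 2
          ring
        rw [e1]
        apply mul_le_mul_of_nonneg_right _ (by positivity)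
        exact zpow_le_zpow_right₀ hp1 (by omega))
    calc _ ≤ (p : ℚ) ^ (-(-(l : ℤ) - (l' : ℤ) - 2)) * ((p : ℚ) ^ (-(l : ℤ) - (l' : ℤ) - 2) * (p : ℚ)⁻¹) :=
          mul_le_mul_of_nonneg_left key (by positivity)
      _ = (p : ℚ)⁻¹ := by
          rw [← mul_assoc, ← zpow_add₀ hp0.ne', neg_add_cancel, zpow_zero, one_mul]

end off

end

end Pool.Agent.LZ
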