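import Pool.Agent.H337R2.LZ.Defs

/-!
# The local determinant is nonzero (task H5)

The values `Fm e`, `Bm e` are computed modulo `11` (truncated power series modulo `11`); the
determinant is nonzero modulo `11`.
-/

set_option autoImplicit false

open Polynomial Pool.Agent.H337R2

namespace Pool.Agent.LZ

namespace H5

theorem fact11 : Fact (Nat.Prime 11) := ⟨by norm_num⟩

attribute [local instance] fact11

/-- `x` reduces to `n` modulo `11` -/
def Rl (x : ℚ) (n : ℕ) : Prop :=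
  ∃ z : ℤ_[11], (z : ℚ_[11]) = (x : ℚ_[11]) ∧ PadicInt.toZMod z = (n : ZMod 11)

theorem Rl.add {x y : ℚ} {m n : ℕ} (hx : Rl x m) (hy : Rl y n) : Rl (x + y) (m + n) := by
  obtain ⟨z, hz, hz'⟩ := hx
  obtain ⟨w, hw, hw'⟩ := hy
  exact ⟨z + w, by rw [PadicInt.coe_add, hz, hw, Rat.cast_add], by
    rw [map_add, hz', hw', Nat.cast_add]⟩

theorem Rl.mul {x y : ℚ} {m n : ℕ} (hx : Rl x m) (hy : Rl y n) : Rl (x * y) (m * n) := by
  obtain ⟨z, hz, hz'⟩ := hx
  obtain ⟨w, hw, hw'⟩ := hy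
  exact ⟨z * w, by rw [PadicInt.coe_mul, hz, hw, Rat.cast_mul], by
    rw [map_mul, hz', hw', Nat.cast_mul]⟩

theorem Rl.congr {x : ℚ} {m n : ℕ} (h : Rl x m) (hmn : m % 11 = n % 11) : Rl x n := by
  obtain ⟨z, hz, hz'⟩ := h
  refine ⟨z, hz, hz'.trans ?_⟩
  rw [← ZMod.natCast_mod m 11, hmn, ZMod.natCast_mod]

theorem Rl.modd {x : ℚ} {m : ℕ} (h : Rl x m) : Rl x (m % 11) :=
  h.congr (Nat.mod_mod _ _).symm

theorem Rl.nat (n : ℕ) : Rl (n : ℚ) n :=
  ⟨(n : ℤ_[11]), by rw [PadicInt.coe_natCast, Rat.cast_natCast], map_natCast _ _⟩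

theorem Rl.neg_one : Rl (-1) 10 :=
  ⟨-1, by rw [PadicInt.coe_neg, PadicInt.coe_one, Rat.cast_neg, Rat.cast_one], by
    rw [map_neg, map_one]; decide⟩

theorem Rl.neg {x : ℚ} {n : ℕ} (h : Rl x n) : Rl (-x) (10 * n) := by
  have := Rl.neg_one.mul h
  rwa [neg_one_mul] at this

theorem Rl.pow {x : ℚ} {n : ℕ} (h : Rl x n) (k : ℕ) : Rl (x ^ k) (n ^ k) := by
  induction k with
  | zero =>
    rw [pow_zero, pow_zero]
    exact_mod_cast Rl.nat 1
  | succ k ih => rw [pow_succ, pow_succ]; exact ih.mul h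

theorem Rl.zero : Rl 0 0 := by
  exact_mod_cast Rl.nat 0

theorem Rl.one : Rl 1 1 := by
  exact_mod_cast Rl.nat 1

theorem Rl.sub_nat (i j : ℕ) : Rl ((i : ℚ) - j) (i + 10 * j) := by
  rw [sub_eq_add_neg]
  exact (Rl.nat i).add (Rl.nat j).neg

theorem Rl.cancel {a x : ℚ} {m mi n : ℕ} (ha : Rl a m) (hm : m * mi % 11 = 1)
    (h : Rl (a * x) n) : Rl x (n * mi) := by
  obtain ⟨z, hz, hz'⟩ := ha
  obtain ⟨w, hw, hw'⟩ := h
  have h1 : (m : ZMod 11) * (mi : ZMod 11) = 1 := by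
    rw [← Nat.cast_mul, ← ZMod.natCast_mod, hm, Nat.cast_one]
  have hne : PadicInt.toZMod z ≠ 0 := by
    rw [hz']
    intro h0
    rw [h0, zero_mul] at h1
    exact absurd h1 (by decide)
  have hu : IsUnit z := by
    by_contra hcon
    have h2 : z ∈ IsLocalRing.maximalIdeal ℤ_[11] := (IsLocalRing.mem_maximalIdeal z).2 hcon
    rw [← PadicInt.ker_toZMod] at h2
    exact hne h2
  obtain ⟨u, rfl⟩ := hu
  have h3 : (((u : ℤ_[11]) : ℚ_[11])) * (((u⁻¹ : ℤ_[11]ˣ) : ℤ_[11]) : ℚ_[11]) = 1 := by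
    rw [← PadicInt.coe_mul, Units.mul_inv, PadicInt.coe_one]
  have h4 : PadicInt.toZMod (u : ℤ_[11]) * PadicInt.toZMod ((u⁻¹ : ℤ_[11]ˣ) : ℤ_[11]) = 1 := by
    rw [← map_mul, Units.mul_inv, map_one]
  refine ⟨w * ((u⁻¹ : ℤ_[11]ˣ) : ℤ_[11]), ?_, ?_⟩
  · rw [PadicInt.coe_mul, hw, Rat.cast_mul, ← hz]
    calc (((u : ℤ_[11]) : ℚ_[11])) * (x : ℚ_[11]) * (((u⁻¹ : ℤ_[11]ˣ) : ℤ_[11]) : ℚ_[11])
        = ((((u : ℤ_[11]) : ℚ_[11])) * (((u⁻¹ : ℤ_[11]ˣ) : ℤ_[11]) : ℚ_[11])) * (x : ℚ_[11]) := by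
          ring
      _ = (x : ℚ_[11]) := by rw [h3, one_mul]
  · rw [map_mul, hw', Nat.cast_mul]
    congr 1
    rw [hz'] at h4
    calc PadicInt.toZMod ((u⁻¹ : ℤ_[11]ˣ) : ℤ_[11])
        = ((m : ZMod 11) * (mi : ZMod 11)) * PadicInt.toZMod ((u⁻¹ : ℤ_[11]ˣ) : ℤ_[11]) := by
          rw [h1, one_mul]
      _ = (mi : ZMod 11) * ((m : ZMod 11) * PadicInt.toZMod ((u⁻¹ : ℤ_[11]ˣ) : ℤ_[11])) := by ring
      _ = (mi : ZMod 11) := by rw [h4, mul_one]

theorem Rl.sum {ι : Type} (s : Finset ι) (f : ι → ℚ) (g : ι → ℕ) (h : ∀ i ∈ s, Rl (f i) (g i)) :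
    Rl (∑ i ∈ s, f i) (∑ i ∈ s, g i) := by
  classical
  induction s using Finset.induction_on with
  | empty => simpa using Rl.zero
  | insert a s ha ih =>
    rw [Finset.sum_insert ha, Finset.sum_insert ha]
    exact (h a (Finset.mem_insert_self a s)).add
      (ih fun i hi => h i (Finset.mem_insert_of_mem hi))

/-- the digit `d` of `N` in base `100` -/
def dg (N d : ℕ) : ℕ := N / 100 ^ d % 100

/-- the inverse modulo `11` -/
def ivN (c : ℕ) : ℕ := c ^ 9 % 11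

/-- `(X + c) t` modulo `11`, first three coefficients -/
def mulT (c : ℕ) (a : ℕ × ℕ × ℕ) : ℕ × ℕ × ℕ :=
  ((c * a.1) % 11, (a.1 + c * a.2.1) % 11, (a.2.1 + c * a.2.2) % 11)

/-- `t / (X + c)` modulo `11`, where `c ci = 1`: coefficients -/
def divT (ci : ℕ) (a : ℕ × ℕ × ℕ) : ℕ × ℕ × ℕ :=
  ((a.1 * ci) % 11, ((a.2.1 + 10 * ((a.1 * ci) % 11)) * ci) % 11,
    ((a.2.2 + 10 * (((a.2.1 + 10 * ((a.1 * ci) % 11)) * ci) % 11)) * ci) % 11)

/-- `t` encodes the first three coefficients of `f` modulo `11` -/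
def Rep (f : PowerSeries ℚ) (t : ℕ × ℕ × ℕ) : Prop :=
  Rl (PowerSeries.coeff 0 f) t.1 ∧ Rl (PowerSeries.coeff 1 f) t.2.1 ∧
    Rl (PowerSeries.coeff 2 f) t.2.2

theorem coeff_lin_zero (c : ℚ) (f : PowerSeries ℚ) :
    PowerSeries.coeff 0 ((PowerSeries.X + PowerSeries.C c) * f) = c * PowerSeries.coeff 0 f := by
  rw [add_mul, map_add, PowerSeries.coeff_C_mul, PowerSeries.coeff_zero_X_mul, zero_add]

theorem coeff_lin_succ (c : ℚ) (f : PowerSeries ℚ) (d : ℕ) :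
    PowerSeries.coeff (d + 1) ((PowerSeries.X + PowerSeries.C c) * f) =
      PowerSeries.coeff d f + c * PowerSeries.coeff (d + 1) f := by
  rw [add_mul, map_add, PowerSeries.coeff_C_mul, PowerSeries.coeff_succ_X_mul]

theorem rep_mul {f : PowerSeries ℚ} {t : ℕ × ℕ × ℕ} {c : ℕ} {c' : ℚ} (h : Rep f t)
    (hc : Rl c' c) : Rep ((PowerSeries.X + PowerSeries.C c') * f) (mulT c t) := by
  obtain ⟨h0, h1, h2⟩ := h
  refine ⟨?_, ?_, ?_⟩
  · rw [coeff_lin_zero]
    exact (hc.mul h0).modd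
  · rw [coeff_lin_succ c' f 0]
    exact (h0.add (hc.mul h1)).modd
  · rw [coeff_lin_succ c' f 1]
    exact (h1.add (hc.mul h2)).modd

theorem rep_div {g : PowerSeries ℚ} {t : ℕ × ℕ × ℕ} {c ci : ℕ} {c' : ℚ}
    (h : Rep ((PowerSeries.X + PowerSeries.C c') * g) t) (hc : Rl c' c) (hci : c * ci % 11 = 1) :
    Rep g (divT ci t) := by
  obtain ⟨h0, h1, h2⟩ := h
  rw [coeff_lin_zero] at h0
  rw [coeff_lin_succ c' g 0] at h1
  rw [coeff_lin_succ c' g 1] at h2
  have k0 := (hc.cancel hci h0).modd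
  have e1 : PowerSeries.coeff 0 g + c' * PowerSeries.coeff (0 + 1) g + -PowerSeries.coeff 0 g =
    c' * PowerSeries.coeff 1 g := by ring
  have k1 := h1.add k0.neg
  rw [e1] at k1
  have k1' := (hc.cancel hci k1).modd
  have e2 : PowerSeries.coeff 1 g + c' * PowerSeries.coeff (1 + 1) g + -PowerSeries.coeff 1 g =
    c' * PowerSeries.coeff 2 g := by ring
  have k2 := h2.add k1'.neg
  rw [e2] at k2
  exact ⟨k0, k1', (hc.cancel hci k2).modd⟩

theorem rep_iv_pow {a : ℚ} (ha : a ≠ 0) {c ci : ℕ} (hc : Rl a c) (hci : c * ci % 11 = 1)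
    (n : ℕ) {f : PowerSeries ℚ} {t : ℕ × ℕ × ℕ} (h : Rep f t) :
    Rep (iv a ^ n * f) ((divT ci)^[n] t) := by
  induction n with
  | zero => rwa [pow_zero, one_mul]
  | succ n ih =>
    rw [Function.iterate_succ_apply']
    refine rep_div (c' := a) ?_ hc hci
    have h2 : (PowerSeries.X + PowerSeries.C a) * (iv a ^ (n + 1) * f) = iv a ^ n * f := by
      rw [pow_succ, ← mul_assoc, mul_comm (iv a ^ n) (iv a), ← mul_assoc, lin_mul_iv ha, one_mul]
    rw [h2]
    exact ih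

theorem rep_lin_pow {a : ℚ} {c : ℕ} (hc : Rl a c) (e : ℕ) {f : PowerSeries ℚ}
    {t : ℕ × ℕ × ℕ} (h : Rep f t) :
    Rep ((PowerSeries.X + PowerSeries.C a) ^ e * f) ((mulT c)^[e] t) := by
  induction e with
  | zero => rwa [pow_zero, one_mul]
  | succ e ih =>
    rw [Function.iterate_succ_apply', pow_succ', mul_assoc]
    exact rep_mul ih hc

theorem rep_one : Rep 1 (1, 0, 0) := by
  refine ⟨?_, ?_, ?_⟩
  · rw [PowerSeries.coeff_one, if_pos rfl]
    exact Rl.one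
  · rw [PowerSeries.coeff_one, if_neg (by norm_num)]
    exact Rl.zero
  · rw [PowerSeries.coeff_one, if_neg (by norm_num)]
    exact Rl.zero

/-- the other sites -/
def Lj (j : ℕ) : List ℕ := (List.range' 2 10).filter fun b => decide (b ≠ j)

/-- division by all the factors -/
def divL (j : ℕ) : List ℕ → ℕ × ℕ × ℕ
  | [] => (1, 0, 0)
  | b :: l => (divT (ivN (b + 10 * j)))^[ml b] (divL j l)

theorem rep_divL (j : ℕ) : ∀ l : List ℕ,
    (∀ b ∈ l, b ≠ j ∧ (b + 10 * j) * ivN (b + 10 * j) % 11 = 1) →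
    Rep (l.map fun b : ℕ => iv ((b : ℚ) - j) ^ ml b).prod (divL j l)
  | [], _ => rep_one
  | b :: l, h => by
    have hb := h b (by simp)
    have ih := rep_divL j l fun b hb' => h b (by simp [hb'])
    rw [List.map_cons, List.prod_cons]
    refine rep_iv_pow ?_ (Rl.sub_nat b j) hb.2 _ ih
    intro h0
    exact hb.1 (by exact_mod_cast sub_eq_zero.1 h0)

theorem Lj_ok : ∀ j ∈ Finset.Icc 2 11, ∀ b ∈ Lj j,
    b ≠ j ∧ (b + 10 * j) * ivN (b + 10 * j) % 11 = 1 := by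
  decide +kernel

theorem Lj_nodup : ∀ j ∈ Finset.Icc 2 11, (Lj j).Nodup := by
  decide +kernel

theorem Lj_fin : ∀ j ∈ Finset.Icc 2 11, (Lj j).toFinset = (Finset.Icc 2 11).erase j := by
  decide +kernel

/-- the local series modulo `11` -/
def serN (j e : ℕ) : ℕ × ℕ × ℕ :=
  (mulT (10 * j))^[e] (mulT (10 * j) (mulT (1 + 10 * j) (divL j (Lj j))))

theorem rep_ser (j : ℕ) (hj : j ∈ Finset.Icc 2 11) (e : ℕ) : Rep (ser j e) (serN j e) := by
  have h1 := rep_divL j (Lj j) (Lj_ok j hj)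
  rw [← List.prod_toFinset _ (Lj_nodup j hj), Lj_fin j hj] at h1
  have h2 := rep_mul h1 (c' := 1 - (j : ℚ)) (c := 1 + 10 * j) (by
    have := Rl.sub_nat 1 j
    rwa [Nat.cast_one] at this)
  have h3 := rep_mul h2 (c' := -(j : ℚ)) (c := 10 * j) (Rl.nat j).neg
  have h4 := rep_lin_pow (Rl.nat j).neg e h3
  have hs : ser j e = (PowerSeries.X + PowerSeries.C (-(j : ℚ))) ^ e *
      ((PowerSeries.X + PowerSeries.C (-(j : ℚ))) * ((PowerSeries.X + PowerSeries.C (1 - (j : ℚ))) *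
        ∏ b ∈ (Finset.Icc 2 11).erase j, iv ((b : ℚ) - j) ^ ml b)) := by
    unfold ser
    ring
  rw [hs]
  exact h4

/-- coefficient of a triple -/
def co (t : ℕ × ℕ × ℕ) : ℕ → ℕ
  | 0 => t.1
  | 1 => t.2.1
  | _ => t.2.2

theorem Rep.co {f : PowerSeries ℚ} {t : ℕ × ℕ × ℕ} (h : Rep f t) (d : ℕ) (hd : d < 3) :
    Rl (PowerSeries.coeff d f) (co t d) := by
  interval_cases d
  · exact h.1
  · exact h.2.1
  · exact h.2.2

/-- harmonic sums modulo `11` -/
def hN (i m : ℕ) : ℕ := ∑ l ∈ Finset.range m, ivN (l + 1) ^ i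

theorem ivN_ok : ∀ l < 9, (l + 1) * ivN (l + 1) % 11 = 1 := by
  decide +kernel

theorem rl_hs (i m : ℕ) (hm : m ≤ 9) : Rl (hs i m) (hN i m) := by
  unfold hs hN
  refine Rl.sum _ _ _ fun l hl => ?_
  rw [Finset.mem_range] at hl
  rw [← one_div_pow]
  refine Rl.pow ?_ i
  have h1 : Rl (((l + 1 : ℕ) : ℚ) * (1 / ((l : ℚ) + 1))) 1 := by
    have e : ((l + 1 : ℕ) : ℚ) * (1 / ((l : ℚ) + 1)) = 1 := by
      have : (l : ℚ) + 1 ≠ 0 := by positivity
      push_cast
      field_simp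
    rw [e]
    exact Rl.one
  have h2 := (Rl.nat (l + 1)).cancel (ivN_ok l (by omega)) h1
  rwa [one_mul] at h2

theorem ml_le (j : ℕ) : ml j ≤ 3 := by
  unfold ml
  split_ifs <;> norm_num

theorem ml_ge (j : ℕ) (hj : 3 ≤ j) : 2 ≤ ml j := by
  unfold ml
  split_ifs <;> omega

/-- `Fm e` modulo `11` -/
def FN (e : ℕ) : ℕ := 10 * ∑ j ∈ Finset.Icc 2 11, ∑ i ∈ Finset.Icc 1 (ml j),
  co (serN j e) (ml j - i) * hN i (j - 2)

theorem rl_Fm (e : ℕ) : Rl (Fm e) (FN e) := by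
  unfold Fm FN
  refine Rl.neg (Rl.sum _ _ _ fun j hj => Rl.sum _ _ _ fun i hi => ?_)
  have hj' := Finset.mem_Icc.1 hj
  have hi' := Finset.mem_Icc.1 hi
  have := ml_le j
  exact Rl.mul ((rep_ser j hj e).co _ (by omega)) (rl_hs _ _ (by omega))

/-- `Bm e` modulo `11` -/
def BN (e : ℕ) : ℕ := ∑ j ∈ Finset.Icc 3 11, co (serN j e) (ml j - 2)

theorem rl_Bm (e : ℕ) : Rl (Bm e) (BN e) := by
  unfold Bm BN
  refine Rl.sum _ _ _ fun j hj => ?_
  have hj' := Finset.mem_Icc.1 hj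
  have := ml_le j
  exact (rep_ser j (Finset.mem_Icc.2 ⟨by omega, hj'.2⟩) e).co _ (by omega)

/-- values of `Fm` -/
def FF : ℕ := 406020503031004080401000802090503080300

/-- values of `Bm` -/
def BB : ℕ := 200031005001000000000000000000000000000

theorem FN_val : ∀ e < 20, FN e % 11 = dg FF e % 11 := by
  decide +kernel

theorem BN_val : ∀ e < 20, BN e % 11 = dg BB e % 11 := by
  decide +kernel

/-- columns of the inverse matrix modulo `11` -/
def CC : List ℕ := [1004100801010403030810060507, 404050910080703100909060505, 905030709010501100608070606, 603100203031009040400080910, 900030900050007060204060908, 705020601041004030604101003, 902080309030103040709010303, 1000060105100700000000000000, 10000601051000000000000000, 100006010500000000000000, 1000060100000000000000, 10000600000000000000, 100000000000000000, 1000000000000000]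

/-- the entries of the matrix modulo `11` -/
def EN (l k : ℕ) : ℕ := if k < 7 then dg FF (l + k) else dg BB (l + (k - 7))

theorem inv_chk : ∀ i < 14, ∀ j < 14,
    (∑ k ∈ Finset.range 14, EN i k * dg (CC.getD j 0) k) % 11 = if i = j then 1 else 0 := by
  decide +kernel

theorem det_ne (M : Matrix (Fin 14) (Fin 14) ℚ) (N B : ℕ → ℕ → ℕ)
    (h : ∀ i j : Fin 14, Rl (M i j) (N i j))
    (hB : ∀ i < 14, ∀ j < 14, (∑ k ∈ Finset.range 14, N i k * B k j) % 11 =
      if i = j then 1 else 0) :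
    M.det ≠ 0 := by
  intro h0
  choose Z hZ hZ' using h
  have e1 : (Matrix.of Z).det = 0 := by
    have h1 : (Matrix.of Z).map (PadicInt.Coe.ringHom (p := 11)) = M.map (Rat.castHom ℚ_[11]) := by
      ext i j
      exact hZ i j
    have h2 := RingHom.map_det (PadicInt.Coe.ringHom (p := 11)) (Matrix.of Z)
    have h3 := RingHom.map_det (Rat.castHom ℚ_[11]) M
    rw [h0, map_zero] at h3
    have h4 : (PadicInt.Coe.ringHom (p := 11)) (Matrix.of Z).det = 0 := by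
      rw [h2, RingHom.mapMatrix_apply, h1, h3, RingHom.mapMatrix_apply]
    exact Subtype.ext h4
  have e2 : ((Matrix.of Z).map (PadicInt.toZMod (p := 11))).det = 0 := by
    have h2 := RingHom.map_det (PadicInt.toZMod (p := 11)) (Matrix.of Z)
    rw [e1, map_zero] at h2
    exact h2.symm
  have e3 : (Matrix.of Z).map (PadicInt.toZMod (p := 11)) *
      (Matrix.of fun k j : Fin 14 => ((B k j : ℕ) : ZMod 11)) = 1 := by
    ext i j
    rw [Matrix.mul_apply]
    have h1 : ∀ k : Fin 14, (Matrix.of Z).map (PadicInt.toZMod (p := 11)) i k *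
        (Matrix.of fun k j : Fin 14 => ((B k j : ℕ) : ZMod 11)) k j =
        ((N i k * B k j : ℕ) : ZMod 11) := by
      intro k
      rw [Nat.cast_mul]
      show PadicInt.toZMod (Z i k) * ((B k j : ℕ) : ZMod 11) = _
      rw [hZ' i k]
    rw [Finset.sum_congr rfl fun k _ => h1 k, ← Nat.cast_sum,
      Fin.sum_univ_eq_sum_range (fun k => N i k * B k j) 14, ← ZMod.natCast_mod,
      hB i i.2 j j.2, Matrix.one_apply]
    by_cases hij : i = j
    · rw [if_pos hij, if_pos (by rw [hij]), Nat.cast_one]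
    · rw [if_neg hij, if_neg (fun h => hij (Fin.ext h)), Nat.cast_zero]
  have e4 := congrArg Matrix.det e3
  rw [Matrix.det_mul, e2, zero_mul, Matrix.det_one] at e4
  exact absurd e4 (by decide)

end H5

open H5 in
theorem H5_local : (Matrix.of fun l l' : Fin 14 => if l'.1 < 7 then Fm (l.1 + l'.1) else Bm (l.1 + (l'.1 - 7))).det ≠ 0 := by
  refine H5.det_ne _ EN (fun k j => dg (CC.getD j 0) k) ?_ inv_chk
  intro i j
  show Rl (if j.1 < 7 then Fm (i.1 + j.1) else Bm (i.1 + (j.1 - 7))) (EN i.1 j.1)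
  unfold EN
  have hi := i.2
  have hj := j.2
  split_ifs with h
  · exact (rl_Fm _).congr (FN_val _ (by omega))
  · exact (rl_Bm _).congr (BN_val _ (by omega))

end Pool.Agent.LZ
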