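import Pool.Agent.H337R2.LZ.Defs
import Pool.Agent.H574R2.D3.H6pre
import Pool.Agent.H574R2.D3.A2
import Pool.Agent.H336R2.HD.H6pre

/-! Task H6 (helper807): non-vanishing of the determinant, from H3, H4, H5 (as hypotheses). -/

open Polynomial Pool.Agent.H337R2

namespace Pool.Agent.LZ

noncomputable section

/-- the test polynomials -/
def H6_P (p r c l : ℕ) : ℚ[X] := (X + C (r : ℚ)) ^ l * OT p r c

lemma H6_P_natDegree (p r c l : ℕ) (hr1 : 1 ≤ r) (hr2 : r ≤ p) (hl : l < c) :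
    (H6_P p r c l).natDegree < c * p := by
  have h0 : ∀ k : ℕ, (X + C (k : ℚ) : ℚ[X]).natDegree ≤ 1 := fun k => (natDegree_X_add_C _).le
  have h1 : ((X + C (r : ℚ) : ℚ[X]) ^ l).natDegree ≤ l := by
    refine natDegree_pow_le.trans ?_
    have := h0 r
    nlinarith
  have h2 : (OT p r c).natDegree ≤ c * (p - 1) := by
    unfold OT
    refine (natDegree_prod_le _ _).trans ?_
    have h3 : ∀ r' ∈ (Finset.Icc 1 p).erase r, ((X + C (r' : ℚ) : ℚ[X]) ^ c).natDegree ≤ c := by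
      intro r' _
      refine natDegree_pow_le.trans ?_
      have := h0 r'
      nlinarith
    refine (Finset.sum_le_sum h3).trans ?_
    rw [Finset.sum_const, Finset.card_erase_of_mem, Nat.card_Icc, smul_eq_mul]
    · rw [mul_comm]
      exact Nat.mul_le_mul_left _ (by omega)
    · rw [Finset.mem_Icc]
      omega
  unfold H6_P
  refine (natDegree_mul_le).trans_lt ?_
  obtain ⟨h, hh⟩ : ∃ h, p = h + 1 := ⟨p - 1, by omega⟩
  rw [hh] at h2 ⊢
  rw [Nat.add_sub_cancel] at h2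
  rw [mul_add, mul_one]
  omega

lemma H6_P_mul (p r l l' : ℕ) : H6_P p r 14 l * H6_P p r 7 l' =
    (X + C (r : ℚ)) ^ (l + l') * OT p r 21 := by
  unfold H6_P
  rw [pow_add]
  have h : OT p r 21 = OT p r 14 * OT p r 7 := by
    unfold OT
    rw [← Finset.prod_mul_distrib]
    refine Finset.prod_congr rfl fun r' _ => ?_
    rw [← pow_add]
  rw [h]
  ring

/-- the bijection between rows and columns -/
def H6_e (h : ℕ) : Fin 14 × Fin h ≃ (Fin 7 × Fin h) ⊕ (Fin 7 × Fin h) where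
  toFun a := if hl : a.1.1 < 7 then Sum.inl (⟨a.1.1, hl⟩, a.2)
    else Sum.inr (⟨a.1.1 - 7, by have := a.1.2; omega⟩, a.2)
  invFun := Sum.elim (fun c => (⟨c.1.1, by have := c.1.2; omega⟩, c.2))
    (fun c => (⟨c.1.1 + 7, by have := c.1.2; omega⟩, c.2))
  left_inv a := by
    obtain ⟨⟨l, hl⟩, r⟩ := a
    by_cases h1 : l < 7
    · simp [h1]
    · simp only [h1, dite_false, Sum.elim_inr, Prod.mk.injEq, Fin.mk.injEq, and_true]
      omega
  right_inv c := by
    rcases c with ⟨⟨l, hl⟩, r⟩ | ⟨⟨l, hl⟩, r⟩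
    · simp [hl]
    · simp

lemma H6_e_lt (h : ℕ) (a : Fin 14 × Fin h) (ha : a.1.1 < 7) :
    H6_e h a = Sum.inl (⟨a.1.1, ha⟩, a.2) := by
  unfold H6_e
  simp [ha]

lemma H6_e_ge (h : ℕ) (a : Fin 14 × Fin h) (ha : ¬ a.1.1 < 7) :
    H6_e h a = Sum.inr (⟨a.1.1 - 7, by have := a.1.2; omega⟩, a.2) := by
  unfold H6_e
  simp [ha]

/-- statement of H3 -/
def H6_H3 : Prop := ∀ {p : ℕ} [Fact p.Prime] (_hp : 100 ≤ p) (α β : ℚ) (_hα : padicNorm p α ≤ 1)
    (_hβ : padicNorm p β ≤ 1) (r : ℕ) (_hr1 : 1 ≤ r) (_hr2 : r ≤ p),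
    ∃ w : ℚ, padicNorm p w = 1 ∧ ∀ e : ℕ, e ≤ 19 →
      padicNorm p ((p : ℚ) ^ (-(e : ℤ)) * AL p α ((X + C (r : ℚ)) ^ e * OT p r 21) - w * Fm e) ≤ (p : ℚ)⁻¹ ∧
      padicNorm p ((p : ℚ) ^ (-(e : ℤ) - 2) * BL p β ((X + C (r : ℚ)) ^ e * OT p r 21) - w * Bm e) ≤ (p : ℚ)⁻¹

/-- statement of H4 -/
def H6_H4 : Prop := ∀ {p : ℕ} [Fact p.Prime] (_hp : 100 ≤ p) (α β : ℚ) (_hα : padicNorm p α ≤ 1)
    (_hβ : padicNorm p β ≤ 1) (r s l l' : ℕ) (_hr1 : 1 ≤ r) (_hr2 : r ≤ p) (_hs1 : 1 ≤ s) (_hs2 : s ≤ p)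
    (_hrs : r ≠ s) (_hl : l < 14) (_hl' : l' < 7),
    padicNorm p ((p : ℚ) ^ (-(l : ℤ) - (l' : ℤ)) * AL p α
      (((X + C (r : ℚ)) ^ l * OT p r 14) * ((X + C (s : ℚ)) ^ l' * OT p s 7))) ≤ (p : ℚ)⁻¹ ∧
    padicNorm p ((p : ℚ) ^ (-(l : ℤ) - (l' : ℤ) - 2) * BL p β
      (((X + C (r : ℚ)) ^ l * OT p r 14) * ((X + C (s : ℚ)) ^ l' * OT p s 7))) ≤ (p : ℚ)⁻¹

/-- statement of H5 -/
def H6_H5 : Prop :=
    (Matrix.of fun l l' : Fin 14 => if l'.1 < 7 then Fm (l.1 + l'.1) else Bm (l.1 + (l'.1 - 7))).det ≠ 0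

theorem H6_of (H3_diag : H6_H3) (H4_offdiag : H6_H4) (H5_local : H6_H5) (α β : ℚ) :
    ∃ p0 : ℕ, ∀ p : ℕ, p0 ≤ p → p.Prime → DD p α β ≠ 0 := by
  -- bounds on the constants
  obtain ⟨p1, hp1⟩ := Pool.Agent.H336R2.HD.H6_unit _ H5_local
  obtain ⟨p2, hp2⟩ := Pool.Agent.H574R2.D3.H6_fin_int Fm 20
  obtain ⟨p3, hp3⟩ := Pool.Agent.H574R2.D3.H6_fin_int Bm 20
  obtain ⟨p4, hp4⟩ := Pool.Agent.H336R2.HD.H6_int α
  obtain ⟨p5, hp5⟩ := Pool.Agent.H336R2.HD.H6_int β
  refine ⟨p1 + p2 + p3 + p4 + p5 + 100, fun p hp hpp => ?_⟩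
  have : Fact p.Prime := ⟨hpp⟩
  have hp100 : 100 ≤ p := by omega
  have hαp : padicNorm p α ≤ 1 := hp4 p (by omega) hpp
  have hβp : padicNorm p β ≤ 1 := hp5 p (by omega) hpp
  have hp0 : (p : ℚ) ≠ 0 := by exact_mod_cast hpp.ne_zero
  -- choose the units
  have hw : ∀ r : Fin p, ∃ w : ℚ, padicNorm p w = 1 ∧ ∀ e : ℕ, e ≤ 19 →
      padicNorm p ((p : ℚ) ^ (-(e : ℤ)) * AL p α ((X + C ((r.1 + 1 : ℕ) : ℚ)) ^ e * OT p (r.1 + 1) 21) -
        w * Fm e) ≤ (p : ℚ)⁻¹ ∧
      padicNorm p ((p : ℚ) ^ (-(e : ℤ) - 2) * BL p β ((X + C ((r.1 + 1 : ℕ) : ℚ)) ^ e * OT p (r.1 + 1) 21) -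
        w * Bm e) ≤ (p : ℚ)⁻¹ := by
    intro r
    have hr := r.2
    exact H3_diag hp100 α β hαp hβp (r.1 + 1) (by omega) (by omega)
  choose w hw1 hw2 using hw
  -- the Gram matrix
  set Q : Fin 14 × Fin p → ℚ[X] := fun a => H6_P p (a.2.1 + 1) 14 a.1.1 with hQ
  set P : Fin 7 × Fin p → ℚ[X] := fun c => H6_P p (c.2.1 + 1) 7 c.1.1 with hP
  set G : Matrix (Fin 14 × Fin p) (Fin 14 × Fin p) ℚ :=
    Matrix.of fun r s => Sum.elim (fun c => AL p α (Q r * P c)) (fun c => BL p β (Q r * P c))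
      (H6_e p s) with hG
  have key : G.det ≠ 0 := by
    set c : Fin 14 × Fin p → ℚ := fun a => (p : ℚ) ^ (-(a.1.1 : ℤ)) with hc
    set d : Fin 14 × Fin p → ℚ := fun a =>
      if a.1.1 < 7 then (p : ℚ) ^ (-(a.1.1 : ℤ)) else (p : ℚ) ^ (-((a.1.1 - 7 : ℕ) : ℤ) - 2) with hd
    set M : Matrix (Fin 14 × Fin p) (Fin 14 × Fin p) ℚ :=
      Matrix.of fun a b => c a * d b * G a b with hM
    set Bl : Fin p → Matrix (Fin 14) (Fin 14) ℚ := fun r =>
      Matrix.of fun l l' => if l'.1 < 7 then w r * Fm (l.1 + l'.1)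
        else w r * Bm (l.1 + (l'.1 - 7))
      with hBl
    have hM0 : M.det ≠ 0 := by
      apply Pool.Agent.H336R2.HD.A6_det_congr p M (Matrix.blockDiagonal Bl)
      · intro a b
        rw [Matrix.blockDiagonal_apply]
        split_ifs with hab
        · simp only [hBl, Matrix.of_apply]
          have ha := a.1.2
          have hb := b.1.2
          split_ifs with hl
          · have h1 : padicNorm p (Fm (a.1.1 + b.1.1)) ≤ 1 :=
              hp2 _ (Finset.mem_range.2 (by omega)) p (by omega) hpp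
            rw [padicNorm.mul, hw1, one_mul]
            exact h1
          · have h1 : padicNorm p (Bm (a.1.1 + (b.1.1 - 7))) ≤ 1 :=
              hp3 _ (Finset.mem_range.2 (by omega)) p (by omega) hpp
            rw [padicNorm.mul, hw1, one_mul]
            exact h1
        · simp
      · intro a b
        rw [Matrix.blockDiagonal_apply]
        have ha := a.1.2
        have hb := b.1.2
        have ha2 := a.2.2
        have hb2 := b.2.2
        by_cases hl : b.1.1 < 7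
        · have hMab : M a b = (p : ℚ) ^ (-(a.1.1 : ℤ) - (b.1.1 : ℤ)) *
              AL p α (H6_P p (a.2.1 + 1) 14 a.1.1 * H6_P p (b.2.1 + 1) 7 b.1.1) := by
            simp only [hM, hG, Matrix.of_apply, hc, hd, if_pos hl, H6_e_lt p b hl, Sum.elim_inl, hQ, hP]
            rw [← zpow_add₀ hp0]
            rfl
          split_ifs with hab
          · rw [hMab, ← hab, H6_P_mul]
            have h1 := (hw2 a.2 (a.1.1 + b.1.1) (by omega)).1
            have h2 : (-((a.1.1 + b.1.1 : ℕ) : ℤ)) = -(a.1.1 : ℤ) - (b.1.1 : ℤ) := by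
              push_cast
              ring
            rw [h2] at h1
            simp only [hBl, Matrix.of_apply, if_pos hl]
            exact h1
          · rw [hMab, sub_zero]
            refine (H4_offdiag hp100 α β hαp hβp (a.2.1 + 1) (b.2.1 + 1) a.1.1 b.1.1 (by omega)
              (by omega) (by omega) (by omega) ?_ ha hl).1
            intro h1
            apply hab
            ext
            omega
        · have hMab : M a b = (p : ℚ) ^ (-(a.1.1 : ℤ) - ((b.1.1 - 7 : ℕ) : ℤ) - 2) *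
              BL p β (H6_P p (a.2.1 + 1) 14 a.1.1 * H6_P p (b.2.1 + 1) 7 (b.1.1 - 7)) := by
            simp only [hM, hG, Matrix.of_apply, hc, hd, if_neg hl, H6_e_ge p b hl, Sum.elim_inr, hQ, hP]
            rw [← zpow_add₀ hp0]
            congr 2
            ring
          split_ifs with hab
          · rw [hMab, ← hab, H6_P_mul]
            have h1 := (hw2 a.2 (a.1.1 + (b.1.1 - 7)) (by omega)).2
            have h2 : (-((a.1.1 + (b.1.1 - 7) : ℕ) : ℤ)) - 2 =
                -(a.1.1 : ℤ) - ((b.1.1 - 7 : ℕ) : ℤ) - 2 := by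
              push_cast
              ring
            rw [h2] at h1
            simp only [hBl, Matrix.of_apply, if_neg hl]
            exact h1
          · rw [hMab, sub_zero]
            refine (H4_offdiag hp100 α β hαp hβp (a.2.1 + 1) (b.2.1 + 1) a.1.1 (b.1.1 - 7)
              (by omega) (by omega) (by omega) (by omega) ?_ ha (by omega)).2
            intro h1
            apply hab
            ext
            omega
      · rw [Matrix.det_blockDiagonal]
        apply Pool.Agent.H574R2.D3.H6_norm_prod p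
        intro r
        have h1 : Bl r = Matrix.of fun l l' => (w r) *
              (Matrix.of fun l l' : Fin 14 => if l'.1 < 7 then Fm (l.1 + l'.1)
                else Bm (l.1 + (l'.1 - 7))) l l' := by
          ext l l'
          simp only [hBl, Matrix.of_apply]
          split_ifs <;> ring
        rw [h1, Matrix.det_mul_column (fun _ => w r)]
        rw [padicNorm.mul, Pool.Agent.H574R2.D3.H6_norm_prod p _ (fun _ => hw1 r),
          hp1 p (by omega) hpp]
        norm_num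
    intro h0
    apply hM0
    rw [hM, Pool.Agent.H574R2.D3.H6_det_scale, h0, mul_zero, mul_zero]
  -- conclusion
  unfold DD
  refine Pool.Agent.H574R2.D3.A2_MD_ne (AL p α) (BL p β) (7 * p) (H6_e p) ?_ ?_ Q P ?_ ?_ key
  · simp only [Fintype.card_prod, Fintype.card_fin]
    omega
  · simp only [Fintype.card_prod, Fintype.card_fin]
  · intro a
    have ha := a.1.2
    have ha2 := a.2.2
    have := H6_P_natDegree p (a.2.1 + 1) 14 a.1.1 (by omega) (by omega) ha
    rw [hQ]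
    refine this.trans_le ?_
    omega
  · intro a
    have ha := a.1.2
    have ha2 := a.2.2
    have := H6_P_natDegree p (a.2.1 + 1) 7 a.1.1 (by omega) (by omega) ha
    rw [hP]
    exact this

end

end Pool.Agent.LZ
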