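import Pool.Agent.H337R2.LZ.PMa

/-!
# P_main and P_large from the results of parts D, E, F (hypotheses)
-/

open Polynomial Pool.Agent.H337R2 Filter Topology

namespace Pool.Agent.LZ

noncomputable section

/-- statement of `D4_small_med` -/
def PMmed : Prop := ∀ {n p : ℕ} [Fact p.Prime], 1 ≤ n → 14 * n < p ^ 2 → ∀ (q : ℕ) (α β : ℚ),
    QI q α → QI q β →
    padicNorm p ((q : ℚ) ^ (14 * n) * DD n α β) ≤
      ((p : ℚ) ^ 4) ^ (7 * n) * ((∏ i ∈ Finset.range (14 * n), padicNorm p ((i.factorial : ℕ) : ℚ)) *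
        ∏ i ∈ Finset.range (7 * n), padicNorm p ((i.factorial : ℕ) : ℚ) ^ 2)

/-- statement of `D4_small_crude` -/
def PMcrude : Prop := ∀ {n p : ℕ} [Fact p.Prime], 1 ≤ n → ∀ (q : ℕ) (α β : ℚ), QI q α → QI q β →
    padicNorm p ((q : ℚ) ^ (14 * n) * DD n α β) ≤
      (((14 * n + 1 : ℕ) : ℚ) ^ 40) ^ (14 * n) *
        ((∏ i ∈ Finset.range (14 * n), padicNorm p ((i.factorial : ℕ) : ℚ)) *
        ∏ i ∈ Finset.range (7 * n), padicNorm p ((i.factorial : ℕ) : ℚ) ^ 2)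

lemma PM_fac_pos (p N : ℕ) (hp : p.Prime) : 0 < ((padicNorm p ((N.factorial : ℕ) : ℚ) : ℚ) : ℝ) := by
  have : Fact p.Prime := ⟨hp⟩
  have : 0 < padicNorm p ((N.factorial : ℕ) : ℚ) :=
    lt_of_le_of_ne (padicNorm.nonneg _) (Ne.symm (padicNorm.nonzero (by exact_mod_cast Nat.factorial_ne_zero N)))
  exact_mod_cast this

lemma PM_z_pos (p : ℕ) (hp : p.Prime) (z : ℚ) (hz : z ≠ 0) : 0 < ((padicNorm p z : ℚ) : ℝ) := by
  have : Fact p.Prime := ⟨hp⟩
  have : 0 < padicNorm p z := lt_of_le_of_ne (padicNorm.nonneg _) (Ne.symm (padicNorm.nonzero hz))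
  exact_mod_cast this

lemma PM_small (hmed : PMmed) (hcrude : PMcrude) (n p : ℕ) (hn : 1 ≤ n) (hp : p.Prime) (q : ℕ) (α β : ℚ)
    (hα : QI q α) (hβ : QI q β) (hz : (q : ℚ) ^ (14 * n) * DD n α β ≠ 0) :
    Real.log ((padicNorm p ((q : ℚ) ^ (14 * n) * DD n α β) : ℚ) : ℝ) ≤
      14 * (n : ℝ) * (if p ^ 2 ≤ 14 * n then 40 * Real.log (14 * n + 1) else 0) + 28 * (n : ℝ) * Real.log p +
      (∑ i ∈ Finset.range (14 * n), Real.log ((padicNorm p ((i.factorial : ℕ) : ℚ) : ℚ) : ℝ) +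
       2 * ∑ i ∈ Finset.range (7 * n), Real.log ((padicNorm p ((i.factorial : ℕ) : ℚ) : ℚ) : ℝ)) := by
  have hF : Fact p.Prime := ⟨hp⟩
  have hp0 : (0 : ℝ) < p := by exact_mod_cast hp.pos
  have hlp : 0 ≤ Real.log p := Real.log_nonneg (by exact_mod_cast hp.one_lt.le)
  have hn0 : (0 : ℝ) ≤ n := by positivity
  have hzp := PM_z_pos p hp _ hz
  have hpp : 0 < (∏ i ∈ Finset.range (14 * n), ((padicNorm p ((i.factorial : ℕ) : ℚ) : ℚ) : ℝ)) *
        ∏ i ∈ Finset.range (7 * n), ((padicNorm p ((i.factorial : ℕ) : ℚ) : ℚ) : ℝ) ^ 2 :=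
    mul_pos (Finset.prod_pos fun i _ => PM_fac_pos p _ hp)
      (Finset.prod_pos fun i _ => pow_pos (PM_fac_pos p _ hp) 2)
  have hprod : Real.log ((∏ i ∈ Finset.range (14 * n), ((padicNorm p ((i.factorial : ℕ) : ℚ) : ℚ) : ℝ)) *
        ∏ i ∈ Finset.range (7 * n), ((padicNorm p ((i.factorial : ℕ) : ℚ) : ℚ) : ℝ) ^ 2)
      = ∑ i ∈ Finset.range (14 * n), Real.log ((padicNorm p ((i.factorial : ℕ) : ℚ) : ℚ) : ℝ) +
       2 * ∑ i ∈ Finset.range (7 * n), Real.log ((padicNorm p ((i.factorial : ℕ) : ℚ) : ℚ) : ℝ) := by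
    rw [Real.log_mul (Finset.prod_pos fun i _ => PM_fac_pos p _ hp).ne'
      (Finset.prod_pos fun i _ => pow_pos (PM_fac_pos p _ hp) 2).ne',
      Real.log_prod (fun i _ => (PM_fac_pos p _ hp).ne'),
      Real.log_prod (fun i _ => (pow_pos (PM_fac_pos p _ hp) 2).ne'), Finset.mul_sum]
    congr 1
    apply Finset.sum_congr rfl
    intro i _
    rw [Real.log_pow]
    norm_num
  by_cases h2 : p ^ 2 ≤ 14 * n
  · rw [if_pos h2]
    have h3 : ((padicNorm p ((q : ℚ) ^ (14 * n) * DD n α β) : ℚ) : ℝ) ≤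
        ((14 * (n : ℝ) + 1) ^ 40) ^ (14 * n) *
        ((∏ i ∈ Finset.range (14 * n), ((padicNorm p ((i.factorial : ℕ) : ℚ) : ℚ) : ℝ)) *
        ∏ i ∈ Finset.range (7 * n), ((padicNorm p ((i.factorial : ℕ) : ℚ) : ℚ) : ℝ) ^ 2) := by
      have h4 := (Rat.cast_le (K := ℝ)).2 (hcrude (p := p) hn q α β hα hβ)
      push_cast at h4
      exact h4
    have h5 := Real.log_le_log hzp h3
    rw [Real.log_mul (by positivity) hpp.ne', hprod, Real.log_pow, Real.log_pow] at h5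
    have e1 : ((14 * n : ℕ) : ℝ) * (((40 : ℕ) : ℝ) * Real.log (14 * (n : ℝ) + 1)) =
        14 * (n : ℝ) * (40 * Real.log (14 * n + 1)) := by push_cast; ring
    rw [e1] at h5
    have h6 : 0 ≤ 28 * (n : ℝ) * Real.log p := by positivity
    linarith
  · rw [if_neg h2]
    have h3 : ((padicNorm p ((q : ℚ) ^ (14 * n) * DD n α β) : ℚ) : ℝ) ≤
        ((p : ℝ) ^ 4) ^ (7 * n) *
        ((∏ i ∈ Finset.range (14 * n), ((padicNorm p ((i.factorial : ℕ) : ℚ) : ℚ) : ℝ)) *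
        ∏ i ∈ Finset.range (7 * n), ((padicNorm p ((i.factorial : ℕ) : ℚ) : ℚ) : ℝ) ^ 2) := by
      have h4 := (Rat.cast_le (K := ℝ)).2 (hmed (p := p) hn (by omega) q α β hα hβ)
      push_cast at h4
      exact h4
    have h5 := Real.log_le_log hzp h3
    rw [Real.log_mul (by positivity) hpp.ne', hprod, Real.log_pow, Real.log_pow] at h5
    have e1 : ((7 * n : ℕ) : ℝ) * (((4 : ℕ) : ℝ) * Real.log p) = 28 * (n : ℝ) * Real.log p := by
      push_cast; ring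
    rw [e1] at h5
    linarith

/-- statement of `E4_cell` for `c` with the constant `K0` -/
def PMcell (c : Cell) (K0 : ℝ) : Prop := ∀ n : ℕ, 1 ≤ n → ∀ p : ℕ, p.Prime → 12 * n < p ^ 2 →
    c.u0 * n < p * c.v0 → p * c.v1 ≤ c.u1 * n → ∀ (q : ℕ) (α β : ℚ), QI q α → QI q β →
    ((padicNorm p ((q : ℚ) ^ (14 * n) * DD n α β) : ℚ) : ℝ) ≤ (p : ℝ) ^ ((c.AB.1 : ℝ) * n + c.AB.2 * p + K0)

lemma PMcell_mono (c : Cell) (K K' : ℝ) (h : K ≤ K') (hK : PMcell c K) : PMcell c K' := by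
  intro n hn p hp h1 h2 h3 q α β hα hβ
  refine (hK n hn p hp h1 h2 h3 q α β hα hβ).trans ?_
  apply Real.rpow_le_rpow_of_exponent_le
  · exact_mod_cast hp.one_lt.le
  · linarith

/-- the weights of the factorials -/
def PMw (n p : ℕ) : ℝ :=
  ((∑ i ∈ Finset.range (14 * n), (i / p) + 2 * ∑ i ∈ Finset.range (7 * n), (i / p) : ℕ) : ℝ) * Real.log p

/-- the sum over the large primes -/
lemma PM_large_sum (L : List Cell) (hchk : PMchk 1 40 L = true)
    (hE5ok : L.all Cell.ok = true)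
    (hF4 : ∀ {c : Cell}, c.ok = true → ∀ {n p : ℕ}, 1 ≤ n → 0 < p → c.u0 * n < p * c.v0 →
      p * c.v1 ≤ c.u1 * n →
      ((∑ i ∈ Finset.range (14 * n), (i / p) + 2 * ∑ i ∈ Finset.range (7 * n), (i / p) : ℕ) : ℤ) =
        c.sf.1 * n + c.sf.2 * p)
    (K : ℝ) (hK : 0 ≤ K) (hE4 : ∀ c ∈ L, PMcell c K) (n : ℕ) (hn : 19200 ≤ n)
    (q : ℕ) (α β : ℚ) (hα : QI q α) (hβ : QI q β) (hz : (q : ℚ) ^ (14 * n) * DD n α β ≠ 0) :
    ∑ p ∈ PR (1 / 40) 14 n, (Real.log ((padicNorm p ((q : ℚ) ^ (14 * n) * DD n α β) : ℚ) : ℝ) + PMw n p) ≤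
      (L.map fun c => ∑ p ∈ PR (PMlo c) (PMhi c) n,
        (((c.AB.1 + c.sf.1 : ℤ) : ℝ) * n + ((c.AB.2 + c.sf.2 : ℤ) : ℝ) * p) * Real.log p).sum +
      K * (Real.log 4 * (15 * n)) := by
  have hch := (PM_chain L 1 40 hchk).2 n
  have e40 : (((1 : ℕ) : ℚ) / ((40 : ℕ) : ℚ)) = 1 / 40 := by norm_num
  rw [e40] at hch
  rw [hch]
  have h1 : (L.map fun c => ∑ p ∈ PR (PMlo c) (PMhi c) n,
      (Real.log ((padicNorm p ((q : ℚ) ^ (14 * n) * DD n α β) : ℚ) : ℝ) + PMw n p)).sum ≤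
      (L.map fun c => (∑ p ∈ PR (PMlo c) (PMhi c) n,
        (((c.AB.1 + c.sf.1 : ℤ) : ℝ) * n + ((c.AB.2 + c.sf.2 : ℤ) : ℝ) * p) * Real.log p) +
        K * ∑ p ∈ PR (PMlo c) (PMhi c) n, Real.log p).sum := by
    apply List.sum_le_sum
    intro c hc
    have hok : c.ok = true := List.all_eq_true.1 hE5ok c hc
    rw [Finset.mul_sum, ← Finset.sum_add_distrib]
    apply Finset.sum_le_sum
    intro p hp
    obtain ⟨hpp, m1, m2⟩ := PM_mem hok hp
    have hp0 : (0 : ℝ) < p := by exact_mod_cast hpp.pos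
    have hlp : 0 ≤ Real.log p := Real.log_nonneg (by exact_mod_cast hpp.one_lt.le)
    -- `n < 40 p`
    have hn40 : n < 40 * p := by
      have hmem : p ∈ PR (1 / 40) 14 n := by
        by_contra hcon
        have hG := hch (fun r => if r = p then 1 else 0)
        have z1 : ∑ r ∈ PR (1 / 40) 14 n, (if r = p then (1 : ℝ) else 0) = 0 := by
          apply Finset.sum_eq_zero
          intro r hr
          rw [if_neg]
          rintro rfl
          exact hcon hr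
        rw [z1] at hG
        have z2 : (1 : ℝ) ≤ ∑ r ∈ PR (PMlo c) (PMhi c) n, (if r = p then (1 : ℝ) else 0) := by
          have := Finset.single_le_sum (f := fun r : ℕ => if r = p then (1 : ℝ) else 0)
            (fun r _ => by split_ifs <;> norm_num) hp
          simpa using this
        have z3 := List.single_le_sum (l := L.map fun c => ∑ r ∈ PR (PMlo c) (PMhi c) n,
          (if r = p then (1 : ℝ) else 0)) (by
            intro x hx
            obtain ⟨c', -, rfl⟩ := List.mem_map.1 hx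
            exact Finset.sum_nonneg fun r _ => by split_ifs <;> norm_num) _
            (List.mem_map.2 ⟨c, hc, rfl⟩)
        linarith
      unfold PR at hmem
      simp only [Finset.mem_filter] at hmem
      have h3 := hmem.2.2.1
      have : (n : ℚ) < 40 * p := by linarith
      exact_mod_cast this
    have h12 : 12 * n < p ^ 2 := by nlinarith
    have h5 := hE4 c hc n (by omega) p hpp h12 m1 m2 q α β hα hβ
    have h6 := Real.log_le_log (PM_z_pos p hpp _ hz) h5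
    rw [Real.log_rpow hp0] at h6
    have h7 : PMw n p = ((c.sf.1 : ℝ) * n + c.sf.2 * p) * Real.log p := by
      unfold PMw
      congr 1
      have h8 := hF4 hok (n := n) (p := p) (by omega) hpp.pos m1 m2
      rw [← Int.cast_natCast, h8]
      push_cast
      ring
    rw [h7]
    push_cast
    nlinarith
  refine h1.trans ?_
  rw [List.sum_map_add, List.sum_map_mul_left]
  have h2 : (L.map fun c => ∑ p ∈ PR (PMlo c) (PMhi c) n, Real.log (p : ℝ)).sum ≤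
      Real.log 4 * (15 * n) := by
    rw [← hch]
    exact PM_theta n _ _
  have h3 := mul_le_mul_of_nonneg_left h2 hK
  linarith

lemma PM_ev {f : ℕ → ℝ} {L : ℝ} (h : Tendsto (fun n : ℕ => f n / (n : ℝ) ^ 2) atTop (𝓝 L)) (ε : ℝ)
    (hε : 0 < ε) : ∀ᶠ n : ℕ in atTop, f n ≤ (L + ε) * (n : ℝ) ^ 2 := by
  filter_upwards [h.eventually_lt_const (show L < L + ε by linarith), eventually_ge_atTop 1] with n h1 hn
  have hn0 : (0 : ℝ) < (n : ℝ) ^ 2 := by
    have : (0 : ℝ) < n := by exact_mod_cast hn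
    positivity
  rw [div_lt_iff₀ hn0] at h1
  exact h1.le

/-- **the p-adic part**, from the results of the other tasks -/
theorem P_main_list (L : List Cell) (hchk : PMchk 1 40 L = true) (hmed : PMmed) (hcrude : PMcrude)
    (hE4 : ∀ c ∈ L, c.ok = true → ∃ K0 : ℝ, PMcell c K0)
    (hE5ok : L.all Cell.ok = true)
    (hF1 : ∀ (lo hi : ℚ), 0 < lo → lo ≤ hi → hi ≤ 14 → ∀ (A B : ℤ),
      Tendsto (fun n : ℕ => (∑ p ∈ PR lo hi n, ((A : ℝ) * n + B * p) * Real.log p) / (n : ℝ) ^ 2) atTop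
        (𝓝 (((A * (hi - lo) + B * (hi ^ 2 - lo ^ 2) / 2 : ℚ)) : ℝ)))
    (hF3 : (L.map PMlim).sum ≤ -1082 / 100)
    (hF4 : ∀ {c : Cell}, c.ok = true → ∀ {n p : ℕ}, 1 ≤ n → 0 < p → c.u0 * n < p * c.v0 →
      p * c.v1 ≤ c.u1 * n →
      ((∑ i ∈ Finset.range (14 * n), (i / p) + 2 * ∑ i ∈ Finset.range (7 * n), (i / p) : ℕ) : ℤ) =
        c.sf.1 * n + c.sf.2 * p)
    (hF5 : ∀ᶠ n : ℕ in atTop,
      ∑ p ∈ (Finset.range (n + 1)).filter (fun p : ℕ => p.Prime ∧ 40 * p ≤ n),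
        (∑ i ∈ Finset.range (14 * n), Real.log ((padicNorm p ((i.factorial : ℕ) : ℚ) : ℚ) : ℝ) +
         2 * ∑ i ∈ Finset.range (7 * n), Real.log ((padicNorm p ((i.factorial : ℕ) : ℚ) : ℚ) : ℝ)) ≤
      - (∑ i ∈ Finset.range (14 * n), Real.log (i.factorial : ℝ) +
         2 * ∑ i ∈ Finset.range (7 * n), Real.log (i.factorial : ℝ)) +
        ∑ p ∈ PR (1 / 40) 14 n,
          ((∑ i ∈ Finset.range (14 * n), (i / p) + 2 * ∑ i ∈ Finset.range (7 * n), (i / p) : ℕ) : ℝ) * Real.log p)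
    (hF6 : ∀ ε : ℝ, 0 < ε → ∀ᶠ n : ℕ in atTop,
      147 * (n : ℝ) ^ 2 * Real.log n + (13347 / 100 - ε) * (n : ℝ) ^ 2 ≤
        ∑ i ∈ Finset.range (14 * n), Real.log (i.factorial : ℝ) +
         2 * ∑ i ∈ Finset.range (7 * n), Real.log (i.factorial : ℝ))
    (hF7 : ∀ ε : ℝ, 0 < ε → ∀ᶠ n : ℕ in atTop,
      14 * (n : ℝ) * ∑ p ∈ (Finset.range (n + 1)).filter (fun p : ℕ => p.Prime ∧ p ^ 2 ≤ 14 * n),
          40 * Real.log (14 * n + 1) +
      28 * (n : ℝ) * ∑ p ∈ (Finset.range (n + 1)).filter (fun p : ℕ => p.Prime ∧ 40 * p ≤ n), Real.log p ≤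
      (28 / 40 + ε) * (n : ℝ) ^ 2) :
    ∀ ε : ℝ, 0 < ε → ∀ (q : ℕ) (α β : ℚ), QI q α → QI q β → ∀ᶠ n : ℕ in atTop, DD n α β ≠ 0 →
    ∑ p ∈ (Finset.range (14 * n + 1)).filter Nat.Prime,
      Real.log ((padicNorm p ((q : ℚ) ^ (14 * n) * DD n α β) : ℚ) : ℝ) ≤
    -(147 * (n : ℝ) ^ 2 * Real.log n) - (1435 / 10 - ε) * (n : ℝ) ^ 2 := by
  classical
  intro ε hε q α β hα hβ
  obtain ⟨K, hK, hcell⟩ := PM_bound L PMcell PMcell_mono
    (fun c hc => hE4 c hc (List.all_eq_true.1 hE5ok c hc))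
  -- the limit of the sum over the cells
  have hlim : Tendsto (fun n : ℕ => (L.map fun c => ∑ p ∈ PR (PMlo c) (PMhi c) n,
        (((c.AB.1 + c.sf.1 : ℤ) : ℝ) * n + ((c.AB.2 + c.sf.2 : ℤ) : ℝ) * p) * Real.log p).sum /
        (n : ℝ) ^ 2) atTop (𝓝 (((L.map PMlim).sum : ℚ) : ℝ)) := by
    have h1 := PM_tendsto L (fun c n => (∑ p ∈ PR (PMlo c) (PMhi c) n,
        (((c.AB.1 + c.sf.1 : ℤ) : ℝ) * n + ((c.AB.2 + c.sf.2 : ℤ) : ℝ) * p) * Real.log p) /
        (n : ℝ) ^ 2) (fun c => ((PMlim c : ℚ) : ℝ)) (by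
      intro c hc
      have hok : c.ok = true := List.all_eq_true.1 hE5ok c hc
      have hpos : 0 < c.u0 ∧ 0 < c.v0 ∧ 0 < c.v1 ∧ c.u0 * c.v1 < c.u1 * c.v0 := by
        have hok' := hok
        unfold Cell.ok at hok'
        simp only [Bool.and_eq_true, decide_eq_true_eq] at hok'
        tauto
      obtain ⟨p1, p2, p3, p4⟩ := hpos
      have hlo : 0 < PMlo c := by
        unfold PMlo
        have q1 : (0 : ℚ) < c.u0 := by exact_mod_cast p1
        have q2 : (0 : ℚ) < c.v0 := by exact_mod_cast p2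
        positivity
      have hlh : PMlo c ≤ PMhi c := by
        unfold PMlo PMhi
        rw [div_le_div_iff₀ (by exact_mod_cast p2) (by exact_mod_cast p3)]
        exact_mod_cast p4.le
      have hhi : PMhi c ≤ 14 := by
        have key : ∀ (L' : List Cell) (u v : ℕ), PMchk u v L' = true → ∀ c ∈ L', PMhi c ≤ 14 := by
          intro L'
          induction L' with
          | nil => intro u v _ c hc; exact absurd hc List.not_mem_nil
          | cons d l ih =>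
            intro u v h c hc
            simp only [PMchk, Bool.and_eq_true, decide_eq_true_eq] at h
            rcases List.mem_cons.1 hc with rfl | hc
            · exact (PM_chain l c.u1 c.v1 h.2).1
            · exact ih _ _ h.2 c hc
        exact key L 1 40 hchk c hc
      exact hF1 (PMlo c) (PMhi c) hlo hlh hhi _ _)
    have e1 : (L.map fun c => ((PMlim c : ℚ) : ℝ)).sum = (((L.map PMlim).sum : ℚ) : ℝ) := by
      rw [Rat.cast_list_sum, List.map_map]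
      rfl
    rw [e1] at h1
    refine h1.congr fun n => ?_
    rw [div_eq_mul_inv, ← List.sum_map_mul_right]
    simp only [div_eq_mul_inv]
  have hF3' : (((L.map PMlim).sum : ℚ) : ℝ) ≤ -1082 / 100 := by
    have h := (Rat.cast_le (K := ℝ)).2 hF3
    push_cast at h ⊢
    exact h
  have hε8 : 0 < ε / 8 := by positivity
  have ev1 := PM_ev hlim (ε / 8) hε8
  have ev6 := hF6 (ε / 8) hε8
  have ev7 := hF7 (ε / 8) hε8
  have ev9 : ∀ᶠ n : ℕ in atTop, K * (Real.log 4 * 15) ≤ ε / 8 * n := by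
    have := (tendsto_natCast_atTop_atTop (R := ℝ)).const_mul_atTop hε8
    exact this.eventually_ge_atTop _
  filter_upwards [ev1, hF5, ev6, ev7, ev9, eventually_ge_atTop 19200] with n g1 g5 g6 g7 g9 hn hD
  have hn0 : (0 : ℝ) < n := by exact_mod_cast (by omega : 0 < n)
  have hn1 : 1 ≤ n := by omega
  have hqq : (0 : ℚ) < q := by exact_mod_cast hα.1
  have hz : (q : ℚ) ^ (14 * n) * DD n α β ≠ 0 := mul_ne_zero (pow_pos hqq _).ne' hD
  rw [← Finset.sum_filter_add_sum_filter_not _ (fun p => 40 * p ≤ n)]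
  have e1 : ((Finset.range (14 * n + 1)).filter Nat.Prime).filter (fun p => 40 * p ≤ n) =
      (Finset.range (n + 1)).filter (fun p : ℕ => p.Prime ∧ 40 * p ≤ n) := by
    ext p
    simp only [Finset.mem_filter, Finset.mem_range]
    constructor
    · rintro ⟨⟨h1, h2⟩, h3⟩; exact ⟨by omega, h2, h3⟩
    · rintro ⟨h1, h2, h3⟩; exact ⟨⟨by omega, h2⟩, h3⟩
  have e2 : ((Finset.range (14 * n + 1)).filter Nat.Prime).filter (fun p => ¬ 40 * p ≤ n) =
      PR (1 / 40) 14 n := by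
    ext p
    unfold PR
    simp only [Finset.mem_filter, Finset.mem_range]
    constructor
    · rintro ⟨⟨h1, h2⟩, h3⟩
      refine ⟨by omega, h2, ?_, ?_⟩
      · have : (n : ℚ) < 40 * p := by exact_mod_cast (by omega : n < 40 * p)
        linarith
      · exact_mod_cast (by omega : p ≤ 14 * n)
    · rintro ⟨h1, h2, h3, h4⟩
      have h5 : n < 40 * p := by
        have : (n : ℚ) < 40 * p := by linarith
        exact_mod_cast this
      have h6 : p ≤ 14 * n := by exact_mod_cast h4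
      exact ⟨⟨by omega, h2⟩, by omega⟩
  rw [e1, e2]
  have hsmall : ∑ p ∈ (Finset.range (n + 1)).filter (fun p : ℕ => p.Prime ∧ 40 * p ≤ n),
      Real.log ((padicNorm p ((q : ℚ) ^ (14 * n) * DD n α β) : ℚ) : ℝ) ≤
      (14 * (n : ℝ) * ∑ p ∈ (Finset.range (n + 1)).filter (fun p : ℕ => p.Prime ∧ p ^ 2 ≤ 14 * n),
          40 * Real.log (14 * n + 1) +
      28 * (n : ℝ) * ∑ p ∈ (Finset.range (n + 1)).filter (fun p : ℕ => p.Prime ∧ 40 * p ≤ n), Real.log p) +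
      ∑ p ∈ (Finset.range (n + 1)).filter (fun p : ℕ => p.Prime ∧ 40 * p ≤ n),
        (∑ i ∈ Finset.range (14 * n), Real.log ((padicNorm p ((i.factorial : ℕ) : ℚ) : ℚ) : ℝ) +
         2 * ∑ i ∈ Finset.range (7 * n), Real.log ((padicNorm p ((i.factorial : ℕ) : ℚ) : ℚ) : ℝ)) := by
    calc _ ≤ ∑ p ∈ (Finset.range (n + 1)).filter (fun p : ℕ => p.Prime ∧ 40 * p ≤ n),
          (14 * (n : ℝ) * (if p ^ 2 ≤ 14 * n then 40 * Real.log (14 * n + 1) else 0) + 28 * (n : ℝ) * Real.log p +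
          (∑ i ∈ Finset.range (14 * n), Real.log ((padicNorm p ((i.factorial : ℕ) : ℚ) : ℚ) : ℝ) +
           2 * ∑ i ∈ Finset.range (7 * n), Real.log ((padicNorm p ((i.factorial : ℕ) : ℚ) : ℚ) : ℝ))) := by
          apply Finset.sum_le_sum
          intro p hp
          rw [Finset.mem_filter] at hp
          exact PM_small hmed hcrude n p hn1 hp.2.1 q α β hα hβ hz
      _ ≤ _ := by
          rw [Finset.sum_add_distrib, Finset.sum_add_distrib, ← Finset.mul_sum, ← Finset.mul_sum]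
          apply add_le_add_left
          apply add_le_add_left
          apply mul_le_mul_of_nonneg_left _ (by positivity)
          rw [← Finset.sum_filter]
          apply Finset.sum_le_sum_of_subset_of_nonneg
          · intro p hp
            simp only [Finset.mem_filter, Finset.mem_range] at hp ⊢
            exact ⟨hp.1.1, hp.1.2.1, hp.2⟩
          · intro p _ _
            have : 0 ≤ Real.log (14 * (n : ℝ) + 1) := Real.log_nonneg (by linarith)
            positivity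
  have hlarge := PM_large_sum L hchk hE5ok hF4 K hK hcell n hn q α β hα hβ hz
  rw [Finset.sum_add_distrib] at hlarge
  have hw : ∑ p ∈ PR (1 / 40) 14 n, PMw n p = ∑ p ∈ PR (1 / 40) 14 n,
      ((∑ i ∈ Finset.range (14 * n), (i / p) + 2 * ∑ i ∈ Finset.range (7 * n), (i / p) : ℕ) : ℝ) * Real.log p := rfl
  rw [hw] at hlarge
  have hfin : K * (Real.log 4 * (15 * n)) ≤ ε / 8 * (n : ℝ) ^ 2 := by
    have := mul_le_mul_of_nonneg_right g9 hn0.le
    nlinarith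
  have hn2 : (0 : ℝ) < (n : ℝ) ^ 2 := by positivity
  have h10 : ((((L.map PMlim).sum : ℚ) : ℝ) + ε / 8) * (n : ℝ) ^ 2 ≤
      (-1082 / 100 + ε / 8) * (n : ℝ) ^ 2 := by
    apply mul_le_mul_of_nonneg_right _ hn2.le
    linarith
  have htot : -(147 * (n : ℝ) ^ 2 * Real.log n) + (28 / 40 - 13347 / 100 - 1082 / 100 + ε / 2) * (n : ℝ) ^ 2 ≤
      -(147 * (n : ℝ) ^ 2 * Real.log n) - (1435 / 10 - ε) * (n : ℝ) ^ 2 := by
    have : (28 / 40 - 13347 / 100 - 1082 / 100 + ε / 2) * (n : ℝ) ^ 2 ≤ -(1435 / 10 - ε) * (n : ℝ) ^ 2 := by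
      apply mul_le_mul_of_nonneg_right _ hn2.le
      linarith
    linarith
  refine le_trans ?_ htot
  linarith

/-- **the p-adic part**, from the results of the other tasks -/
theorem P_main_of (hmed : PMmed) (hcrude : PMcrude)
    (hE4 : ∀ c ∈ cells, c.ok = true → ∃ K0 : ℝ, PMcell c K0)
    (hE5ok : cells.all Cell.ok = true)
    (hF1 : ∀ (lo hi : ℚ), 0 < lo → lo ≤ hi → hi ≤ 14 → ∀ (A B : ℤ),
      Tendsto (fun n : ℕ => (∑ p ∈ PR lo hi n, ((A : ℝ) * n + B * p) * Real.log p) / (n : ℝ) ^ 2) atTop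
        (𝓝 (((A * (hi - lo) + B * (hi ^ 2 - lo ^ 2) / 2 : ℚ)) : ℝ)))
    (hF3 : (cells.map PMlim).sum ≤ -1082 / 100)
    (hF4 : ∀ {c : Cell}, c.ok = true → ∀ {n p : ℕ}, 1 ≤ n → 0 < p → c.u0 * n < p * c.v0 →
      p * c.v1 ≤ c.u1 * n →
      ((∑ i ∈ Finset.range (14 * n), (i / p) + 2 * ∑ i ∈ Finset.range (7 * n), (i / p) : ℕ) : ℤ) =
        c.sf.1 * n + c.sf.2 * p)
    (hF5 : ∀ᶠ n : ℕ in atTop,
      ∑ p ∈ (Finset.range (n + 1)).filter (fun p : ℕ => p.Prime ∧ 40 * p ≤ n),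
        (∑ i ∈ Finset.range (14 * n), Real.log ((padicNorm p ((i.factorial : ℕ) : ℚ) : ℚ) : ℝ) +
         2 * ∑ i ∈ Finset.range (7 * n), Real.log ((padicNorm p ((i.factorial : ℕ) : ℚ) : ℚ) : ℝ)) ≤
      - (∑ i ∈ Finset.range (14 * n), Real.log (i.factorial : ℝ) +
         2 * ∑ i ∈ Finset.range (7 * n), Real.log (i.factorial : ℝ)) +
        ∑ p ∈ PR (1 / 40) 14 n,
          ((∑ i ∈ Finset.range (14 * n), (i / p) + 2 * ∑ i ∈ Finset.range (7 * n), (i / p) : ℕ) : ℝ) * Real.log p)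
    (hF6 : ∀ ε : ℝ, 0 < ε → ∀ᶠ n : ℕ in atTop,
      147 * (n : ℝ) ^ 2 * Real.log n + (13347 / 100 - ε) * (n : ℝ) ^ 2 ≤
        ∑ i ∈ Finset.range (14 * n), Real.log (i.factorial : ℝ) +
         2 * ∑ i ∈ Finset.range (7 * n), Real.log (i.factorial : ℝ))
    (hF7 : ∀ ε : ℝ, 0 < ε → ∀ᶠ n : ℕ in atTop,
      14 * (n : ℝ) * ∑ p ∈ (Finset.range (n + 1)).filter (fun p : ℕ => p.Prime ∧ p ^ 2 ≤ 14 * n),
          40 * Real.log (14 * n + 1) +
      28 * (n : ℝ) * ∑ p ∈ (Finset.range (n + 1)).filter (fun p : ℕ => p.Prime ∧ 40 * p ≤ n), Real.log p ≤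
      (28 / 40 + ε) * (n : ℝ) ^ 2) :
    ∀ ε : ℝ, 0 < ε → ∀ (q : ℕ) (α β : ℚ), QI q α → QI q β → ∀ᶠ n : ℕ in atTop, DD n α β ≠ 0 →
    ∑ p ∈ (Finset.range (14 * n + 1)).filter Nat.Prime,
      Real.log ((padicNorm p ((q : ℚ) ^ (14 * n) * DD n α β) : ℚ) : ℝ) ≤
    -(147 * (n : ℝ) ^ 2 * Real.log n) - (1435 / 10 - ε) * (n : ℝ) ^ 2 :=
  P_main_list cells PMchk_cells hmed hcrude hE4 hE5ok hF1 hF3 hF4 hF5 hF6 hF7

/-- large primes, from `D3_large` -/
theorem P_large_of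
    (hD3 : ∀ {n p : ℕ} [Fact p.Prime], 1 ≤ n → 12 * n < p ^ 2 → 10 * n ≤ p → ∀ (q : ℕ) (α β : ℚ),
      QI q α → QI q β → ∀ m : ℕ, padicNorm p ((q : ℚ) ^ (2 * m) * MD (AL n α) (BL n β) m) ≤ 1) :
    ∀ (q : ℕ) (α β : ℚ), QI q α → QI q β → ∀ n : ℕ, 1 ≤ n → ∀ p : ℕ, p.Prime → 14 * n < p →
    padicNorm p ((q : ℚ) ^ (14 * n) * DD n α β) ≤ 1 := by
  intro q α β hα hβ n hn p hp h
  have : Fact p.Prime := ⟨hp⟩
  have h1 := hD3 (p := p) hn (by nlinarith) (by omega) q α β hα hβ (7 * n)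
  have e : 2 * (7 * n) = 14 * n := by ring
  rw [e] at h1
  exact h1

end

end Pool.Agent.LZ
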