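import Pool.Agent.H337R2.LZ.Cells
import Pool.Agent.H337R2.Asym

/-! STUBS of the project `1, ζ(2), ζ(3)` linearly independent over `ℚ`. Never import this file in a finished module. -/

open Polynomial Pool.Agent.H337R2 Filter Topology

namespace Pool.Agent.LZ

noncomputable section

/-! ### A. Linear algebra (`H574R2.D3.A1, A2, D1` are general and finished) -/

theorem A3_padic (p : ℕ) [Fact p.Prime] (N : ℕ) (M : Matrix (Fin N) (Fin N) ℚ) (r c : ℕ → ℚ)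
    (hr : ∀ i, 0 ≤ r i) (hc : ∀ i, 0 ≤ c i) (h : ∀ i j : Fin N, padicNorm p (M i j) ≤ r i * c j) :
    padicNorm p M.det ≤ (∏ i ∈ Finset.range N, r i) * ∏ j ∈ Finset.range N, c j := by
  sorry

/-- Lagrange bases for the mixed determinant -/
theorem A5_lagrange (A B : ℚ[X] →ₗ[ℚ] ℚ) (θ : ℝ) (m : ℕ) (z : ℕ → ℚ) (hz : Set.InjOn z (Finset.range (2 * m))) :
    ((Matrix.of fun i j : Fin (2 * m) =>
      if j.1 < m then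
        ((A (lag (Finset.range (2 * m)) z i.1 * lag (Finset.range m) z j.1) : ℚ) : ℝ) +
          θ * ((B (lag (Finset.range (2 * m)) z i.1 * lag (Finset.range m) z j.1) : ℚ) : ℝ)
      else ((B (lag (Finset.range (2 * m)) z i.1 * lag (Finset.Ico m (2 * m)) z j.1) : ℚ) : ℝ)).det) ^ 2 =
    ((MD A B m : ℚ) : ℝ) ^ 2 * (VD (Finset.range (2 * m)) z * VD (Finset.range m) z * VD (Finset.Ico m (2 * m)) z) := by
  sorry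

theorem A6_det_le (N : ℕ) (M : Matrix (Fin N) (Fin N) ℝ) (b : ℕ → ℝ) (hb : ∀ j, 0 ≤ b j)
    (h : ∀ i j : Fin N, |M i j| ≤ b j) : |M.det| ≤ (N.factorial : ℝ) * ∏ j ∈ Finset.range N, b j := by
  sorry

/-! ### B. The linear form -/

theorem B1_hasSum {n : ℕ} (hn : 1 ≤ n) (α β : ℚ) (h : zr 3 = (α : ℝ) + β * zr 2) (Q : ℚ[X])
    (hQ : Q.natDegree ≤ 25 * n - 2) :
    HasSum (fun t : ℕ => Wt n t * ((Q.eval (t : ℚ) : ℚ) : ℝ))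
      (((AL n α Q : ℚ) : ℝ) + zr 2 * ((BL n β Q : ℚ) : ℝ)) := by
  sorry

/-! ### C. p-adic size of the entries -/

theorem C1_pa {n p : ℕ} [Fact p.Prime] (hn : 1 ≤ n) (hp2 : 12 * n < p ^ 2) (E : ℚ[X]) {k : ℕ}
    (hk : k ∈ sL n) (A : ℚ) (hA : 0 ≤ A) (hE : PB p (p : ℚ) A (TS (-(k : ℚ)) E)) (i : ℕ) :
    padicNorm p (pa (sL n) (mL n) (PL n * E) k i) ≤ (p : ℚ) ^ (-eL n p k - i : ℤ) * A := by
  sorry

theorem C1_pa_int {n p : ℕ} [Fact p.Prime] (hn : 1 ≤ n) (E : ℚ[X]) {k : ℕ}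
    (hk : k ∈ sL n) (A : ℚ) (hA : 0 ≤ A) (hE : PB p 1 A (TS (-(k : ℚ)) E)) (i : ℕ)
    (hno : ∀ k' ∈ sL n, k' ≠ k → ¬ (p : ℤ) ∣ (k' : ℤ) - k) :
    padicNorm p (pa (sL n) (mL n) (PL n * E) k i) ≤ padicNorm p (cL n) * A := by
  sorry

theorem C2_xa {n p : ℕ} [Fact p.Prime] (hn : 1 ≤ n) (hp2 : 12 * n < p ^ 2) (q : ℕ) (α : ℚ) (hα : QI q α)
    (E : ℚ[X]) (W : ℚ) (hW : 0 ≤ W) (A : ℕ → ℚ) (hA : ∀ k, 0 ≤ A k)
    (hE : ∀ k ∈ sL n, PB p (p : ℚ) (A k) (TS (-(k : ℚ)) E))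
    (hE1 : ∀ k ∈ sL n, PB p 1 1 (TS (-(k : ℚ)) E))
    (h : ∀ k ∈ sL n, (p : ℚ) ^ (-eL n p k) * A k ≤ W ∨
      (padicNorm p (cL n) ≤ W ∧ ∀ k' ∈ sL n, k' ≠ k → ¬ (p : ℤ) ∣ (k' : ℤ) - k)) :
    padicNorm p ((q : ℚ) * xa n α (PL n * E)) ≤ W := by
  sorry

theorem C2_xb {n p : ℕ} [Fact p.Prime] (hn : 1 ≤ n) (hp2 : 12 * n < p ^ 2) (q : ℕ) (β : ℚ) (hβ : QI q β)
    (E : ℚ[X]) (W : ℚ) (hW : 0 ≤ W) (A : ℕ → ℚ) (hA : ∀ k, 0 ≤ A k)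
    (hE : ∀ k ∈ sL n, PB p (p : ℚ) (A k) (TS (-(k : ℚ)) E))
    (hE1 : ∀ k ∈ sL n, PB p 1 1 (TS (-(k : ℚ)) E))
    (h : ∀ k ∈ sL n, (p : ℚ) ^ (-eL n p k - 2) * A k ≤ W ∨
      (padicNorm p (cL n) ≤ W ∧ ∀ k' ∈ sL n, k' ≠ k → ¬ (p : ℤ) ∣ (k' : ℤ) - k)) :
    padicNorm p ((q : ℚ) * xb n β (PL n * E)) ≤ W := by
  sorry

theorem C3_crude {n p : ℕ} [Fact p.Prime] (hn : 1 ≤ n) (q : ℕ) (u : ℚ) (hu : QI q u)
    (E : ℚ[X]) (A : ℚ) (hA : 0 ≤ A)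
    (hE : ∀ k ∈ sL n, PB p ((14 * n + 1 : ℕ) : ℚ) A (TS (-(k : ℚ)) E)) :
    padicNorm p ((q : ℚ) * xa n u (PL n * E)) ≤ ((14 * n + 1 : ℕ) : ℚ) ^ 40 * A ∧
    padicNorm p ((q : ℚ) * xb n u (PL n * E)) ≤ ((14 * n + 1 : ℕ) : ℚ) ^ 40 * A := by
  sorry

/-- consecutive zeros -/
theorem C4_PB {n p : ℕ} [Fact p.Prime] (ρ : ℚ) (hρ1 : 1 ≤ ρ)
    (hρ : ∀ l : ℕ, 1 ≤ l → l ≤ 14 * n → (padicNorm p (l : ℚ))⁻¹ ≤ ρ) (i : ℕ) (hi : i ≤ 14 * n) (k : ℕ) :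
    PB p ρ (padicNorm p ((i.factorial : ℕ) : ℚ)) (TS (-(k : ℚ)) (∏ l ∈ Finset.range i, (X + C (l : ℚ)))) := by
  sorry

/-! ### D. p-adic size of the determinant -/

theorem D3_det {n p : ℕ} [Fact p.Prime] (hn : 1 ≤ n) (hp2 : 12 * n < p ^ 2) (q : ℕ) (α β : ℚ)
    (hα : QI q α) (hβ : QI q β) (m : ℕ) (aN ay : ℤ) (g : ℕ → ℤ) (S : Finset ℕ) (hS : S ⊆ Finset.range p)
    (h : ∀ k ∈ sL n, k % p ∈ S ∨
      (padicNorm p (cL n) ≤ (p : ℚ) ^ aN ∧ padicNorm p (cL n) ≤ (p : ℚ) ^ ay ∧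
        ∀ k' ∈ sL n, k' ≠ k → ¬ (p : ℤ) ∣ (k' : ℤ) - k)) :
    padicNorm p ((q : ℚ) ^ (2 * m) * MD (AL n α) (BL n β) m) ≤
      (p : ℚ) ^ ((m : ℤ) * (aN + ay) + ∑ κ ∈ S, (TA (g κ) + TA (-eL n p κ - g κ - aN) +
        TA (-eL n p κ - 2 - g κ - ay))) := by
  sorry

theorem D3_large {n p : ℕ} [Fact p.Prime] (hn : 1 ≤ n) (hp2 : 12 * n < p ^ 2) (hp : 10 * n ≤ p) (q : ℕ) (α β : ℚ)
    (hα : QI q α) (hβ : QI q β) (m : ℕ) :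
    padicNorm p ((q : ℚ) ^ (2 * m) * MD (AL n α) (BL n β) m) ≤ 1 := by
  sorry

theorem D4_small_med {n p : ℕ} [Fact p.Prime] (hn : 1 ≤ n) (hp2 : 14 * n < p ^ 2) (q : ℕ) (α β : ℚ)
    (hα : QI q α) (hβ : QI q β) :
    padicNorm p ((q : ℚ) ^ (14 * n) * DD n α β) ≤
      ((p : ℚ) ^ 4) ^ (7 * n) * ((∏ i ∈ Finset.range (14 * n), padicNorm p ((i.factorial : ℕ) : ℚ)) *
        ∏ i ∈ Finset.range (7 * n), padicNorm p ((i.factorial : ℕ) : ℚ) ^ 2) := by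
  sorry

theorem D4_small_crude {n p : ℕ} [Fact p.Prime] (hn : 1 ≤ n) (q : ℕ) (α β : ℚ)
    (hα : QI q α) (hβ : QI q β) :
    padicNorm p ((q : ℚ) ^ (14 * n) * DD n α β) ≤
      (((14 * n + 1 : ℕ) : ℚ) ^ 40) ^ (14 * n) *
        ((∏ i ∈ Finset.range (14 * n), padicNorm p ((i.factorial : ℕ) : ℚ)) *
        ∏ i ∈ Finset.range (7 * n), padicNorm p ((i.factorial : ℕ) : ℚ) ^ 2) := by
  sorry

/-! ### E. Cells -/

/-- floors in a cell -/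
theorem E1_fl {c : Cell} (hc : c.ok = true) {n p : ℕ} (hp : 0 < p) (h0 : c.u0 * n < p * c.v0)
    (h1 : p * c.v1 ≤ c.u1 * n) {a : ℕ} (ha : a ∈ [2, 3, 4, 12, 10, 9, 8, 7, 14]) : a * n / p = c.fl a := by
  sorry

/-- `cnt` of `(a n, b n]` for the class `r` -/
theorem E1_cnt {n p a b r : ℕ} (hp : 0 < p) (hab : a ≤ b) (hr : r < p) :
    (cnt p (a * n + 1) (b * n) r : ℤ) = ((b * n / p : ℕ) : ℤ) - ((a * n / p : ℕ) : ℤ) +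
      (if r ≤ b * n % p then 1 else 0) - (if r ≤ a * n % p then 1 else 0) := by
  sorry

/-- sum over the classes -/
theorem E2_sum {c : Cell} (hc : c.ok = true) {n p : ℕ} (hn : 1 ≤ n) (hp : p.Prime) (h0 : c.u0 * n < p * c.v0)
    (h1 : p * c.v1 ≤ c.u1 * n) (f : ℕ → ℤ) (K : ℤ) (hK : 0 ≤ K) (hf0 : f 0 ≤ K)
    (hf : ∀ r, 1 ≤ r → r < p → f r ≤
      c.cost (eL n p r) ((cnt p (2 * n + 1) (12 * n) r : ℕ) : ℤ)) :
    ∑ r ∈ Finset.range p, f r ≤ (c.AB.1 + 7 * (c.lN + c.ly)) * n + c.AB.2 * p + K := by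
  sorry

/-- p-adic size of the determinant in a cell -/
theorem E4_cell (c : Cell) (hc : c.ok = true) : ∃ K0 : ℝ, ∀ n : ℕ, 1 ≤ n → ∀ p : ℕ, p.Prime → 12 * n < p ^ 2 →
    c.u0 * n < p * c.v0 → p * c.v1 ≤ c.u1 * n → ∀ (q : ℕ) (α β : ℚ), QI q α → QI q β →
    ((padicNorm p ((q : ℚ) ^ (14 * n) * DD n α β) : ℚ) : ℝ) ≤ (p : ℝ) ^ ((c.AB.1 : ℝ) * n + c.AB.2 * p + K0) := by
  sorry

theorem E5_ok : cells.all Cell.ok = true := by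
  sorry

/-- the cells cover `(1/40, 14]` -/
theorem E5_cover {n p : ℕ} (h0 : n < 40 * p) (h1 : p ≤ 14 * n) :
    ∃ c ∈ cells, c.u0 * n < p * c.v0 ∧ p * c.v1 ≤ c.u1 * n := by
  sorry

/-! ### F. Prime number theorem sums -/

theorem F1_lin (lo hi : ℚ) (h0 : 0 < lo) (h1 : lo ≤ hi) (h2 : hi ≤ 14) (A B : ℤ) :
    Tendsto (fun n : ℕ => (∑ p ∈ PR lo hi n, ((A : ℝ) * n + B * p) * Real.log p) / (n : ℝ) ^ 2) atTop
      (𝓝 (((A * (hi - lo) + B * (hi ^ 2 - lo ^ 2) / 2 : ℚ)) : ℝ)) := by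
  sorry

/-- limit for a cell -/
def Cell.lim (c : Cell) : ℚ :=
  ((c.AB.1 + c.sf.1 : ℤ) : ℚ) * ((c.u1 : ℚ) / c.v1 - (c.u0 : ℚ) / c.v0) +
    ((c.AB.2 + c.sf.2 : ℤ) : ℚ) * (((c.u1 : ℚ) / c.v1) ^ 2 - ((c.u0 : ℚ) / c.v0) ^ 2) / 2

/-- true value `-10.82809` -/
theorem F3_total : (cells.map Cell.lim).sum ≤ -1082 / 100 := by
  sorry

/-- the factorial part in a cell -/
theorem F4_sf {c : Cell} (hc : c.ok = true) {n p : ℕ} (hn : 1 ≤ n) (hp : 0 < p) (h0 : c.u0 * n < p * c.v0)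
    (h1 : p * c.v1 ≤ c.u1 * n) :
    ((∑ i ∈ Finset.range (14 * n), (i / p) + 2 * ∑ i ∈ Finset.range (7 * n), (i / p) : ℕ) : ℤ) =
      c.sf.1 * n + c.sf.2 * p := by
  sorry

/-- factorials: the small prime part -/
theorem F5_fact : ∀ᶠ n : ℕ in atTop,
    ∑ p ∈ (Finset.range (n + 1)).filter (fun p : ℕ => p.Prime ∧ 40 * p ≤ n),
      (∑ i ∈ Finset.range (14 * n), Real.log ((padicNorm p ((i.factorial : ℕ) : ℚ) : ℚ) : ℝ) +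
       2 * ∑ i ∈ Finset.range (7 * n), Real.log ((padicNorm p ((i.factorial : ℕ) : ℚ) : ℚ) : ℝ)) ≤
    - (∑ i ∈ Finset.range (14 * n), Real.log (i.factorial : ℝ) +
       2 * ∑ i ∈ Finset.range (7 * n), Real.log (i.factorial : ℝ)) +
      ∑ p ∈ PR (1 / 40) 14 n,
        ((∑ i ∈ Finset.range (14 * n), (i / p) + 2 * ∑ i ∈ Finset.range (7 * n), (i / p) : ℕ) : ℝ) * Real.log p := by
  sorry

theorem F6_superfac : ∀ ε : ℝ, 0 < ε → ∀ᶠ n : ℕ in atTop,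
    147 * (n : ℝ) ^ 2 * Real.log n + (13347 / 100 - ε) * (n : ℝ) ^ 2 ≤
      ∑ i ∈ Finset.range (14 * n), Real.log (i.factorial : ℝ) +
       2 * ∑ i ∈ Finset.range (7 * n), Real.log (i.factorial : ℝ) := by
  sorry

/-- small primes: trivial exponents -/
theorem F7_small : ∀ ε : ℝ, 0 < ε → ∀ᶠ n : ℕ in atTop,
    14 * (n : ℝ) * ∑ p ∈ (Finset.range (n + 1)).filter (fun p : ℕ => p.Prime ∧ p ^ 2 ≤ 14 * n),
        40 * Real.log (14 * n + 1) +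
    28 * (n : ℝ) * ∑ p ∈ (Finset.range (n + 1)).filter (fun p : ℕ => p.Prime ∧ 40 * p ≤ n), Real.log p ≤
    (28 / 40 + ε) * (n : ℝ) ^ 2 := by
  sorry

/-- **the p-adic part** -/
theorem P_main : ∀ ε : ℝ, 0 < ε → ∀ (q : ℕ) (α β : ℚ), QI q α → QI q β → ∀ᶠ n : ℕ in atTop, DD n α β ≠ 0 →
    ∑ p ∈ (Finset.range (14 * n + 1)).filter Nat.Prime,
      Real.log ((padicNorm p ((q : ℚ) ^ (14 * n) * DD n α β) : ℚ) : ℝ) ≤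
    -(147 * (n : ℝ) ^ 2 * Real.log n) - (1435 / 10 - ε) * (n : ℝ) ^ 2 := by
  sorry

theorem P_large : ∀ (q : ℕ) (α β : ℚ), QI q α → QI q β → ∀ n : ℕ, 1 ≤ n → ∀ p : ℕ, p.Prime → 14 * n < p →
    padicNorm p ((q : ℚ) ^ (14 * n) * DD n α β) ≤ 1 := by
  sorry

/-! ### G. The archimedean part -/

theorem G0_nd_inj {n : ℕ} (hn : 1 ≤ n) : Set.InjOn (nd n) (Finset.range (14 * n)) := by
  sorry

theorem G0_nd_sat {n i : ℕ} (hn : 1 ≤ n) (hi : i < 2 * n) : nd n i = 10 * i := by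
  sorry

theorem G0_nd_X {n i : ℕ} (hn : 1 ≤ n) (h1 : 2 * n ≤ i) (h2 : i < 7 * n) : 20 * n ≤ nd n i ∧ nd n i < 972 * n := by
  sorry

theorem G0_nd_Y {n i : ℕ} (hn : 1 ≤ n) (h1 : 7 * n ≤ i) (h2 : i < 14 * n) :
    -(116 * n : ℤ) ≤ nd n i ∧ nd n i < -(43 * n : ℤ) := by
  sorry

/-- entries of the zeta part. The punctured products are written with `Real.log 0 = 0`. -/
theorem G1_entryN {n : ℕ} (hn : 1 ≤ n) (α β : ℚ) (h : zr 3 = (α : ℝ) + β * zr 2) (MM : ℝ) (hM : 0 ≤ MM)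
    (hsup : ∀ t : ℕ, 2 * n ≤ t →
      Wt n t * Real.exp (Lp n (Finset.range (14 * n)) (10 * t) + Lp n (Finset.range (7 * n)) (10 * t)) ≤
        MM / (1 + (t : ℝ)) ^ 2)
    (i j : ℕ) (hi : i < 14 * n) (hj : j < 7 * n) :
    |((AL n α (lag (Finset.range (14 * n)) (zq n) i * lag (Finset.range (7 * n)) (zq n) j) : ℚ) : ℝ) + zr 2 *
      ((BL n β (lag (Finset.range (14 * n)) (zq n) i * lag (Finset.range (7 * n)) (zq n) j) : ℚ) : ℝ)| ≤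
    (if j < 2 * n then Wt n j *
      Real.exp (Lp n (Finset.range (14 * n)) (10 * j) + Lp n (Finset.range (7 * n)) (10 * j)) else 0) + 200 * MM := by
  sorry

/-- entries of the pole part -/
theorem G2_entryY (β : ℚ) : ∃ C : ℝ, 0 < C ∧ ∀ n : ℕ, 2 ≤ n → ∀ MY : ℝ,
    (∀ k ∈ sL n, n * phi (-(10 * k : ℝ) / n) + Lp n (Finset.range (14 * n)) (-(10 * k : ℤ)) +
      Lp n (Finset.Ico (7 * n) (14 * n)) (-(10 * k : ℤ)) ≤ MY) →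
    ∀ i < 14 * n, ∀ j, 7 * n ≤ j → j < 14 * n →
    |((BL n β (lag (Finset.range (14 * n)) (zq n) i * lag (Finset.Ico (7 * n) (14 * n)) (zq n) j) : ℚ) : ℝ)| ≤
      Real.exp (MY + C * Real.log n) := by
  sorry

/-- potential of one brick (from `H102R2.Z5.Brick`) -/
theorem G3_brick : ∃ C : ℝ, 0 < C ∧ ∀ n : ℕ, 2 ≤ n → ∀ g < 14, ∀ u : ℤ,
    |∑ j ∈ Finset.range n, Real.log (((u - (bb g * n + cc g * (j : ℤ)) : ℤ) : ℝ) / 10) -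
      (n * Ub g ((u : ℝ) / n) + n * Real.log n)| ≤ C * Real.log (n + |(u : ℝ)|) := by
  sorry

theorem G3_Lp : ∃ C : ℝ, 0 < C ∧ ∀ n : ℕ, 2 ≤ n → ∀ a b : ℕ, a ≤ b → b ≤ 14 → ∀ u : ℤ,
    |Lp n (Finset.Ico (a * n) (b * n)) u -
      (n * ∑ g ∈ Finset.Ico a b, Ub g ((u : ℝ) / n) + (b - a) * n * Real.log n)| ≤ C * Real.log (n + |(u : ℝ)|) := by
  sorry

/-- the weight -/
theorem G4_weight : ∃ C : ℝ, 0 < C ∧ ∀ n : ℕ, 2 ≤ n → ∀ t : ℕ,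
    |Real.log (Wt n t) - n * phi (10 * (t : ℝ) / n)| ≤ C * Real.log (n + t) := by
  sorry

/-- saturated part -/
theorem G5_sat : ∃ C : ℝ, 0 < C ∧ ∀ n : ℕ, 2 ≤ n →
    ∑ t ∈ Finset.range (2 * n), (Real.log (Wt n t) + Lp n (Finset.range (2 * n)) (10 * t)) ≤
      eS * (n : ℝ) ^ 2 + 4 * (n : ℝ) ^ 2 * Real.log n + C * n * Real.log n := by
  sorry

/-- energy of two bricks -/
theorem G6_pair : ∃ C : ℝ, 0 < C ∧ ∀ n : ℕ, 2 ≤ n → ∀ g < 14, ∀ h < 14,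
    |∑ j ∈ Finset.range n, Lp n (Finset.Ico (h * n) ((h + 1) * n)) (bb g * n + cc g * (j : ℤ)) -
      (en g h * (n : ℝ) ^ 2 + (n : ℝ) ^ 2 * Real.log n)| ≤ C * n * Real.log n := by
  sorry

/-- cross energies cancel: `½ log` of the three products -/
theorem G6_cross {n : ℕ} (hn : 1 ≤ n) :
    (Real.log (VD (Finset.range (14 * n)) (zq n)) + Real.log (VD (Finset.range (7 * n)) (zq n)) +
      Real.log (VD (Finset.Ico (7 * n) (14 * n)) (zq n))) / 2 =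
    ∑ i ∈ Finset.range (2 * n), (Lp n (Finset.range (14 * n)) (nd n i) + Lp n (Finset.range (7 * n)) (nd n i)
      - Lp n (Finset.range (2 * n)) (nd n i)) +
    ∑ i ∈ Finset.Ico (2 * n) (7 * n), Lp n (Finset.Ico (2 * n) (14 * n)) (nd n i) +
    ∑ i ∈ Finset.Ico (7 * n) (14 * n), Lp n (Finset.Ico (7 * n) (14 * n)) (nd n i) := by
  sorry

/-! #### Certificates (numerical values: `max FN = 10.4267` at `w = 21`, `min FN = 10.2733` at `w = 19.2`,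
`max FY = 46.1277`, `eS = -46.9128`, `eN = 189.7257`) -/

theorem V1_upper (w : ℝ) (h1 : 20 ≤ w) : FN w ≤ 209 / 20 := by
  sorry

/-- decay -/
theorem V1_tail (w : ℝ) (h1 : 10000 ≤ w) : FN w ≤ 209 / 20 - 4 * (Real.log w - Real.log 10000) := by
  sorry

theorem V2_lower (w : ℝ) (h0 : 0 ≤ w) (h1 : w ≤ 20) : 205 / 20 ≤ FN w := by
  sorry

theorem V3_upperY (w : ℝ) (h0 : -120 ≤ w) (h1 : w ≤ -20) : FY w ≤ 923 / 20 := by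
  sorry

theorem V4_eS : eS ≤ -469 / 10 := by
  sorry

theorem V5_eN : 1897 / 10 ≤ eN := by
  sorry

/-- **the archimedean part** -/
theorem A_main (α β : ℚ) (h : zr 3 = (α : ℝ) + β * zr 2) : ∀ᶠ n : ℕ in atTop, DD n α β ≠ 0 →
    Real.log |((DD n α β : ℚ) : ℝ)| ≤ 147 * (n : ℝ) ^ 2 * Real.log n + 140 * (n : ℝ) ^ 2 := by
  sorry

/-! ### H. Non-vanishing (`n = p`) -/

/-- the exponent at `n = p` is `0` -/
theorem H1_eL {p : ℕ} (hp : p.Prime) (hp2 : 12 < p) {k : ℕ} (hk : k ∈ sL p) : eL p p k = 0 := by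
  sorry

theorem H2_pa {p : ℕ} [Fact p.Prime] (hp : 100 ≤ p) (r : ℕ) (hr1 : 1 ≤ r) (hr2 : r ≤ p) :
    ∃ w : ℚ, padicNorm p w = 1 ∧ ∀ e j i : ℕ, e ≤ 19 → 2 ≤ j → j ≤ 11 → 1 ≤ i → i ≤ ml j →
      padicNorm p (pa (sL p) (mL p) (PL p * ((X + C (r : ℚ)) ^ e * OT p r 21)) (r + j * p) i
        / (p : ℚ) ^ (i + e) -
        w * PowerSeries.coeff (ml j - i) (ser j e)) ≤ (p : ℚ)⁻¹ := by
  sorry

theorem H3_diag {p : ℕ} [Fact p.Prime] (hp : 100 ≤ p) (α β : ℚ) (hα : padicNorm p α ≤ 1)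
    (hβ : padicNorm p β ≤ 1) (r : ℕ) (hr1 : 1 ≤ r) (hr2 : r ≤ p) :
    ∃ w : ℚ, padicNorm p w = 1 ∧ ∀ e : ℕ, e ≤ 19 →
      padicNorm p ((p : ℚ) ^ (-(e : ℤ)) * AL p α ((X + C (r : ℚ)) ^ e * OT p r 21) - w * Fm e) ≤ (p : ℚ)⁻¹ ∧
      padicNorm p ((p : ℚ) ^ (-(e : ℤ) - 2) * BL p β ((X + C (r : ℚ)) ^ e * OT p r 21) - w * Bm e) ≤ (p : ℚ)⁻¹ := by
  sorry

theorem H4_offdiag {p : ℕ} [Fact p.Prime] (hp : 100 ≤ p) (α β : ℚ) (hα : padicNorm p α ≤ 1)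
    (hβ : padicNorm p β ≤ 1) (r s l l' : ℕ) (hr1 : 1 ≤ r) (hr2 : r ≤ p) (hs1 : 1 ≤ s) (hs2 : s ≤ p) (hrs : r ≠ s)
    (hl : l < 14) (hl' : l' < 7) :
    padicNorm p ((p : ℚ) ^ (-(l : ℤ) - (l' : ℤ)) * AL p α
      (((X + C (r : ℚ)) ^ l * OT p r 14) * ((X + C (s : ℚ)) ^ l' * OT p s 7))) ≤ (p : ℚ)⁻¹ ∧
    padicNorm p ((p : ℚ) ^ (-(l : ℤ) - (l' : ℤ) - 2) * BL p β
      (((X + C (r : ℚ)) ^ l * OT p r 14) * ((X + C (s : ℚ)) ^ l' * OT p s 7))) ≤ (p : ℚ)⁻¹ := by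
  sorry

theorem H5_local : (Matrix.of fun l l' : Fin 14 => if l'.1 < 7 then Fm (l.1 + l'.1) else Bm (l.1 + (l'.1 - 7))).det ≠ 0 := by
  sorry

theorem H6_nonvanish (α β : ℚ) : ∃ p0 : ℕ, ∀ p : ℕ, p0 ≤ p → p.Prime → DD p α β ≠ 0 := by
  sorry

/-! ### Z. Conclusion -/

theorem Z1_main (α β : ℚ) : zr 3 ≠ (α : ℝ) + β * zr 2 := by
  sorry

theorem Z2_zeta2 : Irrational (zr 2) := by
  sorry

theorem Z3_linind : LinearIndependent ℚ ![(1 : ℝ), zr 2, zr 3] := by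
  sorry

end

end Pool.Agent.LZ
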