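import Pool.Agent.H337R2.LZ.Defs
import Pool.Agent.H340R2.LW

/-!
# `ζ(2)` is irrational; linear independence from the main statement
-/

open Pool.Agent.H337R2

namespace Pool.Agent.LZ

theorem Z2_value : zr 2 = Real.pi ^ 2 / 6 := by
  have h1 := hasSum_zeta_two
  have h2 := (hasSum_nat_add_iff' (f := fun n : ℕ => (1 : ℝ) / (n : ℝ) ^ 2) 1).mpr h1
  simp only [Finset.range_one, Finset.sum_singleton, CharP.cast_eq_zero] at h2
  unfold zr
  have h4 : Real.pi ^ 2 / 6 - 1 / (0 : ℝ) ^ 2 = Real.pi ^ 2 / 6 := by norm_num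
  have h5 : (fun n : ℕ => (1 : ℝ) / ((n + 1 : ℕ) : ℝ) ^ 2) =
      fun t : ℕ => 1 / ((t : ℝ) + 1) ^ 2 := by
    funext t
    push_cast
    rfl
  rw [h4, h5] at h2
  exact h2.tsum_eq

theorem Z2_zeta2 : Irrational (zr 2) := by
  rw [Z2_value]
  rintro ⟨q, hq⟩
  apply Pool.Agent.H340R2.LW.transcendental_pi
  have h1 : Real.pi ^ 2 = ((6 * q : ℚ) : ℝ) := by
    push_cast
    rw [hq]
    ring
  have h2 : IsAlgebraic ℚ (Real.pi ^ 2) := by
    rw [h1]
    exact isAlgebraic_algebraMap (6 * q : ℚ)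
  exact IsAlgebraic.of_pow (by norm_num) h2

/-- linear independence from the main statement `Z1_main` -/
theorem Z3_of (h : ∀ α β : ℚ, zr 3 ≠ (α : ℝ) + β * zr 2) :
    LinearIndependent ℚ ![(1 : ℝ), zr 2, zr 3] := by
  rw [Fintype.linearIndependent_iff]
  intro g hg
  rw [Fin.sum_univ_three] at hg
  simp only [Matrix.cons_val_zero, Matrix.cons_val_one, Matrix.cons_val, Rat.smul_def] at hg
  have hg2 : g 2 = 0 := by
    by_contra h2
    have h2' : ((g 2 : ℚ) : ℝ) ≠ 0 := by exact_mod_cast h2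
    apply h (-(g 0 / g 2)) (-(g 1 / g 2))
    push_cast
    field_simp
    linarith
  have hg1 : g 1 = 0 := by
    by_contra h1
    have h1' : ((g 1 : ℚ) : ℝ) ≠ 0 := by exact_mod_cast h1
    apply Z2_zeta2
    refine ⟨-(g 0 / g 1), ?_⟩
    rw [hg2] at hg
    push_cast
    field_simp
    push_cast at hg
    linarith
  have hg0 : g 0 = 0 := by
    rw [hg1, hg2] at hg
    push_cast at hg
    have h3 : ((g 0 : ℚ) : ℝ) = 0 := by linarith
    exact_mod_cast h3
  intro i
  fin_cases i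
  · exact hg0
  · exact hg1
  · exact hg2

end Pool.Agent.LZ
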