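import Pool.Agent.H337R2.LZ.PM
import Pool.Agent.H337R2.LZ.Arch
import Pool.Agent.H337R2.LZ.Z2
import Pool.Agent.H337R2.LZ.H6pre
import Pool.Agent.H337R2.LZ.C2
import Pool.Agent.H337R2.LZ.D3
import Pool.Agent.H337R2.LZ.D4
import Pool.Agent.H337R2.LZ.E1
import Pool.Agent.H337R2.LZ.E2
import Pool.Agent.H337R2.LZ.E4
import Pool.Agent.H337R2.LZ.E5
import Pool.Agent.H337R2.LZ.F1
import Pool.Agent.H337R2.LZ.F3
import Pool.Agent.H337R2.LZ.F4
import Pool.Agent.H337R2.LZ.F5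
import Pool.Agent.H337R2.LZ.F6
import Pool.Agent.H337R2.LZ.F7
import Pool.Agent.H337R2.LZ.H3
import Pool.Agent.H337R2.LZ.H4
import Pool.Agent.H337R2.LZ.H5
import Pool.Agent.H336R2.HD.A5

/-!
# The linear independence of `1, ζ(2), ζ(3)` over `ℚ`: conclusion
-/

open Polynomial Pool.Agent.H337R2 Filter Topology

namespace Pool.Agent.LZ

noncomputable section

theorem E4_mem (c : Cell) (hmem : c ∈ cells) (hc : c.ok = true) : ∃ K0 : ℝ, PMcell c K0 :=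
  E4_cell (fun hn hp2 q α β hα hβ m aN ay g S hS h => D3_det_of C2_xa C2_xb hn hp2 q α β hα hβ m aN ay g S h)
    @E1_fl @E1_cnt @E2_sum c hmem hc

theorem P_main : ∀ ε : ℝ, 0 < ε → ∀ (q : ℕ) (α β : ℚ), QI q α → QI q β → ∀ᶠ n : ℕ in atTop, DD n α β ≠ 0 →
    ∑ p ∈ (Finset.range (14 * n + 1)).filter Nat.Prime,
      Real.log ((padicNorm p ((q : ℚ) ^ (14 * n) * DD n α β) : ℚ) : ℝ) ≤
    -(147 * (n : ℝ) ^ 2 * Real.log n) - (1435 / 10 - ε) * (n : ℝ) ^ 2 :=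
  P_main_of @D4_small_med @D4_small_crude E4_mem E5_ok F1_lin F3_total @F4_sf F5_fact F6_superfac F7_small

theorem P_large : ∀ (q : ℕ) (α β : ℚ), QI q α → QI q β → ∀ n : ℕ, 1 ≤ n → ∀ p : ℕ, p.Prime → 14 * n < p →
    padicNorm p ((q : ℚ) ^ (14 * n) * DD n α β) ≤ 1 :=
  P_large_of (fun hn hp2 hp q α β hα hβ m => D3_large_of C2_xa C2_xb hn hp2 hp q α β hα hβ m)

theorem H4_offdiag {p : ℕ} [Fact p.Prime] (hp : 100 ≤ p) (α β : ℚ) (hα : padicNorm p α ≤ 1)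
    (hβ : padicNorm p β ≤ 1) (r s l l' : ℕ) (hr1 : 1 ≤ r) (hr2 : r ≤ p) (hs1 : 1 ≤ s) (hs2 : s ≤ p)
    (hrs : r ≠ s) (hl : l < 14) (hl' : l' < 7) :
    padicNorm p ((p : ℚ) ^ (-(l : ℤ) - (l' : ℤ)) * AL p α
      (((X + C (r : ℚ)) ^ l * OT p r 14) * ((X + C (s : ℚ)) ^ l' * OT p s 7))) ≤ (p : ℚ)⁻¹ ∧
    padicNorm p ((p : ℚ) ^ (-(l : ℤ) - (l' : ℤ) - 2) * BL p β
      (((X + C (r : ℚ)) ^ l * OT p r 14) * ((X + C (s : ℚ)) ^ l' * OT p s 7))) ≤ (p : ℚ)⁻¹ :=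
  H4_offdiag_of (fun E _ hk A hA hE i => C1_pa (by omega) (by nlinarith) E hk A hA hE i)
    (fun {k} _ => H3.eL_val k) hp α β hα hβ r s l l' hr1 hr2 hs1 hs2 hrs hl hl'

theorem H6_nonvanish (α β : ℚ) : ∃ p0 : ℕ, ∀ p : ℕ, p0 ≤ p → p.Prime → DD p α β ≠ 0 :=
  H6_of @H3_diag @H4_offdiag H5_local α β

/-- `ζ(3)` is not in `ℚ + ℚ ζ(2)` -/
theorem Z1_main (α β : ℚ) : zr 3 ≠ (α : ℝ) + β * zr 2 := by
  intro h
  -- common denominator
  obtain ⟨q, hq, hα, hβ⟩ : ∃ q : ℕ, 1 ≤ q ∧ QI q α ∧ QI q β := by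
    have h0 : 0 < α.den * β.den := Nat.mul_pos α.pos β.pos
    refine ⟨α.den * β.den, h0, ⟨h0, β.den * α.num, ?_⟩, ⟨h0, α.den * β.num, ?_⟩⟩
    · have := Rat.den_mul_eq_num α
      push_cast
      rw [mul_comm (α.den : ℚ) (β.den : ℚ), mul_assoc, this]
    · have := Rat.den_mul_eq_num β
      push_cast
      rw [mul_assoc, this]
  obtain ⟨p0, hp0⟩ := H6_nonvanish α β
  have hP := P_main (1 / 10) (by norm_num) q α β hα hβ
  have hA := A_main α β h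
  have hq0 : (0 : ℝ) < q := by exact_mod_cast hq
  -- the power of q
  have hQ : ∀ᶠ n : ℕ in atTop, 14 * (n : ℝ) * Real.log q < (n : ℝ) ^ 2 := by
    have h1 : ∀ᶠ n : ℕ in atTop, 14 * Real.log q < (n : ℝ) :=
      (tendsto_natCast_atTop_atTop (R := ℝ)).eventually_gt_atTop _
    filter_upwards [h1, eventually_ge_atTop 1] with n h2 h3
    have h4 : (1 : ℝ) ≤ n := by exact_mod_cast h3
    nlinarith
  obtain ⟨N, hN⟩ := eventually_atTop.1 ((hP.and hA).and (hQ.and (eventually_ge_atTop 1)))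
  obtain ⟨n, hn, hnp⟩ := Nat.exists_infinite_primes (max N p0)
  have hnN : N ≤ n := (le_max_left _ _).trans hn
  obtain ⟨⟨h1, h2⟩, h3, h4⟩ := hN n hnN
  have hne := hp0 n ((le_max_right _ _).trans hn) hnp
  have h1' := h1 hne
  have h2' := h2 hne
  set z : ℚ := (q : ℚ) ^ (14 * n) * DD n α β with hz
  have hqq : (q : ℚ) ≠ 0 := by exact_mod_cast (Nat.one_le_iff_ne_zero.1 hq)
  have hz0 : z ≠ 0 := mul_ne_zero (pow_ne_zero _ hqq) hne
  have hS : ∀ p ∈ (Finset.range (14 * n + 1)).filter Nat.Prime, p.Prime := fun p hp =>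
    (Finset.mem_filter.1 hp).2
  have hprod := Pool.Agent.H336R2.HD.A5_prod_formula z hz0 ((Finset.range (14 * n + 1)).filter Nat.Prime) hS
    (fun p => ((padicNorm p z : ℚ) : ℝ)) (fun p _ => le_rfl) (fun p hp hpS => by
      apply P_large q α β hα hβ n h4 p hp
      by_contra hlt
      apply hpS
      rw [Finset.mem_filter, Finset.mem_range]
      exact ⟨by omega, hp⟩)
  have hpos : ∀ p ∈ (Finset.range (14 * n + 1)).filter Nat.Prime, ((padicNorm p z : ℚ) : ℝ) ≠ 0 :=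
    fun p hp => (PM_z_pos p (hS p hp) z hz0).ne'
  have hDpos : 0 < |((DD n α β : ℚ) : ℝ)| := abs_pos.2 (by exact_mod_cast hne)
  have habs : |(z : ℝ)| = (q : ℝ) ^ (14 * n) * |((DD n α β : ℚ) : ℝ)| := by
    rw [hz]
    push_cast
    rw [abs_mul, abs_of_pos (pow_pos hq0 _)]
  have hlog := Real.log_nonneg hprod
  rw [habs, Real.log_mul (mul_pos (pow_pos hq0 _) hDpos).ne' (Finset.prod_ne_zero_iff.2 hpos),
    Real.log_mul (pow_pos hq0 _).ne' hDpos.ne', Real.log_pow, Real.log_prod (fun p hp => hpos p hp)] at hlog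
  push_cast at hlog
  have hn1 : (1 : ℝ) ≤ n := by exact_mod_cast h4
  have hn2 : (1 : ℝ) ≤ (n : ℝ) ^ 2 := by nlinarith
  nlinarith [hlog, h1', h2', h3, hn2]

/-- **`1, ζ(2), ζ(3)` are linearly independent over `ℚ`** -/
theorem Z3_linind : LinearIndependent ℚ ![(1 : ℝ), zr 2, zr 3] := Z3_of Z1_main

end

end Pool.Agent.LZ
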