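import Pool.Agent.H337R2.LZ.Defs
import Pool.Agent.H447R2.MZ.Dich

set_option autoImplicit false

/-! # Task Z4: directness of `Z_0 + Z_1 + Z_2 + Z_3` from the linear independence of
`1, ζ(2), ζ(3)` (with Euler's relation `ζ(2,1) = ζ(3)`). -/

open Filter Topology

namespace Pool.Agent.LZ.Z4

open Pool.Agent.H447R2.MZ

/-- harmonic numbers -/
noncomputable def hh (n : ℕ) : ℝ := ∑ i ∈ Finset.range n, ((i : ℝ) + 1)⁻¹

theorem hh_nonneg (n : ℕ) : 0 ≤ hh n := Finset.sum_nonneg fun i _ => by positivity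

theorem hh_succ (n : ℕ) : hh (n + 1) = hh n + ((n : ℝ) + 1)⁻¹ := Finset.sum_range_succ _ _

theorem H_one (n : ℕ) : H [1] n = hh n := by
  rw [H_cons, hh]
  refine Finset.sum_congr rfl fun i _ => ?_
  rw [H_nil, mul_one, pow_one]
  push_cast
  rfl

theorem adm21 : Adm [2, 1] := by
  refine ⟨?_, ?_⟩
  · intro a ha
    simp at ha
    omega
  · intro a t h
    simp only [List.cons.injEq] at h
    omega

/-- `ζ(2,1)` as a series of harmonic numbers -/
theorem hasSum_21 : HasSum (fun n : ℕ => hh n * (((n : ℝ) + 1) ^ 2)⁻¹) (val [2, 1]) := by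
  rw [hasSum_iff_tendsto_nat_of_nonneg (fun n => mul_nonneg (hh_nonneg n) (by positivity))]
  refine (tendsto_H [2, 1] adm21).congr fun N => ?_
  rw [H_cons]
  refine Finset.sum_congr rfl fun n _ => ?_
  rw [H_one, mul_comm]
  push_cast
  rfl

theorem tele_one (k : ℕ) : HasSum (fun m : ℕ => ((m : ℝ) + 1 + k)⁻¹ - ((m : ℝ) + 1 + (k + 1))⁻¹)
    (((k : ℝ) + 1)⁻¹) := by
  rw [hasSum_iff_tendsto_nat_of_nonneg]
  · have h1 : ∀ M : ℕ, ∑ m ∈ Finset.range M, (((m : ℝ) + 1 + k)⁻¹ - ((m : ℝ) + 1 + (k + 1))⁻¹) =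
        ((k : ℝ) + 1)⁻¹ - ((M : ℝ) + 1 + k)⁻¹ := by
      intro M
      induction M with
      | zero =>
        rw [Finset.sum_range_zero, Nat.cast_zero, zero_add, add_comm (1 : ℝ) (k : ℝ), sub_self]
      | succ M ih =>
        rw [Finset.sum_range_succ, ih]
        push_cast
        ring_nf
    simp only [h1]
    have h2 : Tendsto (fun M : ℕ => ((M : ℝ) + 1 + k)⁻¹) atTop (𝓝 0) := by
      apply Tendsto.inv_tendsto_atTop
      have := tendsto_natCast_atTop_atTop (R := ℝ)
      exact tendsto_atTop_add_const_right _ _ (tendsto_atTop_add_const_right _ _ this)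
    simpa using (tendsto_const_nhds (x := ((k : ℝ) + 1)⁻¹)).sub h2
  · intro m
    rw [sub_nonneg]
    apply inv_anti₀ (by positivity)
    linarith

theorem tele (k : ℕ) : HasSum (fun m : ℕ => ((m : ℝ) + 1)⁻¹ - ((m : ℝ) + 1 + k)⁻¹) (hh k) := by
  induction k with
  | zero =>
    have : (fun m : ℕ => ((m : ℝ) + 1)⁻¹ - ((m : ℝ) + 1 + ((0 : ℕ) : ℝ))⁻¹) = fun _ => 0 := by
      funext m
      simp
    rw [this]
    simpa [hh] using (hasSum_zero (α := ℝ) (β := ℕ))
  | succ k ih =>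
    rw [hh_succ]
    refine (ih.add (tele_one k)).congr_fun fun m => ?_
    push_cast
    ring

/-- `1/((m+1)(n+1)(m+n+2))` -/
noncomputable def ff (m n : ℕ) : ℝ := (((m : ℝ) + 1) * ((n : ℝ) + 1) * ((m : ℝ) + n + 2))⁻¹

/-- `1/((m+1)(m+n+2)²)` -/
noncomputable def gg (m n : ℕ) : ℝ := (((m : ℝ) + 1) * ((m : ℝ) + n + 2) ^ 2)⁻¹

theorem ff_nonneg (m n : ℕ) : 0 ≤ ff m n := by unfold ff; positivity
theorem gg_nonneg (m n : ℕ) : 0 ≤ gg m n := by unfold gg; positivity

theorem ff_eq (m n : ℕ) : ff m n = gg m n + gg n m := by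
  unfold ff gg
  have h1 : (m : ℝ) + 1 ≠ 0 := by positivity
  have h2 : (n : ℝ) + 1 ≠ 0 := by positivity
  have h3 : (m : ℝ) + n + 2 ≠ 0 := by positivity
  have h4 : (n : ℝ) + m + 2 ≠ 0 := by positivity
  field_simp
  ring

theorem hasSum_ff (n : ℕ) : HasSum (fun m => ff m n) (hh (n + 1) * (((n : ℝ) + 1) ^ 2)⁻¹) := by
  have h := (tele (n + 1)).mul_right ((((n : ℝ) + 1) ^ 2)⁻¹)
  refine h.congr_fun fun m => ?_
  unfold ff
  have h1 : (m : ℝ) + 1 ≠ 0 := by positivity
  have h2 : (n : ℝ) + 1 ≠ 0 := by positivity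
  have h3 : (m : ℝ) + n + 2 ≠ 0 := by positivity
  have h4 : (m : ℝ) + 1 + ((n + 1 : ℕ) : ℝ) ≠ 0 := by positivity
  push_cast at h4 ⊢
  field_simp
  ring

open ENNReal in
theorem tsum_gg : ∑' m : ℕ, ∑' n : ℕ, ENNReal.ofReal (gg m n) = ENNReal.ofReal (val [2, 1]) := by
  rw [← hasSum_21.tsum_eq, ENNReal.ofReal_tsum_of_nonneg
    (fun n => mul_nonneg (hh_nonneg n) (by positivity)) hasSum_21.summable]
  have h1 : ∀ N : ℕ, ENNReal.ofReal (hh N * (((N : ℝ) + 1) ^ 2)⁻¹) =
      ∑' m : ℕ, if m < N then ENNReal.ofReal ((((m : ℝ) + 1) * ((N : ℝ) + 1) ^ 2)⁻¹) else 0 := by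
    intro N
    rw [tsum_eq_sum (s := Finset.range N)]
    · rw [hh, Finset.sum_mul, ENNReal.ofReal_sum_of_nonneg (fun i _ => by positivity)]
      refine Finset.sum_congr rfl fun i hi => ?_
      rw [if_pos (Finset.mem_range.1 hi), mul_inv]
    · intro m hm
      rw [if_neg (fun h => hm (Finset.mem_range.2 h))]
  simp only [h1]
  conv_rhs => rw [ENNReal.tsum_comm]
  refine tsum_congr fun m => ?_
  have h2 := Summable.sum_add_tsum_nat_add' (f := fun N : ℕ => if m < N then
    ENNReal.ofReal ((((m : ℝ) + 1) * ((N : ℝ) + 1) ^ 2)⁻¹) else 0) (k := m + 1) ENNReal.summable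
  rw [← h2, Finset.sum_eq_zero, zero_add]
  · refine tsum_congr fun n => ?_
    rw [if_pos (by omega)]
    unfold gg
    push_cast
    congr 2
    ring
  · intro i hi
    rw [if_neg]
    have := Finset.mem_range.1 hi
    omega

theorem euler : val [2, 1] = val [3] := by
  have h3 : HasSum (fun n : ℕ => hh (n + 1) * (((n : ℝ) + 1) ^ 2)⁻¹) (val [2, 1] + val [3]) := by
    refine (hasSum_21.add (val_single 3 (by norm_num))).congr_fun fun n => ?_
    rw [hh_succ]
    have h2 : (n : ℝ) + 1 ≠ 0 := by positivity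
    field_simp
  have e1 : ∑' n : ℕ, ∑' m : ℕ, ENNReal.ofReal (ff m n) =
      ENNReal.ofReal (val [2, 1] + val [3]) := by
    rw [← h3.tsum_eq, ENNReal.ofReal_tsum_of_nonneg
      (fun n => mul_nonneg (hh_nonneg _) (by positivity)) h3.summable]
    refine tsum_congr fun n => ?_
    rw [← (hasSum_ff n).tsum_eq, ENNReal.ofReal_tsum_of_nonneg (fun m => ff_nonneg m n)
      (hasSum_ff n).summable]
  have e2 : ∑' n : ℕ, ∑' m : ℕ, ENNReal.ofReal (ff m n) =
      ENNReal.ofReal (val [2, 1]) + ENNReal.ofReal (val [2, 1]) := by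
    simp only [ff_eq, ENNReal.ofReal_add (gg_nonneg _ _) (gg_nonneg _ _), ENNReal.tsum_add]
    rw [ENNReal.tsum_comm (f := fun n m => ENNReal.ofReal (gg m n)), tsum_gg]
  have hv : 0 ≤ val [2, 1] := hasSum_21.nonneg fun n => mul_nonneg (hh_nonneg n) (by positivity)
  have hv3 : 0 ≤ val [3] := (val_single 3 (by norm_num)).nonneg fun n => by positivity
  rw [e1, ← ENNReal.ofReal_add hv hv,
    ENNReal.ofReal_eq_ofReal_iff (add_nonneg hv hv3) (add_nonneg hv hv)] at e2
  linarith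

theorem Zs_three {x : ℝ} (hx : x ∈ Zs 3) : ∃ q : ℚ, x = q * z3 := by
  have hz3 : val [3] = z3 := (val_single 3 (by norm_num)).tsum_eq.symm
  rw [Zs_eq] at hx
  induction hx using Submodule.span_induction with
  | mem x hx =>
    obtain ⟨s, hs, h0, rfl⟩ := hx
    have hs2 : s = [3] ∨ s = [2, 1] := by
      rcases s with _ | ⟨a, s⟩
      · simp at h0
      · have h1 := hs.2 a s rfl
        simp only [List.sum_cons] at h0
        rcases s with _ | ⟨b, s⟩
        · left
          simp only [List.sum_nil, add_zero] at h0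
          rw [h0]
        · right
          have hb := hs.1 b (by simp)
          simp only [List.sum_cons] at h0
          rcases s with _ | ⟨c, s⟩
          · simp only [List.sum_nil, add_zero] at h0
            have ha : a = 2 := by omega
            have hb1 : b = 1 := by omega
            rw [ha, hb1]
          · have := hs.1 c (by simp)
            simp only [List.sum_cons] at h0
            omega
    rcases hs2 with rfl | rfl
    · exact ⟨1, by rw [hz3]; simp⟩
    · exact ⟨1, by rw [euler, hz3]; simp⟩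
  | zero => exact ⟨0, by simp⟩
  | add x y _ _ hx hy =>
    obtain ⟨p, rfl⟩ := hx
    obtain ⟨q, rfl⟩ := hy
    exact ⟨p + q, by push_cast; ring⟩
  | smul a x _ hx =>
    obtain ⟨q, rfl⟩ := hx
    exact ⟨a * q, by rw [Rat.smul_def]; push_cast; ring⟩

/-- Directness up to weight 3 -/
theorem direct_three
    (h : LinearIndependent ℚ ![(1 : ℝ), Pool.Agent.H337R2.zr 2, Pool.Agent.H337R2.zr 3]) :
    Direct 3 := by
  intro z hz hs
  obtain ⟨q0, h0⟩ := Zs_zero (hz 0 (by norm_num))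
  have h1 := Zs_one (hz 1 (by norm_num))
  obtain ⟨q2, h2⟩ := Zs_two (hz 2 (by norm_num))
  obtain ⟨q3, h3⟩ := Zs_three (hz 3 (by norm_num))
  have hpi : Real.pi ^ 2 = 6 * Pool.Agent.H337R2.zr 2 := by
    have e : Pool.Agent.H337R2.zr 2 = Real.pi ^ 2 / 6 := zeta_two
    rw [e]
    ring
  have hz3 : z3 = Pool.Agent.H337R2.zr 3 := rfl
  rw [Fintype.linearIndependent_iff] at h
  have hsum : q0 • (1 : ℝ) + (6 * q2) • Pool.Agent.H337R2.zr 2 +
      q3 • Pool.Agent.H337R2.zr 3 = 0 := by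
    simp only [Finset.sum_range_succ, Finset.sum_range_zero, h0, h1, h2, h3, hpi, hz3] at hs
    rw [Rat.smul_def, Rat.smul_def, Rat.smul_def]
    push_cast
    linarith
  have h4 := h ![q0, 6 * q2, q3] (by
    simp only [Fin.sum_univ_three, Matrix.cons_val_zero, Matrix.cons_val_one,
      Matrix.cons_val_two, Matrix.cons_val]
    exact hsum)
  have g0 : q0 = 0 := by simpa using h4 0
  have g2 : q2 = 0 := by
    have : 6 * q2 = 0 := by simpa using h4 1
    linarith
  have g3 : q3 = 0 := by simpa using h4 2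
  intro j hj
  interval_cases j
  · rw [h0, g0, Rat.cast_zero]
  · exact h1
  · rw [h2, g2, Rat.cast_zero, zero_mul]
  · rw [h3, g3, Rat.cast_zero, zero_mul]

/-- Directness up to weight `p ≤ 3`, in the words of the frozen statement S11609 (which asks
for all `p`). -/
theorem Z4_direct
    (h : LinearIndependent ℚ ![(1 : ℝ), Pool.Agent.H337R2.zr 2, Pool.Agent.H337R2.zr 3]) :
    ∀ p : ℕ, p ≤ 3 → ∀ z : ℕ → ℝ,
      (∀ j ≤ p, z j ∈ Submodule.span ℚ
        {x : ℝ | ∃ t : ℕ, ∃ k : Fin t → ℕ,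
          (∀ i, 1 ≤ k i) ∧ (∀ h : 0 < t, 2 ≤ k ⟨0, h⟩) ∧ (∑ i, k i) = j ∧
          x = ∑' n : {n : Fin t → ℕ // StrictAnti n ∧ ∀ i, 1 ≤ n i},
                ∏ i, (((n.1 i : ℕ) : ℝ) ^ (k i))⁻¹}) →
      (∑ j ∈ Finset.range (p + 1), z j) = 0 →
      ∀ j ≤ p, z j = 0 := by
  intro p hp z hz hs j hj
  have hz' : ∀ j ≤ p, z j ∈ Zs j := hz
  have hd := direct_three h (fun j => if j ≤ p then z j else 0) (by
    intro j _
    by_cases hjp : j ≤ p
    · simp only [hjp, if_true]
      exact hz' j hjp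
    · simp only [hjp, if_false]
      exact Submodule.zero_mem _) (by
    refine Eq.trans ?_ hs
    rw [← Finset.sum_filter]
    refine Finset.sum_congr ?_ fun _ _ => rfl
    ext i
    simp only [Finset.mem_filter, Finset.mem_range]
    omega) j (hj.trans hp)
  simpa [hj] using hd

end Pool.Agent.LZ.Z4
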